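import Pool.Agent.Lib.N4.Blue

set_option autoImplicit false

open NumberField Ideal Module

namespace Pool.Agent.Lib.N4

namespace C2

variable {R : Type} [Field R] [NumberField R]

lemma poly (h : finrank ℚ R = 3) (δ : 𝓞 R) : ∃ a b c : ℤ, ∀ t : ℤ,
    Algebra.norm ℤ (δ + t) = t ^ 3 + a * t ^ 2 + b * t + c := by
  let B : Basis (Fin 3) ℤ (𝓞 R) := finBasisOfFinrankEq ℤ (𝓞 R) ((RingOfIntegers.rank R).trans h)
  set M := Algebra.leftMulMatrix B δ with hM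
  refine ⟨M 0 0 + M 1 1 + M 2 2, M 0 0 * M 1 1 + M 0 0 * M 2 2 + M 1 1 * M 2 2 - M 0 1 * M 1 0 -
    M 0 2 * M 2 0 - M 1 2 * M 2 1, M.det, fun t => ?_⟩
  rw [Algebra.norm_eq_matrix_det B, map_add, map_intCast, ← hM, Matrix.det_fin_three,
    Matrix.det_fin_three]
  simp [Matrix.intCast_apply]
  ring

lemma norm_le (h : finrank ℚ R = 3) (δ : 𝓞 R) {T : ℝ} (hT : ∀ σ : R →+* ℂ, ‖σ δ‖ ≤ T) :
    ((Algebra.norm ℤ δ : ℤ) : ℝ) ≤ T ^ 3 := by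
  have h1 := Algebra.norm_eq_prod_embeddings ℚ ℂ (δ : R)
  rw [← Algebra.coe_norm_int] at h1
  have h2 : ‖((Algebra.norm ℤ δ : ℤ) : ℂ)‖ = ∏ σ : R →ₐ[ℚ] ℂ, ‖σ δ‖ := by
    rw [← norm_prod, ← h1]; simp
  rw [Complex.norm_intCast] at h2
  refine (le_abs_self _).trans (h2.trans_le ?_)
  refine (Finset.prod_le_prod (fun σ _ => norm_nonneg _) fun σ _ => hT σ.toRingHom).trans ?_
  rw [Finset.prod_const, Finset.card_univ, AlgHom.card ℚ R ℂ, h]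

end C2

open C2 in
theorem blk_C2 (hS : StSqv) (ha : StC2a) (hb : StC2b) : StC2 := by
  classical
  obtain ⟨C₁, hC₁, hS⟩ := hS
  obtain ⟨A, hA, ha⟩ := ha
  obtain ⟨C₂, hC₂, hb⟩ := hb A hA
  refine ⟨2 * (C₂ * (C₁ * (2 * A) ^ (3 / 4 : ℝ))), by positivity, fun R _ _ hR => ?_⟩
  obtain ⟨S, hS1, hS2⟩ := ha R hR
  have hD := one_le_dn (K := R)
  have hDp := dn_pos (K := R)
  have h3 : 1 ≤ dn R ^ (1 / 3 : ℝ) := Real.one_le_rpow hD (by norm_num)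
  have hT : 1 ≤ A * dn R ^ (1 / 3 : ℝ) := one_le_mul_of_one_le_of_one_le hA h3
  let π : 𝓞 R → 𝓞 R ⧸ AddSubgroup.zmultiples (1 : 𝓞 R) := QuotientAddGroup.mk
  have hπ : ∀ δ δ' : 𝓞 R, π δ' = π δ ↔ ∃ t : ℤ, δ = δ' + t := fun δ δ' => by
    rw [QuotientAddGroup.eq, AddSubgroup.mem_zmultiples_iff]
    refine exists_congr fun t => ?_
    rw [zsmul_one, eq_neg_add_iff_add_eq, eq_comm]
  obtain ⟨S₀, h1, h2, h4⟩ := Finset.exists_subset_injOn_image_eq_of_surjOn (f := π) (S : Set (𝓞 R))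
    (S.image π) (by rw [Finset.coe_image]; exact Set.surjOn_image _ _)
  have h5 := hb R hR S₀ (fun δ hδ => (hS2 δ (h1 hδ)).2) fun δ hδ δ' hδ' hne t ht =>
    hne (h2 hδ' hδ ((hπ _ _).2 ⟨t, ht⟩)).symm
  have h6 : ∀ δ₀ ∈ S₀, ((S.filter fun δ => ∃ t : ℤ, δ = δ₀ + t).card : ℝ) ≤
      C₁ * (2 * (A * dn R ^ (1 / 3 : ℝ))) ^ (3 / 4 : ℝ) := fun δ₀ hδ₀ => by
    obtain ⟨a, b, c, habc⟩ := poly hR δ₀
    have hinj : Function.Injective fun t : ℤ => δ₀ + t := fun t t' h =>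
      Int.cast_injective (add_left_cancel h)
    refine le_trans ?_ (hS a b c _ (by linarith) (S.preimage _ hinj.injOn) fun t ht => ?_)
    · refine Nat.cast_le.2 (le_trans (Finset.card_le_card fun δ hδ => ?_)
        (Finset.card_image_le (f := fun t : ℤ => δ₀ + t)))
      obtain ⟨h7, t, rfl⟩ := Finset.mem_filter.1 hδ
      exact Finset.mem_image.2 ⟨t, Finset.mem_preimage.2 h7, rfl⟩
    · obtain ⟨⟨y, hy⟩, h7⟩ := hS2 _ (Finset.mem_preimage.1 ht)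
      refine ⟨?_, y, by rw [← habc, hy, sq], ?_⟩
      · obtain ⟨σ⟩ : Nonempty (R →+* ℂ) := inferInstance
        have h8 := norm_sub_le (σ (δ₀ + t : 𝓞 R)) (σ δ₀)
        have h9 : σ (δ₀ + t : 𝓞 R) - σ δ₀ = t := by simp
        rw [h9, Complex.norm_intCast] at h8
        linarith [h7 σ, (hS2 _ (h1 hδ₀)).2 σ]
      · have h8 := norm_le hR _ h7
        rw [hy] at h8
        push_cast at h8
        rw [sq]
        exact h8.trans (pow_le_pow_left₀ (by linarith) (by linarith) 3)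
  have h7 : S ⊆ S₀.biUnion fun δ₀ => S.filter fun δ => ∃ t : ℤ, δ = δ₀ + t := fun δ hδ => by
    have := Finset.mem_image_of_mem π hδ
    rw [← h4] at this
    obtain ⟨δ₀, h8, h9⟩ := Finset.mem_image.1 this
    exact Finset.mem_biUnion.2 ⟨δ₀, h8, Finset.mem_filter.2 ⟨hδ, (hπ _ _).1 h9⟩⟩
  have h8 : (S.card : ℝ) ≤ S₀.card * (C₁ * (2 * (A * dn R ^ (1 / 3 : ℝ))) ^ (3 / 4 : ℝ)) := by
    refine (Nat.cast_le.2 ((Finset.card_le_card h7).trans Finset.card_biUnion_le)).trans ?_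
    rw [Nat.cast_sum, ← nsmul_eq_mul]
    exact Finset.sum_le_card_nsmul _ _ _ h6
  have h9 : dn R ^ (5 / 12 : ℝ) = dn R ^ (1 / 6 : ℝ) * (dn R ^ (1 / 3 : ℝ)) ^ (3 / 4 : ℝ) := by
    rw [← Real.rpow_mul hDp.le, ← Real.rpow_add hDp]; norm_num
  calc (tor 2 R : ℝ) ≤ 2 * S.card := by exact_mod_cast hS1
    _ ≤ 2 * (C₂ * dn R ^ (1 / 6 : ℝ) * (C₁ * (2 * (A * dn R ^ (1 / 3 : ℝ))) ^ (3 / 4 : ℝ))) := by
        gcongr
        exact h8.trans (by gcongr)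
    _ = _ := by
        rw [h9, ← mul_assoc 2 A, Real.mul_rpow (by linarith) (by linarith)]; ring

end Pool.Agent.Lib.N4
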