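import Pool.Agent.Lib.N4.Blue

set_option autoImplicit false

open NumberField Ideal Module MeasureTheory
open scoped nonZeroDivisors NNReal ENNReal

namespace Pool.Agent.Lib.N4

namespace C2A

variable {R : Type} [Field R] [NumberField R]

theorem cube_six : (dn R ^ (1 / 6 : ℝ)) ^ 3 = √(dn R) := by
  rw [← Real.rpow_natCast, ← Real.rpow_mul dn_pos.le, Real.sqrt_eq_rpow]
  norm_num

theorem sq_six : (dn R ^ (1 / 6 : ℝ)) ^ 2 = dn R ^ (1 / 3 : ℝ) := by
  rw [← Real.rpow_natCast, ← Real.rpow_mul dn_pos.le]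
  norm_num

theorem prod_sqrt {I : Ideal (𝓞 R)} {γ : 𝓞 R} (h : I ^ 2 = span {γ}) :
    ∏ w : InfinitePlace R, √(w γ) ^ w.mult = (absNorm I : ℝ) := by
  refine (pow_left_inj₀ (Finset.prod_nonneg fun w _ => by positivity) (by positivity)
    two_ne_zero).1 ?_
  rw [← Finset.prod_pow]
  have h1 : ∀ w : InfinitePlace R, (√(w γ) ^ w.mult) ^ 2 = w γ ^ w.mult := fun w => by
    rw [← pow_mul, mul_comm, pow_mul, Real.sq_sqrt (apply_nonneg w _)]
  simp only [h1]
  rw [InfinitePlace.prod_eq_abs_norm, ← Algebra.coe_norm_int, ← Nat.cast_pow, ← map_pow, h,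
    absNorm_span_singleton, Nat.cast_natAbs]
  simp

theorem mink (hR : finrank ℚ R = 3) {I : Ideal (𝓞 R)} (hI : I ≠ ⊥) {γ : 𝓞 R}
    (h : I ^ 2 = span {γ}) : ∃ α ∈ I, α ≠ 0 ∧
      ∀ w : InfinitePlace R, w α ^ 2 ≤ 9 * dn R ^ (1 / 3 : ℝ) * w γ := by
  classical
  have hd : 0 < dn R ^ (1 / 6 : ℝ) := Real.rpow_pos_of_pos dn_pos _
  let f : InfinitePlace R → ℝ≥0 := fun w => ⟨3 * dn R ^ (1 / 6 : ℝ) * √(w γ), by positivity⟩
  let I0 : (Ideal (𝓞 R))⁰ := ⟨I, mem_nonZeroDivisors_of_ne_zero hI⟩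
  have hN : (0 : ℝ) < absNorm I := by
    exact_mod_cast Nat.pos_of_ne_zero (absNorm_eq_zero_iff.not.2 hI)
  have hs : 0 < √(dn R) := Real.sqrt_pos.2 dn_pos
  have hprod : ((∏ w, f w ^ w.mult : ℝ≥0) : ℝ) = 27 * √(dn R) * absNorm I := by
    push_cast
    change ∏ w : InfinitePlace R, (3 * dn R ^ (1 / 6 : ℝ) * √(w γ)) ^ w.mult = _
    simp only [mul_pow (3 * dn R ^ (1 / 6 : ℝ))]
    rw [Finset.prod_mul_distrib, prod_sqrt h, Finset.prod_pow_eq_pow_sum,
      InfinitePlace.sum_mult_eq, hR, mul_pow, cube_six]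
    norm_num
  have hlt : mixedEmbedding.minkowskiBound R (FractionalIdeal.mk0 R I0) <
      volume (mixedEmbedding.convexBodyLT R f) := by
    rw [mixedEmbedding.convexBodyLT_volume, ← ENNReal.toReal_lt_toReal
      (mixedEmbedding.minkowskiBound_lt_top R _).ne (by finiteness), mixedEmbedding.minkowskiBound,
      mixedEmbedding.volume_fundamentalDomain_fractionalIdealLatticeBasis,
      mixedEmbedding.volume_fundamentalDomain_latticeBasis, mixedEmbedding.finrank, hR,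
      FractionalIdeal.coe_mk0, FractionalIdeal.coeIdeal_absNorm]
    simp only [ENNReal.toReal_mul, ENNReal.toReal_pow, ENNReal.toReal_inv, ENNReal.toReal_ofNat,
      ENNReal.coe_toReal, Rat.cast_natCast, ENNReal.ofReal_natCast, ENNReal.toReal_natCast,
      Real.coe_sqrt, coe_nnnorm, Int.norm_eq_abs]
    rw [hprod, ← dn_eq_abs]
    have h1 : (1 : ℝ) ≤ mixedEmbedding.convexBodyLTFactor R := by
      exact_mod_cast mixedEmbedding.one_le_convexBodyLTFactor R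
    have h2 : ((2 : ℝ)⁻¹) ^ InfinitePlace.nrComplexPlaces R ≤ 1 :=
      pow_le_one₀ (by norm_num) (by norm_num)
    have h3 := mul_pos hs hN
    change (absNorm I : ℝ) * _ * _ < _
    nlinarith
  obtain ⟨a, ha, ha0, hb⟩ := mixedEmbedding.exists_ne_zero_mem_ideal_lt R _ hlt
  rw [FractionalIdeal.coe_mk0, FractionalIdeal.mem_coeIdeal] at ha
  obtain ⟨α, hα, rfl⟩ := ha
  refine ⟨α, hα, fun h0 => ha0 (by rw [h0, map_zero]), fun w => ?_⟩
  have h1 : w α ≤ 3 * dn R ^ (1 / 6 : ℝ) * √(w γ) := (hb w).le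
  have h2 := pow_le_pow_left₀ (apply_nonneg w _) h1 2
  rw [mul_pow, mul_pow, sq_six, Real.sq_sqrt (apply_nonneg w _)] at h2
  linarith

theorem gen (hR : finrank ℚ R = 3) (c : ClassGroup (𝓞 R)) (hc : c ^ 2 = 1) :
    ∃ δ : 𝓞 R, (IsSquare (Algebra.norm ℤ δ) ∧ ∀ σ : R →+* ℂ, ‖σ δ‖ ≤ 9 * dn R ^ (1 / 3 : ℝ)) ∧
      ∃ J : Ideal (𝓞 R), span {δ} = J ^ 2 ∧ c * cl J = 1 := by
  obtain ⟨I, hI, rfl⟩ := cl_surj c
  rw [← cl_pow, cl_eq_one_iff] at hc
  obtain ⟨γ, hγ⟩ := hc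
  change I ^ 2 = span {γ} at hγ
  have hγ0 : γ ≠ 0 := by
    rintro rfl
    exact pow_ne_zero 2 hI (by rw [hγ]; simp)
  obtain ⟨α, hα, hα0, hb⟩ := mink hR hI hγ
  obtain ⟨J, hJ⟩ : I ∣ span {α} := dvd_iff_le.2 ((span_singleton_le_iff_mem _).2 hα)
  have hJ0 : J ≠ ⊥ := by
    rintro rfl
    rw [mul_bot, span_singleton_eq_bot] at hJ
    exact hα0 hJ
  have h2 : span {α ^ 2} = span {γ} * J ^ 2 := by
    rw [← span_singleton_pow, hJ, mul_pow, hγ]
  obtain ⟨δ, hδ⟩ : γ ∣ α ^ 2 := by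
    rw [← span_singleton_le_span_singleton, h2]
    exact Ideal.mul_le_left
  have h3 : span {δ} = J ^ 2 := by
    rw [hδ, ← span_singleton_mul_span_singleton] at h2
    exact mul_left_cancel₀ (span_singleton_eq_bot.not.2 hγ0) h2
  have hcl : cl I * cl J = 1 := by rw [← cl_mul hI hJ0, ← hJ, cl_span]
  have hbd : ∀ σ : R →+* ℂ, ‖σ δ‖ ≤ 9 * dn R ^ (1 / 3 : ℝ) := by
    intro σ
    have h4 := hb (InfinitePlace.mk σ)
    have h5 : (α : R) ^ 2 = γ * δ := by exact_mod_cast congrArg (fun x : 𝓞 R => (x : R)) hδ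
    rw [← map_pow, h5, map_mul, InfinitePlace.apply σ δ, mul_comm] at h4
    have h6 : 0 < InfinitePlace.mk σ (γ : R) :=
      InfinitePlace.pos_iff.2 (RingOfIntegers.coe_ne_zero_iff.2 hγ0)
    exact le_of_mul_le_mul_right h4 h6
  have hn : (Algebra.norm ℤ δ).natAbs = absNorm J ^ 2 := by
    rw [← absNorm_span_singleton, h3, map_pow]
  rcases Int.natAbs_eq (Algebra.norm ℤ δ) with h4 | h4
  · exact ⟨δ, ⟨⟨absNorm J, by rw [h4, hn]; push_cast; ring⟩, hbd⟩, J, h3, hcl⟩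
  · refine ⟨-δ, ⟨⟨absNorm J, ?_⟩, fun σ => ?_⟩, J, by rw [span_singleton_neg, h3], hcl⟩
    · have h5 : Algebra.norm ℤ (-1 : 𝓞 R) = -1 := by
        have := Algebra.norm_algebraMap (R := ℤ) (S := 𝓞 R) (-1)
        rw [RingOfIntegers.rank, hR] at this
        simpa using this
      rw [← neg_one_mul, map_mul, h5, h4, hn]
      push_cast
      ring
    · have := hbd σ
      simpa using this

end C2A

theorem blk_C2A : StC2a := by
  classical
  refine ⟨9, by norm_num, fun R _ _ hR => ?_⟩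
  choose δ hδ J hJ using fun c : {c : ClassGroup (𝓞 R) // c ^ 2 = 1} => C2A.gen hR c.1 c.2
  have hinj : Function.Injective δ := by
    intro c c' h
    have h1 : J c = J c' := pow_left_injective two_ne_zero
      (show J c ^ 2 = J c' ^ 2 by rw [← (hJ c).1, ← (hJ c').1, h])
    refine Subtype.ext (mul_right_cancel (b := cl (J c)) ?_)
    rw [(hJ c).2, h1, (hJ c').2]
  have := Fintype.ofFinite {c : ClassGroup (𝓞 R) // c ^ 2 = 1}
  refine ⟨Finset.univ.image δ, ?_, fun x hx => ?_⟩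
  · rw [Finset.card_image_of_injective _ hinj, Finset.card_univ, tor, gt, Nat.card_eq_fintype_card]
    omega
  · obtain ⟨c, -, rfl⟩ := Finset.mem_image.1 hx
    exact hδ c

end Pool.Agent.Lib.N4
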