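import Pool.Agent.Lib.N4.Blue

set_option autoImplicit false

open NumberField Ideal Module
open scoped nonZeroDivisors Pointwise

namespace Pool.Agent.Lib.N4

open Pool.Agent.Lib.Stark

namespace C2B

variable {R : Type} [Field R] [NumberField R]

/-- differences of the conjugates -/
noncomputable def sz (e : Fin 3 ≃ (R →+* ℂ)) (x : R) : ℝ :=
  max ‖e 1 x - e 0 x‖ ‖e 2 x - e 0 x‖

noncomputable def dd (e : Fin 3 ≃ (R →+* ℂ)) (x y : R) : ℂ :=
  (e 1 x - e 0 x) * (e 2 y - e 0 y) - (e 2 x - e 0 x) * (e 1 y - e 0 y)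

variable (e : Fin 3 ≃ (R →+* ℂ))

omit [NumberField R] in
lemma sz_nonneg (x : R) : 0 ≤ sz e x := le_max_of_le_left (norm_nonneg _)

omit [NumberField R] in
lemma sz_add (x y : R) : sz e (x + y) ≤ sz e x + sz e y := by
  refine max_le ?_ ?_
  · rw [map_add, map_add, add_sub_add_comm]
    exact (norm_add_le _ _).trans (add_le_add (le_max_left _ _) (le_max_left _ _))
  · rw [map_add, map_add, add_sub_add_comm]
    exact (norm_add_le _ _).trans (add_le_add (le_max_right _ _) (le_max_right _ _))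

lemma sz_smul (t : ℚ) (x : R) : sz e (t • x) = |(t : ℝ)| * sz e x := by
  simp only [sz, Rat.smul_def, map_mul, map_ratCast, ← mul_sub, norm_mul, Complex.norm_ratCast]
  rw [mul_max_of_nonneg _ _ (abs_nonneg _)]

lemma sz_rat (t : ℚ) : sz e (t : R) = 0 := by simp [sz]

omit [NumberField R] in
lemma dd_le (x y : R) : ‖dd e x y‖ ≤ 2 * (sz e x * sz e y) := by
  have h1 : ‖(e 1 x - e 0 x) * (e 2 y - e 0 y)‖ ≤ sz e x * sz e y := by
    rw [norm_mul]
    exact mul_le_mul (le_max_left _ _) (le_max_right _ _) (norm_nonneg _) (sz_nonneg e x)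
  have h2 : ‖(e 2 x - e 0 x) * (e 1 y - e 0 y)‖ ≤ sz e x * sz e y := by
    rw [norm_mul]
    exact mul_le_mul (le_max_right _ _) (le_max_left _ _) (norm_nonneg _) (sz_nonneg e x)
  exact (norm_sub_le _ _).trans (by linarith)

omit [NumberField R] in
lemma dd_sq_le (x : R) : ‖dd e x (x ^ 2)‖ ≤ 2 * sz e x ^ 3 := by
  have e1 : dd e x (x ^ 2) =
      (e 1 x - e 0 x) * (e 2 x - e 0 x) * ((e 2 x - e 0 x) - (e 1 x - e 0 x)) := by
    simp only [dd, map_pow]; ring
  have h0 := sz_nonneg e x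
  have h1 : ‖e 1 x - e 0 x‖ ≤ sz e x := le_max_left _ _
  have h2 : ‖e 2 x - e 0 x‖ ≤ sz e x := le_max_right _ _
  have h3 : ‖(e 2 x - e 0 x) - (e 1 x - e 0 x)‖ ≤ 2 * sz e x :=
    (norm_sub_le _ _).trans (by linarith)
  rw [e1, norm_mul, norm_mul]
  calc _ ≤ sz e x * sz e x * (2 * sz e x) := by gcongr
    _ = _ := by ring

lemma exists_om (hL : StLatD) (h3 : finrank ℚ R = 3) : ∃ (ω : R → R → ℚ) (d : ℂ),
    ‖d‖ = √(dn R) ∧ (∀ x y, (ω x y : ℂ) * d = dd e x y) ∧
    (∀ x y : 𝓞 R, ∃ m : ℤ, ω x y = m) ∧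
    ∀ x y, ω x y = 0 → ∃ c : Fin 3 → ℚ, (c 0 : R) + c 1 * x + c 2 * y = 0 ∧ ∃ i, c i ≠ 0 := by
  obtain ⟨b, ⟨hb1, hb2⟩, hd⟩ := hL.det R 1 one_ne_zero (Fin 3) e
  have hc : Fintype.card (Fin 3) = finrank ℚ R := by rw [h3]; rfl
  let B : Basis (Fin 3) ℚ R := basisOfLinearIndependentOfCardEqFinrank
    ((LinearIndependent.iff_fractionRing ℤ ℚ).1 hb1) hc
  have hB : ⇑B = b := coe_basisOfLinearIndependentOfCardEqFinrank _ _
  refine ⟨fun x y => B.det ![1, x, y], (Matrix.of fun x i => e x (b i)).det, ?_, ?_, ?_, ?_⟩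
  · have h := congrArg norm hd
    rw [FractionalIdeal.absNorm_one, norm_pow] at h
    rw [dn_eq_abs, eq_comm, Real.sqrt_eq_iff_mul_self_eq (abs_nonneg _) (norm_nonneg _), ← sq, h]
    simp
  · intro x y
    have h1 : (Matrix.of fun k i => e k (![1, x, y] i)) =
        (Matrix.of fun x i => e x (b i)) *
          (Rat.castHom ℂ).mapMatrix (B.toMatrix ![1, x, y]) := by
      ext k i
      conv_lhs => rw [Matrix.of_apply, ← B.sum_repr (![1, x, y] i)]
      simp only [map_sum, Rat.smul_def, map_mul, map_ratCast, hB, Matrix.mul_apply,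
        Matrix.of_apply, RingHom.mapMatrix_apply, Matrix.map_apply, Basis.toMatrix_apply,
        Rat.coe_castHom]
      exact Finset.sum_congr rfl fun j _ => mul_comm _ _
    have h2 := congrArg Matrix.det h1
    rw [Matrix.det_mul, ← RingHom.map_det, ← Basis.det_apply, Rat.coe_castHom, mul_comm] at h2
    rw [← h2, Matrix.det_fin_three]
    simp [dd]
    ring
  · intro x y
    have hm : ∀ z : 𝓞 R, ∀ j, ∃ m : ℤ, (m : ℚ) = B.repr z j := fun z j => by
      refine (B.mem_span_iff_repr_mem ℤ (z : R)).1 ?_ j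
      rw [hB, hb2, mem_lat, FractionalIdeal.mem_one_iff]
      exact ⟨z, rfl⟩
    choose f hf using hm
    refine ⟨(Matrix.of fun j i => f (![1, x, y] i) j).det, ?_⟩
    simp only
    rw [Basis.det_apply, ← eq_intCast (Int.castRingHom ℚ), RingHom.map_det]
    congr 1
    ext j i
    rw [Basis.toMatrix_apply, RingHom.mapMatrix_apply, Matrix.map_apply, Matrix.of_apply,
      eq_intCast, hf]
    fin_cases i <;> simp
  · intro x y h
    have h1 : ¬ LinearIndependent ℚ ![1, x, y] := fun hl => by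
      have := B.is_basis_iff_det.1 ⟨hl, hl.span_eq_top_of_card_eq_finrank hc⟩
      exact this.ne_zero h
    obtain ⟨c, hc1, hc2⟩ := Fintype.not_linearIndependent_iff.1 h1
    refine ⟨c, ?_, hc2⟩
    simpa [Fin.sum_univ_three, Rat.smul_def] using hc1

lemma int_of_rel (h3 : finrank ℚ R = 3) (z : 𝓞 R) (c : Fin 3 → ℚ)
    (h : (c 0 : R) + c 1 * z + c 2 * (z : R) ^ 2 = 0) (hc : ∃ i, c i ≠ 0) : ∃ t : ℤ, z = t := by
  have hz : IsIntegral ℚ (z : R) := Algebra.IsIntegral.isIntegral _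
  let p : Polynomial ℚ := Polynomial.C (c 2) * Polynomial.X ^ 2 + Polynomial.C (c 1) *
    Polynomial.X + Polynomial.C (c 0)
  have hp0 : p ≠ 0 := fun h0 => by
    obtain ⟨i, hi⟩ := hc
    have a0 : c 0 = 0 := by simpa [p] using congrArg (fun q : Polynomial ℚ => q.coeff 0) h0
    have a1 : c 1 = 0 := by simpa [p] using congrArg (fun q : Polynomial ℚ => q.coeff 1) h0
    have a2 : c 2 = 0 := by simpa [p] using congrArg (fun q : Polynomial ℚ => q.coeff 2) h0
    fin_cases i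
    exacts [hi a0, hi a1, hi a2]
  have hp : Polynomial.aeval (z : R) p = 0 := by
    rw [← h]; simp [p]; ring
  have h1 : (minpoly ℚ (z : R)).natDegree ≤ 2 :=
    (Polynomial.natDegree_le_natDegree (minpoly.degree_le_of_ne_zero ℚ _ hp0 hp)).trans
      Polynomial.natDegree_quadratic_le
  have h2 := minpoly.degree_dvd hz
  rw [h3] at h2
  have h4 : (minpoly ℚ (z : R)).natDegree = 1 :=
    ((Nat.dvd_prime Nat.prime_three).1 h2).resolve_right (by omega)
  obtain ⟨q, hq⟩ := minpoly.natDegree_eq_one_iff.1 h4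
  have h5 : IsIntegral ℤ q := by
    rw [← isIntegral_algebraMap_iff (algebraMap ℚ R).injective, hq]
    exact z.isIntegral_coe
  obtain ⟨t, rfl⟩ := IsIntegrallyClosed.algebraMap_eq_of_integral h5
  refine ⟨t, RingOfIntegers.ext ?_⟩
  rw [← hq]; simp

end C2B

open C2B in
theorem blk_C2B (hC : StCnt2) (hL : StLatD) : StC2b := by
  classical
  intro A hA
  refine ⟨256 * A ^ 2 + 16 * A + 2, by positivity, fun R _ _ h3 S hS hS' => ?_⟩
  have e : Fin 3 ≃ (R →+* ℂ) :=
    Fintype.equivOfCardEq (by rw [NumberField.Embeddings.card, h3]; rfl)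
  obtain ⟨ω, d, hd, h1, h2, h4⟩ := exists_om e hL h3
  have hD := one_le_dn (K := R)
  have hD0 := dn_pos (K := R)
  set u : ℝ := dn R ^ (1 / 6 : ℝ) with hu
  have hu1 : 1 ≤ u := Real.one_le_rpow hD (by norm_num)
  have hu2 : dn R ^ (1 / 3 : ℝ) = u ^ 2 := by
    rw [hu, ← Real.rpow_natCast, ← Real.rpow_mul hD0.le]; norm_num
  have hu3 : √(dn R) = u ^ 3 := by
    rw [hu, ← Real.rpow_natCast, ← Real.rpow_mul hD0.le, Real.sqrt_eq_rpow]; norm_num
  rw [hu3] at hd
  have hd0 : d ≠ 0 := norm_pos_iff.1 (by rw [hd]; positivity)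
  have hn : ∀ x y, |(ω x y : ℝ)| * u ^ 3 = ‖dd e x y‖ := fun x y => by
    rw [← h1, norm_mul, Complex.norm_ratCast, hd]
  have key := hC R (sz e) ω (S.image fun x : 𝓞 R => (x : R)) (2 * A * u ^ 2) (u / 2) (u ^ 3 / 2)
    (by positivity) (by positivity) (by positivity) (sz_add e) (sz_smul e) ?_ ?_ ?_ ?_ ?_ ?_
  · rw [Finset.card_image_of_injective _ RingOfIntegers.coe_injective] at key
    have e1 : 32 * (2 * A * u ^ 2) ^ 2 / (u ^ 3 / 2) + 4 * (2 * A * u ^ 2) / (u / 2) =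
        (256 * A ^ 2 + 16 * A) * u := by
      field_simp; ring
    rw [e1] at key
    linarith
  · intro a b c
    have : ((ω a (b - c) : ℚ) : ℂ) * d = ((ω a b - ω a c : ℚ) : ℂ) * d := by
      rw [Rat.cast_sub, sub_mul, h1, h1, h1]
      simp only [dd, map_sub]; ring
    exact_mod_cast mul_right_cancel₀ hd0 this
  · intro a b
    have := dd_le e a b
    rw [← hn] at this
    linarith
  · intro a b h ha
    obtain ⟨c, hc, i, hi⟩ := h4 a b h
    by_cases h2 : c 2 = 0
    · exfalso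
      by_cases h1 : c 1 = 0
      · have h0 : c 0 = 0 := by simpa [h1, h2] using hc
        fin_cases i <;> simp_all
      · have h1' : (c 1 : R) ≠ 0 := by exact_mod_cast h1
        have : a = ((-c 0 / c 1 : ℚ) : R) := by
          rw [h2] at hc
          push_cast at hc ⊢
          field_simp
          linear_combination hc
        exact ha (this ▸ sz_rat e _)
    · have h2' : (c 2 : R) ≠ 0 := by exact_mod_cast h2
      refine ⟨-c 1 / c 2, ?_⟩
      have : b - (-c 1 / c 2) • a = ((-c 0 / c 2 : ℚ) : R) := by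
        rw [Rat.smul_def]
        push_cast
        field_simp
        linear_combination hc
      rw [this, sz_rat]
  · intro x hx
    obtain ⟨z, hz, rfl⟩ := Finset.mem_image.1 hx
    have hz' := hS z hz
    rw [hu2] at hz'
    exact max_le ((norm_sub_le _ _).trans (by linarith [hz' (e 1), hz' (e 0)]))
      ((norm_sub_le _ _).trans (by linarith [hz' (e 2), hz' (e 0)]))
  · intro x hx y hy hxy
    obtain ⟨z, hz, rfl⟩ := Finset.mem_image.1 hx
    obtain ⟨w, hw, rfl⟩ := Finset.mem_image.1 hy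
    have hzw : z ≠ w := fun h => hxy (congrArg _ h)
    have e1 : (z : R) - w = ((z - w : 𝓞 R) : R) := by simp
    rw [e1]
    have hne : ω ((z - w : 𝓞 R) : R) (((z - w : 𝓞 R) : R) ^ 2) ≠ 0 := fun h => by
      obtain ⟨c, hc, hc'⟩ := h4 _ _ h
      obtain ⟨t, ht⟩ := int_of_rel h3 (z - w) c hc hc'
      exact hS' z hz w hw hzw t (by rw [← ht]; ring)
    obtain ⟨m, hm⟩ := h2 (z - w) ((z - w) ^ 2)
    have e2 : (((z - w) ^ 2 : 𝓞 R) : R) = ((z - w : 𝓞 R) : R) ^ 2 := by simp
    rw [e2] at hm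
    have h5 := dd_sq_le e ((z - w : 𝓞 R) : R)
    rw [← hn, hm] at h5
    have hm0 : m ≠ 0 := fun h => hne (by rw [hm, h]; simp)
    have h6 : (1 : ℝ) ≤ |((m : ℚ) : ℝ)| := by
      rw [Rat.cast_intCast]; exact_mod_cast Int.one_le_abs hm0
    refine le_of_pow_le_pow_left₀ (n := 3) (by norm_num) (sz_nonneg e _) ?_
    have h7 : 0 < u ^ 3 := by positivity
    nlinarith
  · intro x hx y hy x' hx' y' hy'
    obtain ⟨z, -, rfl⟩ := Finset.mem_image.1 hx
    obtain ⟨w, -, rfl⟩ := Finset.mem_image.1 hy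
    obtain ⟨z', -, rfl⟩ := Finset.mem_image.1 hx'
    obtain ⟨w', -, rfl⟩ := Finset.mem_image.1 hy'
    simpa using h2 (z - w) (z' - w')

end Pool.Agent.Lib.N4
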