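import Pool.Agent.Lib.N4.Blue
import Pool.Agent.Lib.stark.G0a

set_option autoImplicit false

open NumberField Ideal Module
open scoped nonZeroDivisors Pointwise

namespace Pool.Agent.Lib.N4

open Pool.Agent.Lib.Stark

namespace CH

theorem val (a b : ℂˣ) (ha : a ^ 3 = 1) (hb : b ^ 3 = 1) (h1 : b ≠ 1) :
    a = 1 ∨ a = b ∨ a = b ^ 2 := by
  have ha' : (a : ℂ) ^ 3 = 1 := by rw [← Units.val_pow_eq_pow_val, ha, Units.val_one]
  have hb' : (b : ℂ) ^ 3 = 1 := by rw [← Units.val_pow_eq_pow_val, hb, Units.val_one]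
  have h1' : (b : ℂ) - 1 ≠ 0 := fun h => h1 (Units.ext (by simpa [sub_eq_zero] using h))
  have h2 : (b : ℂ) ^ 2 + b + 1 = 0 := by
    refine mul_left_cancel₀ h1' ?_
    linear_combination hb'
  have h3 : ((a : ℂ) - 1) * ((a - b) * (a - b ^ 2)) = 0 := by
    linear_combination ha' - hb' + (-(a : ℂ) ^ 2 + a * b) * h2
  rcases mul_eq_zero.1 h3 with h | h
  · exact Or.inl (Units.ext (by simpa [sub_eq_zero] using h))
  · rcases mul_eq_zero.1 h with h | h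
    · exact Or.inr (Or.inl (Units.ext (sub_eq_zero.1 h)))
    · exact Or.inr (Or.inr (Units.ext (by simpa [sub_eq_zero] using h)))

theorem idx (G : Type) [Group G] (ρ : G →* ℂˣ) (hc : Cub ρ) (h : ρ ≠ 1) : ρ.ker.index = 3 := by
  obtain ⟨g, hg⟩ : ∃ g, ρ g ≠ 1 := by
    by_contra hn
    push Not at hn
    exact h (MonoidHom.ext hn)
  have : Fact (Nat.Prime 3) := ⟨Nat.prime_three⟩
  have e : ρ.range = Subgroup.zpowers (ρ g) := by
    apply le_antisymm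
    · rintro _ ⟨x, rfl⟩
      rcases val _ _ (hc x) (hc g) hg with h | h | h <;> rw [h]
      · exact one_mem _
      · exact Subgroup.mem_zpowers _
      · exact pow_mem (Subgroup.mem_zpowers _) 2
    · exact Subgroup.zpowers_le.2 ⟨g, rfl⟩
  rw [Subgroup.index_ker, e, Nat.card_zpowers, orderOf_eq_prime (hc g) hg]

theorem same (G : Type) [Group G] (U : Subgroup G) (ρ ρ' : G →* ℂˣ) (hc : Cub ρ) (hc' : Cub ρ')
    (h : ∀ g ∈ U, ρ g = 1 ↔ ρ' g = 1) : (∀ g ∈ U, ρ g = ρ' g) ∨ ∀ g ∈ U, ρ g = ρ' g ^ 2 := by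
  by_cases h0 : ∀ g ∈ U, ρ' g = 1
  · exact Or.inl fun g hg => by rw [h0 g hg, (h g hg).2 (h0 g hg)]
  push Not at h0
  obtain ⟨g0, hU, hb⟩ := h0
  have ha : ρ g0 ≠ 1 := fun e => hb ((h g0 hU).1 e)
  have key : ∀ g ∈ U, ∃ j : ℕ, ρ' g = ρ' g0 ^ j ∧ ρ g = ρ g0 ^ j := by
    intro g hg
    obtain ⟨j, hj⟩ : ∃ j : ℕ, ρ' g = ρ' g0 ^ j := by
      rcases val _ _ (hc' g) (hc' g0) hb with e | e | e
      · exact ⟨0, by simpa using e⟩
      · exact ⟨1, by simpa using e⟩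
      · exact ⟨2, e⟩
    refine ⟨j, hj, ?_⟩
    have := (h (g * (g0 ^ j)⁻¹) (mul_mem hg (inv_mem (pow_mem hU j)))).2
      (by rw [map_mul, map_inv, map_pow, hj, mul_inv_cancel])
    rwa [map_mul, map_inv, map_pow, mul_inv_eq_one] at this
  rcases val _ _ (hc g0) (hc' g0) hb with e | e | e
  · exact absurd e ha
  · refine Or.inl fun g hg => ?_
    obtain ⟨j, h1, h2⟩ := key g hg
    rw [h1, h2, e]
  · refine Or.inr fun g hg => ?_
    obtain ⟨j, h1, h2⟩ := key g hg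
    rw [h1, h2, e, ← pow_mul, ← pow_mul, mul_comm]

section

variable {k Ω : Type} [Field k] [NumberField k] [Field Ω] [NumberField Ω] [Algebra k Ω]
  [IsGalois k Ω]

theorem ex (p : Ideal (𝓞 k)) (hp : p.IsMaximal) :
    ∃ (P : Ideal (𝓞 Ω)) (σ : Ω ≃ₐ[k] Ω), Frob p P σ := by
  obtain ⟨P, h1, h2⟩ := Ideal.exists_maximal_ideal_liesOver_of_isIntegral (S := 𝓞 Ω) p
  obtain ⟨σ, h⟩ := (blockG0a.2 k Ω p hp).1 P ⟨h1.isPrime, h2⟩
  exact ⟨P, σ, h⟩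

theorem uniq (ρ : (Ω ≃ₐ[k] Ω) →* ℂˣ) (hU : Unr 3 ρ) (p : Ideal (𝓞 k)) (P P' : Ideal (𝓞 Ω))
    (σ σ' : Ω ≃ₐ[k] Ω) (hp : p.IsMaximal) (hc : Cop (m9 k) p) (h : Frob p P σ)
    (h' : Frob p P' σ') : ρ σ = ρ σ' := by
  have := h.1.1
  have := h.1.2
  have := h'.1.1
  have := h'.1.2
  obtain ⟨g, hg⟩ := Ideal.exists_smul_eq_of_isGaloisGroup p P P' (Ω ≃ₐ[k] Ω)
  have h1 : ∀ x : 𝓞 Ω, (g * σ * g⁻¹) • x - x ^ absNorm p ∈ P' := by
    intro x
    have := Ideal.smul_mem_pointwise_smul g _ P (h.2 (g⁻¹ • x))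
    rwa [hg, smul_sub, smul_pow', smul_inv_smul, ← mul_smul, ← mul_smul] at this
  have hm : P'.IsMaximal := Ideal.IsMaximal.of_liesOver_isMaximal P' p
  have h3 : ((3 : ℤ) : 𝓞 Ω) ∉ P' := by
    intro h3
    refine ((cop_m9_iff hp).1 hc).1 ?_
    rw [Ideal.mem_of_liesOver P' p, map_ofNat]
    exact_mod_cast h3
  have h4 := hU P' hm h3 (g * σ * g⁻¹ * σ'⁻¹) (by
    rw [Ideal.inertia, AddSubgroup.mem_inertia]
    intro x
    have := P'.sub_mem (h1 (σ'⁻¹ • x)) (h'.2 (σ'⁻¹ • x))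
    rwa [sub_sub_sub_cancel_right, smul_inv_smul, ← mul_smul] at this)
  rwa [map_mul, map_mul, map_mul, map_inv, map_inv, mul_inv_cancel_comm, mul_inv_eq_one] at h4

omit [NumberField Ω] [IsGalois k Ω] in
theorem dens_congr {T T' : Ideal (𝓞 k) → Prop} {a : ℝ} (h : ∀ P, P.IsMaximal → (T P ↔ T' P))
    (hd : Dens T a) : Dens T' a := by
  have aux : ∀ (Q Q' : Ideal (𝓞 k) → Prop) (s : ℝ), Q = Q' →
      ∑' P : Subtype Q, pTerm s P.1 = ∑' P : Subtype Q', pTerm s P.1 := by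
    intro Q Q' s e
    subst e
    rfl
  have e : PS T' = PS T := by
    funext s
    exact aux _ _ s (funext fun P => propext (and_congr_right fun hP => (h P hP).symm))
  unfold Dens at hd ⊢
  rwa [e]

theorem dens (h1 : StDen1) (U : Subgroup (Ω ≃ₐ[k] Ω)) (hN : U.Normal) :
    Dens (TU U) (1 / U.index) := by
  set E := IntermediateField.fixedField U with hE
  have hf : E.fixingSubgroup = U := IntermediateField.fixingSubgroup_fixedField U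
  have hG : IsGalois k E := IsGalois.of_fixedField_normal_subgroup U
  have hr : finrank k E = U.index := by
    rw [← hf, IntermediateField.finrank_eq_fixingSubgroup_index]
  have := h1 k E
  rw [hr] at this
  refine dens_congr (fun p hp => ?_) this
  have hb := (blockG0a.2 k Ω p hp).2.2 E
  rw [hf] at hb
  constructor
  · rintro ⟨Q, hQ, hn⟩
    have := hQ.1
    have := hQ.2
    have hm : Q.IsMaximal := Ideal.IsMaximal.of_liesOver_isMaximal Q p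
    obtain ⟨P, h1, h2⟩ := Ideal.exists_maximal_ideal_liesOver_of_isIntegral (S := 𝓞 Ω) Q
    have h3 : P.LiesOver p := Ideal.LiesOver.trans P Q p
    obtain ⟨σ, hσ, hF⟩ := (hb P ⟨h1.isPrime, h3⟩).2 (by rw [← h2.over]; exact hn)
    exact ⟨P, σ, hF, hσ⟩
  · rintro ⟨P, σ, hF, hσ⟩
    exact ⟨P.under (𝓞 E), G0a.under_mem hF.1, (hb P hF.1).1 ⟨σ, hσ, hF⟩⟩

theorem inj (h1 : StDen1) (h2 : StDen2) (χ ρ : (Ω ≃ₐ[k] Ω) →* ℂˣ) (hχ : Cub χ) (hρ : Cub ρ)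
    (h0 : χ ≠ 1) (h : ∀ (p : Ideal (𝓞 k)) (P : Ideal (𝓞 Ω)) (σ : Ω ≃ₐ[k] Ω), p.IsMaximal →
      Cop (m9 k) p → Frob p P σ → χ σ ≠ 1 → ρ σ = 1) : ρ = 1 := by
  by_contra hn
  have d1 := dens h1 χ.ker inferInstance
  have d2 := dens h1 ρ.ker inferInstance
  rw [idx _ χ hχ h0] at d1
  rw [idx _ ρ hρ hn] at d2
  have hm : m9 k ≠ ⊥ := by
    rw [m9, Ne, span_singleton_eq_bot]
    norm_num
  obtain ⟨p, hp, a1, a2, a3⟩ := h2.two k _ _ _ _ _ d1 d2 (h2.cop k _ hm) (by norm_num)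
  obtain ⟨P, σ, hF⟩ := ex (Ω := Ω) p hp
  exact a2 ⟨P, σ, hF, h p P σ hp (not_not.1 a3) hF fun e => a1 ⟨P, σ, hF, e⟩⟩

end

end CH

theorem blk_CH (h1 : StDen1) (h2 : StDen2) : StCh where
  dens _ _ _ _ _ _ _ _ U hN := CH.dens h1 U hN
  ex _ _ _ _ _ _ _ _ p hp := CH.ex p hp
  uniq _ _ _ _ _ _ _ _ ρ hU p P P' σ σ' hp hc h h' := CH.uniq ρ hU p P P' σ σ' hp hc h h'
  idx G _ ρ hc h := CH.idx G ρ hc h
  same G _ U ρ ρ' hc hc' h := CH.same G U ρ ρ' hc hc' h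
  val := CH.val
  inj _ _ _ _ _ _ _ _ χ ρ hχ hρ h0 h := CH.inj h1 h2 χ ρ hχ hρ h0 h

end Pool.Agent.Lib.N4
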