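import Pool.Agent.Lib.N4.Blue

set_option autoImplicit false

open NumberField Ideal Module
open scoped nonZeroDivisors Pointwise

namespace Pool.Agent.Lib.N4

open Pool.Agent.Lib.Stark

namespace CLG

theorem desc {A B : Type} [Field A] [NumberField A] [Field B] [NumberField B]
    (g : Ideal (𝓞 A) → Ideal (𝓞 B)) (hmul : ∀ I J, g (I * J) = g I * g J) (hbot : g ⊥ = ⊥)
    (hne : ∀ I, I ≠ ⊥ → g I ≠ ⊥) (hpr : ∀ x, ∃ y, g (span {x}) = span {y}) :
    ∃ f : ClassGroup (𝓞 A) →* ClassGroup (𝓞 B), ∀ I, f (cl I) = cl (g I) := by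
  have h1 : ∀ x I, x ≠ 0 → I ≠ ⊥ → cl (g (span {x} * I)) = cl (g I) := by
    intro x I hx hI
    rw [hmul, cl_mul (hne _ (by simpa using hx)) (hne _ hI)]
    obtain ⟨y, hy⟩ := hpr x
    rw [hy, cl_span, one_mul]
  have key : ∀ I J, I ≠ ⊥ → J ≠ ⊥ → cl I = cl J → cl (g I) = cl (g J) := by
    intro I J hI hJ h
    obtain ⟨x, y, hx, hy, e⟩ := (cl_eq_cl_iff hI hJ).1 h
    rw [← h1 x I hx hI, e, h1 y J hy hJ]
  choose r hr0 hr using cl_surj (K := A)
  have hF : ∀ I, I ≠ ⊥ → cl (g (r (cl I))) = cl (g I) := fun I hI => key _ _ (hr0 _) hI (hr _)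
  refine ⟨MonoidHom.mk' (fun c => cl (g (r c))) fun c d => ?_, fun I => ?_⟩
  · rw [← cl_mul (hne _ (hr0 c)) (hne _ (hr0 d)), ← hmul,
      ← hF _ (mul_ne_zero (hr0 c) (hr0 d)), cl_mul (hr0 c) (hr0 d), hr, hr]
  · by_cases hI : I = ⊥
    · rw [hI, hbot, cl_bot, cl_bot, map_one]
    · exact hF I hI

theorem smul_span {L : Type} [Field L] {G : Type} [Group G] [MulSemiringAction G L] (g : G)
    (x : 𝓞 L) : g • (span {x} : Ideal (𝓞 L)) = span {g • x} := by
  rw [Ideal.pointwise_smul_def, Ideal.map_span, Set.image_singleton]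
  rfl

theorem prod_eq (K L : Type) [Field K] [NumberField K] [Field L] [NumberField L] [Algebra K L]
    [IsGalois K L] (I : Ideal (𝓞 L)) :
    (relNorm (𝓞 K) I).map (algebraMap (𝓞 K) (𝓞 L)) = ∏ σ : L ≃ₐ[K] L, σ • I := by
  have hh : Fintype.card (ClassGroup (𝓞 L)) ≠ 0 := Fintype.card_ne_zero
  have hp : (I ^ Fintype.card (ClassGroup (𝓞 L))).IsPrincipal := by
    rw [← cl_eq_one_iff, cl_pow, pow_card_eq_one]
  obtain ⟨x, hx⟩ := hp
  have hx' : I ^ Fintype.card (ClassGroup (𝓞 L)) = span {x} := hx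
  rw [← pow_left_inj hh, ← Ideal.map_pow, ← map_pow, hx', relNorm_singleton, Ideal.map_span,
    Set.image_singleton, ← Finset.prod_pow]
  simp_rw [← smul_pow', hx', smul_span]
  rw [Ideal.prod_span_singleton]
  congr 2
  apply RingOfIntegers.coe_injective
  rw [map_prod, ← IsScalarTower.algebraMap_apply, IsScalarTower.algebraMap_apply (𝓞 K) K L,
    Algebra.algebraMap_intNorm (L := L), Algebra.norm_eq_prod_automorphisms]
  rfl

end CLG

open CLG in
theorem blk_CLG (h1 : StDen1) (h2 : StDen2) : StClg where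
  act L _ _ G _ _ g := desc (fun I => g • I) (fun I J => smul_mul' g I J) (Ideal.smul_bot g)
    (fun I hI h => hI (by rw [← inv_smul_smul g I, h, Ideal.smul_bot]))
    fun x => ⟨_, smul_span g x⟩
  nm K L _ _ _ _ _ := desc (fun I => relNorm (𝓞 K) I) (fun I J => map_mul _ I J) (relNorm_bot _)
    (fun I hI h => hI (relNorm_eq_bot_iff.1 h)) fun x => ⟨_, relNorm_singleton _ x⟩
  ext K L _ _ _ _ _ := desc (fun J => J.map (algebraMap (𝓞 K) (𝓞 L)))
    (fun I J => Ideal.map_mul _ I J) Ideal.map_bot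
    (fun I hI => Ideal.map_ne_bot_of_ne_bot hI)
    fun x => ⟨_, by rw [Ideal.map_span, Set.image_singleton]⟩
  prod := prod_eq
  idx K L _ _ _ _ _ _ f hf := by
    have hc : ∀ I : Ideal (𝓞 K), I ≠ ⊥ → Cop ⊤ I := fun I hI => ⟨sup_top_eq _, hI⟩
    obtain ⟨ρ, hρ, hD⟩ := h2.ker K ⊤ top_ne_bot (ClassGroup (𝓞 K) ⧸ f.range)
      (fun I => QuotientGroup.mk (cl I))
      ⟨fun I J hI hJ => by rw [cl_mul hI.2 hJ.2, QuotientGroup.mk_mul],
        fun α _ _ _ => by rw [cl_span, QuotientGroup.mk_one]⟩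
      (fun b => by
        obtain ⟨c, rfl⟩ := QuotientGroup.mk_surjective b
        obtain ⟨I, hI, rfl⟩ := cl_surj c
        exact ⟨I, hc I hI, rfl⟩)
    have hle := (h2.le K _ _ _ _ _ (h1 K L) hD (h2.cop K ⊤ top_ne_bot) fun P hP hS => by
      left
      have hP0 : P ≠ ⊥ := Ring.ne_bot_of_isMaximal_of_not_isField hP (RingOfIntegers.not_isField K)
      refine ⟨hc P hP0, (QuotientGroup.eq_one_iff _).2 ?_⟩
      obtain ⟨Q, hQ, hn⟩ := hS
      have := hQ.1
      have := hQ.2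
      obtain ⟨s, hs⟩ := exists_relNorm_eq_pow_of_isPrime Q P
      have e : absNorm P ^ s = absNorm P ^ 1 := by
        rw [← map_pow, ← hs, absNorm_relNorm, hn, pow_one]
      have h2' : 2 ≤ absNorm P := by
        have a0 : absNorm P ≠ 0 := fun h => hP0 (absNorm_eq_zero_iff.1 h)
        have a1 : absNorm P ≠ 1 := fun h => hP.ne_top (absNorm_eq_one_iff.1 h)
        omega
      rw [Nat.pow_right_injective h2' e, pow_one] at hs
      exact ⟨cl Q, by rw [hf, hs]⟩).1
    have hi : (0 : ℝ) < Nat.card (ClassGroup (𝓞 K) ⧸ f.range) := by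
      exact_mod_cast Nat.card_pos
    have hr : (0 : ℝ) < finrank K L := by exact_mod_cast finrank_pos
    have := (one_div_le_one_div hr hi).1 (hle.trans hρ)
    exact_mod_cast this

end Pool.Agent.Lib.N4
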