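import Pool.Agent.Lib.N4.Blue

set_option autoImplicit false

namespace Pool.Agent.Lib.N4

namespace CNT2

lemma card_Icc_le (a b : ℤ) (x : ℝ) (hx : 0 ≤ x) (h : (b : ℝ) + 1 - a ≤ x) :
    ((Finset.Icc a b).card : ℝ) ≤ x := by
  rw [Int.card_Icc]
  rcases le_total 0 (b + 1 - a) with h0 | h0
  · have : (((b + 1 - a).toNat : ℤ) : ℝ) = ((b + 1 - a : ℤ) : ℝ) := by rw [Int.toNat_of_nonneg h0]
    rw [Int.cast_natCast] at this
    rw [this]
    push_cast
    exact h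
  · rw [Int.toNat_of_nonpos h0]
    simpa using hx

end CNT2

theorem blk_CNT2 : StCnt2 := by
  intro V _ _ s ω F T lam Δ hlam hΔ hT hadd hsm hω hle hnull hF hsep hint
  classical
  have hneg : ∀ a, s (-a) = s a := fun a => by simpa using hsm (-1) a
  have hsub : ∀ a b, s (a - b) ≤ s a + s b := fun a b => by
    rw [sub_eq_add_neg, ← hneg b]; exact hadd _ _
  have hrhs : 0 ≤ 32 * T ^ 2 / Δ + 4 * T / lam := by positivity
  by_cases hc : F.card ≤ 1
  · have : (F.card : ℝ) ≤ 1 := by exact_mod_cast hc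
    linarith
  obtain ⟨⟨x0, y0⟩, hp, hmin⟩ := Finset.exists_min_image F.offDiag (fun p => s (p.1 - p.2)) (by
    obtain ⟨a, ha, b, hb, hab⟩ := Finset.one_lt_card.1 (not_le.1 hc)
    exact ⟨(a, b), Finset.mem_offDiag.2 ⟨ha, hb, hab⟩⟩)
  obtain ⟨hx0, hy0, hxy⟩ := Finset.mem_offDiag.1 hp
  simp only at hx0 hy0 hxy hmin
  set v := x0 - y0 with hv
  set l := s v with hl
  have hl1 : lam ≤ l := hsep _ hx0 _ hy0 hxy
  have hl0 : 0 < l := hlam.trans_le hl1
  have h2T : ∀ x ∈ F, ∀ y ∈ F, s (x - y) ≤ 2 * T := fun x hx y hy => by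
    linarith [hsub x y, hF x hx, hF y hy]
  have hl2 : l ≤ 2 * T := h2T _ hx0 _ hy0
  set b : ℝ := 2 * l * T / Δ with hb
  set a : ℝ := 2 * T / l with ha
  have hb0 : 0 ≤ b := by positivity
  have ha0 : 0 ≤ a := by positivity
  have hmap : ∀ x ∈ F, ⌊ω v (x - x0)⌋ ∈ Finset.Icc (-⌊b⌋) ⌊b⌋ := by
    intro x hx
    obtain ⟨m, hm⟩ := hint x0 hx0 y0 hy0 x hx x0 hx0
    have h1 := hle v (x - x0)
    rw [hm] at h1 ⊢
    rw [Int.floor_intCast, Finset.mem_Icc, ← abs_le, Int.le_floor, hb, le_div_iff₀ hΔ]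
    push_cast at h1 ⊢
    nlinarith [h2T x hx x0 hx0]
  have hfib : ∀ m ∈ Finset.Icc (-⌊b⌋) ⌊b⌋,
      (F.filter fun x => ⌊ω v (x - x0)⌋ = m).card ≤ (Finset.Icc ⌊-a⌋ ⌊a⌋).card := by
    intro m _
    rcases (F.filter fun x => ⌊ω v (x - x0)⌋ = m).eq_empty_or_nonempty with h | ⟨y, hy⟩
    · rw [h]; simp
    obtain ⟨hyF, hym⟩ := Finset.mem_filter.1 hy
    have hex : ∀ x, ∃ t : ℚ, x ∈ (F.filter fun x => ⌊ω v (x - x0)⌋ = m) →
        s (x - y - t • v) = 0 := by
      intro x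
      by_cases hx : x ∈ (F.filter fun x => ⌊ω v (x - x0)⌋ = m)
      · obtain ⟨hxF, hxm⟩ := Finset.mem_filter.1 hx
        obtain ⟨m1, h1⟩ := hint x0 hx0 y0 hy0 x hxF x0 hx0
        obtain ⟨m2, h2⟩ := hint x0 hx0 y0 hy0 y hyF x0 hx0
        rw [h1, Int.floor_intCast] at hxm
        rw [h2, Int.floor_intCast] at hym
        obtain ⟨t, ht⟩ := hnull v (x - y) (by
          rw [show x - y = (x - x0) - (y - x0) by abel, hω, h1, h2, hxm, hym, sub_self]) hl0.ne'
        exact ⟨t, fun _ => ht⟩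
      · exact ⟨0, fun h => absurd h hx⟩
    choose t ht using hex
    refine Finset.card_le_card_of_injOn (fun x => ⌊(t x : ℝ)⌋) (fun x hx => ?_) ?_
    · have hx' := Finset.mem_coe.1 hx
      have h1 := hsub (x - y) (x - y - t x • v)
      rw [sub_sub_cancel, hsm, ht x hx', add_zero] at h1
      have h2 : |(t x : ℝ)| ≤ a := by
        rw [ha, le_div_iff₀ hl0]
        exact h1.trans (h2T x (Finset.mem_filter.1 hx').1 y hyF)
      rw [abs_le] at h2
      exact Finset.mem_coe.2 (Finset.mem_Icc.2 ⟨Int.floor_mono h2.1, Int.floor_mono h2.2⟩)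
    · intro x hx x' hx' he
      by_contra hne
      have hx1 := Finset.mem_coe.1 hx
      have hx2 := Finset.mem_coe.1 hx'
      have h1 := hmin (x, x') (Finset.mem_offDiag.2
        ⟨(Finset.mem_filter.1 hx1).1, (Finset.mem_filter.1 hx2).1, hne⟩)
      have h2 := hadd ((x - y - t x • v) - (x' - y - t x' • v)) ((t x - t x') • v)
      have h3 := hsub (x - y - t x • v) (x' - y - t x' • v)
      rw [show (x - y - t x • v) - (x' - y - t x' • v) + (t x - t x') • v = x - x' by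
        rw [sub_smul]; abel, hsm] at h2
      rw [ht x hx1, ht x' hx2] at h3
      have h4 : |(t x : ℝ) - t x'| < 1 := Int.abs_sub_lt_one_of_floor_eq_floor he
      push_cast at h2
      simp only at h1
      nlinarith
  have key := Finset.card_le_mul_card_image_of_maps_to hmap _ hfib
  have k1 : ((Finset.Icc ⌊-a⌋ ⌊a⌋).card : ℝ) ≤ 2 * a + 2 :=
    CNT2.card_Icc_le _ _ _ (by positivity)
      (by linarith [Int.floor_le a, Int.lt_floor_add_one (-a)])
  have k2 : ((Finset.Icc (-⌊b⌋) ⌊b⌋).card : ℝ) ≤ 2 * b + 1 :=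
    CNT2.card_Icc_le _ _ _ (by positivity) (by push_cast; linarith [Int.floor_le b])
  have k3 : (F.card : ℝ) ≤ (2 * a + 2) * (2 * b + 1) := by
    have k4 : (F.card : ℝ) ≤ ((Finset.Icc ⌊-a⌋ ⌊a⌋).card : ℝ) *
        ((Finset.Icc (-⌊b⌋) ⌊b⌋).card : ℝ) := by exact_mod_cast key
    refine k4.trans ?_
    gcongr
  have e1 : a * b = 4 * (T ^ 2 / Δ) := by
    rw [ha, hb]; field_simp; ring
  have e2 : b ≤ 4 * (T ^ 2 / Δ) := by
    rw [hb, ← mul_div_assoc]
    gcongr ?_ / _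
    nlinarith
  have e3 : a ≤ 2 * (T / lam) := by
    rw [ha, ← mul_div_assoc]
    gcongr
  rw [mul_div_assoc, mul_div_assoc]
  nlinarith

end Pool.Agent.Lib.N4
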