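import Pool.Agent.Lib.N4.Blue

set_option autoImplicit false

open NumberField Ideal Module
open scoped nonZeroDivisors

namespace Pool.Agent.Lib.N4

namespace COSET

variable {k : Type} [Field k] [NumberField k]

lemma close (hk : finrank ℚ k = 2) (I : Ideal (𝓞 k)) (hI : I ≠ ⊥) (Y : ℝ)
    (hY : (absNorm I : ℝ) ≤ Y) (x : Ob k)
    (h : Small 1 (ob ⟨I, mem_nonZeroDivisors_of_ne_zero hI⟩ / x)) :
    ∃ α : k, (I : FractionalIdeal (𝓞 k)⁰ k) = FractionalIdeal.spanSingleton (𝓞 k)⁰ α * x.1 ∧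
      α ∈ ((x⁻¹).1 : FractionalIdeal (𝓞 k)⁰ k) ∧
      ∀ w : InfinitePlace k, w α * Real.exp ((x⁻¹).2.toAdd w) ≤ Real.exp 1 * √Y := by
  obtain ⟨α, hα, hw⟩ := h
  have h1 : FractionalIdeal.mk0 k ⟨I, mem_nonZeroDivisors_of_ne_zero hI⟩ =
      toPrincipalIdeal (𝓞 k) k α * x.1 := by
    rw [← hα, Prod.fst_div, div_mul_cancel]; rfl
  have h2 : (I : FractionalIdeal (𝓞 k)⁰ k) =
      FractionalIdeal.spanSingleton (𝓞 k)⁰ (α : k) * x.1 := by
    have := congrArg Units.val h1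
    rwa [Units.val_mul, coe_toPrincipalIdeal, FractionalIdeal.coe_mk0] at this
  refine ⟨α, h2, ?_, fun w => ?_⟩
  · rw [← FractionalIdeal.spanSingleton_le_iff_mem]
    have h3 : FractionalIdeal.spanSingleton (𝓞 k)⁰ (α : k) = I * (x⁻¹).1 := by
      rw [h2, mul_assoc, Prod.fst_inv, Units.mul_inv, mul_one]
    rw [h3]
    have := mul_le_mul_left (FractionalIdeal.coeIdeal_le_one (S := (𝓞 k)⁰) (P := k) (I := I))
      ((x⁻¹).1 : FractionalIdeal (𝓞 k)⁰ k)
    rwa [one_mul] at this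
  · have h3 := (abs_le.1 (hw w)).2
    rw [Prod.snd_div, toAdd_div, Pi.sub_apply] at h3
    have h4 : (ob ⟨I, mem_nonZeroDivisors_of_ne_zero hI⟩ : Ob k).2.toAdd w =
        -(Real.log (absNorm I) / 2) := by
      simp only [ob, toAdd_ofAdd, hk, Nat.cast_ofNat]
    have hN : (0 : ℝ) < absNorm I := by
      have : absNorm I ≠ 0 := by rwa [Ne, absNorm_eq_zero_iff]
      exact_mod_cast Nat.pos_of_ne_zero this
    have h5 : 0 < w (α : k) := InfinitePlace.pos_iff.2 α.ne_zero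
    rw [h4] at h3
    rw [Prod.snd_inv, toAdd_inv, Pi.neg_apply, ← Real.exp_log h5, ← Real.exp_add]
    calc Real.exp (Real.log (w (α : k)) + -x.2.toAdd w)
        ≤ Real.exp (1 + Real.log (absNorm I) * (1 / 2)) := Real.exp_le_exp.2 (by linarith)
      _ = Real.exp 1 * √(absNorm I) := by
        rw [Real.exp_add, Real.sqrt_eq_rpow, Real.rpow_def_of_pos hN]
      _ ≤ _ := mul_le_mul_of_nonneg_left (Real.sqrt_le_sqrt hY) (Real.exp_pos _).le

lemma num {D Y : ℝ} (hD : 1 ≤ D) (hY : D ≤ Y) :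
    64 * (Real.exp 1 * √Y) ^ 2 / √D + 4 * (Real.exp 1 * √Y) + 2 ≤
      (64 * Real.exp 1 ^ 2 + 4 * Real.exp 1 + 2) * (Y / √D) := by
  have hs : 0 < √D := Real.sqrt_pos.2 (by linarith)
  have h1 : √Y ≤ Y / √D := by
    rw [le_div_iff₀ hs]
    calc √Y * √D ≤ √Y * √Y := mul_le_mul_of_nonneg_left (Real.sqrt_le_sqrt hY) (Real.sqrt_nonneg _)
      _ = Y := Real.mul_self_sqrt (by linarith)
  have h2 : 1 ≤ Y / √D := le_trans (Real.one_le_sqrt.2 (by linarith)) h1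
  have h3 : 64 * (Real.exp 1 * √Y) ^ 2 / √D = 64 * Real.exp 1 ^ 2 * (Y / √D) := by
    rw [mul_pow, Real.sq_sqrt (by linarith)]; ring
  have h4 := mul_le_mul_of_nonneg_left h1 (Real.exp_pos 1).le
  rw [h3]
  linarith

end COSET

theorem blk_COSET (hN : StNet) (hV : StVol) (hP : StPts) : StCoset := by
  intro ε hε
  obtain ⟨C, hC, hC'⟩ := hV.coset 2 ε hε
  refine ⟨(64 * Real.exp 1 ^ 2 + 4 * Real.exp 1 + 2) * C, by positivity, ?_⟩
  intro k _ _ hk Z c Y hY S hS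
  classical
  have hidx : (1 : ℝ) ≤ Z.index := by
    exact_mod_cast Nat.pos_of_ne_zero Z.index_ne_zero_of_finite
  obtain ⟨N, hN1, hN2, hN3⟩ := hN.ex (Ob k) {x | deg x = 0 ∧ cls x / c ∈ Z} (Small 1)
    (C * dn k ^ (1 / 2 + ε)) (small_one zero_le_one) (fun _ h => h.inv) (fun S' h1 h2 =>
      le_trans (le_mul_of_one_le_right (Nat.cast_nonneg _) hidx) (hC' k hk Z c S' h1 h2))
  have hcard := hC' k hk Z c N hN1 hN2
  have key : ∀ I ∈ S, ∃ (x : Ob k) (α : k), x ∈ N ∧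
      (I : FractionalIdeal (𝓞 k)⁰ k) = FractionalIdeal.spanSingleton (𝓞 k)⁰ α * x.1 ∧
      α ∈ ((x⁻¹).1 : FractionalIdeal (𝓞 k)⁰ k) ∧
      ∀ w : InfinitePlace k, w α * Real.exp ((x⁻¹).2.toAdd w) ≤ Real.exp 1 * √Y := by
    intro I hI
    obtain ⟨h1, h2, h3⟩ := hS I hI
    obtain ⟨x, hx, hx'⟩ := hN3 (ob ⟨I, mem_nonZeroDivisors_of_ne_zero h1⟩)
      ⟨deg_ob _, by rw [cls_ob]; exact h3⟩
    obtain ⟨α, hα⟩ := COSET.close hk I h1 Y h2 x hx'
    exact ⟨x, α, hx, hα⟩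
  choose! f a hf h1 h2 h3 using key
  set B := (64 * Real.exp 1 ^ 2 + 4 * Real.exp 1 + 2) * (Y / √(dn k)) with hB
  have hfib : ∀ x ∈ N, ((S.filter fun I => f I = x).card : ℝ) ≤ B := by
    intro x hx
    have hinj : Set.InjOn a (S.filter fun I => f I = x : Finset _) := by
      intro I hI J hJ hIJ
      rw [Finset.mem_coe, Finset.mem_filter] at hI hJ
      have : (I : FractionalIdeal (𝓞 k)⁰ k) = J := by
        rw [h1 I hI.1, h1 J hJ.1, hI.2, hJ.2, hIJ]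
      exact FractionalIdeal.coeIdeal_injective this
    rw [← Finset.card_image_of_injOn hinj]
    refine le_trans (hP k hk x⁻¹ (Real.exp 1 * √Y) (by rw [deg_inv, (hN1 x hx).1, neg_zero])
      (by positivity) _ ?_) (COSET.num one_le_dn hY)
    intro α hα
    obtain ⟨I, hI, rfl⟩ := Finset.mem_image.1 hα
    rw [Finset.mem_filter] at hI
    rw [← hI.2]
    exact ⟨h2 I hI.1, h3 I hI.1⟩
  have hsum : (S.card : ℝ) ≤ N.card * B := by
    rw [Finset.card_eq_sum_card_fiberwise (f := f) (t := N) fun I hI => hf I hI, Nat.cast_sum]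
    exact (Finset.sum_le_card_nsmul _ _ _ hfib).trans (by rw [nsmul_eq_mul])
  have hD : 0 < dn k := dn_pos
  have hY0 : 0 ≤ Y := hD.le.trans hY
  have hB0 : 0 ≤ B := by positivity
  calc (S.card : ℝ) * Z.index ≤ N.card * B * Z.index :=
        mul_le_mul_of_nonneg_right hsum (Nat.cast_nonneg _)
    _ = B * (N.card * Z.index) := by ring
    _ ≤ B * (C * dn k ^ (1 / 2 + ε)) := mul_le_mul_of_nonneg_left hcard hB0
    _ = _ := by
        have hs : 0 < √(dn k) := Real.sqrt_pos.2 hD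
        rw [hB, Real.rpow_add hD, ← Real.sqrt_eq_rpow]
        field_simp

end Pool.Agent.Lib.N4
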