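import Pool.Agent.Lib.N4.Blue
import Pool.Agent.Lib.stark.G0a

set_option autoImplicit false

open NumberField Ideal Module

namespace Pool.Agent.Lib.N4

open Pool.Agent.Lib.Stark

namespace CYC

theorem exo : ∃ w : ℂˣ, IsPrimitiveRoot w 9 := by
  have h := Complex.isPrimitiveRoot_exp 9 (by norm_num)
  exact ⟨_, h.isUnit_unit (by norm_num)⟩

noncomputable def w : ℂˣ := exo.choose

theorem hw : IsPrimitiveRoot w 9 := exo.choose_spec

noncomputable def e (t : ZMod 9) : ℂˣ := w ^ t.val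

theorem e_add (s t : ZMod 9) : e (s + t) = e s * e t := by
  rw [e, e, e, ← pow_add, ZMod.val_add, pow_eq_pow_iff_modEq, ← hw.eq_orderOf]
  exact Nat.mod_modEq _ _

theorem e_eq_one {t : ZMod 9} : e t = 1 ↔ t = 0 := by
  rw [e, hw.pow_eq_one_iff_dvd, ← ZMod.natCast_eq_zero_iff, ZMod.natCast_zmod_val]

noncomputable def g (x : ZMod 9) : ℂˣ := e (x ^ 2 - 1)

theorem g_mul {x y : ZMod 9} (hx : x ^ 6 = 1) (hy : y ^ 6 = 1) : g (x * y) = g x * g y := by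
  have h : ∀ x y : ZMod 9, x ^ 6 = 1 → y ^ 6 = 1 → (x * y) ^ 2 - 1 = (x ^ 2 - 1) + (y ^ 2 - 1) := by
    decide
  rw [g, g, g, ← e_add, h x y hx hy]

theorem g_cube {x : ZMod 9} (hx : x ^ 6 = 1) : g x ^ 3 = 1 := by
  have h : ∀ x : ZMod 9, x ^ 6 = 1 → (x ^ 2 - 1) + (x ^ 2 - 1) + (x ^ 2 - 1) = 0 := by decide
  rw [pow_succ, pow_two, g, ← e_add, ← e_add, h x hx, e_eq_one]

theorem g_eq_one {x : ZMod 9} : g x = 1 ↔ x ^ 2 = 1 := by
  rw [g, e_eq_one, sub_eq_zero]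

theorem unit6 (u : (ZMod 9)ˣ) : (u : ZMod 9) ^ 6 = 1 := by
  have h : ∀ x y : ZMod 9, x * y = 1 → x ^ 6 = 1 := by decide
  exact h _ _ u.mul_inv

variable {k : Type} [Field k] [NumberField k]

theorem norm_sq {a : 𝓞 k} (h : a - 1 ∈ m9 k) : ((absNorm (span {a}) : ℕ) : ZMod 9) ^ 2 = 1 := by
  classical
  obtain ⟨c, hc⟩ := mem_span_singleton'.1 h
  have ha : a = 1 + (9 : ℤ) • c := by
    rw [zsmul_eq_mul]; push_cast; linear_combination -hc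
  let b := Module.Free.chooseBasis ℤ (𝓞 k)
  have h1 : ((Algebra.norm ℤ a : ℤ) : ZMod 9) = 1 := by
    rw [Algebra.norm_eq_matrix_det b, ← eq_intCast (Int.castRingHom (ZMod 9)), RingHom.map_det,
      ha, map_add, map_one, map_zsmul, map_add, map_one, map_zsmul]
    have : (9 : ℤ) • (Int.castRingHom (ZMod 9)).mapMatrix (Algebra.leftMulMatrix b c) = 0 := by
      ext i j
      rw [Matrix.smul_apply, zsmul_eq_mul, Matrix.zero_apply]
      have : ((9 : ℤ) : ZMod 9) = 0 := by decide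
      rw [this, zero_mul]
    rw [this, add_zero, Matrix.det_one]
  rw [absNorm_span_singleton, ← Int.cast_natCast, ← Int.cast_pow, Int.natCast_natAbs, sq_abs,
    Int.cast_pow, h1, one_pow]

theorem cop6 {I : Ideal (𝓞 k)} (h : Cop (m9 k) I) : ((absNorm I : ℕ) : ZMod 9) ^ 6 = 1 := by
  obtain ⟨β, hβ, μ, hμ, h1⟩ := Submodule.mem_sup.1 ((Ideal.eq_top_iff_one _).1 h.1)
  have h2 := norm_sq (a := β) (by rw [show β - 1 = -μ by rw [← h1]; ring]; exact neg_mem hμ)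
  obtain ⟨m, hm⟩ := absNorm_dvd_absNorm_of_le ((span_singleton_le_iff_mem I).2 hβ)
  rw [hm, Nat.cast_mul] at h2
  have h : ∀ x y : ZMod 9, (x * y) ^ 2 = 1 → x ^ 6 = 1 := by decide
  exact h _ _ h2

omit [NumberField k] in
theorem cop_mul {I J : Ideal (𝓞 k)} (hI : Cop (m9 k) I) (hJ : Cop (m9 k) J) :
    Cop (m9 k) (I * J) :=
  ⟨by rw [← isCoprime_iff_sup_eq]
      exact (isCoprime_iff_sup_eq.2 hI.1).mul_left (isCoprime_iff_sup_eq.2 hJ.1),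
    mul_ne_zero hI.2 hJ.2⟩

theorem exphi {H : Type} [CommGroup H] {κ : Ideal (𝓞 k) → H} (hR : Ray κ) :
    ∃ φ : H →* ℂˣ, ∀ I, Cop (m9 k) I → φ (κ I) = g (absNorm I : ℕ) := by
  have wd : ∀ I J, Cop (m9 k) I → Cop (m9 k) J → κ I = κ J →
      g (absNorm I : ℕ) = g (absNorm J : ℕ) := by
    intro I J hI hJ hIJ
    obtain ⟨α, β, c, c', -, -, hα, hβ, hc, hc', h⟩ := hR.ker I J hI hJ hIJ
    have h1 := congrArg (fun I => ((absNorm I : ℕ) : ZMod 9) ^ 2) h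
    simp only [map_mul, map_pow, Nat.cast_mul, Nat.cast_pow, mul_pow, ← pow_mul] at h1
    rw [norm_sq hα, norm_sq hβ, cop6 hc, cop6 hc', one_mul, one_mul, mul_one, mul_one] at h1
    rw [g, g, h1]
  choose s hs hs' using hR.surj
  refine ⟨MonoidHom.mk' (fun h => g (absNorm (s h) : ℕ)) fun a b => ?_, fun I hI =>
    wd _ _ (hs _) hI (hs' _)⟩
  rw [← g_mul (cop6 (hs a)) (cop6 (hs b)), ← Nat.cast_mul, ← map_mul]
  refine wd _ _ (hs _) (cop_mul (hs a) (hs b)) ?_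
  rw [hR.hom.mul _ _ (hs a) (hs b), hs', hs', hs']

theorem two (h : ∀ p : Ideal (𝓞 k), p.IsMaximal → (2 : 𝓞 k) ∈ p →
    ((absNorm p : ℕ) : ZMod 9) ^ 2 = 1) : 3 ∣ finrank ℚ k := by
  have key : ∀ I : Ideal (𝓞 k), I ≠ ⊥ → (2 : 𝓞 k) ∈ I → ((absNorm I : ℕ) : ZMod 9) ^ 2 = 1 := by
    intro I
    induction I using UniqueFactorizationMonoid.induction_on_prime with
    | h₁ => intro h0; exact absurd rfl h0
    | h₂ I hI => intro _ _; rw [isUnit_iff.1 hI, absNorm_top]; simp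
    | h₃ I p hI hp ih =>
      intro _ h2
      have hm : p.IsMaximal := (isPrime_of_prime hp).isMaximal hp.ne_zero
      have a1 : (2 : 𝓞 k) ∈ p := (Ideal.mul_le_left : p * I ≤ p) h2
      have a2 : (2 : 𝓞 k) ∈ I := (Ideal.mul_le_right : p * I ≤ I) h2
      rw [map_mul, Nat.cast_mul, mul_pow, h p hm a1, ih hI a2, one_mul]
  have h2 := key (span {2}) (by rw [Ne, span_singleton_eq_bot]; norm_num)
    (mem_span_singleton_self _)
  have h3 : absNorm (span {(2 : 𝓞 k)}) = 2 ^ finrank ℚ k := by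
    have := absNorm_span_natCast (S := 𝓞 k) 2
    rw [RingOfIntegers.rank] at this
    exact_mod_cast this
  rw [h3, Nat.cast_pow, ← pow_mul, mul_comm, pow_mul, ← Nat.div_add_mod (finrank ℚ k) 3, pow_add,
    pow_mul] at h2
  have h4 : (((2 : ℕ) : ZMod 9) ^ 2) ^ 3 = 1 := by decide
  rw [h4, one_pow, one_mul] at h2
  have h5 : ∀ r : ℕ, r < 3 → (((2 : ℕ) : ZMod 9) ^ 2) ^ r = 1 → r = 0 := by decide
  exact Nat.dvd_of_mod_eq_zero (h5 _ (Nat.mod_lt _ (by norm_num)) h2)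

variable {Ω : Type} [Field Ω] [NumberField Ω] [Algebra k Ω]

omit [NumberField k] [NumberField Ω] in
theorem aut_eq {ζ : Ω} (hζ : IsPrimitiveRoot ζ 9) (σ : Ω ≃ₐ[k] Ω) (m : ℕ) (h : σ ζ = ζ ^ m) :
    ((hζ.autToPow k σ : (ZMod 9)ˣ) : ZMod 9) = m := by
  have h1 := hζ.autToPow_spec k σ
  rw [h, ← Nat.div_add_mod m 9, pow_add, pow_mul, hζ.pow_eq_one, one_pow, one_mul] at h1
  have h2 := hζ.pow_inj (ZMod.val_lt _) (Nat.mod_lt _ (by norm_num)) h1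
  rw [← ZMod.natCast_zmod_val ((hζ.autToPow k σ : (ZMod 9)ˣ) : ZMod 9), h2, ZMod.natCast_mod]

omit [NumberField k] [NumberField Ω] in
theorem inert {ζ : Ω} (hζ : ζ ^ 9 = 1) {P : Ideal (𝓞 Ω)} (hP : P.IsMaximal)
    (h3 : ((3 : ℤ) : 𝓞 Ω) ∉ P) {σ : Ω ≃ₐ[k] Ω} (hσ : σ ∈ P.inertia (Ω ≃ₐ[k] Ω)) : σ ζ = ζ := by
  have hint : IsIntegral ℤ ζ := IsIntegral.of_pow (by norm_num : 0 < 9) (hζ ▸ isIntegral_one)
  obtain ⟨z, rfl⟩ : ∃ z : 𝓞 Ω, (z : Ω) = ζ := ⟨⟨ζ, hint⟩, rfl⟩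
  have h2 : z ^ 9 = 1 := by
    apply RingOfIntegers.ext
    simpa using hζ
  have h4 : (σ • z) ^ 9 = 1 := by rw [← smul_pow', h2, smul_one]
  have h5 : σ • z - z ∈ P := hσ z
  by_contra hne
  have h6 : σ • z - z ≠ 0 := fun h => hne (congrArg (algebraMap (𝓞 Ω) Ω) (sub_eq_zero.1 h))
  have h7 := (Commute.all (σ • z) z).geom_sum₂_mul 9
  rw [h4, h2, sub_self] at h7
  have h8 := congrArg (Ideal.Quotient.mk P) ((mul_eq_zero.1 h7).resolve_right h6)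
  rw [map_sum, map_zero] at h8
  simp only [map_mul, map_pow, Ideal.Quotient.eq.2 h5] at h8
  rw [geom_sum₂_self] at h8
  have h9 : Ideal.Quotient.mk P ((3 : ℤ) * (3 : ℤ) : 𝓞 Ω) = 0 := by
    have h10 := congrArg (Ideal.Quotient.mk P) h2
    rw [map_pow, map_one] at h10
    rw [map_mul, map_intCast]
    push_cast at h8 ⊢
    linear_combination (Ideal.Quotient.mk P z) * h8 - 9 * h10
  exact h3 ((hP.isPrime.mem_or_mem (Ideal.Quotient.eq_zero_iff_mem.1 h9)).elim id id)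

end CYC

open CYC in
theorem blk_CYC : StCyc := by
  intro k Ω _ _ _ _ _ _ H _ _ κ hR ζ hζ
  obtain ⟨φ, hφ⟩ := exphi hR
  let χ : (Ω ≃ₐ[k] Ω) →* ℂˣ :=
    MonoidHom.mk' (fun σ => g ((hζ.autToPow k σ : (ZMod 9)ˣ) : ZMod 9)) fun a b => by
      rw [map_mul, Units.val_mul, g_mul (unit6 _) (unit6 _)]
  have hχ : ∀ σ, χ σ = g ((hζ.autToPow k σ : (ZMod 9)ˣ) : ZMod 9) := fun _ => rfl
  have fr : ∀ (p : Ideal (𝓞 k)) (P : Ideal (𝓞 Ω)) (σ : Ω ≃ₐ[k] Ω), Frob p P σ →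
      ((absNorm p : ℕ) : ZMod 9) ^ 6 = 1 → χ σ = g (absNorm p : ℕ) := by
    intro p P σ hF h6
    have hc : Nat.Coprime 9 (absNorm p) :=
      ((ZMod.isUnit_iff_coprime _ _).1 (IsUnit.of_pow_eq_one h6 (by norm_num))).symm
    rw [hχ, aut_eq hζ σ _ (G0a.frob_root hF ζ 9 hζ.pow_eq_one hc)]
  refine ⟨χ, φ, fun σ => g_cube (unit6 _), fun P hP h3 σ hσ => ?_, fun p P σ _ hc hF _ => ?_,
    fun h3 h1 => h3 (two fun p hp h2 => ?_), fun p P σ _ hF h2 => ?_⟩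
  · rw [hχ, aut_eq hζ σ 1 (by rw [pow_one]; exact inert hζ.pow_eq_one hP h3 hσ), g_eq_one]
    simp
  · rw [hφ p hc, fr p P σ hF (cop6 hc)]
  · have hc : Cop (m9 k) p := by
      refine (cop_m9_iff hp).2 ⟨fun h => hp.ne_top ((eq_top_iff_one _).2 ?_),
        Ring.ne_bot_of_isMaximal_of_not_isField hp (RingOfIntegers.not_isField k)⟩
      have := p.sub_mem h h2
      rwa [show (3 : 𝓞 k) - 2 = 1 by norm_num] at this
    obtain ⟨P, hP, hPp⟩ := Ideal.exists_maximal_ideal_liesOver_of_isIntegral (S := 𝓞 Ω) p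
    obtain ⟨σ, hF⟩ := G0a.exists_frob (Ω := Ω) hp (P := P) ⟨hP.isPrime, hPp⟩
    rw [← g_eq_one, ← fr p P σ hF (cop6 hc), h1, MonoidHom.one_apply]
  · have e2 : ((absNorm p : ℕ) : ZMod 9) = 2 := by
      rw [← ZMod.natCast_mod, h2]; rfl
    rw [fr p P σ hF (by rw [e2]; decide), Ne, g_eq_one, e2]
    decide

end Pool.Agent.Lib.N4
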