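import Pool.Agent.Lib.N4.Blue
import Pool.Agent.Lib.stark.TK1
import Pool.Agent.Lib.stark.TK2a
import Pool.Agent.Lib.stark.TK2b
import Pool.Agent.Lib.stark.G4

set_option autoImplicit false

open NumberField Ideal Module Filter Topology
open scoped nonZeroDivisors Pointwise

namespace Pool.Agent.Lib.N4

open Pool.Agent.Lib.Stark Pool.Agent.Lib.Stark.G4

namespace DEN1

variable {K E : Type} [Field K] [NumberField K] [Field E] [NumberField E] [Algebra K E]

lemma mul_PS_le {s : ℝ}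
    (hs : Summable fun P : {P : Ideal (𝓞 E) // P.IsMaximal} => pTerm s P.1)
    {T : Ideal (𝓞 K) → Prop} {n : ℕ} (hn : 0 < n)
    (h : ∀ P : Ideal (𝓞 K), P.IsMaximal → T P → ∃ u : Finset (Ideal (𝓞 E)), u.card = n ∧
      ∀ Q ∈ u, Q.IsMaximal ∧ Q.under (𝓞 K) = P ∧ absNorm Q = absNorm P) :
    n * PS T s ≤ PS (fun _ : Ideal (𝓞 E) => True) s := by
  classical
  choose! g h1 h2 using h
  rw [← le_div_iff₀' (Nat.cast_pos.2 hn)]
  refine PS_le T fun u hu => ?_
  rw [le_div_iff₀' (Nat.cast_pos.2 hn)]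
  have h4 := le_PS hs (fun _ => True) (u.biUnion g) fun Q hQ => by
    obtain ⟨P, hP, hQP⟩ := Finset.mem_biUnion.1 hQ
    exact ⟨(h2 P (hu P hP).1 (hu P hP).2 Q hQP).1, trivial⟩
  rw [Finset.sum_biUnion] at h4
  · refine le_trans (le_of_eq ?_) h4
    rw [Finset.mul_sum]
    refine Finset.sum_congr rfl fun P hP => ?_
    rw [Finset.sum_congr rfl (g := fun _ => pTerm s P) fun Q hQ =>
      pTerm_congr s (h2 P (hu P hP).1 (hu P hP).2 Q hQ).2.2, Finset.sum_const, nsmul_eq_mul,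
      h1 P (hu P hP).1 (hu P hP).2]
  · intro P hP P' hP' hne
    refine Finset.disjoint_left.2 fun Q hQ hQ' => hne ?_
    rw [← (h2 P (hu P hP).1 (hu P hP).2 Q hQ).2.1, (h2 P' (hu P' hP').1 (hu P' hP').2 Q hQ').2.1]

lemma exists_all [IsGalois K E] {p : Ideal (𝓞 K)} (hp : p.IsMaximal)
    (hu : Algebra.IsUnramifiedIn (𝓞 E) p) (h : Spl E p) :
    ∃ u : Finset (Ideal (𝓞 E)), u.card = finrank K E ∧
      ∀ Q ∈ u, Q.IsMaximal ∧ Q.under (𝓞 K) = p ∧ absNorm Q = absNorm p := by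
  classical
  obtain ⟨Q₀, ⟨hQ₀, hQ₀p⟩, h₀⟩ := h
  have hall : ∀ Q ∈ p.primesOver (𝓞 E), absNorm Q = absNorm p := by
    rintro Q ⟨hQ, hQp⟩
    rw [← h₀, ← Ideal.absNorm_pow_inertiaDeg p Q, ← Ideal.absNorm_pow_inertiaDeg p Q₀,
      inertiaDeg_eq_of_isGaloisGroup p Q Q₀ (E ≃ₐ[K] E)]
  have hp0 : p ≠ ⊥ := Ring.ne_bot_of_isMaximal_of_not_isField hp (RingOfIntegers.not_isField K)
  have hq : 1 < absNorm p := by
    have h0 : absNorm p ≠ 0 := by rwa [Ne, absNorm_eq_zero_iff]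
    have h1 : absNorm p ≠ 1 := by rw [Ne, absNorm_eq_one_iff]; exact hp.ne_top
    omega
  have : Fintype (p.primesOver (𝓞 E)) := Fintype.ofFinite _
  have h1 := sum_ramification_inertia_eq_finrank p (𝓞 E)
  rw [Finset.sum_congr rfl (g := fun _ => 1) fun Q _ => by
    obtain ⟨Q, hQ, hQp⟩ := Q
    have h3 := Ideal.absNorm_pow_inertiaDeg p Q
    rw [hall Q ⟨hQ, hQp⟩] at h3
    rw [hu.ramificationIdx_eq_one hQp, one_mul]
    exact Nat.pow_right_injective hq (h3.trans (pow_one _).symm), finrank_eq] at h1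
  simp only [Finset.sum_const, Finset.card_univ, smul_eq_mul, mul_one] at h1
  refine ⟨(p.primesOver (𝓞 E)).toFinset, by rw [Set.toFinset_card, h1], fun Q hQ => ?_⟩
  obtain ⟨hQ, hQp⟩ := Set.mem_toFinset.1 hQ
  exact ⟨IsMaximal.of_liesOver_isMaximal Q p, hQp.over.symm, hall Q ⟨hQ, hQp⟩⟩

end DEN1

open DEN1 in
theorem blk_DEN1 : StDen1 := by
  intro K E _ _ _ _ _ _
  have h1 : StmtDens := blockTK2b blockTK1 blockTK2a
  obtain ⟨M, hM⟩ := ((finite_ram K E).image absNorm).bddAbove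
  have hn : 0 < finrank K E := Module.finrank_pos
  have hn' : (0 : ℝ) < finrank K E := Nat.cast_pos.2 hn
  have up : ∀ s : ℝ, 1 < s → (s - 1) * PS (Spl (k := K) E) s ≤
      (s - 1) * PS (fun _ : Ideal (𝓞 E) => True) s / finrank K E +
        (s - 1) * PS (fun P : Ideal (𝓞 K) => ¬Big M P) s := by
    intro s hs
    have sK := (h1.1 K).summ s hs
    have sE := (h1.1 E).summ s hs
    have a1 := PS_add sK (A := Spl (k := K) E) (B := fun _ => False)
      (T := fun p => Big M p ∧ Spl E p) (T' := fun P => ¬Big M P)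
      (fun P _ h => (em (Big M P)).imp (fun hb => ⟨hb, h⟩) id) fun P _ h => h.elim
    have b1 := le_PS sK (fun _ => False) ∅ (by simp)
    have a2 := mul_PS_le sE (T := fun p : Ideal (𝓞 K) => Big M p ∧ Spl E p) hn
      fun p hp h => exists_all hp (by
        by_contra hu
        have := hM ⟨p, hu, rfl⟩
        have := h.1.2.2
        omega) h.2
    rw [← le_div_iff₀' hn'] at a2
    rw [Finset.sum_empty] at b1
    rw [mul_div_assoc, ← mul_add]
    exact mul_le_mul_of_nonneg_left (by linarith) (sub_pos.2 hs).le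
  have lo : ∀ s : ℝ, 1 < s → ((s - 1) * PS (fun _ : Ideal (𝓞 E) => True) s -
      (s - 1) * PS (fun P : Ideal (𝓞 E) => ¬Big 0 P) s) / finrank K E ≤
        (s - 1) * PS (Spl (k := K) E) s := by
    intro s hs
    have sK := (h1.1 K).summ s hs
    have sE := (h1.1 E).summ s hs
    have a1 := PS_add sE (A := fun _ => True) (B := fun _ => False) (T := Big 0)
      (T' := fun P => ¬Big 0 P) (fun P _ _ => em _) fun P _ h => h.elim
    have b1 := le_PS sE (fun _ => False) ∅ (by simp)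
    have a2 := PS_le_mul sK (T := Spl (k := K) E) (T' := fun R : Ideal (𝓞 E) => Big 0 R)
      (fun R => R.under (𝓞 K)) (finrank K E)
      (fun R hR hb => by
        have e := norm_eq_of_prime (p := R.under (𝓞 K)) ⟨hR.isPrime, inferInstance⟩ hb.2.1
        exact ⟨inferInstance, ⟨R, ⟨hR.isPrime, inferInstance⟩, e.symm⟩, e.symm⟩)
      fun P u hP hu => card_le P u hP hu
    rw [Finset.sum_empty] at b1
    rw [← mul_sub, mul_div_assoc]
    refine mul_le_mul_of_nonneg_left ?_ (sub_pos.2 hs).le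
    rw [div_le_iff₀' hn']
    linarith
  have t1 := ((h1.1 E).all.div_const (finrank K E : ℝ)).add ((h1.1 K).small M)
  have t2 := ((h1.1 E).all.sub ((h1.1 E).small 0)).div_const (finrank K E : ℝ)
  rw [add_zero] at t1
  rw [sub_zero] at t2
  exact tendsto_of_tendsto_of_tendsto_of_le_of_le' t2 t1 (eventually_mem_nhdsWithin.mono lo)
    (eventually_mem_nhdsWithin.mono up)

end Pool.Agent.Lib.N4
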