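import Pool.Agent.Lib.N4.Blue
import Pool.Agent.Lib.stark.TK1
import Pool.Agent.Lib.stark.TK2a
import Pool.Agent.Lib.stark.TK2b
import Pool.Agent.Lib.stark.G4

set_option autoImplicit false

open NumberField Ideal Module Filter Topology

namespace Pool.Agent.Lib.N4

open Pool.Agent.Lib.Stark Pool.Agent.Lib.Stark.TK2b

namespace DEN2

variable {K : Type} [Field K] [NumberField K]

theorem four {A B C D : Ideal (𝓞 K) → Prop} (h1 : ∀ P, P.IsMaximal → A P ∨ B P → C P ∨ D P)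
    (h2 : ∀ P, P.IsMaximal → A P → B P → C P ∧ D P) {s : ℝ} (hs : 1 < s) :
    (s - 1) * PS A s + (s - 1) * PS B s ≤ (s - 1) * PS C s + (s - 1) * PS D s := by
  rw [← mul_add, ← mul_add]
  refine mul_le_mul_of_nonneg_left ?_ (sub_pos.2 hs).le
  have S := fun T : Ideal (𝓞 K) → Prop => w_summ blockTK2a T hs
  rw [PS_eq, PS_eq, PS_eq, PS_eq, ← (S A).tsum_add (S B), ← (S C).tsum_add (S D)]
  refine ((S A).add (S B)).tsum_le_tsum (fun P => ?_) ((S C).add (S D))
  have h3 := h1 P.1 P.2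
  have h4 := h2 P.1 P.2
  have h5 := pTerm_nonneg s P.1
  unfold w
  split_ifs <;> first | linarith | (exfalso; tauto)

theorem lim {A B C D : Ideal (𝓞 K) → Prop} {a b c d : ℝ} (ha : Dens A a) (hb : Dens B b)
    (hc : Dens C c) (hd : Dens D d) (h1 : ∀ P, P.IsMaximal → A P ∨ B P → C P ∨ D P)
    (h2 : ∀ P, P.IsMaximal → A P → B P → C P ∧ D P) : a + b ≤ c + d := by
  refine le_of_tendsto_of_tendsto (Tendsto.add ha hb) (Tendsto.add hc hd) ?_
  filter_upwards [self_mem_nhdsWithin] with s hs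
  exact four h1 h2 hs

theorem empty : Dens (fun _ : Ideal (𝓞 K) => False) 0 :=
  mono blockTK2a _ _ (fun _ _ h => h.elim) (small blockTK2a 0)

theorem ker (m : Ideal (𝓞 K)) (hm : m ≠ ⊥) (B : Type) [CommGroup B] [Finite B]
    (κ : Ideal (𝓞 K) → B) (hκ : RayHom m κ) (hs : ∀ b, ∃ I, Cop m I ∧ κ I = b) :
    ∃ ρ : ℝ, ρ ≤ 1 / Nat.card B ∧ Dens (fun P => Cop m P ∧ κ P = 1) ρ := by
  classical
  have := finite_char B
  have := Fintype.ofFinite (B →* ℂˣ)
  choose k k1 _ k3 using key blockTK1 blockTK2a hm hκ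
  refine ⟨_, ?_, class_lim blockTK2a m κ 1 _ k3⟩
  rw [← Nat.card_eq_fintype_card, CommGroup.card_monoidHom_of_hasEnoughRootsOfUnity]
  refine div_le_div_of_nonneg_right ?_ (Nat.cast_nonneg _)
  rw [Complex.re_sum]
  refine (Finset.sum_le_sum (g := fun χ => if χ = 1 then 1 else 0) fun χ _ => ?_).trans_eq (by simp)
  simp only [inv_one, map_one, Units.val_one, one_mul, Complex.sub_re, Complex.one_re,
    Complex.natCast_re]
  split_ifs with h
  · linarith [(Nat.cast_nonneg (k χ) : (0 : ℝ) ≤ _)]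
  · have h1 : k χ ≠ 0 := fun h0 => h (MonoidHom.ext fun b => by
      obtain ⟨I, hI, rfl⟩ := hs b
      exact (k1 χ).1 h0 I hI)
    have : (1 : ℝ) ≤ k χ := by exact_mod_cast Nat.one_le_iff_ne_zero.2 h1
    linarith

theorem le (T T' N : Ideal (𝓞 K) → Prop) (a b : ℝ) (ha : Dens T a) (hb : Dens T' b)
    (hN : Dens N 0) (h : ∀ P, P.IsMaximal → T P → T' P ∨ N P) :
    a ≤ b ∧ (b ≤ a → Dens (fun P => T' P ∧ ¬T P) 0) := by
  have h1 : a ≤ b := by
    simpa using lim ha empty hb hN (fun P hP e => h P hP (by tauto)) (by tauto)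
  refine ⟨h1, fun h2 => ?_⟩
  have h3 := (Tendsto.add hb hN).sub ha
  rw [le_antisymm h2 h1, add_zero, sub_self] at h3
  refine squeeze_zero' ?_ ?_ h3
  · filter_upwards [self_mem_nhdsWithin] with s hs
    exact mul_nonneg (sub_pos.2 hs).le (PS_nonneg _ s)
  · filter_upwards [self_mem_nhdsWithin] with s hs
    rw [le_sub_iff_add_le]
    exact four (fun P hP e => e.elim (fun e => Or.inl e.1) (h P hP)) (by tauto) hs

theorem two (T T' N : Ideal (𝓞 K) → Prop) (a b : ℝ) (ha : Dens T a) (hb : Dens T' b)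
    (hN : Dens N 0) (h : a + b < 1) : ∃ P, P.IsMaximal ∧ ¬T P ∧ ¬T' P ∧ ¬N P := by
  by_contra hc
  have h1 := all (E := K) blockTK1 blockTK2a
  refine h.not_ge ?_
  have h2 := le_of_tendsto_of_tendsto h1 ((Tendsto.add ha hb).add hN) (by
    filter_upwards [self_mem_nhdsWithin] with s hs
    have e1 := four (A := fun _ => True) (B := fun _ => False) (C := fun P => T P ∨ T' P) (D := N)
      (fun P hP _ => by
        by_contra e
        exact hc ⟨P, hP, by tauto⟩) (by tauto) hs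
    have e2 := four (A := fun P => T P ∨ T' P) (B := fun _ => False) (C := T) (D := T')
      (by tauto) (by tauto) hs
    have e3 := mul_nonneg (sub_pos.2 hs).le (PS_nonneg (fun _ : Ideal (𝓞 K) => False) s)
    linarith)
  simpa using h2

theorem ex (T N : Ideal (𝓞 K) → Prop) (h : ¬Dens T 0) (hN : Dens N 0) :
    ∃ P, P.IsMaximal ∧ T P ∧ ¬N P := by
  by_contra hc
  exact h (mono blockTK2a _ _ (fun P hP e => by
    by_contra e'
    exact hc ⟨P, hP, e, e'⟩) hN)

theorem cop (m : Ideal (𝓞 K)) (hm : m ≠ ⊥) : Dens (fun P => ¬Cop m P) 0 := by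
  refine mono blockTK2a _ (fun P => ¬Big (absNorm m) P) (fun P hP h hb => h ⟨?_, ne_bot hP⟩)
    (small blockTK2a (absNorm m))
  by_contra e
  have h1 : m ≤ P := le_sup_right.trans (hP.eq_of_le e le_sup_left).ge
  exact hb.2.2.not_ge (Nat.le_of_dvd (Nat.pos_of_ne_zero (absNorm_eq_zero_iff.not.2 hm))
    (absNorm_dvd_absNorm_of_le h1))

theorem pull (E : Type) [Field E] [NumberField E] [Algebra K E] (T : Ideal (𝓞 K) → Prop)
    (h : Dens T 0) : Dens (fun Q : Ideal (𝓞 E) => ¬Big 0 Q ∨ T (Q.under (𝓞 K))) 0 := by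
  have h1 : Dens (fun Q : Ideal (𝓞 E) => Big 0 Q ∧ T (Q.under (𝓞 K))) 0 := by
    refine dens_of_le (g := fun s => finrank K E * PS T s) ?_ fun s hs => ?_
    · simpa [mul_left_comm] using Tendsto.const_mul (finrank K E : ℝ) h
    · refine G4.PS_le_mul (summ blockTK2a s hs) (fun Q => Q.under (𝓞 K)) _ (fun Q hQ e => ?_)
        fun P u hP hu => G4.card_le P u hP hu
      exact ⟨IsMaximal.under _ Q, e.2, (G4.norm_eq_of_prime ⟨hQ.isPrime, ⟨rfl⟩⟩ e.1.2.1).symm⟩
  exact mono blockTK2a _ _ (fun Q _ e => by tauto) (union blockTK2a _ _ (small blockTK2a 0) h1)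

end DEN2

theorem blk_DEN2 : StDen2 :=
  ⟨fun _ _ _ m hm B _ _ => DEN2.ker m hm B, fun _ _ _ => DEN2.le, fun _ _ _ => DEN2.two,
    fun _ _ _ => DEN2.ex, fun _ _ _ => DEN2.cop, fun _ E _ _ _ _ _ => DEN2.pull E⟩

end Pool.Agent.Lib.N4
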