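import Pool.Agent.Lib.N4.Blue

set_option autoImplicit false

open NumberField Ideal Module Filter
open scoped nonZeroDivisors

namespace Pool.Agent.Lib.N4

open Pool.Agent.Lib.Stark

namespace EXC

section

variable {k : Type} [Field k] [NumberField k] {H : Type} [CommGroup H] {κ : Ideal (𝓞 k) → H}

omit [NumberField k] in
lemma cop_mul {m I J : Ideal (𝓞 k)} (hI : Cop m I) (hJ : Cop m J) : Cop m (I * J) :=
  ⟨by rw [Ideal.mul_sup_eq_of_coprime_left hI.1, hJ.1], mul_ne_zero hI.2 hJ.2⟩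

omit [NumberField k] in
lemma cop_top {m : Ideal (𝓞 k)} : Cop m ⊤ := ⟨top_sup_eq _, top_ne_bot⟩

omit [NumberField k] in
lemma kap_prod {m : Ideal (𝓞 k)} (h : RayHom m κ) {α : Type} (s : Finset α)
    (f : α → Ideal (𝓞 k)) (hf : ∀ a, Cop m (f a)) :
    Cop m (∏ a ∈ s, f a) ∧ κ (∏ a ∈ s, f a) = ∏ a ∈ s, κ (f a) := by
  classical
  induction s using Finset.induction_on with
  | empty =>
    have h1 := h.mul ⊤ ⊤ cop_top cop_top
    rw [Ideal.top_mul] at h1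
    simp only [Finset.prod_empty, one_eq_top]
    exact ⟨cop_top, mul_eq_left.1 h1.symm⟩
  | insert a s ha ih =>
    rw [Finset.prod_insert ha, Finset.prod_insert ha, h.mul _ _ (hf a) ih.1, ih.2]
    exact ⟨cop_mul (hf a) ih.1, rfl⟩

lemma cop_of_norm {q : Ideal (𝓞 k)} (hp : (absNorm q).Prime) (h9 : absNorm q % 9 = 2) :
    Cop (m9 k) q := by
  have hm := isMaximal_of_prime hp
  refine (cop_m9_iff hm).2 ⟨fun h3 => hm.ne_top ?_, ne_bot_of_prime hp⟩
  have h1 := absNorm_mem q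
  obtain ⟨n, hn⟩ : ∃ n, absNorm q + 1 = n * 3 := ⟨3 * (absNorm q / 9) + 1, by omega⟩
  have h2 : (1 : 𝓞 k) = n * 3 - (absNorm q : 𝓞 k) := by
    have := congrArg (Nat.cast : ℕ → 𝓞 k) hn
    push_cast at this
    rw [← this]; ring
  rw [eq_top_iff_one, h2]
  exact q.sub_mem (q.mul_mem_left _ h3) h1

lemma coset (h : Ray κ) {I J : Ideal (𝓞 k)} (hI : Cop (m9 k) I) (hJ : Cop (m9 k) J)
    (hκ : κ I = κ J) : cl I / cl J ∈ pw 3 (ClassGroup (𝓞 k)) := by
  obtain ⟨α, β, c, c', hα, hβ, -, -, hc, hc', he⟩ := h.ker I J hI hJ hκ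
  have hα' : span {α} ≠ ⊥ := by rwa [Ne, span_singleton_eq_bot]
  have hβ' : span {β} ≠ ⊥ := by rwa [Ne, span_singleton_eq_bot]
  have h1 := congrArg cl he
  rw [cl_mul (mul_ne_zero hα' hI.2) (pow_ne_zero _ hc.2),
    cl_mul (mul_ne_zero hβ' hJ.2) (pow_ne_zero _ hc'.2), cl_mul hα' hI.2, cl_mul hβ' hJ.2,
    cl_span, cl_span, one_mul, one_mul, cl_pow, cl_pow] at h1
  refine mem_pw.2 ⟨cl c' / cl c, ?_⟩
  rw [div_pow, div_eq_div_iff_mul_eq_mul, h1, mul_comm]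

lemma card_le_np (R : Type) [Field R] [NumberField R] (y : ℝ) (A : Type) (f : A → ℕ)
    (hf : Function.Injective f)
    (h : ∀ a, (f a).Prime ∧ (f a : ℝ) ≤ y ∧ ∃ q : Ideal (𝓞 R), absNorm q = f a) :
    Nat.card A ≤ np R y := by
  choose h1 h2 g hg using h
  have := (finite_np (K := R) y).to_subtype
  rw [np, ← Nat.card_coe_set_eq]
  refine Nat.card_le_card_of_injective (fun a => (⟨g a, by
    rw [Set.mem_ofPred_eq, hg]; exact ⟨h1 a, h2 a⟩⟩ :
      {P : Ideal (𝓞 R) | (absNorm P).Prime ∧ (absNorm P : ℝ) ≤ y})) fun a b hab => hf ?_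
  rw [← hg, ← hg]
  exact congrArg absNorm (congrArg Subtype.val hab)

lemma tuples (hL : StLS) (h : Ray κ) {P : Type} [Fintype P] (q : P → Ideal (𝓞 k)) (j : ℕ)
    {y B : ℝ} (hB : 0 ≤ B) (hq : ∀ p, (absNorm (q p)).Prime ∧ absNorm (q p) % 9 = 2 ∧
      (absNorm (q p) : ℝ) ≤ y) (hi : Function.Injective fun p => absNorm (q p))
    (hC : ∀ (c : ClassGroup (𝓞 k)) (S : Finset (Ideal (𝓞 k))),
      (∀ I ∈ S, I ≠ ⊥ ∧ (absNorm I : ℝ) ≤ y ^ j ∧ cl I / c ∈ pw 3 (ClassGroup (𝓞 k))) →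
        (S.card : ℝ) * (pw 3 (ClassGroup (𝓞 k))).index ≤ B) (g : H) :
    (Nat.card {t : Fin j → P // ∏ i, κ (q (t i)) = g} : ℝ) ≤ j ^ j * B / tor 3 k := by
  classical
  have ht : (0 : ℝ) < tor 3 k := Nat.cast_pos.2 (tor_pos 3)
  by_cases hex : ∃ t₀ : Fin j → P, ∏ i, κ (q (t₀ i)) = g
  swap
  · have : IsEmpty {t : Fin j → P // ∏ i, κ (q (t i)) = g} := ⟨fun t => hex ⟨t.1, t.2⟩⟩
    rw [Nat.card_of_isEmpty, Nat.cast_zero]
    positivity
  obtain ⟨t₀, ht₀⟩ := hex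
  have hc : ∀ t : Fin j → P, Cop (m9 k) (∏ i, q (t i)) ∧ κ (∏ i, q (t i)) = ∏ i, κ (q (t i)) :=
    fun t => kap_prod h.hom _ _ fun i => cop_of_norm (hq _).1 (hq _).2.1
  set S : Finset (Ideal (𝓞 k)) :=
    (Finset.univ.filter fun t : Fin j → P => ∏ i, κ (q (t i)) = g).image fun t => ∏ i, q (t i)
    with hS
  have h1 := hL.tup k P q j (fun t => ∏ i, κ (q (t i)) = g) S (fun p => (hq p).1) hi
    fun t ht => Finset.mem_image.2 ⟨t, Finset.mem_filter.2 ⟨Finset.mem_univ _, ht⟩, rfl⟩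
  have h2 := hC (cl (∏ i, q (t₀ i))) S fun I hI => by
    obtain ⟨t, ht, rfl⟩ := Finset.mem_image.1 hI
    refine ⟨(hc t).1.2, ?_, coset h (hc t).1 (hc t₀).1 ?_⟩
    · rw [map_prod, Nat.cast_prod]
      refine (Finset.prod_le_prod (fun i _ => Nat.cast_nonneg _) fun i _ => (hq (t i)).2.2).trans ?_
      simp
    · rw [(hc t).2, (hc t₀).2, (Finset.mem_filter.1 ht).2, ht₀]
  rw [index_pw] at h2
  rw [le_div_iff₀ ht]
  have h3 : (Nat.card {t : Fin j → P // ∏ i, κ (q (t i)) = g} : ℝ) ≤ j ^ j * S.card := by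
    exact_mod_cast h1
  calc _ ≤ j ^ j * S.card * (tor 3 k : ℝ) := by gcongr
    _ = j ^ j * (S.card * (tor 3 k : ℝ)) := by ring
    _ ≤ _ := by gcongr; exact h2

lemma norm_le {a : ℂˣ} (h : a ^ 3 = 1) : ‖(a : ℂ)‖ ≤ 1 := by
  have h1 : ‖(a : ℂ)‖ ^ 3 = 1 := by
    rw [← norm_pow, ← Units.val_pow_eq_pow_val, h, Units.val_one, norm_one]
  exact ((pow_eq_one_iff_of_nonneg (norm_nonneg _) three_ne_zero).1 h1).le

end

end EXC

open EXC in
theorem blk_EXC (hI : StIdc) (hV : StVol) (hP : StPri) (hQ : StQuad) (hC : StCoset) (hL : StLS)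
    (h2 : StV2) (hS : StSet) : StExc := by
  classical
  intro η θ ε hη hθ hθ1 hε
  obtain ⟨j, hj⟩ := exists_nat_ge (2 / η)
  rw [div_le_iff₀ hη] at hj
  obtain ⟨δ, hδ, hδ1, hδ2⟩ : ∃ δ : ℝ, 0 < δ ∧ δ ≤ (1 - θ) / 2 ∧ δ * (j * η) ≤ ε / 3 := by
    refine ⟨min ((1 - θ) / 2) (ε / 3 / (j * η)), lt_min (by linarith) ?_, min_le_left _ _, ?_⟩
    · exact div_pos (by linarith) (by linarith)
    · rw [← le_div_iff₀ (by linarith)]; exact min_le_right _ _
  obtain ⟨C₁, hC₁, hom⟩ := hI.om 9 (ε / 3) (by linarith)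
  obtain ⟨C₂, hC₂, hcn⟩ := hV.cn 2 (1 / 2) (by norm_num)
  obtain ⟨C₃, hC₃, hco⟩ := hC (ε / 3) (by linarith)
  obtain ⟨y₀, hy₀⟩ := hP 9 (1 - δ) 0 (by decide) (by linarith)
  obtain ⟨D₀, hD₀⟩ : ∃ D₀ : ℝ, ∀ D ≥ D₀, 4 ≤ D ∧ y₀ ≤ D ^ η ∧ 7 ≤ (D ^ η) ^ (1 - δ - θ) := by
    refine eventually_atTop.1 ((eventually_ge_atTop 4).and
      (((tendsto_rpow_atTop hη).eventually_ge_atTop y₀).and ?_))
    exact ((tendsto_rpow_atTop (by linarith)).comp (tendsto_rpow_atTop hη)).eventually_ge_atTop 7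
  have hD4 := (hD₀ D₀ le_rfl).1
  refine ⟨C₁ * (81 * (C₂ * (4 * D₀)) + 32 ^ j * 81 * j ^ j * C₃ * 4 ^ (ε / 3)), by positivity,
    fun d hd ι _ R _ _ hR hdR hiso hnp => ?_⟩
  have hd0 : d.natAbs ≠ 0 := fun h => hd (by rw [Int.natAbs_eq_zero.1 h]; exact ⟨0, rfl⟩)
  set D : ℝ := (d.natAbs : ℝ) with hD
  have hD1 : 1 ≤ D := Nat.one_le_cast.2 (Nat.pos_of_ne_zero hd0)
  have hDp : 0 < D := by linarith
  obtain ⟨k, _, _, s, hk, hs, hdn⟩ := hQ.ex d hd
  obtain ⟨H, _, _, κ, T, _, c, φ, a, hκ, hT, hinj, ha⟩ := hS d k s hs ι R hR hdR hiso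
  have hT' : (Fintype.card T : ℝ) ≤ C₁ * D ^ (ε / 3) := by
    refine le_trans ?_ (hom _ hd0).1
    exact_mod_cast hT
  have hH : (Nat.card H : ℝ) ≤ 81 * tor 3 k := by
    have := hκ.card
    rw [hk] at this
    exact_mod_cast this
  have he3 : 1 ≤ D ^ (ε / 3) := Real.one_le_rpow hD1 (by linarith)
  have hee : D ^ ε = D ^ (ε / 3) * (D ^ (ε / 3) * D ^ (ε / 3)) := by
    rw [← Real.rpow_add hDp, ← Real.rpow_add hDp]; congr 1; ring
  -- reduction to a bound for the fibres of `c`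
  suffices hfib : ∀ t : T, (((Finset.univ.filter fun i => c i = t).image φ).card : ℝ) ≤
      (81 * (C₂ * (4 * D₀)) + 32 ^ j * 81 * j ^ j * C₃ * 4 ^ (ε / 3)) *
        (D ^ (ε / 3) * D ^ (ε / 3)) by
    have h1 : (Fintype.card ι : ℝ) =
        ∑ t : T, (((Finset.univ.filter fun i => c i = t).image φ).card : ℝ) := by
      rw [← Finset.card_univ, Finset.card_eq_sum_card_fiberwise (f := c) (t := Finset.univ)
        fun _ _ => Finset.mem_coe.2 (Finset.mem_univ _), Nat.cast_sum]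
      refine Finset.sum_congr rfl fun t _ => ?_
      rw [Finset.card_image_of_injOn]
      intro i hi i' hi' h
      exact hinj i i' ((Finset.mem_filter.1 hi).2.trans (Finset.mem_filter.1 hi').2.symm) h
    rw [h1]
    refine (Finset.sum_le_card_nsmul _ _ _ fun t _ => hfib t).trans ?_
    rw [Finset.card_univ, nsmul_eq_mul, hee]
    refine (mul_le_mul_of_nonneg_right hT' (by positivity)).trans (le_of_eq (by ring))
  intro t
  set X := (Finset.univ.filter fun i => c i = t).image φ with hX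
  have h11 : 1 ≤ D ^ (ε / 3) * D ^ (ε / 3) := one_le_mul_of_one_le_of_one_le he3 he3
  rcases lt_or_ge D D₀ with hlt | hge
  · have h1 : X.card ≤ Nat.card H := by
      rw [← CommGroup.card_monoidHom_of_hasEnoughRootsOfUnity H ℂ]
      have : Finite (H →* ℂˣ) := Nat.finite_of_card_ne_zero (by
        rw [CommGroup.card_monoidHom_of_hasEnoughRootsOfUnity H ℂ]; exact Nat.card_pos.ne')
      rw [← Nat.card_eq_finsetCard]
      exact Nat.card_le_card_of_injective _ Subtype.val_injective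
    have h3 : (tor 3 k : ℝ) ≤ C₂ * (4 * D₀) := by
      have h4 := hcn k hk
      rw [add_halves, Real.rpow_one] at h4
      refine ((Nat.cast_le.2 gt_le_card).trans h4).trans ?_
      gcongr
      linarith
    calc (X.card : ℝ) ≤ 81 * (C₂ * (4 * D₀)) := by
          refine ((Nat.cast_le.2 h1).trans hH).trans ?_
          gcongr
      _ ≤ _ := by
          refine le_trans ?_ (le_mul_of_one_le_right (by positivity) h11)
          exact le_add_of_nonneg_right (by positivity)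
  rcases X.eq_empty_or_nonempty with hE | ⟨φ₀, hφ₀⟩
  · rw [hE, Finset.card_empty, Nat.cast_zero]; positivity
  obtain ⟨i₀, hi₀, -⟩ := Finset.mem_image.1 hφ₀
  obtain ⟨h4, hy, h7⟩ := hD₀ D hge
  set y := D ^ η with hyd
  have hy1 : 1 ≤ y := Real.one_le_rpow hD1 hη.le
  have hyp : 0 < y := by linarith
  obtain ⟨S₀, hS₀, hS₁⟩ := hy₀ y hy 1 one_ne_zero (by simp)
  have hnp' : ∀ i, (np (R i) y : ℝ) ≤ y ^ θ := fun i => by
    rw [hyd, ← Real.rpow_mul hDp.le]; exact (hnp i).le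
  have h7' : 7 * y ^ θ ≤ y ^ (1 - δ) := by
    have : y ^ (1 - δ) = y ^ (1 - δ - θ) * y ^ θ := by
      rw [← Real.rpow_add hyp]; congr 1; ring
    rw [this]
    gcongr
  set P₀ := S₀.filter fun p => ∃ q : Ideal (𝓞 k), absNorm q = p with hP₀
  have hq' : ∀ p : P₀, ∃ q : Ideal (𝓞 k), absNorm q = p := fun p => (Finset.mem_filter.1 p.2).2
  choose q hq using hq'
  have hq1 : ∀ p : P₀, (absNorm (q p)).Prime ∧ absNorm (q p) % 9 = 2 ∧
      (absNorm (q p) : ℝ) ≤ y := fun p => by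
    obtain ⟨a1, a2, a3, -⟩ := hS₁ p (Finset.mem_filter.1 p.2).1
    rw [hq]; exact ⟨a1, a3, a2⟩
  have hqi : Function.Injective fun p => absNorm (q p) := fun p p' h =>
    Subtype.ext (by rw [← hq, ← hq]; exact h)
  have hcard : y ^ (1 - δ) - y ^ θ ≤ Fintype.card P₀ := by
    have h1 := card_le_np (R i₀) y
      (S₀.filter fun p => ¬∃ q : Ideal (𝓞 k), absNorm q = p) _ Subtype.val_injective fun p => by
        obtain ⟨a0, a1⟩ := Finset.mem_filter.1 p.2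
        obtain ⟨a2, a3, -⟩ := hS₁ p a0
        exact ⟨a2, a3, (h2.inert k (R i₀) s (hR i₀) (by rw [hdR]; exact hs) p a2).resolve_left a1⟩
    rw [Nat.card_eq_finsetCard] at h1
    have h3 := Finset.card_filter_add_card_filter_not (s := S₀)
      fun p => ∃ q : Ideal (𝓞 k), absNorm q = p
    have h5 : (S₀.card : ℝ) ≤ P₀.card + np (R i₀) y := by
      rw [← h3]; push_cast; gcongr
    rw [Fintype.card_coe]
    linarith [hnp' i₀]
  have hθp : 0 < y ^ θ := Real.rpow_pos_of_pos hyp _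
  have hhalf : y ^ (1 - δ) / 2 ≤ Fintype.card P₀ := by linarith
  have : Nonempty P₀ := Fintype.card_pos_iff.1 (Nat.cast_pos.1 (by linarith : (0 : ℝ) < _))
  have hyj : y ^ j = D ^ (j * η) := by
    rw [hyd, ← Real.rpow_natCast, ← Real.rpow_mul hDp.le, mul_comm]
  have hdy : dn k ≤ y ^ j := by
    rw [hyj]
    refine hdn.trans (le_trans ?_ (Real.rpow_le_rpow_of_exponent_le hD1 hj))
    rw [Real.rpow_two]; nlinarith
  have hdp := dn_pos (K := k)
  have hls := hL.ls H P₀ (fun p => κ (q p)) (fun p => (a t (q p) : ℂ)) X j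
    (j ^ j * (C₃ * dn k ^ (ε / 3) * y ^ j) / tor 3 k)
    (fun p => norm_le (by
      rw [← (Finset.mem_filter.1 hi₀).2]; exact (ha i₀ _ (hq1 p).1 (hq1 p).2.1).1))
    (fun ψ hψ => by
      obtain ⟨i, hi, rfl⟩ := Finset.mem_image.1 hψ
      have hi' := (Finset.mem_filter.1 hi).2
      have h1 := card_le_np (R i) y {p : P₀ // a (c i) (q p) * φ i (κ (q p)) = 1}
        (fun p => absNorm (q p.1)) (hqi.comp Subtype.val_injective) fun p =>
          ⟨(hq1 _).1, (hq1 _).2.2, (ha i _ (hq1 _).1 (hq1 _).2.1).2 p.2⟩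
      have h3 := hL.re P₀ (fun p => a (c i) (q p) * φ i (κ (q p))) (fun p => by
        rw [mul_pow, (ha i _ (hq1 p).1 (hq1 p).2.1).1, hκ.cub (φ i), one_mul]) (by
          have h5 : (6 * Nat.card {p : P₀ // a (c i) (q p) * φ i (κ (q p)) = 1} : ℝ) ≤
              Fintype.card P₀ := by
            have := (Nat.cast_le (α := ℝ)).2 h1
            linarith [hnp' i]
          exact_mod_cast h5)
      simpa only [Units.val_mul, hi'] using h3)
    (tuples hL hκ q j (by positivity) hq1 hqi fun c' S hS' => hco k hk _ c' _ hdy S hS')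
  have ht : (0 : ℝ) < tor 3 k := Nat.cast_pos.2 (tor_pos 3)
  have hz : 0 < (y ^ (1 - δ)) ^ j := by positivity
  have hsplit : y ^ j ≤ (y ^ (1 - δ)) ^ j * D ^ (ε / 3) := by
    have h1 : y ^ j = (y ^ (1 - δ)) ^ j * D ^ (δ * (j * η)) := by
      rw [mul_comm δ, Real.rpow_mul hDp.le, ← hyj, ← Real.rpow_natCast, ← Real.rpow_natCast,
        ← Real.rpow_mul hyp.le, ← Real.rpow_mul hyp.le, ← Real.rpow_add hyp]
      congr 1; ring
    rw [h1]
    gcongr
  have hdn' : dn k ^ (ε / 3) ≤ 4 ^ (ε / 3) * D ^ (ε / 3) := by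
    rw [← Real.mul_rpow (by norm_num) hDp.le]
    exact Real.rpow_le_rpow hdp.le hdn (by linarith)
  have hmain : (X.card : ℝ) * (y ^ (1 - δ) / 2) ^ j ≤
      16 ^ j * 81 * (j ^ j * (C₃ * (4 ^ (ε / 3) * D ^ (ε / 3)) *
        ((y ^ (1 - δ)) ^ j * D ^ (ε / 3)))) := by
    calc _ ≤ (X.card : ℝ) * (Fintype.card P₀ : ℝ) ^ j := by gcongr
      _ ≤ _ := hls
      _ ≤ 16 ^ j * (81 * tor 3 k) * (j ^ j * (C₃ * dn k ^ (ε / 3) * y ^ j) / tor 3 k) := by gcongr
      _ = 16 ^ j * 81 * (j ^ j * (C₃ * dn k ^ (ε / 3) * y ^ j)) := by field_simp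
      _ ≤ _ := by gcongr
  have hfin : (X.card : ℝ) ≤ 32 ^ j * 81 * j ^ j * C₃ * 4 ^ (ε / 3) *
      (D ^ (ε / 3) * D ^ (ε / 3)) := by
    rw [div_pow, ← mul_div_assoc, div_le_iff₀ (by positivity)] at hmain
    refine le_of_mul_le_mul_right (hmain.trans (le_of_eq ?_)) hz
    rw [show (32 : ℝ) = 16 * 2 by norm_num, mul_pow]
    ring
  refine hfin.trans ?_
  gcongr
  exact le_add_of_nonneg_left (by positivity)

end Pool.Agent.Lib.N4
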