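import Pool.Agent.Lib.N4.Blue

set_option autoImplicit false

open NumberField Ideal Module
open scoped nonZeroDivisors

namespace Pool.Agent.Lib.N4

namespace FAM

lemma size (hS : StSet) (d : ℤ) (k : Type) [Field k] [NumberField k] (s : k) (hs : Sq d s)
    (ι : Type) [Fintype ι] (R : ι → Type) [∀ i, Field (R i)] [∀ i, NumberField (R i)]
    (h1 : ∀ i, finrank ℚ (R i) = 3) (h2 : ∀ i, discr (R i) = d)
    (h3 : ∀ i j, i ≠ j → IsEmpty (R i ≃+* R j)) :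
    Fintype.card ι ≤ 9 ^ om d.natAbs * (9 ^ finrank ℚ k * tor 3 k) := by
  obtain ⟨H, _, _, κ, T, _, c, φ, a, hκ, hT, hi, -⟩ := hS d k s hs ι R h1 h2 h3
  have e := CommGroup.card_monoidHom_of_hasEnoughRootsOfUnity H ℂ
  have : Finite (H →* ℂˣ) := Nat.finite_of_card_ne_zero (e ▸ Nat.card_pos.ne')
  have h4 := Nat.card_le_card_of_injective (fun i => (c i, φ i)) fun i j h =>
    hi i j (congrArg Prod.fst h) (congrArg Prod.snd h)
  rw [Nat.card_prod, e, Nat.card_eq_fintype_card, Nat.card_eq_fintype_card (α := T)] at h4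
  exact h4.trans (Nat.mul_le_mul hT hκ.card)

end FAM

open FAM in
theorem blk_FAM (hI : StIdc) (hT : StTS) (hQ : StQuad) (hC : StC2) (hS : StSet) (hE : StExc)
    (hG : StGer) : StFam := by
  classical
  intro ε hε
  obtain ⟨g, hg0, hg1, hg2⟩ : ∃ g : ℝ, 0 < g ∧ g ≤ 1 / 2 ∧ g ≤ 3 * ε :=
    ⟨min (1 / 2) (3 * ε), by positivity, min_le_left _ _, min_le_right _ _⟩
  obtain ⟨η, hη, hT⟩ := hT 3 6 (1 - g) (ε / 4) (by norm_num) (by linarith) (by positivity)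
  obtain ⟨CT, hCT, hT⟩ := hT η hη le_rfl
  obtain ⟨CE, hCE, hE⟩ := hE η (1 - g) ε hη (by linarith) (by linarith) hε
  obtain ⟨C2, hC2, hC⟩ := hC
  obtain ⟨Co, hCo, ho⟩ := hI.om 81 (ε / 2) (by positivity)
  refine ⟨9 * Co * C2 + CE * C2 + 81 * 27 * Co * CT, by positivity,
    fun d ι _ R _ _ h1 h2 h3 => ?_⟩
  rcases isEmpty_or_nonempty ι with hι | ⟨⟨i₀⟩⟩
  · rw [Finset.univ_eq_empty, Finset.sum_empty]; positivity
  have hd : d.natAbs ≠ 0 := Int.natAbs_ne_zero.2 (h2 i₀ ▸ discr_ne_zero (R i₀))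
  have hdn : ∀ i, dn (R i) = d.natAbs := fun i => by rw [dn, h2]
  obtain ⟨ho, -⟩ := ho _ hd
  have hD1 : (1 : ℝ) ≤ d.natAbs := Nat.one_le_cast.2 (Nat.pos_of_ne_zero hd)
  have h2' : ∀ i, (tor 2 (R i) : ℝ) ≤ C2 * (d.natAbs : ℝ) ^ (5 / 12 : ℝ) := fun i =>
    hdn i ▸ hC (R i) (h1 i)
  have hsum : ∀ (s : Finset ι) (M : ℝ), (s.card : ℝ) ≤ M * (d.natAbs : ℝ) ^ ε →
      ∑ i ∈ s, (tor 2 (R i) : ℝ) ≤ M * C2 * (d.natAbs : ℝ) ^ (5 / 12 + ε) := fun s M h => by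
    refine (Finset.sum_le_card_nsmul s _ _ fun i _ => h2' i).trans ?_
    rw [nsmul_eq_mul, Real.rpow_add (by linarith)]
    refine (mul_le_mul_of_nonneg_right h (by positivity)).trans (le_of_eq (by ring))
  have h9 : (9 : ℝ) ^ om d.natAbs * 9 ^ om d.natAbs ≤ Co * (d.natAbs : ℝ) ^ (ε / 2) := by
    rw [← mul_pow]; exact_mod_cast ho
  have h9' : (1 : ℝ) ≤ 9 ^ om d.natAbs := one_le_pow₀ (by norm_num)
  have hpos : 0 ≤ (d.natAbs : ℝ) ^ (5 / 12 + ε) := by positivity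
  rw [add_mul, add_mul]
  by_cases hsq : IsSquare d
  · obtain ⟨r, hr⟩ := hsq
    have h4 := size hS d ℚ (r : ℚ) ⟨by rw [hr]; push_cast; ring, fun y => ⟨y, 0, by simp⟩⟩ ι R
      h1 h2 h3
    rw [hQ.rat, finrank_self, pow_one, mul_one] at h4
    have h5 : (Fintype.card ι : ℝ) ≤ 9 ^ om d.natAbs * 9 := by exact_mod_cast h4
    have h6 : (d.natAbs : ℝ) ^ (ε / 2) ≤ (d.natAbs : ℝ) ^ ε :=
      Real.rpow_le_rpow_of_exponent_le hD1 (by linarith)
    refine le_add_of_le_of_nonneg (le_add_of_le_of_nonneg (hsum _ _ ?_) (by positivity))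
      (by positivity)
    rw [Finset.card_univ]
    nlinarith [mul_le_mul_of_nonneg_left h6 hCo.le]
  obtain ⟨k, _, _, s, hk, hs, -⟩ := hQ.ex d hsq
  have h4 := size hS d k s hs ι R h1 h2 h3
  rw [hk] at h4
  have h5 : (Fintype.card ι : ℝ) ≤ 9 ^ om d.natAbs * (81 * tor 3 k) := by exact_mod_cast h4
  let X : ι → Prop := fun i => (np (R i) ((d.natAbs : ℝ) ^ η) : ℝ) < (d.natAbs : ℝ) ^ (η * (1 - g))
  rw [← Finset.sum_filter_add_sum_filter_not Finset.univ X]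
  refine add_le_add (le_add_of_nonneg_of_le (by positivity) (hsum _ _ ?_)) ?_
  · rw [← Fintype.card_subtype]
    exact hE d hsq {i // X i} (fun i => R i) (fun i => h1 i) (fun i => h2 i)
      (fun i j h => h3 i j fun e => h (Subtype.ext e)) fun i => i.2
  have ht : (0 : ℝ) < tor 3 k := Nat.cast_pos.2 (tor_pos 3)
  have h6 : ∀ i ∈ Finset.univ.filter fun i => ¬X i, (tor 2 (R i) : ℝ) ≤
      27 * 9 ^ om d.natAbs * (CT * (d.natAbs : ℝ) ^ (5 / 12 + ε / 2)) / tor 3 k := fun i hi => by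
    have h7 := hT (R i) (h1 i) (by rw [hdn]; exact not_lt.1 (Finset.mem_filter.1 hi).2)
    have h8 := hG k (R i) s hk (h1 i) (h2 i ▸ hs)
    rw [h2] at h8
    have h10 : (tor 3 k : ℝ) ≤ 27 * 9 ^ om d.natAbs * tor 3 (R i) := by exact_mod_cast h8
    have h11 : (tor 2 (R i) : ℝ) * tor 3 (R i) ≤ tor 6 (R i) := by
      exact_mod_cast gt_two_mul_three (A := ClassGroup (𝓞 (R i)))
    have h12 : (d.natAbs : ℝ) ^ (1 / 2 - (1 - g) / (2 * (6 : ℕ)) + ε / 4) ≤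
        (d.natAbs : ℝ) ^ (5 / 12 + ε / 2) :=
      Real.rpow_le_rpow_of_exponent_le hD1 (by push_cast; linarith)
    rw [hdn] at h7
    rw [le_div_iff₀ ht]
    refine (mul_le_mul_of_nonneg_left h10 (Nat.cast_nonneg _)).trans ?_
    rw [mul_left_comm]
    exact mul_le_mul_of_nonneg_left
      (h11.trans (h7.trans (mul_le_mul_of_nonneg_left h12 hCT.le))) (by positivity)
  refine (Finset.sum_le_card_nsmul _ _ _ h6).trans ?_
  have h7 : ((Finset.univ.filter fun i => ¬X i).card : ℝ) ≤ 9 ^ om d.natAbs * (81 * tor 3 k) :=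
    (Nat.cast_le.2 (Finset.card_le_univ _)).trans h5
  rw [nsmul_eq_mul, show 5 / 12 + ε = ε / 2 + (5 / 12 + ε / 2) by ring,
    Real.rpow_add (by linarith) (ε / 2)]
  refine (mul_le_mul_of_nonneg_right h7 (by positivity)).trans ?_
  have h8 := mul_le_mul_of_nonneg_right h9
    (show 0 ≤ 81 * 27 * CT * (d.natAbs : ℝ) ^ (5 / 12 + ε / 2) by positivity)
  refine le_trans (le_of_eq ?_) (h8.trans (le_of_eq (by ring)))
  field_simp

end Pool.Agent.Lib.N4
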