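import Pool.Agent.Lib.N4.Blue

set_option autoImplicit false

namespace Pool.Agent.Lib.N4

theorem blk_GALG : StGalg := by
  intro A B C _ _ _ _ _ τ s N n i F h3 hs hN hNs hi hF
  let lam : A →* A := τ / MonoidHom.id A
  have hl : ∀ a, lam a = τ a / a := fun _ => rfl
  let u : A →* A := MonoidHom.id A * s * τ.comp s
  have hu : ∀ a, u a = a * s a * τ (s a) := fun _ => rfl
  have e1 : ∀ a, lam a ^ 3 = lam (lam (τ a * a ^ 2)⁻¹) := fun a => by
    simp only [hl, map_div, map_inv, map_mul, map_pow, h3]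
    apply Additive.ofMul.injective
    simp only [ofMul_pow, ofMul_div, ofMul_inv, ofMul_mul]
    abel
  have e2 : ∀ a, i (n (lam a)) = lam (u a) := fun a => by
    simp only [hi, hl, hu, map_div, map_mul, hs]
    apply Additive.ofMul.injective
    simp only [ofMul_div, ofMul_mul]
    abel
  have e3 : ∀ a, N (u a) = (N a)⁻¹ := fun a => by
    rw [hu, map_mul, map_mul, hN, hNs, one_mul, eq_inv_iff_mul_eq_one, mul_comm, hNs]
  have e4 : ∀ a c, n (lam a) = n (lam c) ^ 3 → ∃ f ∈ F, (N a)⁻¹ / f ∈ pw 3 B := fun a c h => by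
    rw [← map_pow, e1] at h
    have h1 := congrArg i h
    rw [e2, e2] at h1
    have h2 : lam (u a / u (lam (τ c * c ^ 2)⁻¹)) = 1 := by rw [map_div, h1, div_self']
    obtain ⟨f, hf, hf'⟩ := hF _ (div_eq_one.1 h2)
    refine ⟨f, hf, ?_⟩
    rwa [map_div, e3, e3, hl, map_div, hN, div_self', inv_one, div_one] at hf'
  let S : Subgroup C := (n.comp lam).range
  let φ : A →* S ⧸ pw 3 S := (QuotientGroup.mk' _).comp (n.comp lam).rangeRestrict
  have hφ : Function.Surjective φ :=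
    (QuotientGroup.mk'_surjective _).comp (n.comp lam).rangeRestrict_surjective
  choose r hr using hφ
  let g : (B ⧸ N.range) × F × (S ⧸ pw 3 S) → B ⧸ pw 3 B := fun x =>
    QuotientGroup.mk (x.1.out * N (r x.2.2) / x.2.1)
  have hg : Function.Surjective g := by
    intro y
    obtain ⟨b, rfl⟩ := QuotientGroup.mk_surjective y
    obtain ⟨⟨_, a, rfl⟩, ha⟩ := QuotientGroup.mk_out_eq_mul N.range b
    have h1 : φ (a⁻¹ / r (φ a⁻¹)) = 1 := by rw [map_div, hr, div_self']
    obtain ⟨⟨_, c, rfl⟩, hc⟩ := (QuotientGroup.eq_one_iff _).1 h1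
    obtain ⟨f, hf, hf'⟩ := e4 (a⁻¹ / r (φ a⁻¹)) c (congrArg Subtype.val hc).symm
    refine ⟨(QuotientGroup.mk b, ⟨f, hf⟩, φ a⁻¹), (QuotientGroup.eq.2 ?_).symm⟩
    simp only [ha]
    rw [map_div, map_inv] at hf'
    have : b⁻¹ * (b * N a * N (r (φ a⁻¹)) / f) = ((N a)⁻¹ / N (r (φ a⁻¹)))⁻¹ / f := by
      apply Additive.ofMul.injective
      simp only [ofMul_div, ofMul_inv, ofMul_mul]
      abel
    rwa [this]
  haveI : Finite (B ⧸ N.range) := inferInstance
  have h1 := Nat.card_le_card_of_surjective g hg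
  rw [Nat.card_prod, Nat.card_prod, Nat.card_eq_finsetCard, ← Subgroup.index_eq_card,
    ← Subgroup.index_eq_card, ← Subgroup.index_eq_card, index_pw, index_pw, ← mul_assoc] at h1
  exact h1.trans (Nat.mul_le_mul_left _ (gt_subgroup_le S))

end Pool.Agent.Lib.N4
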