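import Pool.Agent.Lib.N4.Blue

set_option autoImplicit false

open NumberField Ideal Module
open scoped nonZeroDivisors Pointwise

namespace Pool.Agent.Lib.N4

namespace GAMB

section Grp

variable {A : Type} [CommGroup A] {ι : Type} [Fintype ι]

/-- Products of the `g i` modulo cubes. -/
def Gd (g : ι → A) (c : A) : Prop := ∃ e : ι → ℕ, c / ∏ i, g i ^ e i ∈ pw 3 A

lemma gd_of_mem (g : ι → A) {c : A} (h : c ∈ pw 3 A) : Gd g c := ⟨0, by simpa using h⟩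

lemma Gd.mul {g : ι → A} {a b : A} (ha : Gd g a) (hb : Gd g b) : Gd g (a * b) := by
  obtain ⟨e, he⟩ := ha
  obtain ⟨f, hf⟩ := hb
  refine ⟨e + f, ?_⟩
  simp only [Pi.add_apply, pow_add, Finset.prod_mul_distrib]
  rw [mul_div_mul_comm]
  exact mul_mem he hf

lemma gd_pow (g : ι → A) (i : ι) (n : ℕ) : Gd g (g i ^ n) := by
  classical
  refine ⟨Pi.single i n, ?_⟩
  rw [Finset.prod_eq_single i]
  · simp
  · intro j _ hj
    rw [Pi.single_eq_of_ne hj, pow_zero]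
  · simp

lemma Gd.fin {g : ι → A} {c : A} (h : Gd g c) :
    ∃ e : ι → Fin 3, c / ∏ i, g i ^ (e i : ℕ) ∈ pw 3 A := by
  obtain ⟨e, he⟩ := h
  refine ⟨fun i => ⟨e i % 3, Nat.mod_lt _ (by norm_num)⟩, ?_⟩
  have h1 : ∏ i, g i ^ e i = (∏ i, g i ^ (e i / 3)) ^ 3 * ∏ i, g i ^ (e i % 3) := by
    rw [← Finset.prod_pow, ← Finset.prod_mul_distrib]
    refine Finset.prod_congr rfl fun i _ => ?_
    rw [← pow_mul, ← pow_add, mul_comm, Nat.div_add_mod]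
  have h2 := mul_mem he (pow_mem_pw (l := 3) (∏ i, g i ^ (e i / 3)))
  rw [h1] at h2
  convert h2 using 1
  simp only
  rw [div_mul_eq_div_div_swap, div_mul_cancel]

end Grp

variable {k L : Type} [Field k] [NumberField k] [Field L] [NumberField L] [Algebra k L]

lemma relNorm_ne {I : Ideal (𝓞 L)} (h : I ≠ ⊥) : relNorm (𝓞 k) I ≠ ⊥ :=
  fun h1 => h (relNorm_eq_bot_iff.1 h1)

/-- The classes of the primes containing `N`. -/
noncomputable def gen (T : Finset (Ideal (𝓞 k))) (p : T) : ClassGroup (𝓞 k) := cl p.1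

lemma gd_ram {N : ℤ} {T : Finset (Ideal (𝓞 k))}
    (hT : ∀ p : Ideal (𝓞 k), p.IsMaximal → (N : 𝓞 k) ∈ p → p ∈ T) (J : Ideal (𝓞 L)) :
    J ≠ ⊥ → (∀ P : Ideal (𝓞 L), P.IsMaximal → J ≤ P → (N : 𝓞 L) ∈ P) →
      Gd (gen T) (cl (relNorm (𝓞 k) J)) := by
  induction J using UniqueFactorizationMonoid.induction_on_prime with
  | h₁ => exact fun h => absurd rfl h
  | h₂ J hJ =>
    intro _ _
    rw [Ideal.isUnit_iff.1 hJ, relNorm_top, cl_top]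
    exact gd_of_mem _ (one_mem _)
  | h₃ J P hJ hP ih =>
    intro _ h
    have hP0 : P ≠ ⊥ := hP.ne_zero
    have hPp : P.IsPrime := Ideal.isPrime_of_prime hP
    have hPm : P.IsMaximal := hPp.isMaximal hP0
    rw [map_mul, cl_mul (relNorm_ne hP0) (relNorm_ne hJ)]
    refine Gd.mul ?_ (ih hJ fun Q hQ hJQ => h Q hQ (Ideal.mul_le_right.trans hJQ))
    obtain ⟨s, hs⟩ := exists_relNorm_eq_pow_of_isPrime P (P.under (𝓞 k))
    have hN : (N : 𝓞 k) ∈ P.under (𝓞 k) := by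
      rw [Ideal.under_def, Ideal.mem_comap, map_intCast]
      exact h P hPm Ideal.mul_le_left
    rw [hs, cl_pow]
    exact gd_pow (gen T) ⟨_, hT _ inferInstance hN⟩ s

variable [IsGalois k L]

lemma map_dvd {N : ℤ}
    (hu : ∀ P : Ideal (𝓞 L), P.IsMaximal → (N : 𝓞 L) ∉ P → P.inertia (L ≃ₐ[k] L) = ⊥)
    {J P : Ideal (𝓞 L)} (hJ : ∀ σ : L ≃ₐ[k] L, σ • J = J) [hP : P.IsMaximal] (hJP : J ≤ P)
    (hN : (N : 𝓞 L) ∉ P) : (P.under (𝓞 k)).map (algebraMap (𝓞 k) (𝓞 L)) ∣ J := by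
  have hP0 : P ≠ ⊥ := Ring.ne_bot_of_isMaximal_of_not_isField hP (RingOfIntegers.not_isField L)
  set p := P.under (𝓞 k) with hp
  have hp0 : p ≠ 0 := Ideal.under_ne_bot (𝓞 k) hP0
  rw [Ideal.map_algebraMap_eq_finsetProd_pow hp0]
  have h1 : ∀ Q ∈ (p.primesOver (𝓞 L)).toFinset, Q ^ Q.ramificationIdx (𝓞 k) = Q := by
    intro Q hQ
    rw [Set.mem_toFinset] at hQ
    have := hQ.1
    have := hQ.2
    have hQm : Q.IsMaximal := IsMaximal.of_liesOver_isMaximal Q p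
    have hNQ : (N : 𝓞 L) ∉ Q := by
      intro h
      apply hN
      rw [← map_intCast (algebraMap (𝓞 k) (𝓞 L))] at h ⊢
      exact (Ideal.mem_of_liesOver P p _).1 ((Ideal.mem_of_liesOver Q p _).2 h)
    rw [← Ideal.ramificationIdxIn_eq_ramificationIdx p Q (L ≃ₐ[k] L),
      ← Ideal.card_inertia_eq_ramificationIdxIn (G := L ≃ₐ[k] L) p Q, hu Q hQm hNQ,
      Subgroup.card_bot, pow_one]
  rw [Finset.prod_congr rfl h1]
  refine Finset.prod_primes_dvd J (fun Q hQ => ?_) fun Q hQ => ?_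
  · rw [Set.mem_toFinset] at hQ
    have := hQ.2
    exact Ideal.prime_of_isPrime (Ideal.ne_bot_of_liesOver_of_ne_bot hp0 Q) hQ.1
  · rw [Set.mem_toFinset] at hQ
    have := hQ.1
    have := hQ.2
    obtain ⟨σ, rfl⟩ := Ideal.exists_smul_eq_of_isGaloisGroup p P Q (L ≃ₐ[k] L)
    rw [Ideal.dvd_iff_le, ← hJ σ]
    exact Ideal.pointwise_smul_le_pointwise_smul_iff.2 hJP

omit [NumberField k] [NumberField L] [IsGalois k L] in
lemma smul_map (σ : L ≃ₐ[k] L) (p : Ideal (𝓞 k)) :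
    σ • p.map (algebraMap (𝓞 k) (𝓞 L)) = p.map (algebraMap (𝓞 k) (𝓞 L)) := by
  rw [Ideal.pointwise_smul_def, Ideal.map_map]
  congr 1
  ext x
  exact σ.commutes (x : k)

lemma gd_inv {N : ℤ} {T : Finset (Ideal (𝓞 k))} (h3 : finrank k L = 3)
    (hT : ∀ p : Ideal (𝓞 k), p.IsMaximal → (N : 𝓞 k) ∈ p → p ∈ T)
    (hu : ∀ P : Ideal (𝓞 L), P.IsMaximal → (N : 𝓞 L) ∉ P → P.inertia (L ≃ₐ[k] L) = ⊥)
    (J : Ideal (𝓞 L)) : J ≠ ⊥ → (∀ σ : L ≃ₐ[k] L, σ • J = J) →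
      Gd (gen T) (cl (relNorm (𝓞 k) J)) := by
  induction J using (wellFounded_gt (α := Ideal (𝓞 L))).induction with
  | _ J ih =>
  intro hJ0 hJ
  by_cases h : ∀ P : Ideal (𝓞 L), P.IsMaximal → J ≤ P → (N : 𝓞 L) ∈ P
  · exact gd_ram hT J hJ0 h
  push Not at h
  obtain ⟨P, hP, hJP, hN⟩ := h
  obtain ⟨J', hJ'⟩ := map_dvd hu hJ hJP hN
  have hP0 : P ≠ ⊥ := Ring.ne_bot_of_isMaximal_of_not_isField hP (RingOfIntegers.not_isField L)
  set p := P.under (𝓞 k) with hp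
  have hp0 : p ≠ ⊥ := Ideal.under_ne_bot (𝓞 k) hP0
  set M := p.map (algebraMap (𝓞 k) (𝓞 L)) with hM
  have hM0 : M ≠ 0 := Ideal.map_ne_bot_of_ne_bot hp0
  have hJ'0 : J' ≠ ⊥ := by
    rintro rfl
    exact hJ0 (by rw [hJ', Ideal.mul_bot])
  have hlt : J' > J := by
    refine lt_of_le_of_ne (by rw [hJ']; exact Ideal.mul_le_right) fun h => ?_
    have h1 : M * J' = 1 * J' := by rw [← hJ', one_mul, h]
    have h2 : M = 1 := mul_right_cancel₀ hJ'0 h1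
    have h4 : M ≤ P := Ideal.map_comap_le
    rw [h2, one_eq_top, top_le_iff] at h4
    exact hP.ne_top h4
  have hinv : ∀ σ : L ≃ₐ[k] L, σ • J' = J' := by
    intro σ
    have h1 := hJ σ
    rw [hJ', smul_mul', hM, smul_map, ← hM] at h1
    exact mul_left_cancel₀ hM0 h1
  have hr : finrank (𝓞 k) (𝓞 L) = 3 := by
    rw [← h3]
    exact (IsFractionRing.finrank_eq (𝓞 k) k (𝓞 L) L).symm
  rw [hJ', map_mul, cl_mul (relNorm_ne hM0) (relNorm_ne hJ'0), hM, relNorm_algebraMap, hr, cl_pow]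
  exact (gd_of_mem _ (pow_mem_pw _)).mul (ih J' hlt hJ'0 hinv)

/-- The unit attached to an ambiguous class. -/
def Has (τ : L ≃ₐ[k] L) (v : (𝓞 k)ˣ) (I : Ideal (𝓞 L)) : Prop :=
  I ≠ ⊥ ∧ ∃ x y : 𝓞 L, x ≠ 0 ∧ y ≠ 0 ∧ span {x} * τ • I = span {y} * I ∧
    Algebra.norm k (y : L) = Algebra.norm k (x : L) * ((v : 𝓞 k) : k)

omit [IsGalois k L] in
lemma norm_unit (h3 : finrank k L = 3) (w : 𝓞 k) :
    Algebra.norm k ((algebraMap (𝓞 k) (𝓞 L) w : 𝓞 L) : L) = (w : k) ^ 3 := by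
  rw [← h3, ← Algebra.norm_algebraMap (S := L)]
  rfl

omit [NumberField k] [NumberField L] [IsGalois k L] in
lemma span_unit (x : 𝓞 L) (w : (𝓞 k)ˣ) :
    span {x * algebraMap (𝓞 k) (𝓞 L) w} = span {x} :=
  Ideal.span_singleton_mul_right_unit (w.isUnit.map _) x

lemma exists_has (h3 : finrank k L = 3) (τ : L ≃ₐ[k] L) {U : Finset (𝓞 k)ˣ}
    (hU : ∀ u : (𝓞 k)ˣ, ∃ v ∈ U, ∃ w : (𝓞 k)ˣ, u = v * w ^ 3) {I : Ideal (𝓞 L)} (hI : I ≠ ⊥)
    (h : cl (τ • I) = cl I) : ∃ v ∈ U, Has τ v I := by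
  have hτ : τ • I ≠ ⊥ := by
    intro h1
    apply relNorm_ne (k := k) hI
    rw [← relNorm_smul (𝓞 k) τ, h1, relNorm_bot]
  obtain ⟨x, y, hx, hy, hxy⟩ := (cl_eq_cl_iff hτ hI).1 h
  have h1 := congrArg (relNorm (𝓞 k)) hxy
  rw [map_mul, map_mul, relNorm_smul, relNorm_singleton, relNorm_singleton] at h1
  obtain ⟨u, hu⟩ := Ideal.span_singleton_eq_span_singleton.1
    (mul_right_cancel₀ (relNorm_ne hI) h1)
  obtain ⟨v, hv, w, rfl⟩ := hU u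
  refine ⟨v, hv, hI, x * algebraMap (𝓞 k) (𝓞 L) w, y,
    mul_ne_zero hx (w.isUnit.map _).ne_zero, hy, by rw [span_unit, hxy], ?_⟩
  have h2 := congrArg (algebraMap (𝓞 k) k) hu
  rw [map_mul, Algebra.algebraMap_intNorm (L := L), Algebra.algebraMap_intNorm (L := L)] at h2
  have h4 : ((x * algebraMap (𝓞 k) (𝓞 L) w : 𝓞 L) : L) =
    (x : L) * ((algebraMap (𝓞 k) (𝓞 L) w : 𝓞 L) : L) := rfl
  rw [h4, map_mul, norm_unit h3]
  refine h2.symm.trans ?_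
  simp only [Units.val_mul, Units.val_pow_eq_pow_val, map_mul, map_pow]
  change _ * (((v : 𝓞 k) : k) * ((w : 𝓞 k) : k) ^ 3) = _
  ring

lemma h90 {τ : L ≃ₐ[k] L} (hτ : ∀ σ, σ ∈ Subgroup.zpowers τ) {x y : 𝓞 L} (hx : x ≠ 0)
    (h : Algebra.norm k (y : L) = Algebra.norm k (x : L)) :
    ∃ β : 𝓞 L, β ≠ 0 ∧ β * x = y * τ • β := by
  have hx' : (x : L) ≠ 0 := fun h1 => hx (Subtype.ext h1)
  have hn : Algebra.norm k (x : L) ≠ 0 := Algebra.norm_ne_zero_iff.2 hx'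
  have h1 : Algebra.norm k ((y : L) / x) = 1 := by
    rw [div_eq_mul_inv, map_mul, Algebra.norm_inv, h, mul_inv_cancel₀ hn]
  have : IsCyclic (L ≃ₐ[k] L) := ⟨⟨τ, hτ⟩⟩
  obtain ⟨z, hz⟩ := groupCohomology.exists_div_of_norm_eq_one hτ h1
  have ha : IsAlgebraic ℤ (z : L) :=
    (IsFractionRing.isAlgebraic_iff ℤ ℚ L).2 (Algebra.IsAlgebraic.isAlgebraic _)
  obtain ⟨m, hm, hi⟩ := ha.exists_integral_multiple
  have hτz : τ z ≠ 0 := by simp
  refine ⟨⟨m • (z : L), hi⟩, fun h2 => ?_, Subtype.ext ?_⟩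
  · have h3 : m • (z : L) = 0 := congrArg Subtype.val h2
    exact smul_ne_zero hm z.ne_zero h3
  · change m • (z : L) * x = y * τ (m • (z : L))
    rw [div_eq_div_iff hτz hx'] at hz
    rw [map_zsmul, smul_mul_assoc, hz, mul_smul_comm]

lemma gd_has {N : ℤ} {T : Finset (Ideal (𝓞 k))} (h3 : finrank k L = 3)
    (hT : ∀ p : Ideal (𝓞 k), p.IsMaximal → (N : 𝓞 k) ∈ p → p ∈ T)
    (hu : ∀ P : Ideal (𝓞 L), P.IsMaximal → (N : 𝓞 L) ∉ P → P.inertia (L ≃ₐ[k] L) = ⊥)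
    {τ : L ≃ₐ[k] L} (hτ : ∀ σ, σ ∈ Subgroup.zpowers τ) {v : (𝓞 k)ˣ} {I I₀ : Ideal (𝓞 L)}
    (h : Has τ v I) (h₀ : Has τ v I₀) :
    Gd (gen T) (cl (relNorm (𝓞 k) I) * cl (relNorm (𝓞 k) I₀) ^ 2) := by
  obtain ⟨hI, x, y, hx, -, hxy, hn⟩ := h
  obtain ⟨hI₀, x₀, y₀, hx₀, -, hxy₀, hn₀⟩ := h₀
  have hX : x * x₀ ^ 2 * algebraMap (𝓞 k) (𝓞 L) v ≠ 0 :=
    mul_ne_zero (mul_ne_zero hx (pow_ne_zero _ hx₀)) (v.isUnit.map _).ne_zero
  have hN : Algebra.norm k ((y * y₀ ^ 2 : 𝓞 L) : L) =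
      Algebra.norm k ((x * x₀ ^ 2 * algebraMap (𝓞 k) (𝓞 L) v : 𝓞 L) : L) := by
    have e1 : ((y * y₀ ^ 2 : 𝓞 L) : L) = (y : L) * (y₀ : L) ^ 2 := rfl
    have e2 : ((x * x₀ ^ 2 * algebraMap (𝓞 k) (𝓞 L) v : 𝓞 L) : L) =
      (x : L) * (x₀ : L) ^ 2 * ((algebraMap (𝓞 k) (𝓞 L) v : 𝓞 L) : L) := rfl
    rw [e1, e2, map_mul, map_mul, map_mul, map_pow, map_pow, norm_unit h3, hn, hn₀]
    ring
  obtain ⟨β, hβ, hb⟩ := h90 hτ hX hN
  set X := x * x₀ ^ 2 * algebraMap (𝓞 k) (𝓞 L) v with hXd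
  have hXY : span {X} * τ • (I * I₀ ^ 2) = span {y * y₀ ^ 2} * (I * I₀ ^ 2) := by
    rw [hXd, span_unit, ← Ideal.span_singleton_mul_span_singleton,
      ← Ideal.span_singleton_mul_span_singleton, ← Ideal.span_singleton_pow,
      ← Ideal.span_singleton_pow, smul_mul', smul_pow', mul_mul_mul_comm, ← mul_pow, hxy, hxy₀,
      mul_pow, mul_mul_mul_comm]
  have hβ' : span {β} ≠ ⊥ := by rwa [Ne, Ideal.span_singleton_eq_bot]
  have hX' : span {X} ≠ ⊥ := by rwa [Ne, Ideal.span_singleton_eq_bot]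
  have hII : I * I₀ ^ 2 ≠ ⊥ := mul_ne_zero hI (pow_ne_zero _ hI₀)
  have h1 : τ • (span {β} * (I * I₀ ^ 2)) = span {β} * (I * I₀ ^ 2) := by
    refine mul_left_cancel₀ hX' ?_
    rw [smul_mul', mul_left_comm, hXY, Ideal.smul_closure, Set.smul_set_singleton, ← mul_assoc,
      ← mul_assoc (span {X}), Ideal.span_singleton_mul_span_singleton,
      Ideal.span_singleton_mul_span_singleton, mul_comm X, hb, mul_comm (τ • β)]
  have h2 : ∀ σ : L ≃ₐ[k] L, σ • (span {β} * (I * I₀ ^ 2)) = span {β} * (I * I₀ ^ 2) := by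
    intro σ
    have h4 : Subgroup.zpowers τ ≤ MulAction.stabilizer (L ≃ₐ[k] L) (span {β} * (I * I₀ ^ 2)) :=
      (Subgroup.zpowers_le).2 h1
    exact h4 (hτ σ)
  have h5 := gd_inv h3 hT hu _ (mul_ne_zero hβ' hII) h2
  rwa [map_mul, cl_mul (relNorm_ne hβ') (relNorm_ne hII), relNorm_singleton, cl_span, one_mul,
    map_mul, cl_mul (relNorm_ne hI) (relNorm_ne (pow_ne_zero _ hI₀)), map_pow, cl_pow] at h5

end GAMB

open GAMB in
theorem blk_GAMB (hI : StIdc) (hU : StUni) : StGamb := by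
  classical
  intro k L _ _ _ _ _ _ τ N h3 hτ1 hN hu
  obtain ⟨U, hUc, hU⟩ := hU k 3 (by norm_num)
  obtain ⟨hf, hc⟩ := hI.ram k N hN
  have hcard : Nat.card (L ≃ₐ[k] L) = 3 := by rw [IsGalois.card_aut_eq_finrank, h3]
  have : Fact (Nat.Prime 3) := ⟨Nat.prime_three⟩
  have hτ : ∀ σ, σ ∈ Subgroup.zpowers τ := fun σ => by
    rw [zpowers_eq_top_of_prime_card hcard hτ1]
    exact Subgroup.mem_top σ
  set T := hf.toFinset with hTd
  have hT : ∀ p : Ideal (𝓞 k), p.IsMaximal → (N : 𝓞 k) ∈ p → p ∈ T := fun p h1 h2 =>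
    hf.mem_toFinset.2 ⟨h1, h2⟩
  have hTc : T.card ≤ finrank ℚ k * om N.natAbs := by
    rwa [hTd, ← Set.ncard_eq_toFinset_card _ hf]
  let c : (𝓞 k)ˣ → Ideal (𝓞 L) := fun v => Classical.epsilon (Has τ v)
  refine ⟨(U ×ˢ (Finset.univ : Finset (T → Fin 3))).image
    fun q => cl (relNorm (𝓞 k) (c q.1)) * ∏ p, gen T p ^ (q.2 p : ℕ), ?_, fun I hI0 h => ?_⟩
  · refine Finset.card_image_le.trans ?_
    rw [Finset.card_product, Finset.card_univ, Fintype.card_fun, Fintype.card_fin,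
      Fintype.card_coe]
    exact Nat.mul_le_mul hUc (Nat.pow_le_pow_right (by norm_num) hTc)
  · obtain ⟨v, hv, hh⟩ := exists_has h3 τ hU hI0 h
    have h₀ : Has τ v (c v) := Classical.epsilon_spec ⟨I, hh⟩
    obtain ⟨e, he⟩ := (gd_has h3 hT hu hτ hh h₀).fin
    refine ⟨_, Finset.mem_image.2 ⟨(v, e), by simpa using hv, rfl⟩, ?_⟩
    have h2 := div_mem he (pow_mem_pw (l := 3) (cl (relNorm (𝓞 k) (c v))))
    convert h2 using 1
    simp only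
    generalize cl (relNorm (𝓞 k) I) = a
    generalize cl (relNorm (𝓞 k) (c v)) = b
    generalize ∏ p, gen T p ^ (e p : ℕ) = d
    rw [div_div, mul_comm d, pow_succ' b 2, mul_comm b (b ^ 2), mul_assoc, mul_comm a,
      mul_div_mul_left_eq_div]

end Pool.Agent.Lib.N4
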