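import Pool.Agent.Lib.N4.Blue

set_option autoImplicit false

open NumberField Ideal Module
open scoped nonZeroDivisors Pointwise

namespace Pool.Agent.Lib.N4

namespace GER

theorem smul_ne_bot {L G : Type} [Field L] [Group G] [MulSemiringAction G L] (g : G)
    {I : Ideal (𝓞 L)} (hI : I ≠ ⊥) : g • I ≠ ⊥ := by
  intro h
  apply hI
  have h1 : g⁻¹ • g • I = g⁻¹ • (⊥ : Ideal (𝓞 L)) := by rw [h]
  rwa [inv_smul_smul, Ideal.smul_bot] at h1

theorem prod_two {G M : Type} [Group G] [Fintype G] [CommMonoid M] (hG : Nat.card G = 2) {s : G}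
    (hs : s ≠ 1) (f : G → M) : ∏ σ, f σ = f 1 * f s := by
  classical
  have h : (Finset.univ : Finset G) = {1, s} := by
    symm
    apply Finset.eq_univ_of_card
    rw [Finset.card_pair hs.symm, ← Nat.card_eq_fintype_card, hG]
  rw [h, Finset.prod_pair hs.symm]

theorem cube_one {G : Type} [Group G] (hG : Nat.card G = 3) (τ : G) : τ * τ * τ = 1 := by
  have := pow_card_eq_one' (x := τ)
  rwa [hG, pow_three'] at this

theorem prod_three {G M : Type} [Group G] [Fintype G] [CommMonoid M] (hG : Nat.card G = 3) {τ : G}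
    (hτ : τ ≠ 1) (f : G → M) : ∏ σ, f σ = f 1 * (f τ * f (τ * τ)) := by
  classical
  have h3 := cube_one hG τ
  have h1 : τ ≠ τ * τ := fun h => hτ (by simpa using h)
  have h2 : (1 : G) ≠ τ * τ := fun h => hτ (by rwa [← h, one_mul] at h3)
  have h4 : (1 : G) ∉ ({τ, τ * τ} : Finset G) := by
    simp only [Finset.mem_insert, Finset.mem_singleton, not_or]
    exact ⟨hτ.symm, h2⟩
  have h : (Finset.univ : Finset G) = {1, τ, τ * τ} := by
    symm
    apply Finset.eq_univ_of_card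
    rw [Finset.card_insert_of_notMem h4, Finset.card_pair h1, ← Nat.card_eq_fintype_card, hG]
  rw [h, Finset.prod_insert h4, Finset.prod_pair h1]

variable {k R L : Type} [Field k] [NumberField k] [Field R] [NumberField R] [Field L]
  [NumberField L] [Algebra k L] [Algebra R L] {τ : L ≃ₐ[k] L} {s : L ≃ₐ[R] L}

theorem card_k (h : S3 k R L τ s) : Nat.card (L ≃ₐ[k] L) = 3 := by
  have := h.galk
  rw [IsGalois.card_aut_eq_finrank, h.rkL]

theorem card_R (h : S3 k R L τ s) : Nat.card (L ≃ₐ[R] L) = 2 := by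
  have := h.galR
  rw [IsGalois.card_aut_eq_finrank, h.rRL]

theorem tau3 (h : S3 k R L τ s) (x : L) : τ (τ (τ x)) = x := by
  have := congrArg (fun σ : L ≃ₐ[k] L => σ x) (cube_one (card_k h) τ)
  simpa using this

/-- an element of `k` that also lies in `R` is rational -/
theorem rat_of_both (h : S3 k R L τ s) (y : k) (w : R)
    (e : algebraMap k L y = algebraMap R L w) : ∃ q : ℚ, y = algebraMap ℚ k q := by
  have h1 : minpoly ℚ (algebraMap k L y) = minpoly ℚ y :=
    minpoly.algebraMap_eq (algebraMap k L).injective y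
  have h2 : minpoly ℚ (algebraMap R L w) = minpoly ℚ w :=
    minpoly.algebraMap_eq (algebraMap R L).injective w
  have h3 := minpoly.degree_dvd (K := ℚ) (Algebra.IsIntegral.isIntegral y)
  have h4 := minpoly.degree_dvd (K := ℚ) (Algebra.IsIntegral.isIntegral w)
  rw [h.rk] at h3
  rw [h.rR, ← h2, ← e, h1] at h4
  have h5 : (minpoly ℚ y).natDegree = 1 :=
    Nat.eq_one_of_dvd_coprimes (by norm_num : Nat.Coprime 2 3) h3 h4
  obtain ⟨q, hq⟩ := minpoly.natDegree_eq_one_iff.1 h5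
  exact ⟨q, hq.symm⟩

theorem norm_int (h : S3 k R L τ s) (x : 𝓞 R) :
    ∃ m : ℤ, Algebra.intNorm (𝓞 k) (𝓞 L) (algebraMap (𝓞 R) (𝓞 L) x) = (m : 𝓞 k) := by
  have := h.galk
  have := h.galR
  set y := Algebra.intNorm (𝓞 k) (𝓞 L) (algebraMap (𝓞 R) (𝓞 L) x) with hy
  set z : L := algebraMap R L (algebraMap (𝓞 R) R x) with hz
  have h1 : algebraMap (𝓞 k) k y = Algebra.norm k z := by
    rw [hy, Algebra.algebraMap_intNorm (K := k) (L := L), hz, ← IsScalarTower.algebraMap_apply,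
      ← IsScalarTower.algebraMap_apply]
  have h2 : algebraMap k L (algebraMap (𝓞 k) k y) = z * (τ z * τ (τ z)) := by
    rw [h1, Algebra.norm_eq_prod_automorphisms, prod_three (card_k h) h.τ_ne]
    rfl
  have h3 : s z = z := s.commutes _
  have h4 : s (z * (τ z * τ (τ z))) = z * (τ z * τ (τ z)) := by
    rw [map_mul, map_mul, h.rel, h.rel, h.rel, h3, tau3 h, mul_comm (τ z)]
  have h5 : z * (τ z * τ (τ z)) ∈ Set.range (algebraMap R L) := by
    rw [IsGalois.mem_range_algebraMap_iff_fixed]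
    intro f
    by_cases hf : f = 1
    · rw [hf]; rfl
    · have : f = s := ((Nat.card_eq_two_iff' 1).1 (card_R h)).unique hf h.s_ne
      rw [this, h4]
  obtain ⟨w, hw⟩ := h5
  obtain ⟨q, hq⟩ := rat_of_both h _ w (h2.trans hw.symm)
  have h6 : IsIntegral ℤ q := by
    rw [← isIntegral_algebraMap_iff (algebraMap ℚ k).injective, ← hq]
    exact y.isIntegral_coe
  obtain ⟨m, hm⟩ := IsIntegrallyClosed.isIntegral_iff.1 h6
  refine ⟨m, FaithfulSMul.algebraMap_injective (𝓞 k) k ?_⟩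
  rw [hq, ← hm]
  simp

theorem absNorm_int (h : S3 k R L τ s) (m : ℤ) :
    absNorm (span {(m : 𝓞 k)}) = m.natAbs ^ 2 := by
  rw [absNorm_span_singleton, ← eq_intCast (algebraMap ℤ (𝓞 k)), Algebra.norm_algebraMap,
    RingOfIntegers.rank, h.rk, Int.natAbs_pow]

theorem norm_map (h : S3 k R L τ s) (J : Ideal (𝓞 R)) :
    cl (relNorm (𝓞 k) (J.map (algebraMap (𝓞 R) (𝓞 L)))) = 1 := by
  set n := Nat.card (ClassGroup (𝓞 R)) with hn
  have hn0 : n ≠ 0 := Nat.card_pos.ne'
  have h1 : (J ^ n).IsPrincipal := by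
    rw [← cl_eq_one_iff, cl_pow, hn, pow_card_eq_one']
  obtain ⟨x, hx⟩ := h1
  have hx' : J ^ n = span {x} := hx
  obtain ⟨m, hm⟩ := norm_int h x
  set J' := relNorm (𝓞 k) (J.map (algebraMap (𝓞 R) (𝓞 L))) with hJ'
  have h2 : J' ^ n = span {(m : 𝓞 k)} := by
    rw [hJ', ← map_pow, ← Ideal.map_pow, hx', Ideal.map_span, Set.image_singleton,
      relNorm_singleton, hm]
  have h3 : absNorm J' = absNorm J ^ 2 := by
    rw [hJ', absNorm_relNorm, absNorm_algebraMap,
      ← IsFractionRing.finrank_eq (𝓞 R) R (𝓞 L) L, h.rRL]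
  have h4 : m.natAbs = absNorm J ^ n := by
    have h5 := congrArg absNorm h2
    rw [map_pow, h3, absNorm_int h, ← pow_mul, mul_comm, pow_mul] at h5
    exact (Nat.pow_left_injective two_ne_zero h5).symm
  have h6 : J' ^ n = span {((absNorm J : ℕ) : 𝓞 k)} ^ n := by
    rw [h2, span_singleton_pow, ← Nat.cast_pow, ← h4]
    rcases Int.natAbs_eq m with h7 | h7
    · rw [h7]; simp
    · rw [h7]; simp [span_singleton_neg]
  rw [pow_left_injective hn0 h6, cl_span]

theorem rel_ideal (h : S3 k R L τ s) (I : Ideal (𝓞 L)) : s • τ • I = τ • τ • s • I := by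
  simp only [Ideal.pointwise_smul_def, Ideal.map_map]
  congr 1
  ext x
  exact h.rel x

end GER

open GER in
theorem blk_GER (hC : StClg) (hA : StGalg) (hB : StGamb) (hS : StS3) : StGer := by
  intro k R _ _ _ _ s₀ hk hR hs
  obtain ⟨L, _, _, _, _, τ, s, h⟩ := hS k R s₀ hk hR hs
  have := h.galk
  have := h.galR
  obtain ⟨fτ, hτ⟩ := hC.act L (L ≃ₐ[k] L) τ
  obtain ⟨fs, hfs⟩ := hC.act L (L ≃ₐ[R] L) s
  obtain ⟨N, hN⟩ := hC.nm k L
  obtain ⟨n, hn⟩ := hC.nm R L
  obtain ⟨i, hi⟩ := hC.ext R L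
  obtain ⟨F, hF1, hF2⟩ := hB k L τ (discr R) h.rkL h.τ_ne (discr_ne_zero R) h.unr
  have hp : ∀ I : Ideal (𝓞 L),
      (relNorm (𝓞 R) I).map (algebraMap (𝓞 R) (𝓞 L)) = I * s • I := fun I => by
    rw [hC.prod R L I, prod_two (card_R h) h.s_ne, one_smul]
  have key := hA _ _ _ fτ fs N n i F
    (fun a => by
      obtain ⟨I, -, rfl⟩ := cl_surj a
      rw [hτ, hτ, hτ, smul_smul, smul_smul, cube_one (card_k h), one_smul])
    (fun a => by
      obtain ⟨I, -, rfl⟩ := cl_surj a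
      rw [hτ, hfs, hfs, hτ, hτ, rel_ideal h])
    (fun a => by
      obtain ⟨I, -, rfl⟩ := cl_surj a
      rw [hτ, hN, hN, relNorm_smul])
    (fun a => by
      obtain ⟨I, hI, rfl⟩ := cl_surj a
      rw [hfs, ← map_mul, ← cl_mul hI (smul_ne_bot s hI), ← hp, hN, norm_map h])
    (fun a => by
      obtain ⟨I, hI, rfl⟩ := cl_surj a
      rw [hn, hi, hp, hfs, cl_mul hI (smul_ne_bot s hI)])
    (fun a ha => by
      obtain ⟨I, hI, rfl⟩ := cl_surj a
      rw [hτ] at ha
      rw [hN]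
      exact hF2 I hI ha)
  have h1 := hC.idx k L N hN
  rw [h.rkL] at h1
  rw [hk, pow_mul] at hF1
  calc tor 3 k ≤ N.range.index * F.card * tor 3 R := key
    _ ≤ 3 * (3 ^ 2 * (3 ^ 2) ^ om (discr R).natAbs) * tor 3 R :=
        Nat.mul_le_mul_right _ (Nat.mul_le_mul h1 hF1)
    _ = 27 * 9 ^ om (discr R).natAbs * tor 3 R := by ring

end Pool.Agent.Lib.N4
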