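import Pool.Agent.Lib.N4.Blue

set_option autoImplicit false

open NumberField Ideal

namespace Pool.Agent.Lib.N4

namespace LS

theorem norm_char {B : Type} [CommGroup B] [Finite B] (χ : B →* ℂˣ) (b : B) :
    ‖(χ b : ℂ)‖ = 1 := by
  have h : (χ b : ℂ) ^ Nat.card B = 1 := by
    rw [← Units.val_pow_eq_pow_val, ← map_pow, pow_card_eq_one', map_one, Units.val_one]
  exact Complex.norm_eq_one_of_pow_eq_one h Nat.card_pos.ne'

theorem finite_char (B : Type) [CommGroup B] [Finite B] : Finite (B →* ℂˣ) := by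
  obtain ⟨e⟩ := CommGroup.monoidHom_mulEquiv_of_hasEnoughRootsOfUnity B ℂ
  exact Finite.of_equiv _ e.symm.toEquiv

theorem orth {B : Type} [CommGroup B] [Finite B] [Fintype (B →* ℂˣ)] {a : B} (ha : a ≠ 1) :
    ∑ χ : B →* ℂˣ, (χ a : ℂ) = 0 := by
  obtain ⟨ψ, hψ⟩ := CommGroup.exists_apply_ne_one_of_hasEnoughRootsOfUnity B ℂ ha
  have h : ∑ χ : B →* ℂˣ, ((ψ * χ) a : ℂ) = ∑ χ : B →* ℂˣ, (χ a : ℂ) :=
    Fintype.sum_bijective _ (Group.mulLeft_bijective ψ) _ _ fun _ => rfl
  simp only [MonoidHom.mul_apply, Units.val_mul, ← Finset.mul_sum] at h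
  by_contra h0
  exact hψ (Units.val_eq_one.1 (mul_eq_right₀ h0 |>.1 h))

open scoped Classical in
theorem orth2 {B : Type} [CommGroup B] [Finite B] [Fintype (B →* ℂˣ)] (a b : B) :
    ∑ χ : B →* ℂˣ, (χ a : ℂ) * (starRingEnd ℂ) (χ b) =
      if b = a then (Nat.card B : ℂ) else 0 := by
  have h : ∀ χ : B →* ℂˣ, (χ a : ℂ) * (starRingEnd ℂ) (χ b) = χ (b⁻¹ * a) := by
    intro χ
    rw [← Complex.inv_eq_conj (norm_char χ b), map_mul, map_inv, Units.val_mul,
      Units.val_inv_eq_inv_val, mul_comm]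
  simp only [h]
  split_ifs with hab
  · subst hab
    simp only [inv_mul_cancel, map_one, Units.val_one, Finset.sum_const, Finset.card_univ,
      nsmul_eq_mul, mul_one]
    rw [← Nat.card_eq_fintype_card, CommGroup.card_monoidHom_of_hasEnoughRootsOfUnity]
  · exact orth (by rwa [Ne, inv_mul_eq_one])

theorem sieve {B : Type} [CommGroup B] [Finite B] [Fintype (B →* ℂˣ)] {T : Type} [Fintype T]
    (π : T → B) (c : T → ℂ) (M : ℝ) (hc : ∀ t, ‖c t‖ ≤ 1)
    (hM : ∀ h, (Nat.card {t // π t = h} : ℝ) ≤ M) :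
    ∑ χ : B →* ℂˣ, ‖∑ t, c t * χ (π t)‖ ^ 2 ≤ Nat.card B * (Fintype.card T * M) := by
  classical
  have h1 : ((∑ χ : B →* ℂˣ, ‖∑ t, c t * χ (π t)‖ ^ 2 : ℝ) : ℂ) =
      ∑ t, ∑ t', c t * (starRingEnd ℂ) (c t') * if π t' = π t then (Nat.card B : ℂ) else 0 := by
    push_cast
    simp only [← Complex.mul_conj', map_sum, map_mul, Finset.sum_mul_sum]
    simp only [← orth2, Finset.mul_sum]
    rw [Finset.sum_comm]
    refine Finset.sum_congr rfl fun t _ => ?_
    rw [Finset.sum_comm]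
    refine Finset.sum_congr rfl fun t' _ => Finset.sum_congr rfl fun χ _ => ?_
    ring
  have h2 := congrArg norm h1
  rw [Complex.norm_real, Real.norm_of_nonneg (by positivity)] at h2
  rw [h2]
  refine (norm_sum_le _ _).trans ?_
  have h3 : ∀ t, ‖∑ t', c t * (starRingEnd ℂ) (c t') *
      if π t' = π t then (Nat.card B : ℂ) else 0‖ ≤ Nat.card B * M := by
    intro t
    refine (norm_sum_le _ _).trans ?_
    have h4 : ∀ t', ‖c t * (starRingEnd ℂ) (c t') *
        if π t' = π t then (Nat.card B : ℂ) else 0‖ ≤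
          if π t' = π t then (Nat.card B : ℝ) else 0 := by
      intro t'
      split_ifs
      · rw [norm_mul, norm_mul, Complex.norm_conj, Complex.norm_natCast]
        exact mul_le_of_le_one_left (Nat.cast_nonneg _)
          (mul_le_one₀ (hc t) (norm_nonneg _) (hc t'))
      · simp
    refine (Finset.sum_le_sum fun t' _ => h4 t').trans ?_
    rw [← Finset.sum_filter, Finset.sum_const, nsmul_eq_mul, mul_comm]
    refine mul_le_mul_of_nonneg_left (le_trans (le_of_eq ?_) (hM (π t))) (Nat.cast_nonneg _)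
    rw [Nat.card_eq_fintype_card, Fintype.card_subtype]
  refine (Finset.sum_le_sum fun t _ => h3 t).trans (le_of_eq ?_)
  rw [Finset.sum_const, Finset.card_univ, nsmul_eq_mul]
  ring

theorem ls (H : Type) [CommGroup H] [Finite H] (P : Type) [Fintype P] [Nonempty P] (κ : P → H)
    (a : P → ℂ) (X : Finset (H →* ℂˣ)) (j : ℕ) (M : ℝ) (ha : ∀ p, ‖a p‖ ≤ 1)
    (hX : ∀ φ ∈ X, (Fintype.card P : ℝ) / 4 ≤ ‖∑ p, a p * φ (κ p)‖)
    (hM : ∀ h, (Nat.card {t : Fin j → P // ∏ i, κ (t i) = h} : ℝ) ≤ M) :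
    (X.card : ℝ) * (Fintype.card P : ℝ) ^ j ≤ 16 ^ j * Nat.card H * M := by
  classical
  have := finite_char H
  have := Fintype.ofFinite (H →* ℂˣ)
  have h1 := sieve (fun t : Fin j → P => ∏ i, κ (t i)) (fun t => ∏ i, a (t i)) M
    (fun t => by
      rw [norm_prod]
      exact Finset.prod_le_one (fun _ _ => norm_nonneg _) fun _ _ => ha _) hM
  have h2 : ∀ φ : H →* ℂˣ, ∑ t : Fin j → P, (∏ i, a (t i)) * (φ (∏ i, κ (t i)) : ℂ) =
      (∑ p, a p * φ (κ p)) ^ j := by
    intro φ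
    rw [Finset.sum_pow', Fintype.piFinset_univ]
    refine Finset.sum_congr rfl fun t _ => ?_
    rw [map_prod, Units.coe_prod, Finset.prod_mul_distrib]
  simp only [h2, norm_pow, Fintype.card_fun, Fintype.card_fin, Nat.cast_pow] at h1
  have hN : (0 : ℝ) < Fintype.card P := by exact_mod_cast Fintype.card_pos
  have h3 : (X.card : ℝ) * (((Fintype.card P : ℝ) / 4) ^ j) ^ 2 ≤
      ∑ χ : H →* ℂˣ, (‖∑ p, a p * χ (κ p)‖ ^ j) ^ 2 := by
    refine le_trans ?_ (Finset.sum_le_sum_of_subset_of_nonneg (Finset.subset_univ X)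
      fun _ _ _ => by positivity)
    rw [← nsmul_eq_mul, ← Finset.sum_const]
    refine Finset.sum_le_sum fun φ hφ => ?_
    gcongr
    exact hX φ hφ
  have h4 := h3.trans h1
  have h5 : (((Fintype.card P : ℝ) / 4) ^ j) ^ 2 =
      (Fintype.card P : ℝ) ^ j * (Fintype.card P : ℝ) ^ j / 16 ^ j := by
    rw [← pow_mul, mul_comm j 2, pow_mul, ← mul_pow, ← div_pow]
    congr 1
    ring
  rw [h5, ← mul_div_assoc, div_le_iff₀ (by positivity)] at h4
  have h6 : (0 : ℝ) < (Fintype.card P : ℝ) ^ j := by positivity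
  refine le_of_mul_le_mul_right ?_ h6
  linarith

theorem re_cube {w : ℂ} (h : w ^ 3 = 1) (h1 : w ≠ 1) : w.re = -1 / 2 := by
  have h2 : w ^ 2 + w + 1 = 0 := by
    have : (w - 1) * (w ^ 2 + w + 1) = 0 := by linear_combination h
    exact (mul_eq_zero.1 this).resolve_left (sub_ne_zero.2 h1)
  have h3 := congrArg Complex.re h2
  have h4 := congrArg Complex.im h2
  simp only [sq, Complex.add_re, Complex.mul_re, Complex.one_re, Complex.zero_re, Complex.add_im,
    Complex.mul_im, Complex.one_im, Complex.zero_im] at h3 h4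
  have h5 : w.im * (2 * w.re + 1) = 0 := by linarith
  rcases mul_eq_zero.1 h5 with h6 | h6
  · rw [h6] at h3
    nlinarith [sq_nonneg (2 * w.re + 1)]
  · linarith

theorem re (P : Type) [Fintype P] (w : P → ℂˣ) (hw : ∀ p, w p ^ 3 = 1)
    (h : 6 * Nat.card {p // w p = 1} ≤ Fintype.card P) :
    (Fintype.card P : ℝ) / 4 ≤ ‖∑ p, (w p : ℂ)‖ := by
  classical
  have h1 : ∀ p, (w p : ℂ).re = -1 / 2 + if w p = 1 then 3 / 2 else 0 := by
    intro p
    split_ifs with hp
    · rw [hp]; norm_num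
    · rw [add_zero]
      refine re_cube ?_ fun h0 => hp (Units.val_eq_one.1 h0)
      rw [← Units.val_pow_eq_pow_val, hw, Units.val_one]
  have h2 := Complex.abs_re_le_norm (∑ p, (w p : ℂ))
  rw [Complex.re_sum] at h2
  simp only [h1] at h2
  rw [Finset.sum_add_distrib, ← Finset.sum_filter, Finset.sum_const, Finset.sum_const,
    Finset.card_univ, nsmul_eq_mul, nsmul_eq_mul] at h2
  rw [Nat.card_eq_fintype_card, Fintype.card_subtype] at h
  have h3 := (Nat.cast_le (α := ℝ)).2 h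
  push_cast at h3
  linarith [(abs_le.1 h2).1]

theorem tup (k : Type) [Field k] [NumberField k] (P : Type) [Fintype P] (q : P → Ideal (𝓞 k))
    (j : ℕ) (T : (Fin j → P) → Prop) (S : Finset (Ideal (𝓞 k)))
    (hp : ∀ p, (absNorm (q p)).Prime) (hi : Function.Injective fun p => absNorm (q p))
    (hT : ∀ t, T t → ∏ i, q (t i) ∈ S) : Nat.card {t // T t} ≤ j ^ j * S.card := by
  classical
  rw [Nat.card_eq_fintype_card, Fintype.card_subtype]
  refine Finset.card_le_mul_card_image_of_maps_to (f := fun t => ∏ i, q (t i))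
    (fun t ht => hT t (Finset.mem_filter.1 ht).2) _ fun I _ => ?_
  rcases Finset.eq_empty_or_nonempty
    ((Finset.univ.filter T).filter fun t => ∏ i, q (t i) = I) with h | ⟨t₀, ht₀⟩
  · rw [h]; simp
  refine (Finset.card_le_card (t := Fintype.piFinset fun _ : Fin j => Finset.univ.image t₀)
    fun t ht => ?_).trans ?_
  · rw [Fintype.mem_piFinset]
    intro i
    have h1 : ∏ i, q (t i) = ∏ i, q (t₀ i) :=
      (Finset.mem_filter.1 ht).2.trans (Finset.mem_filter.1 ht₀).2.symm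
    have h2 : absNorm (q (t i)) ∣ ∏ i, absNorm (q (t₀ i)) := by
      rw [← map_prod, ← h1, map_prod]
      exact Finset.dvd_prod_of_mem (fun i => absNorm (q (t i))) (Finset.mem_univ i)
    obtain ⟨i', -, h3⟩ := (Prime.dvd_finsetProd_iff (hp (t i)).prime _).1 h2
    exact Finset.mem_image.2 ⟨i', Finset.mem_univ _,
      (hi ((Nat.prime_dvd_prime_iff_eq (hp _) (hp _)).1 h3)).symm⟩
  · rw [Fintype.card_piFinset, Finset.prod_const, Finset.card_univ, Fintype.card_fin]
    exact Nat.pow_le_pow_left (Finset.card_image_le.trans (by simp)) _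

end LS

theorem blk_LS : StLS := ⟨LS.ls, LS.re, LS.tup⟩

end Pool.Agent.Lib.N4
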