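import Pool.Agent.Lib.N4.Blue

set_option autoImplicit false

open NumberField Ideal Module

namespace Pool.Agent.Lib.N4

namespace OMEGA

theorem emb (F : Type) [Field F] [NumberField F] (Ω : IntermediateField ℚ (AlgebraicClosure ℚ))
    (h : IntermediateField.normalClosure ℚ F (AlgebraicClosure ℚ) ≤ Ω) : Nonempty (F →+* Ω) := by
  let f : F →ₐ[ℚ] AlgebraicClosure ℚ := IsAlgClosed.lift
  exact ⟨(f : F →+* AlgebraicClosure ℚ).codRestrict Ω fun x =>
    h (f.fieldRange_le_normalClosure ⟨x, rfl⟩)⟩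

end OMEGA

theorem blk_OMEGA : StOmega := by
  intro k _ _ ι _ R _ _
  let A := AlgebraicClosure ℚ
  let N : (F : Type) → [Field F] → [NumberField F] → IntermediateField ℚ A := fun F _ _ =>
    IntermediateField.normalClosure ℚ F A
  let Ω : IntermediateField ℚ A := (N k ⊔ N (CyclotomicField 9 ℚ)) ⊔ ⨆ i, N (R i)
  have ac : IsAlgClosure ℚ A := AlgebraicClosure.instIsAlgClosureOfIsAlgebraic ℚ
  have nA : Normal ℚ A := IsAlgClosure.normal ℚ A
  have cy : IsCyclotomicExtension {9} ℚ (CyclotomicField 9 ℚ) :=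
    CyclotomicField.isCyclotomicExtension 9 ℚ
  have fd : ∀ (F : Type) [Field F] [NumberField F], FiniteDimensional ℚ (N F) := fun F _ _ =>
    normalClosure.is_finiteDimensional ℚ F A
  have nm : ∀ (F : Type) [Field F] [NumberField F], Normal ℚ (N F) := fun F _ _ =>
    normalClosure.normal ℚ F A
  have := fd k
  have := fd (CyclotomicField 9 ℚ)
  have := fun i => fd (R i)
  have := nm k
  have := nm (CyclotomicField 9 ℚ)
  have := fun i => nm (R i)
  have f1 : FiniteDimensional ℚ Ω := IntermediateField.finiteDimensional_sup _ _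
  have n0 : Normal ℚ ↥(N k ⊔ N (CyclotomicField 9 ℚ)) := IntermediateField.normal_sup ℚ A _ _
  have n2 : Normal ℚ ↥(⨆ i, N (R i)) := IntermediateField.normal_iSup ℚ A _
  have n1 : Normal ℚ Ω := IntermediateField.normal_sup ℚ A _ _
  have nf : NumberField Ω := NumberField.of_module_finite ℚ Ω
  obtain ⟨f⟩ := OMEGA.emb k Ω (le_sup_left.trans le_sup_left)
  obtain ⟨g⟩ := OMEGA.emb (CyclotomicField 9 ℚ) Ω (le_sup_right.trans le_sup_left)
  refine ⟨Ω, inferInstance, nf, f.toAlgebra, g (IsCyclotomicExtension.zeta 9 ℚ _), ⟨⟩,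
    (IsCyclotomicExtension.zeta_spec 9 ℚ _).map_of_injective g.injective, fun i =>
    OMEGA.emb (R i) Ω ((le_iSup (fun i => N (R i)) i).trans le_sup_right)⟩

end Pool.Agent.Lib.N4
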