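import Pool.Agent.Lib.N4.Blue
import Pool.Agent.Lib.helper57.PNT

set_option autoImplicit false

open Filter Topology

namespace Pool.Agent.Lib.N4

namespace PRI

lemma sum_log_le (P : Finset ℕ) (hP : ∀ p ∈ P, p.Prime) {D : ℕ} (hD : D ≠ 0) :
    ∑ p ∈ P.filter (fun p => p ∣ D), Real.log p ≤ Real.log D := by
  have h1 : P.filter (fun p => p ∣ D) ⊆ D.primeFactors := fun p hp => by
    rw [Finset.mem_filter] at hp
    exact Nat.mem_primeFactors.2 ⟨hP p hp.1, hp.2, hD⟩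
  refine (Finset.sum_le_sum_of_subset_of_nonneg h1 fun p _ _ => Real.log_natCast_nonneg p).trans ?_
  rw [← Real.log_prod fun p hp => Nat.cast_ne_zero.2 (Nat.prime_of_mem_primeFactors hp).ne_zero,
    ← Nat.cast_prod]
  refine Real.log_le_log (Nat.cast_pos.2 (Finset.prod_pos fun p hp =>
    (Nat.prime_of_mem_primeFactors hp).pos)) (Nat.cast_le.2 ?_)
  exact Nat.le_of_dvd (Nat.pos_of_ne_zero hD) (Nat.prod_primeFactors_dvd D)

lemma lim {θ : ℝ} (hθ : θ < 1) (A : ℝ) :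
    Tendsto (fun y : ℝ => (y ^ θ * Real.log y + A * Real.log y) / y) atTop (𝓝 0) := by
  have h1 := (isLittleO_log_rpow_atTop (sub_pos.2 hθ)).tendsto_div_nhds_zero
  have h2 := (Real.isLittleO_log_id_atTop.tendsto_div_nhds_zero).const_mul A
  have h3 := h1.add h2
  rw [mul_zero, add_zero] at h3
  refine h3.congr' ?_
  filter_upwards [eventually_gt_atTop 0] with y hy
  rw [Real.rpow_sub hy, Real.rpow_one, id]
  have := Real.rpow_pos_of_pos hy θ
  field_simp

end PRI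

theorem blk_PRI : StPri := by
  intro q θ A hq hθ
  have : NeZero q := ⟨hq.pos.ne'⟩
  have hu : IsUnit ((2 : ℕ) : ZMod q) :=
    (ZMod.isUnit_iff_coprime 2 q).2 (Nat.coprime_two_left.2 hq)
  have hφ : (0 : ℝ) < (q.totient : ℝ)⁻¹ := inv_pos.2 (Nat.cast_pos.2 (Nat.totient_pos.2 hq.pos))
  have h1 := (Pool.Agent.Lib.helper57.pnt_ap_theta hu).sub (PRI.lim hθ A)
  rw [sub_zero] at h1
  obtain ⟨y₀, hy₀⟩ := eventually_atTop.1
    ((h1.eventually (lt_mem_nhds hφ)).and (eventually_gt_atTop 1))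
  refine ⟨y₀, fun y hy D hD hDA => ?_⟩
  obtain ⟨h2, h3⟩ := hy₀ y hy
  set P := (Finset.Icc 1 ⌊y⌋₊).filter
    (fun p : ℕ => p.Prime ∧ (p : ZMod q) = ((2 : ℕ) : ZMod q)) with hP
  have hy0 : 0 < y := by linarith
  have hl : 0 < Real.log y := Real.log_pos h3
  have hPm : ∀ p ∈ P, p.Prime ∧ (p : ℝ) ≤ y ∧ p ≡ 2 [MOD q] := fun p hp => by
    rw [hP, Finset.mem_filter, Finset.mem_Icc] at hp
    exact ⟨hp.2.1, (Nat.le_floor_iff hy0.le).1 hp.1.2, (ZMod.natCast_eq_natCast_iff _ _ _).1 hp.2.2⟩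
  refine ⟨P.filter (fun p => ¬p ∣ D), ?_, fun p hp => ?_⟩
  · rw [← sub_div, lt_div_iff₀ hy0, zero_mul] at h2
    have a1 := PRI.sum_log_le P (fun p hp => (hPm p hp).1) hD
    have a2 : Real.log D ≤ A * Real.log y := by
      rw [← Real.log_rpow hy0]
      exact Real.log_le_log (Nat.cast_pos.2 (Nat.pos_of_ne_zero hD)) hDA
    have a3 := Finset.sum_filter_add_sum_filter_not P (fun p => p ∣ D) fun p => Real.log p
    have a4 : ∑ p ∈ P.filter (fun p => ¬p ∣ D), Real.log p ≤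
        (P.filter (fun p => ¬p ∣ D)).card • Real.log y :=
      Finset.sum_le_card_nsmul _ _ _ fun p hp => by
        have := hPm p (Finset.mem_filter.1 hp).1
        exact Real.log_le_log (Nat.cast_pos.2 this.1.pos) this.2.1
    rw [nsmul_eq_mul] at a4
    refine le_of_mul_le_mul_right ?_ hl
    linarith
  · rw [Finset.mem_filter] at hp
    exact ⟨(hPm p hp.1).1, (hPm p hp.1).2.1, (hPm p hp.1).2.2, hp.2⟩

end Pool.Agent.Lib.N4
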