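import Pool.Agent.Lib.N4.Blue

set_option autoImplicit false

open NumberField Module Polynomial

namespace Pool.Agent.Lib.N4

namespace QA1

theorem exists_pb (g : ℚ[X]) (hm : g.Monic) (hi : Irreducible g) :
    ∃ (R : Type) (_ : Field R) (_ : NumberField R) (pb : PowerBasis ℚ R),
      pb.dim = g.natDegree ∧ minpoly ℚ pb.gen = g := by
  have := Fact.mk hi
  have key : ∀ inst : Algebra ℚ (AdjoinRoot g), ∃ pb : PowerBasis ℚ (AdjoinRoot g),
      pb.dim = g.natDegree ∧ minpoly ℚ pb.gen = g := by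
    intro inst
    have e : inst = AdjoinRoot.instAlgebra g := Subsingleton.elim _ _
    subst e
    exact ⟨AdjoinRoot.powerBasis hm.ne_zero, rfl, AdjoinRoot.minpoly_powerBasis_gen_of_monic hm⟩
  exact ⟨AdjoinRoot g, inferInstance, inferInstance, key _⟩

theorem trace_sum (K : Type) [Field K] [NumberField K] (σ : Fin 4 ≃ (K →+* ℂ)) (x : K) :
    ((Algebra.trace ℚ K x : ℚ) : ℂ) = σ 0 x + σ 1 x + σ 2 x + σ 3 x := by
  have h := trace_eq_sum_embeddings (K := ℚ) (L := K) ℂ (x := x)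
  rw [← (σ.trans (RingHom.equivRatAlgHom K ℂ)).sum_comp, Fin.sum_univ_four] at h
  exact h

theorem setup (K : Type) [Field K] [NumberField K] (hK : finrank ℚ K = 4) :
    ∃ (v : K) (σ : Fin 4 ≃ (K →+* ℂ)) (η : Fin 3 → ℂ) (A B C : ℚ),
      (∀ a b c : ℚ, (a : K) * v ^ 2 + b * v + c = 0 → a = 0) ∧
      (∀ i, σ i v = ∑ x, sg i x * η x) ∧ η 0 ^ 2 + η 1 ^ 2 + η 2 ^ 2 = A ∧
      η 0 ^ 2 * η 1 ^ 2 + η 0 ^ 2 * η 2 ^ 2 + η 1 ^ 2 * η 2 ^ 2 = B ∧ η 0 * η 1 * η 2 = C := by
  obtain ⟨θ, hθ⟩ := Field.exists_primitive_element ℚ K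
  rw [Field.primitive_element_iff_minpoly_natDegree_eq, hK] at hθ
  let σ : Fin 4 ≃ (K →+* ℂ) :=
    (Fintype.equivFinOfCardEq ((Embeddings.card K ℂ).trans hK)).symm
  set t : ℚ := Algebra.trace ℚ K θ / 4 with ht
  set v : K := θ - t with hv
  have h1 : σ 0 v + σ 1 v + σ 2 v + σ 3 v = 0 := by
    have := trace_sum K σ θ
    simp only [hv, map_sub, map_ratCast, ht]
    push_cast
    linear_combination -this
  have h2 := trace_sum K σ (v ^ 2)
  have h3 := trace_sum K σ (v ^ 3)
  have h4 := trace_sum K σ (v ^ 4)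
  simp only [map_pow] at h2 h3 h4
  have e3 : σ 3 v = -(σ 0 v + σ 1 v + σ 2 v) := by linear_combination h1
  refine ⟨v, σ, ![(σ 0 v + σ 1 v) / 2, (σ 0 v + σ 2 v) / 2, (σ 0 v + σ 3 v) / 2],
    Algebra.trace ℚ K (v ^ 2) / 4,
    (Algebra.trace ℚ K (v ^ 4) - Algebra.trace ℚ K (v ^ 2) ^ 2 / 4) / 16,
    Algebra.trace ℚ K (v ^ 3) / 24, ?_, ?_, ?_, ?_, ?_⟩
  · intro a b c h
    by_contra ha
    have hp : aeval θ (C a * X ^ 2 + C (b - 2 * a * t) * X + C (a * t ^ 2 - b * t + c)) = 0 := by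
      simp only [map_add, map_mul, aeval_C, aeval_X, map_pow, eq_ratCast]
      push_cast
      rw [hv] at h
      linear_combination h
    have hd := natDegree_quadratic (b := b - 2 * a * t) (c := a * t ^ 2 - b * t + c) ha
    have hne : C a * X ^ 2 + C (b - 2 * a * t) * X + C (a * t ^ 2 - b * t + c) ≠ 0 := by
      intro h0
      rw [h0, natDegree_zero] at hd
      exact absurd hd (by norm_num)
    have := natDegree_le_natDegree (minpoly.degree_le_of_ne_zero ℚ θ hne hp)
    omega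
  · intro i
    fin_cases i <;> simp [sg, Fin.sum_univ_three] <;> rw [e3] <;> ring
  · simp only [Matrix.cons_val_zero, Matrix.cons_val_one, Matrix.cons_val]
    push_cast
    rw [h2, e3]
    ring
  · simp only [Matrix.cons_val_zero, Matrix.cons_val_one, Matrix.cons_val]
    push_cast
    rw [h2, h4, e3]
    ring
  · simp only [Matrix.cons_val_zero, Matrix.cons_val_one, Matrix.cons_val]
    push_cast
    rw [h3, e3]
    ring

theorem red (K : Type) [Field K] [NumberField K] (φ : K →+* ℂ) (v : K)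
    (hv : ∀ a b c : ℚ, (a : K) * v ^ 2 + b * v + c = 0 → a = 0) (a b c : ℂ) (A B C d : ℚ)
    (h1 : φ v = a + b + c) (hA : a ^ 2 + b ^ 2 + c ^ 2 = A)
    (hB : a ^ 2 * b ^ 2 + a ^ 2 * c ^ 2 + b ^ 2 * c ^ 2 = B) (hC : a * b * c = C)
    (hd : a ^ 2 = d) : ∃ (y : K) (a : ℚ), y ^ 2 = a ∧ ∀ b : ℚ, y ≠ b := by
  by_cases h0 : d = 0
  · have ha : a = 0 := by
      rw [h0] at hd
      exact pow_eq_zero_iff (two_ne_zero) |>.1 (by exact_mod_cast hd)
    refine ⟨v ^ 2 - A, 4 * B, φ.injective ?_, fun q hq => ?_⟩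
    · simp only [map_pow, map_sub, map_ratCast, h1]
      push_cast
      rw [← hA, ← hB, ha]
      ring
    · have := hv 1 0 (-A - q) (by push_cast; linear_combination hq)
      exact one_ne_zero this
  · have hD : v ^ 2 + 2 * d - A ≠ 0 := fun h =>
      one_ne_zero (hv 1 0 (2 * d - A) (by push_cast; linear_combination h))
    have hD' : φ (v ^ 2 + 2 * d - A) ≠ 0 := (map_ne_zero φ).2 hD
    have hy : φ ((2 * d * v + 2 * C) / (v ^ 2 + 2 * d - A)) = a := by
      rw [map_div₀, div_eq_iff hD']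
      simp only [map_pow, map_sub, map_add, map_mul, map_ratCast, map_ofNat, h1]
      rw [← hA, ← hC, ← hd]
      ring
    have hy2 : ((2 * d * v + 2 * C) / (v ^ 2 + 2 * d - A)) ^ 2 = (d : K) := by
      apply φ.injective
      rw [map_pow, hy, map_ratCast, hd]
    refine ⟨_, d, hy2, fun q hq => ?_⟩
    have hq' := hq
    rw [div_eq_iff hD] at hq'
    have hq0 := hv q (-2 * d) (q * (2 * d - A) - 2 * C) (by push_cast; linear_combination -hq')
    rw [hq, hq0] at hy2
    apply h0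
    have : (d : K) = 0 := by rw [← hy2]; simp
    exact_mod_cast this

/-- The images of the power basis. -/
noncomputable def ww {K : Type} [Field K] (v : K) (A B C : ℚ) : ℕ → K
  | 0 => v
  | 1 => v * A - (v ^ 2 - A) / 2 * v + 3 * C
  | _ => v * (A ^ 2 - 2 * B) - (v ^ 2 - A) / 2 * (v * A - (v ^ 2 - A) / 2 * v + 3 * C) + C * A

theorem ww_eq {K : Type} [Field K] [CharZero K] (φ : K →+* ℂ) (v : K) (η : Fin 3 → ℂ)
    (A B C : ℚ) (i : Fin 4) (h1 : φ v = ∑ x, sg i x * η x) (hA : η 0 ^ 2 + η 1 ^ 2 + η 2 ^ 2 = A)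
    (hB : η 0 ^ 2 * η 1 ^ 2 + η 0 ^ 2 * η 2 ^ 2 + η 1 ^ 2 * η 2 ^ 2 = B)
    (hC : η 0 * η 1 * η 2 = C) (k : ℕ) (hk : k < 3) :
    φ (ww v A B C k) = ∑ x, sg i x * (η x ^ 2) ^ k * η x := by
  interval_cases k <;>
    simp only [ww, map_add, map_sub, map_mul, map_pow, map_div₀, map_ratCast, map_ofNat, h1,
      ← hA, ← hB, ← hC] <;>
    fin_cases i <;> simp [sg, Fin.sum_univ_three] <;> ring

end QA1

open QA1 in
theorem blk_QA1 : StQA1 := by
  intro K _ _ hK
  obtain ⟨v, σ, η, A, B, C, hv, h1, hA, hB, hC⟩ := setup K hK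
  set g : ℚ[X] := X ^ 3 - Polynomial.C A * X ^ 2 + Polynomial.C B * X - Polynomial.C (C ^ 2)
    with hg
  have hm : g.Monic := by
    rw [hg]
    monicity!
  have hd : g.natDegree = 3 := by
    rw [hg]
    compute_degree!
  have hev : ∀ z : ℂ, aeval z g = (z - η 0 ^ 2) * (z - η 1 ^ 2) * (z - η 2 ^ 2) := by
    intro z
    simp only [hg, map_add, map_sub, map_mul, map_pow, aeval_X, aeval_C, eq_ratCast]
    rw [← hA, ← hB, ← hC]
    ring
  have hroot : ∀ z : ℂ, aeval z g = 0 → ∃ x, z = η x ^ 2 := by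
    intro z hz
    rw [hev, mul_eq_zero, mul_eq_zero, sub_eq_zero, sub_eq_zero, sub_eq_zero] at hz
    rcases hz with (h | h) | h
    exacts [⟨0, h⟩, ⟨1, h⟩, ⟨2, h⟩]
  by_cases hi : Irreducible g
  · left
    obtain ⟨R, _, _, pb, hdim, hmin⟩ := exists_pb g hm hi
    rw [hd] at hdim
    have hR : finrank ℚ R = 3 := pb.finrank.trans hdim
    have hz : ∀ x, aeval (η x ^ 2) (minpoly ℚ pb.gen) = 0 := by
      intro x
      rw [hmin, hev]
      fin_cases x <;> simp
    let f : Fin 3 → (R →+* ℂ) := fun x => (pb.lift (η x ^ 2) (hz x)).toRingHom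
    have hf : ∀ x, f x pb.gen = η x ^ 2 := fun x => pb.lift_gen _ _
    have hbij : Function.Bijective f := by
      rw [Fintype.bijective_iff_surjective_and_card, Embeddings.card, hR]
      refine ⟨fun φ => ?_, by simp⟩
      obtain ⟨x, hx⟩ := hroot (φ pb.gen) (by
        have := aeval_algHom_apply φ.toRatAlgHom pb.gen g
        rw [← hmin, minpoly.aeval, map_zero, hmin] at this
        exact this)
      refine ⟨x, ?_⟩
      have : pb.lift (η x ^ 2) (hz x) = φ.toRatAlgHom :=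
        pb.algHom_ext (by rw [pb.lift_gen]; exact hx.symm)
      ext y
      exact congrArg (fun F : R →ₐ[ℚ] ℂ => F y) this
    refine ⟨R, inferInstance, inferInstance, pb.gen, hR, fun h0 => ?_,
      pb.basis.constr ℚ fun k => ww v A B C k, σ, Equiv.ofBijective f hbij, η,
      fun x => (hf x).symm, fun β i => ?_⟩
    · have := congrArg natDegree hmin
      rw [h0, minpoly.zero, natDegree_X, hd] at this
      omega
    · have hβ : ∀ x, f x β = ∑ k, (pb.basis.repr β k : ℂ) * (η x ^ 2) ^ (k : ℕ) := by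
        intro x
        conv_lhs => rw [← pb.basis.sum_repr β]
        rw [map_sum]
        refine Finset.sum_congr rfl fun k _ => ?_
        rw [Rat.smul_def, map_mul, map_ratCast, pb.basis_eq_pow, map_pow, hf]
      simp only [Equiv.ofBijective_apply, hβ, Finset.mul_sum, Finset.sum_mul]
      rw [Finset.sum_comm, Basis.constr_apply_fintype, map_sum]
      refine Finset.sum_congr rfl fun k _ => ?_
      rw [Rat.smul_def, map_mul, map_ratCast,
        ww_eq (σ i) v η A B C i (h1 i) hA hB hC k (hdim ▸ k.2), Finset.mul_sum]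
      refine Finset.sum_congr rfl fun x _ => ?_
      rw [Basis.equivFun_apply]
      ring
  · right
    rw [hm.irreducible_iff_roots_eq_zero_of_degree_le_three (by omega) (by omega)] at hi
    obtain ⟨d, hd'⟩ := Multiset.exists_mem_of_ne_zero hi
    have hdr : aeval (d : ℂ) g = 0 := by
      have h := ((mem_roots hm.ne_zero).1 hd').eq_zero
      have := aeval_algebraMap_apply ℂ d g
      rw [eq_ratCast, coe_aeval_eq_eval, h, map_zero] at this
      exact this
    obtain ⟨x, hx⟩ := hroot _ hdr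
    have h0 := h1 0
    simp only [sg, Fin.sum_univ_three, Matrix.cons_val_zero, Matrix.cons_val_one,
      Matrix.cons_val, one_mul] at h0
    fin_cases x
    · exact red K (σ 0) v hv (η 0) (η 1) (η 2) A B C d h0 hA hB hC hx.symm
    · exact red K (σ 0) v hv (η 1) (η 0) (η 2) A B C d (by rw [h0]; ring) (by rw [← hA]; ring)
        (by rw [← hB]; ring) (by rw [← hC]; ring) hx.symm
    · exact red K (σ 0) v hv (η 2) (η 0) (η 1) A B C d (by rw [h0]; ring) (by rw [← hA]; ring)
        (by rw [← hB]; ring) (by rw [← hC]; ring) hx.symm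

end Pool.Agent.Lib.N4
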