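import Pool.Agent.Lib.N4.Blue

set_option autoImplicit false

open NumberField Ideal Module
open scoped nonZeroDivisors

namespace Pool.Agent.Lib.N4

open Pool.Agent.Lib.Stark

namespace QA2

/-- The matrix of signs. -/
def H : Matrix (Fin 4) (Fin 4) ℂ := !![1, 1, 1, 1; 1, 1, -1, -1; 1, -1, 1, -1; 1, -1, -1, 1]

lemma det_H : H.det ^ 2 = 256 := by
  simp [H, Matrix.det_succ_row_zero, Fin.sum_univ_succ, Fin.succAbove]
  norm_num

lemma rank_eq {F : Type} [Field F] [NumberField F] {n : ℕ} (e : Fin n ≃ (F →+* ℂ)) :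
    finrank ℚ F = n := by
  rw [← Embeddings.card F ℂ, ← Fintype.card_congr e, Fintype.card_fin]

lemma norm_eq {F κ : Type} [Field F] [NumberField F] [Fintype κ] (e : κ ≃ (F →+* ℂ)) (δ : F) :
    ((Algebra.norm ℚ δ : ℚ) : ℂ) = ∏ x, e x δ :=
  (Algebra.norm_eq_prod_embeddings ℚ ℂ δ).trans
    (Fintype.prod_equiv (e.trans (RingHom.equivRatAlgHom F ℂ)) _ _ fun _ => rfl).symm

lemma int_of_rat {t : ℚ} (h : IsIntegral ℤ (t : ℂ)) : ∃ n : ℤ, (n : ℂ) = t := by
  obtain ⟨n, hn⟩ := IsIntegrallyClosed.isIntegral_iff.1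
    ((isIntegral_algebraMap_iff (algebraMap ℚ ℂ).injective).1 h)
  exact ⟨n, by rw [← hn]; simp⟩

lemma int_emb {F : Type} [Field F] [NumberField F] {κ : Type} {ω : κ → F}
    (h : IsB (lat (1 : FractionalIdeal (𝓞 F)⁰ F)) ω) (σ : F →+* ℂ) (j : κ) :
    IsIntegral ℤ (σ (ω j)) := by
  have : ω j ∈ lat (1 : FractionalIdeal (𝓞 F)⁰ F) := h.2 ▸ Submodule.subset_span ⟨j, rfl⟩
  obtain ⟨y, hy⟩ := (FractionalIdeal.mem_one_iff _).1 (mem_lat.1 this)
  exact map_isIntegral_int σ (hy ▸ y.isIntegral_coe)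

lemma norm_b {F : Type} [Field F] [NumberField F] {δ : F} {a : FractionalIdeal (𝓞 F)⁰ F}
    {b : Ideal (𝓞 F)} (h : FractionalIdeal.spanSingleton (𝓞 F)⁰ δ * a ^ 2 = b) :
    (absNorm b : ℚ) = |Algebra.norm ℚ δ| * FractionalIdeal.absNorm a ^ 2 := by
  rw [← FractionalIdeal.coeIdeal_absNorm (K := F), ← h, map_mul, map_pow,
    FractionalIdeal.absNorm_span_singleton]

end QA2

open QA2 in
theorem blk_QA2 (hL : StLatD) : StQA2 := by
  rintro K R _ _ _ _ δ ⟨hδ, μ, σ, e, η, hη, hμ⟩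
  have η0 : ∀ x, η x ≠ 0 := fun x h => by
    have := hη x
    rw [h, zero_pow two_ne_zero, eq_comm, map_eq_zero] at this
    exact hδ this
  let L : (ℚ × R) →ₗ[ℚ] K := (Algebra.linearMap ℚ K).coprod μ
  have k : ∀ (t : ℚ) β, (∑ i, σ i (L (t, β)) = 4 * t) ∧
      ∀ x, ∑ i, H x.succ i * σ i (L (t, β)) = η x * e x (4 * β) := fun t β => by
    have : ∀ i, σ i (L (t, β)) = t + ∑ x, sg i x * e x β * η x := fun i => by simp [L, hμ]
    simp only [this, map_mul, map_ofNat]
    refine ⟨?_, fun x => ?_⟩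
    · simp [sg, Fin.sum_univ_succ]; ring
    · fin_cases x <;> simp [sg, H, Fin.sum_univ_succ] <;> ring
  have hs : Function.Surjective L := by
    refine (LinearMap.injective_iff_surjective_of_finrank_eq_finrank (by
      rw [finrank_prod, rank_eq σ, rank_eq e, finrank_self])).1
      ((injective_iff_map_eq_zero L).2 fun p h => ?_)
    obtain ⟨h1, h2⟩ := k p.1 p.2
    have h3 := h2 0
    simp only [Prod.mk.eta, h, map_zero, mul_zero, Finset.sum_const_zero] at h1 h3
    exact Prod.ext (by simpa using h1) (by simpa [η0] using h3)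
  obtain ⟨ω, hω, dω⟩ := hL.det K 1 one_ne_zero (Fin 4) σ
  choose p hp using fun j => hs (ω j)
  have k1 : ∀ j, ∑ i, σ i (ω j) = ((4 * (p j).1 : ℚ) : ℂ) := fun j => by
    rw [← hp j, (k _ _).1]; simp
  have k2 : ∀ j x, ∑ i, H x.succ i * σ i (ω j) = η x * e x (4 * (p j).2) := fun j x => by
    rw [← hp j, (k _ _).2]
  choose t ht using fun j => int_of_rat (k1 j ▸ IsIntegral.sum _ fun i _ => int_emb hω (σ i) j)
  have d0 : (Matrix.of fun x i => σ x (ω i)).det ≠ 0 := fun h => by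
    rw [h] at dω
    exact discr_ne_zero K (by simpa using dω.symm)
  obtain ⟨a, b, a0, ha, hb⟩ := hL.gen R δ (Fin 4) (fun j => 4 * (p j).2) (by
    by_contra! h
    refine d0 (Matrix.det_zero_of_row_eq (i := 0) (j := 1) (by decide) (funext fun j => ?_))
    have : (p j).2 = 0 := by simpa using h j
    simp only [Matrix.of_apply, ← hp j, L, LinearMap.coprod_apply, this]
    simp) fun i j => by
      have a : ∀ j, IsIntegral ℤ (η 0 * e 0 (4 * (p j).2)) := fun j => k2 j 0 ▸
        IsIntegral.sum _ fun i _ => .mul (by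
          fin_cases i <;> simp [H, isIntegral_one, isIntegral_one.neg]) (int_emb hω (σ i) j)
      refine (isIntegral_algHom_iff (e 0).toIntAlgHom (e 0).injective).1 ?_
      have : (e 0).toIntAlgHom (δ * (4 * (p i).2) * (4 * (p j).2)) =
          η 0 * e 0 (4 * (p i).2) * (η 0 * e 0 (4 * (p j).2)) := by
        rw [RingHom.toIntAlgHom_apply, map_mul, map_mul, ← hη]
        ring
      exact this ▸ (a i).mul (a j)
  obtain ⟨c, hc, dc⟩ := hL.det R a a0 (Fin 3) e
  choose M hM using fun j => (Submodule.mem_span_range_iff_exists_fun ℤ).1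
    (hc.2 ▸ mem_lat.2 (ha j) : 4 * (p j).2 ∈ Submodule.span ℤ (Set.range c))
  let T : Matrix (Fin 4) (Fin 4) ℤ := Matrix.of fun r j => Fin.cases (t j) (M j) r
  let B : Matrix (Fin 4) (Fin 4) ℂ := Matrix.of fun r s =>
    Fin.cases (Fin.cases 1 (fun _ => 0) s)
      (fun x => Fin.cases 0 (fun k => η x * e x (c k)) s) r
  have dB : B.det = (∏ x, η x) * (Matrix.of fun x i => e x (c i)).det := by
    rw [Matrix.det_succ_row_zero, Fin.sum_univ_succ, ← Matrix.det_mul_column]
    simp [B]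
    rfl
  have key : H * Matrix.of (fun x i => σ x (ω i)) = B * T.map (Int.castRingHom ℂ) := by
    ext r j
    refine Fin.cases ?_ (fun x => ?_) r
    · rw [Matrix.mul_apply, Matrix.mul_apply, Fin.sum_univ_succ fun s => B 0 s * _]
      simp [B, T, ht, ← k1, H, Fin.sum_univ_succ]
    · rw [Matrix.mul_apply, Matrix.mul_apply, Fin.sum_univ_succ fun s => B x.succ s * _]
      simp only [Matrix.of_apply, k2, ← hM, map_sum, Finset.mul_sum]
      simp [B, T, mul_comm, mul_left_comm]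
  have h1 := congrArg (fun A => A.det ^ 2) key
  have dT : (T.map (Int.castRingHom ℂ)).det = (T.det : ℤ) := ((Int.castRingHom ℂ).map_det T).symm
  simp only [Matrix.det_mul, mul_pow, det_H, dω, dB, dc, ← Finset.prod_pow, hη, ← norm_eq,
    dT, map_one] at h1
  generalize T.det = m at h1
  have h2 : (256 * discr K : ℚ) = Algebra.norm ℚ δ * (FractionalIdeal.absNorm a ^ 2 * discr R) *
      m ^ 2 := by
    apply (Rat.cast_injective (α := ℂ))
    simpa using h1
  refine ⟨absNorm b, ⟨hδ, a, b, a0, hb, dvd_rfl⟩, m.natAbs ^ 2, ?_⟩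
  apply Nat.cast_injective (R := ℚ)
  have h3 := congrArg abs h2
  simp only [abs_mul, abs_pow, sq_abs] at h3
  push_cast [Nat.cast_natAbs, norm_b hb]
  rw [abs_of_pos (by norm_num : (0 : ℚ) < 256)] at h3
  rw [h3, sq_abs]
  ring

end Pool.Agent.Lib.N4
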