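import Pool.Agent.Lib.N4.Blue

set_option autoImplicit false

open NumberField Module Polynomial
open scoped IntermediateField

namespace Pool.Agent.Lib.N4

namespace QB1

theorem sqrt_gen (k K : Type) [Field k] [NumberField k] [Field K] [NumberField K] [Algebra k K]
    (h : finrank k K = 2) : ∃ (η : K) (α : k), η ≠ 0 ∧ η ^ 2 = algebraMap k K α ∧
      ∀ w : K, ∃ a b : k, w = algebraMap k K a + algebraMap k K b * η := by
  have : Algebra.IsQuadraticExtension k K := { finrank_eq_two' := h }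
  have hc : Nat.card (K ≃ₐ[k] K) = 2 := by rw [IsGalois.card_aut_eq_finrank, h]
  obtain ⟨c, hc1, hc2⟩ := (Nat.card_eq_two_iff' 1).1 hc
  have hcc : ∀ w, c (c w) = w := fun w => by
    have h1 := pow_card_eq_one' (x := c)
    rw [hc, pow_two] at h1
    exact congrArg (fun σ : K ≃ₐ[k] K => σ w) h1
  have hfix : ∀ w, c w = w → ∃ a, algebraMap k K a = w := fun w hw => by
    refine (IsGalois.mem_range_algebraMap_iff_fixed w).2 fun f => ?_
    by_cases hf : f = 1
    · rw [hf]; rfl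
    · rw [hc2 f hf, hw]
  obtain ⟨z, hz⟩ : ∃ z, c z ≠ z := by
    by_contra hn
    push Not at hn
    exact hc1 (AlgEquiv.ext hn)
  have h0 : z - c z ≠ 0 := sub_ne_zero.2 hz.symm
  have h1 : c (z - c z) = -(z - c z) := by rw [map_sub, hcc, neg_sub]
  obtain ⟨α, hα⟩ := hfix ((z - c z) ^ 2) (by rw [map_pow, h1, neg_sq])
  refine ⟨z - c z, α, h0, hα.symm, fun w => ?_⟩
  obtain ⟨a, ha⟩ := hfix ((w + c w) / 2) (by
    rw [map_div₀, map_add, hcc, map_ofNat, add_comm])
  obtain ⟨b, hb⟩ := hfix ((w - c w) / (2 * (z - c z))) (by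
    rw [map_div₀, map_mul, h1, map_sub, hcc, map_ofNat, mul_neg, div_neg, ← neg_div, neg_sub])
  refine ⟨a, b, ?_⟩
  rw [ha, hb]
  field_simp
  ring

theorem enc (k K : Type) [Field k] [NumberField k] [Field K] [NumberField K] [Algebra k K]
    (hk : finrank ℚ k = 2) (hK : finrank ℚ K = 4) (h : finrank k K = 2) :
    ∃ α : k, EncB K k α := by
  classical
  obtain ⟨η, α, h0, h1, h2⟩ := sqrt_gen k K h
  have hα : α ≠ 0 := fun h3 => h0 (by rwa [h3, map_zero, sq_eq_zero_iff] at h1)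
  let e : Fin 2 ≃ (k →+* ℂ) :=
    (Fintype.equivFinOfCardEq ((Embeddings.card k ℂ).trans hk)).symm
  choose r hr using fun x : Fin 2 => IsAlgClosed.exists_pow_nat_eq (e x α) two_pos
  let f : (K →+* ℂ) → Fin 2 × Fin 2 := fun σ =>
    (e.symm (σ.comp (algebraMap k K)),
      if σ η = r (e.symm (σ.comp (algebraMap k K))) then 0 else 1)
  have hf1 : ∀ σ β, e (f σ).1 β = σ (algebraMap k K β) := fun σ β => by simp [f]
  have hf2 : ∀ σ, σ η = (-1) ^ ((f σ).2 : ℕ) * r (f σ).1 := fun σ => by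
    have h3 : σ η ^ 2 = r (f σ).1 ^ 2 := by rw [hr, hf1, ← h1, map_pow]
    by_cases h4 : σ η = r (f σ).1
    · have : (f σ).2 = 0 := if_pos h4
      rw [this, h4]; simp
    · have : (f σ).2 = 1 := if_neg h4
      rw [this, (sq_eq_sq_iff_eq_or_eq_neg.1 h3).resolve_left h4]; simp
  have hinj : Function.Injective f := fun σ σ' h3 => by
    ext w
    obtain ⟨a, b, rfl⟩ := h2 w
    rw [map_add, map_add, map_mul, map_mul, ← hf1, ← hf1, ← hf1, ← hf1, hf2 σ, hf2 σ', h3]
  have hbij : Function.Bijective f := by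
    rw [Fintype.bijective_iff_injective_and_card]
    refine ⟨hinj, ?_⟩
    rw [Embeddings.card K ℂ, hK]
    simp
  let σ := (Equiv.ofBijective f hbij).symm
  have hσ : ∀ p, f (σ p) = p := fun p => (Equiv.ofBijective f hbij).apply_symm_apply p
  let ν : k →ₗ[ℚ] K := (Algebra.linearMap k K).restrictScalars ℚ
  refine ⟨α, hα, ν, (LinearMap.mulRight ℚ η).comp ν, σ, e, r, hr, fun β x j => ?_,
    fun β x j => ?_⟩
  · have := hf1 (σ (x, j)) β
    rw [hσ] at this
    exact this.symm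
  · have h3 := hf1 (σ (x, j)) β
    have h4 := hf2 (σ (x, j))
    rw [hσ] at h3 h4
    change σ (x, j) (algebraMap k K β * η) = _
    rw [map_mul, ← h3, h4]
    ring

end QB1

theorem blk_QB1 : StQB1 := by
  intro K _ _ hK y a hy hn
  have hi : IsIntegral ℚ y := Algebra.IsIntegral.isIntegral y
  have h1 : (minpoly ℚ y).natDegree = 2 := by
    apply le_antisymm
    · have h2 : minpoly ℚ y ∣ X ^ 2 - C a := minpoly.dvd _ _ (by simp [hy])
      have h3 := natDegree_le_of_dvd h2 (X_pow_sub_C_ne_zero two_pos a)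
      rwa [natDegree_X_pow_sub_C] at h3
    · rw [minpoly.two_le_natDegree_iff hi]
      rintro ⟨b, hb⟩
      exact hn b hb.symm
  have h4 : finrank ℚ ℚ⟮y⟯ = 2 := by rw [IntermediateField.adjoin.finrank hi, h1]
  have h5 : finrank ℚ⟮y⟯ K = 2 := by
    have := finrank_mul_finrank ℚ ℚ⟮y⟯ K
    rw [h4, hK] at this
    omega
  obtain ⟨α, hα⟩ := QB1.enc ℚ⟮y⟯ K h4 hK h5
  exact ⟨ℚ⟮y⟯, inferInstance, inferInstance, α, h4, hα⟩

end Pool.Agent.Lib.N4
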