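import Pool.Agent.Lib.N4.Blue

set_option autoImplicit false

open NumberField Ideal Module
open scoped nonZeroDivisors Kronecker

namespace Pool.Agent.Lib.N4

open Pool.Agent.Lib.Stark

namespace QB2

lemma int_iff {F : Type} [Field F] (f : F →+* ℂ) (x : F) : IsIntegral ℤ (f x) ↔ IsIntegral ℤ x :=
  isIntegral_algHom_iff f.toIntAlgHom f.injective

lemma mem_one {F : Type} [Field F] [NumberField F] {x : F} :
    x ∈ lat (1 : FractionalIdeal (𝓞 F)⁰ F) ↔ IsIntegral ℤ x := by
  rw [mem_lat, FractionalIdeal.mem_one_iff]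
  exact ⟨fun ⟨y, hy⟩ => hy ▸ y.2, fun h => ⟨⟨x, h⟩, rfl⟩⟩

lemma coords {F : Type} [Field F] {A : Submodule ℤ F} {c : Fin 2 → F} (h : IsB A c) {x : F}
    (hx : x ∈ A) : ∃ m : Fin 2 → ℤ, x = m 0 * c 0 + m 1 * c 1 := by
  rw [← h.2, Submodule.mem_span_range_iff_exists_fun] at hx
  obtain ⟨m, hm⟩ := hx
  exact ⟨m, by simpa [Fin.sum_univ_two] using hm.symm⟩

lemma norm_eq {k : Type} [Field k] [NumberField k] (e : Fin 2 ≃ (k →+* ℂ)) (α : k) :
    ((Algebra.norm ℚ α : ℚ) : ℂ) = e 0 α * e 1 α := by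
  have h := Algebra.norm_eq_prod_embeddings ℚ ℂ α
  rw [← Fintype.prod_equiv (e.trans (RingHom.equivRatAlgHom k ℂ)) (fun x => e x α) _
    (fun _ => rfl), Fin.prod_univ_two] at h
  exact h

lemma det_id (W : Matrix (Fin 2 × Fin 2) (Fin 2 × Fin 2) ℂ) (C D : Matrix (Fin 2) (Fin 2) ℂ)
    (η : Fin 2 → ℂ) (T M : Fin 2 × Fin 2 → Fin 2 → ℤ)
    (h : ∀ x s j, 2 * W (x, s) j = (T j 0 * C x 0 + T j 1 * C x 1) +
      (-1) ^ (s : ℕ) * (M j 0 * D x 0 + M j 1 * D x 1) * η x) :
    ∃ n : ℤ, 4 * W.det = C.det * (η 0 * η 1 * D.det) * n := by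
  let N : Matrix (Fin 2 × Fin 2) (Fin 2 × Fin 2) ℤ :=
    Matrix.of fun p j => ![T j p.1, M j p.1] p.2
  let B : Fin 2 → Matrix (Fin 2) (Fin 2) ℂ := ![C, Matrix.diagonal η * D]
  let H : Matrix (Fin 2) (Fin 2) ℂ := !![1, 1; 1, -1]
  have e1 : (2 : ℂ) • W = ((1 : Matrix (Fin 2) (Fin 2) ℂ) ⊗ₖ H) * Matrix.blockDiagonal B *
      (Int.castRingHom ℂ).mapMatrix N := by
    ext ⟨x, s⟩ j
    rw [Matrix.smul_apply, smul_eq_mul, h]
    fin_cases x <;> fin_cases s <;>
      simp [Matrix.mul_apply, Fintype.sum_prod_type, Fin.sum_univ_two, Matrix.blockDiagonal_apply,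
        N, B, H, Matrix.diagonal_apply] <;> ring
  have e2 := congrArg Matrix.det e1
  rw [Matrix.det_smul, Matrix.det_mul, Matrix.det_mul, Matrix.det_kronecker,
    Matrix.det_blockDiagonal, ← RingHom.map_det, Fin.prod_univ_two] at e2
  refine ⟨N.det, ?_⟩
  simp [B, H, Matrix.det_fin_two_of, Fin.prod_univ_two] at e2
  linear_combination e2 / 4

end QB2

open QB2 in
theorem blk_QB2 (hL : StLatD) : StQB2 := by
  intro K k _ _ _ _ α h
  obtain ⟨hα, ν, μ, σ, e, η, hη, hν, hμ⟩ := h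
  have rK : finrank ℚ K = 4 := by
    rw [← Embeddings.card K ℂ, ← Fintype.card_congr σ]; simp
  have rk : finrank ℚ k = 2 := by
    rw [← Embeddings.card k ℂ, ← Fintype.card_congr e]; simp
  have hη0 : ∀ x, η x ≠ 0 := fun x hx => by
    have := hη x
    rw [hx, zero_pow two_ne_zero, eq_comm, map_eq_zero] at this
    exact hα this
  have hinj : Function.Injective (ν.coprod μ) := by
    rw [injective_iff_map_eq_zero]
    rintro ⟨t, β⟩ h
    have h0 := congrArg (σ (0, 0)) h
    have h1 := congrArg (σ (0, 1)) h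
    simp only [LinearMap.coprod_apply, map_add, hν, hμ, map_zero] at h0 h1
    simp at h0 h1
    have h2 : e 0 t = 0 := by linear_combination (h0 + h1) / 2
    have h3 : e 0 β * η 0 = 0 := by linear_combination (h0 - h1) / 2
    rw [map_eq_zero] at h2
    rw [mul_eq_zero, map_eq_zero, or_iff_left (hη0 0)] at h3
    simp [h2, h3]
  have hsurj : Function.Surjective (ν.coprod μ) :=
    (LinearMap.injective_iff_surjective_of_finrank_eq_finrank (by simp [rK, rk])).1 hinj
  obtain ⟨ω, hω, dω⟩ := hL.det K 1 one_ne_zero _ σ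
  choose p hp using fun j => hsurj (2 * ω j)
  have hs : ∀ x s j, 2 * σ (x, s) (ω j) =
      e x (p j).1 + (-1) ^ (s : ℕ) * e x (p j).2 * η x := by
    intro x s j
    have := congrArg (σ (x, s)) (hp j)
    rw [LinearMap.coprod_apply, map_add, hν, hμ, map_mul, map_ofNat] at this
    exact this.symm
  have iω : ∀ y j, IsIntegral ℤ (σ y (ω j)) := fun y j =>
    (int_iff _ _).2 (mem_one.1 (hω.2 ▸ Submodule.subset_span ⟨j, rfl⟩))
  have ht : ∀ x j, e x (p j).1 = σ (x, 0) (ω j) + σ (x, 1) (ω j) := fun x j => by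
    have h0 := hs x 0 j
    have h1 := hs x 1 j
    simp at h0 h1
    linear_combination -(h0 + h1) / 2
  have hb : ∀ x j, e x (p j).2 * η x = σ (x, 0) (ω j) - σ (x, 1) (ω j) := fun x j => by
    have h0 := hs x 0 j
    have h1 := hs x 1 j
    simp at h0 h1
    linear_combination -(h0 - h1) / 2
  rw [map_one, Rat.cast_one, one_pow, one_mul] at dω
  obtain ⟨a, b, ha, hβ, hab⟩ := hL.gen k α _ (fun j => (p j).2) (by
      by_contra hc
      push Not at hc
      rw [Matrix.det_zero_of_row_eq (i := (0, 0)) (j := (0, 1)) (by simp) (by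
        funext j
        have := hb 0 j
        rw [hc j, map_zero, zero_mul, eq_comm, sub_eq_zero] at this
        exact this), zero_pow two_ne_zero, eq_comm, Int.cast_eq_zero] at dω
      exact discr_ne_zero K dω)
    (fun i j => by
      rw [← int_iff (e 0)]
      have : e 0 (α * (p i).2 * (p j).2) = (e 0 (p i).2 * η 0) * (e 0 (p j).2 * η 0) := by
        rw [map_mul, map_mul, ← hη]; ring
      rw [this, hb, hb]
      exact ((iω _ _).sub (iω _ _)).mul ((iω _ _).sub (iω _ _)))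
  obtain ⟨c, hc, dc⟩ := hL.det k 1 one_ne_zero _ e
  obtain ⟨d, hd, dd⟩ := hL.det k a ha _ e
  rw [map_one, Rat.cast_one, one_pow, one_mul] at dc
  choose T hT using fun j => coords hc (x := (p j).1) (mem_one.2 (by
    rw [← int_iff (e 0), ht]; exact (iω _ _).add (iω _ _)))
  choose M hM using fun j => coords hd (x := (p j).2) (hβ j)
  obtain ⟨n, hn⟩ := det_id (Matrix.of fun x i => σ x (ω i)) (Matrix.of fun x i => e x (c i))
    (Matrix.of fun x i => e x (d i)) η T M (fun x s j => by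
      simp only [Matrix.of_apply]
      rw [hs, hT j, hM j]
      simp)
  have key : (16 : ℚ) * discr K =
      discr k ^ 2 * (Algebra.norm ℚ α * FractionalIdeal.absNorm a ^ 2) * n ^ 2 := by
    have h1 := congrArg (· ^ 2) hn
    simp only [mul_pow] at h1
    rw [dω, dc, dd, hη, hη, ← norm_eq] at h1
    have h2 : (((16 : ℚ) * discr K : ℚ) : ℂ) =
        ((discr k ^ 2 * (Algebra.norm ℚ α * FractionalIdeal.absNorm a ^ 2) * n ^ 2 : ℚ) : ℂ) := by
      push_cast
      linear_combination h1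
    exact_mod_cast h2
  have hn2 : (absNorm b : ℚ) = |Algebra.norm ℚ α| * FractionalIdeal.absNorm a ^ 2 := by
    have := FractionalIdeal.coeIdeal_absNorm (K := k) b
    rw [← hab, map_mul, map_pow, FractionalIdeal.absNorm_span_singleton] at this
    exact_mod_cast this.symm
  refine ⟨absNorm b, ⟨hα, a, b, ha, hab, dvd_rfl⟩, n.natAbs ^ 2, ?_⟩
  have h3 := congrArg abs key
  simp only [abs_mul, abs_pow, abs_of_nonneg (FractionalIdeal.absNorm_nonneg a)] at h3
  rw [← hn2] at h3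
  have h4 : ((16 * (discr K).natAbs : ℕ) : ℚ) =
      (((discr k).natAbs ^ 2 * absNorm b * n.natAbs ^ 2 : ℕ) : ℚ) := by
    push_cast [Nat.cast_natAbs]
    simpa using h3
  exact_mod_cast h4

end Pool.Agent.Lib.N4
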