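import Pool.Agent.Lib.N4.Blue

set_option autoImplicit false

open NumberField Module

namespace Pool.Agent.Lib.N4

namespace QI

lemma iso_of_range {K K' : Type} [Field K] [NumberField K] [Field K'] [NumberField K']
    (σ : K →+* ℂ) (σ' : K' →+* ℂ) (hr : finrank ℚ K = finrank ℚ K')
    (h : ∀ y, ∃ x, σ x = σ' y) : Nonempty (K ≃+* K') := by
  choose f hf using h
  let g : K' →+* K :=
    { toFun := f
      map_one' := σ.injective (by rw [hf, map_one, map_one])
      map_mul' := fun a b => σ.injective (by rw [hf, map_mul, map_mul, hf, hf])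
      map_zero' := σ.injective (by rw [hf, map_zero, map_zero])
      map_add' := fun a b => σ.injective (by rw [hf, map_add, map_add, hf, hf]) }
  have hinj : Function.Injective g.toRatAlgHom.toLinearMap := g.injective
  have hsurj : Function.Surjective g.toRatAlgHom.toLinearMap :=
    (LinearMap.injective_iff_surjective_of_finrank_eq_finrank hr.symm).1 hinj
  exact ⟨(RingEquiv.ofBijective g ⟨hinj, hsurj⟩).symm⟩

lemma rank_of {K : Type} [Field K] [NumberField K] {ι : Type} [Fintype ι]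
    (σ : ι ≃ (K →+* ℂ)) : finrank ℚ K = Fintype.card ι := by
  rw [← Embeddings.card K ℂ, Fintype.card_congr σ]

lemma spanA {K R : Type} [Field K] [NumberField K] [Field R] [NumberField R] {δ : R} (hδ : δ ≠ 0)
    (μ : R →ₗ[ℚ] K) (σ : Fin 4 ≃ (K →+* ℂ)) (e : Fin 3 ≃ (R →+* ℂ)) (η : Fin 3 → ℂ)
    (hη : ∀ x, η x ^ 2 = e x δ) (hμ : ∀ β i, σ i (μ β) = ∑ x, sg i x * e x β * η x) (y : K) :
    ∃ (t : ℚ) (g : R), y = t + μ g := by
  let F : ℚ × R →ₗ[ℚ] K := (Algebra.linearMap ℚ K).coprod μ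
  have hF : ∀ p : ℚ × R, F p = (p.1 : K) + μ p.2 := fun p => by
    simp [F]
  have hinj : Function.Injective F := by
    rw [injective_iff_map_eq_zero]
    rintro ⟨t, g⟩ h
    rw [hF] at h
    have k : ∀ i, (t : ℂ) + ∑ x, sg i x * e x g * η x = 0 := fun i => by
      have := congrArg (σ i) h
      rwa [map_add, map_ratCast, hμ, map_zero] at this
    have k0 := k 0
    have k1 := k 1
    have k2 := k 2
    have k3 := k 3
    simp only [sg, Fin.sum_univ_three, Matrix.cons_val_zero, Matrix.cons_val_one,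
      Matrix.cons_val] at k0 k1 k2 k3
    have ht : (t : ℂ) = 0 := by linear_combination (k0 + k1 + k2 + k3) / 4
    have hg : e 0 g * η 0 = 0 := by linear_combination (k0 + k1 - k2 - k3) / 4
    have hη0 : η 0 ≠ 0 := fun h0 => by
      have := hη 0
      rw [h0, zero_pow two_ne_zero] at this
      exact hδ ((map_eq_zero_iff _ (e 0).injective).1 this.symm)
    have hg0 : g = 0 := (map_eq_zero_iff _ (e 0).injective).1 ((mul_eq_zero.1 hg).resolve_right hη0)
    have ht0 : t = 0 := by exact_mod_cast ht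
    rw [ht0, hg0]; rfl
  have hr : finrank ℚ (ℚ × R) = finrank ℚ K := by
    rw [finrank_prod, finrank_self, rank_of σ, rank_of e]; simp
  obtain ⟨p, hp⟩ := (LinearMap.injective_iff_surjective_of_finrank_eq_finrank hr).1 hinj y
  exact ⟨p.1, p.2, by rw [← hp, hF]⟩

lemma spanB {K k : Type} [Field K] [NumberField K] [Field k] [NumberField k] {α : k} (hα : α ≠ 0)
    (ν μ : k →ₗ[ℚ] K) (σ : Fin 2 × Fin 2 ≃ (K →+* ℂ)) (e : Fin 2 ≃ (k →+* ℂ)) (η : Fin 2 → ℂ)
    (hη : ∀ x, η x ^ 2 = e x α) (hν : ∀ β x j, σ (x, j) (ν β) = e x β)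
    (hμ : ∀ β x j, σ (x, j) (μ β) = (-1) ^ (j : ℕ) * e x β * η x) (y : K) :
    ∃ a b : k, y = ν a + μ b := by
  let F : k × k →ₗ[ℚ] K := ν.coprod μ
  have hF : ∀ p : k × k, F p = ν p.1 + μ p.2 := fun p => by
    simp [F]
  have hinj : Function.Injective F := by
    rw [injective_iff_map_eq_zero]
    rintro ⟨a, b⟩ h
    rw [hF] at h
    have k : ∀ j : Fin 2, e 0 a + (-1) ^ (j : ℕ) * e 0 b * η 0 = 0 := fun j => by
      have := congrArg (σ (0, j)) h
      rwa [map_add, hν, hμ, map_zero (σ (0, j))] at this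
    have k0 := k 0
    have k1 := k 1
    simp only [Fin.val_zero, Fin.val_one, pow_zero, pow_one] at k0 k1
    have ha : e 0 a = 0 := by linear_combination (k0 + k1) / 2
    have hb : e 0 b * η 0 = 0 := by linear_combination (k0 - k1) / 2
    have hη0 : η 0 ≠ 0 := fun h0 => by
      have := hη 0
      rw [h0, zero_pow two_ne_zero] at this
      exact hα ((map_eq_zero_iff _ (e 0).injective).1 this.symm)
    have hb0 : b = 0 := (map_eq_zero_iff _ (e 0).injective).1 ((mul_eq_zero.1 hb).resolve_right hη0)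
    have ha0 : a = 0 := (map_eq_zero_iff _ (e 0).injective).1 ha
    rw [ha0, hb0]; rfl
  have hr : finrank ℚ (k × k) = finrank ℚ K := by
    rw [finrank_prod, rank_of σ, rank_of e]; simp
  obtain ⟨p, hp⟩ := (LinearMap.injective_iff_surjective_of_finrank_eq_finrank hr).1 hinj y
  exact ⟨p.1, p.2, by rw [← hp, hF]⟩

lemma sign_ex {a b : ℂ} (h : a ^ 2 = b ^ 2) : ∃ s : ℤ, (s = 1 ∨ s = -1) ∧ a = s * b := by
  rcases sq_eq_sq_iff_eq_or_eq_neg.1 h with h | h
  · exact ⟨1, Or.inl rfl, by simp [h]⟩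
  · exact ⟨-1, Or.inr rfl, by simp [h]⟩

lemma row_ex (ε : Fin 3 → ℤ) (h : ∀ x, ε x = 1 ∨ ε x = -1) :
    ∃ (i : Fin 4) (s : ℤ), ∀ x, sg i x * ε x = s := by
  rcases h 0 with h0 | h0 <;> rcases h 1 with h1 | h1 <;> rcases h 2 with h2 | h2
  · exact ⟨0, 1, fun x => by fin_cases x <;> simp [sg, h0, h1, h2]⟩
  · exact ⟨3, -1, fun x => by fin_cases x <;> simp [sg, h0, h1, h2]⟩
  · exact ⟨2, -1, fun x => by fin_cases x <;> simp [sg, h0, h1, h2]⟩
  · exact ⟨1, 1, fun x => by fin_cases x <;> simp [sg, h0, h1, h2]⟩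
  · exact ⟨1, -1, fun x => by fin_cases x <;> simp [sg, h0, h1, h2]⟩
  · exact ⟨2, 1, fun x => by fin_cases x <;> simp [sg, h0, h1, h2]⟩
  · exact ⟨3, 1, fun x => by fin_cases x <;> simp [sg, h0, h1, h2]⟩
  · exact ⟨0, -1, fun x => by fin_cases x <;> simp [sg, h0, h1, h2]⟩

/-- Transport of embeddings along an isomorphism. -/
def embEquiv {R R' : Type} [Field R] [Field R'] (e : R ≃+* R') : (R →+* ℂ) ≃ (R' →+* ℂ) where
  toFun f := f.comp e.symm.toRingHom
  invFun f := f.comp e.toRingHom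
  left_inv f := by ext x; simp
  right_inv f := by ext x; simp

lemma embEquiv_apply {R R' : Type} [Field R] [Field R'] (e : R ≃+* R') (f : R →+* ℂ) (x : R') :
    embEquiv e f x = f (e.symm x) := rfl

end QI

open QI in
theorem blk_QI : StQI where
  rigA := by
    rintro K K' R _ _ _ _ _ _ δ β ⟨-, μ, σ, e, η, hη, hμ⟩ ⟨hδ', μ', σ', e', η', hη', hμ'⟩
    let π : Fin 3 ≃ Fin 3 := e'.trans e.symm
    have hπ : ∀ x, e (π x) = e' x := fun x => by simp [π]
    have hs : ∀ x, ∃ s : ℤ, (s = 1 ∨ s = -1) ∧ η' x = s * (e' x β * η (π x)) := fun x =>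
      sign_ex (by rw [hη', mul_pow, hη, hπ, map_mul, map_pow, mul_comm])
    choose ε hε hε' using hs
    obtain ⟨i, s, hi⟩ := row_ex ε hε
    refine iso_of_range (σ 0) (σ' i) (by rw [rank_of σ, rank_of σ']) fun y => ?_
    obtain ⟨t, g, rfl⟩ := spanA hδ' μ' σ' e' η' hη' hμ' y
    refine ⟨t + μ (s * g * β), ?_⟩
    rw [map_add, map_add, map_ratCast, map_ratCast, hμ, hμ', ← π.sum_comp]
    congr 1
    refine Finset.sum_congr rfl fun x _ => ?_
    have h0 : sg 0 (π x) = 1 := by generalize π x = z; fin_cases z <;> simp [sg]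
    rw [h0, hπ, hε', map_mul, map_mul, map_intCast, ← hi x]
    ring
  rigB := by
    rintro K K' k _ _ _ _ _ _ α β ⟨-, ν, μ, σ, e, η, hη, hν, hμ⟩
      ⟨hα', ν', μ', σ', e', η', hη', hν', hμ'⟩
    let x' : Fin 2 := e'.symm (e 0)
    have hx : e' x' = e 0 := by simp [x']
    obtain ⟨s, -, hs⟩ : ∃ s : ℤ, (s = 1 ∨ s = -1) ∧ η' x' = s * (e 0 β * η 0) :=
      sign_ex (by rw [hη', mul_pow, hη, hx, map_mul, map_pow, mul_comm])
    refine iso_of_range (σ (0, 0)) (σ' (x', 0)) (by rw [rank_of σ, rank_of σ']) fun y => ?_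
    obtain ⟨a, b, rfl⟩ := spanB hα' ν' μ' σ' e' η' hη' hν' hμ' y
    refine ⟨ν a + μ (s * b * β), ?_⟩
    rw [map_add, map_add, hν, hμ, hν', hμ', hx, hs, map_mul, map_mul, map_intCast]
    ring
  trA := by
    rintro K R R' _ _ _ _ _ _ δ e ⟨hδ, μ, σ, f, η, hη, hμ⟩
    refine ⟨(map_ne_zero_iff e e.injective).2 hδ,
      μ ∘ₗ e.symm.toRingHom.toRatAlgHom.toLinearMap, σ, f.trans (embEquiv e), η, fun x => ?_,
      fun β i => ?_⟩
    · rw [hη, Equiv.trans_apply, embEquiv_apply, e.symm_apply_apply]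
    · exact hμ (e.symm β) i
  trB := by
    rintro K k k' _ _ _ _ _ _ α e ⟨hα, ν, μ, σ, f, η, hη, hν, hμ⟩
    refine ⟨(map_ne_zero_iff e e.injective).2 hα,
      ν ∘ₗ e.symm.toRingHom.toRatAlgHom.toLinearMap,
      μ ∘ₗ e.symm.toRingHom.toRatAlgHom.toLinearMap, σ, f.trans (embEquiv e), η, fun x => ?_,
      fun β x j => ?_, fun β x j => ?_⟩
    · rw [hη, Equiv.trans_apply, embEquiv_apply, e.symm_apply_apply]
    · exact hν (e.symm β) x j
    · exact hμ (e.symm β) x j

end Pool.Agent.Lib.N4
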