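import Pool.Agent.Lib.N4.Blue

set_option autoImplicit false

open NumberField Ideal Module

namespace Pool.Agent.Lib.N4

namespace QUAD

variable {k : Type} [Field k] [NumberField k] {d : ℤ} {s : k}

lemma span_top (h : Sq d s) : ⊤ ≤ Submodule.span ℚ (Set.range ![1, s]) := fun y _ => by
  obtain ⟨a, b, rfl⟩ := h.2 y
  rw [← Rat.smul_one_eq_cast, ← Rat.smul_def]
  exact add_mem (Submodule.smul_mem _ _ (Submodule.subset_span ⟨0, rfl⟩))
    (Submodule.smul_mem _ _ (Submodule.subset_span ⟨1, rfl⟩))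

lemma exists_basis (h : Sq d s) (h2 : finrank ℚ k = 2) :
    ∃ b : Basis (Fin 2) ℚ k, b 0 = 1 ∧ b 1 = s :=
  ⟨basisOfTopLeSpanOfCardEqFinrank _ (span_top h) (by simp [h2]), by simp, by simp⟩

lemma discr_eq (h : Sq d s) (h2 : finrank ℚ k = 2) :
    ∃ m : ℤ, m ≠ 0 ∧ 4 * d = m ^ 2 * discr k := by
  classical
  obtain ⟨b, b0, b1⟩ := exists_basis h h2
  have hs : s * s = (d : ℚ) • b 0 := by rw [b0, ← sq, h.1]; simp
  have t1 : Algebra.trace ℚ k 1 = 2 := by
    rw [← (algebraMap ℚ k).map_one, Algebra.trace_algebraMap, h2]; norm_num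
  have t2 : Algebra.trace ℚ k s = 0 := by
    rw [Algebra.trace_eq_matrix_trace b, Matrix.trace_fin_two, Algebra.leftMulMatrix_eq_repr_mul,
      Algebra.leftMulMatrix_eq_repr_mul, b1, hs, b0, mul_one, ← b1, ← b0]
    simp
  have h3 : Algebra.discr ℚ b = 4 * d := by
    rw [Algebra.discr_def, Matrix.det_fin_two]
    simp only [Algebra.traceMatrix_apply, Algebra.traceForm_apply, b1, hs, b0, mul_one, one_mul,
      map_smul, t1, t2, smul_eq_mul]
    ring
  have hi : IsIntegral ℤ s := IsIntegral.of_pow two_pos (h.1 ▸ isIntegral_intCast d)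
  let e : Free.ChooseBasisIndex ℤ (𝓞 k) ≃ Fin 2 := Fintype.equivFinOfCardEq (by
    rw [← finrank_eq_card_chooseBasisIndex, RingOfIntegers.rank, h2])
  let v : Fin 2 → 𝓞 k := ![1, ⟨s, hi⟩]
  let P := (RingOfIntegers.basis k).toMatrix (v ∘ e)
  have h4 := Algebra.discr_of_matrix_mulVec (integralBasis k) (P.transpose.map (Int.castRingHom ℚ))
  have h5 : ((P.transpose.map (Int.castRingHom ℚ)).map (algebraMap ℚ k)).mulVec (integralBasis k) =
      b ∘ e.symm.symm := by
    funext i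
    have := congrArg (algebraMap (𝓞 k) k) ((RingOfIntegers.basis k).sum_toMatrix_smul_self (v ∘ e) i)
    have h6 : ∀ j, algebraMap (𝓞 k) k (v j) = b j := fun j => by
      fin_cases j
      · simpa [v] using b0.symm
      · exact b1.symm
    simpa [Matrix.mulVec, dotProduct, P, h6] using this
  rw [h5, Algebra.discr_reindex, ← coe_discr, ← RingHom.mapMatrix_apply,
    ← RingHom.map_det] at h4
  refine ⟨P.transpose.det, fun h0 => Algebra.discr_not_zero_of_basis ℚ b (by simp [h4, h0]), ?_⟩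
  rw [h3, eq_intCast] at h4
  exact_mod_cast h4

lemma exists_sq (h2 : finrank ℚ k = 2) : ∃ (d : ℤ) (s : k), Sq d s := by
  obtain ⟨x, hx⟩ := exists_linearIndependent_cons_of_lt_finrank (R := ℚ) (v := ![(1 : k)])
    (by simp) (by omega)
  have hb : ∀ y : k, ∃ a b : ℚ, y = a + b * x := fun y => by
    have := hx.span_eq_top_of_card_eq_finrank' (by simp [h2]) ▸ Submodule.mem_top (x := y)
    obtain ⟨c, rfl⟩ := (Submodule.mem_span_range_iff_exists_fun ℚ).1 this
    exact ⟨c 1, c 0, by simp [Fin.sum_univ_two, Rat.smul_def, add_comm]⟩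
  obtain ⟨p, q, hp⟩ := hb (x ^ 2)
  set r : ℚ := p + q ^ 2 / 4 with hr
  have h0 : (r.den : k) ≠ 0 := Nat.cast_ne_zero.2 r.den_nz
  refine ⟨r.num * r.den, r.den * (x - q / 2), ?_, fun y => ?_⟩
  · have : ((r.num : ℤ) : k) = (r : k) * r.den := by exact_mod_cast (Rat.mul_den_eq_num r).symm
    push_cast
    rw [this, hr]
    push_cast
    linear_combination (((p + q ^ 2 / 4).den : k)) ^ 2 * hp
  · obtain ⟨a, b, rfl⟩ := hb y
    refine ⟨a + b * q / 2, b / r.den, ?_⟩
    push_cast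
    field_simp
    ring

lemma exists_sq_discr (h2 : finrank ℚ k = 2) : ∃ s : k, Sq (discr k) s := by
  obtain ⟨d, s, h⟩ := exists_sq h2
  obtain ⟨m, hm, e⟩ := discr_eq h h2
  have h0 : (m : k) ≠ 0 := Int.cast_ne_zero.2 hm
  have e' : (4 : k) * d = m ^ 2 * discr k := by exact_mod_cast e
  refine ⟨2 * s / m, ?_, fun y => ?_⟩
  · field_simp
    linear_combination 4 * h.1 + e'
  · obtain ⟨a, b, rfl⟩ := h.2 y
    refine ⟨a, b * m / 2, ?_⟩
    push_cast
    field_simp

lemma iso {k' : Type} [Field k'] [NumberField k'] {s' : k'} (h : Sq d s) (h' : Sq d s')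
    (h2 : finrank ℚ k = 2) : Nonempty (k ≃+* k') := by
  obtain ⟨b, b0, b1⟩ := exists_basis h h2
  let f := b.constr ℚ ![1, s']
  have hf : ∀ x y : ℚ, f (x + y * s) = x + y * s' := fun x y => by
    rw [← Rat.smul_one_eq_cast, ← Rat.smul_def, ← b0, ← b1, map_add, map_smul, map_smul,
      Basis.constr_basis, Basis.constr_basis]
    simp [Rat.smul_def]
  let g : k →+* k' :=
    { f.toAddMonoidHom with
      map_one' := by simpa using hf 1 0
      map_mul' := fun x y => by
        obtain ⟨a, b, rfl⟩ := h.2 x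
        obtain ⟨a', b', rfl⟩ := h.2 y
        have : ((a : k) + b * s) * (a' + b' * s) =
            (a * a' + b * b' * d : ℚ) + (a * b' + b * a' : ℚ) * s := by
          push_cast
          linear_combination (b * b' : k) * h.1
        change f _ = f _ * f _
        rw [this, hf, hf, hf]
        push_cast
        linear_combination -(b * b' : k') * h'.1 }
  exact ⟨RingEquiv.ofBijective g ⟨g.injective, fun y => by
    obtain ⟨a, b, rfl⟩ := h'.2 y
    exact ⟨_, hf a b⟩⟩⟩

end QUAD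

open QUAD

theorem blk_QUAD : StQuad := by
  refine ⟨fun k _ _ d s h => ?_, fun d hd => ?_, fun k k' _ _ _ _ h h' e => ?_, ?_⟩
  · simpa using finrank_le_of_span_eq_top (top_le_iff.1 (span_top h))
  · have : Fact (∀ r : ℚ, r ^ 2 ≠ (d : ℚ) + 0 * r) := ⟨fun r hr => hd
      (Rat.isSquare_intCast_iff.1 ⟨r, by rw [← sq, hr]; simp⟩)⟩
    have : NumberField (QuadraticAlgebra ℚ d 0) := {}
    have h2 : finrank ℚ (QuadraticAlgebra ℚ d 0) = 2 := QuadraticAlgebra.finrank_eq_two _ _
    have h : Sq d (QuadraticAlgebra.omega : QuadraticAlgebra ℚ d 0) :=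
      ⟨by rw [sq, QuadraticAlgebra.omega_mul_omega_eq_mk]; rfl,
        fun y => ⟨y.re, y.im, by ext <;> simp⟩⟩
    refine ⟨_, _, this, _, h2, h, ?_⟩
    obtain ⟨m, hm, e⟩ := discr_eq h h2
    have h3 := congrArg Int.natAbs e
    rw [Int.natAbs_mul, Int.natAbs_mul] at h3
    have h4 := Nat.le_mul_of_pos_left (discr (QuadraticAlgebra ℚ d 0)).natAbs
      (Int.natAbs_pos.2 (pow_ne_zero 2 hm))
    rw [dn]
    exact_mod_cast h4.trans_eq h3.symm
  · obtain ⟨s, hs⟩ := exists_sq_discr h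
    obtain ⟨s', hs'⟩ := exists_sq_discr h'
    exact iso hs (e ▸ hs') h
  · refine le_antisymm (gt_le_card.trans_eq ?_) (tor_pos 3)
    rw [Nat.card_eq_fintype_card]
    exact Rat.classNumber_eq

end Pool.Agent.Lib.N4
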