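import Pool.Agent.Lib.N4.Blue
import Pool.Agent.Lib.stark.RG
import Pool.Agent.Lib.stark.TK1
import Pool.Agent.Lib.stark.TK2a

set_option autoImplicit false

open NumberField Ideal Module
open scoped nonZeroDivisors

namespace Pool.Agent.Lib.N4

open Pool.Agent.Lib.Stark

namespace RAY

variable {K : Type} [Field K] [NumberField K] {m : Ideal (𝓞 K)} {B : Type} [CommGroup B]
  {κ : Ideal (𝓞 K) → B}

omit [NumberField K] in
lemma top_one (h : RayHom m κ) : κ ⊤ = 1 := by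
  have h1 := h.mul ⊤ ⊤ TK2a.cop_top TK2a.cop_top
  rw [Ideal.top_mul] at h1
  exact mul_eq_left.1 h1.symm

omit [NumberField K] in
lemma map_pow' (h : RayHom m κ) {I : Ideal (𝓞 K)} (hI : Cop m I) (n : ℕ) :
    κ (I ^ n) = κ I ^ n := by
  induction n with
  | zero => rw [pow_zero, pow_zero, one_eq_top, top_one h]
  | succ n ih => rw [pow_succ, pow_succ, h.mul _ _ (TK2a.cop_pow hI n) hI, ih]

lemma wd (h : Univ ∅ m κ) {a a' : 𝓞 K} (ha : Cop m (span {a})) (ha' : Cop m (span {a'}))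
    (e : a - a' ∈ m) : κ (span {a}) = κ (span {a'}) := by
  obtain ⟨a0, c, c0, hc⟩ := TK1.cop_span.1 ha
  obtain ⟨a0', -⟩ := TK1.cop_span.1 ha'
  refine (h.ker _ _ ha ha').2 ⟨a' * c, a * c, mul_ne_zero a0' c0, mul_ne_zero a0 c0, ?_, hc,
    fun τ hτ => absurd hτ (Set.notMem_empty τ), ?_⟩
  · have : a' * c - 1 = (a * c - 1) - (a - a') * c := by ring
    rw [this]
    exact m.sub_mem hc (m.mul_mem_right _ e)
  · rw [span_singleton_mul_span_singleton, span_singleton_mul_span_singleton]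
    congr 2
    ring

omit [NumberField K] in
lemma exists_one {I : Ideal (𝓞 K)} (hI : Cop m I) : ∃ b ∈ I, b ≠ 0 ∧ b - 1 ∈ m := by
  obtain ⟨b, hb, μ, hμ, e⟩ := Submodule.mem_sup.1 ((eq_top_iff_one _).1 hI.1)
  by_cases b0 : b = 0
  · obtain ⟨i, hi, i0⟩ := Submodule.exists_mem_ne_zero_of_ne_bot hI.2
    rw [b0, zero_add] at e
    refine ⟨i, hi, i0, ?_⟩
    have : i - 1 = (i - 1) * μ := by rw [e, mul_one]
    rw [this]
    exact m.mul_mem_left _ hμ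
  · refine ⟨b, hb, b0, ?_⟩
    have : b - 1 = -μ := by rw [← e]; ring
    rw [this]
    exact m.neg_mem hμ

lemma key (h : Univ ∅ m κ) (hm : m ≠ ⊥) {I J : Ideal (𝓞 K)} (hI : Cop m I) (hJ : Cop m J)
    (e : (cl J)⁻¹ * cl I ∈ pw 3 (ClassGroup (𝓞 K))) :
    ∃ (a : 𝓞 K) (b : B), Cop m (span {a}) ∧ κ (span {a}) * κ I = κ J * b ^ 3 := by
  obtain ⟨D, hD⟩ := mem_pw.1 e
  obtain ⟨c, hc, rfl⟩ := TK1.exists_rep hm D
  have hc3 := TK2a.cop_pow hc 3
  have hJc := TK2a.cop_mul hJ hc3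
  have e1 : cl I = cl (J * (c : Ideal (𝓞 K)) ^ 3) := by
    rw [cl_mul hJ.2 hc3.2, cl_pow, cl_coe, hD, mul_inv_cancel_left]
  obtain ⟨x, y, -, y0, e2⟩ := (cl_eq_cl_iff hI.2 hJc.2).1 e1
  obtain ⟨b, hb, b0, hb1⟩ := exists_one hI
  have h1 : x * b ∈ span {y} := by
    have h2 : x * b ∈ span {x} * I := mul_mem_mul (mem_span_singleton_self x) hb
    rw [e2] at h2
    exact (Ideal.mul_le_left : span {y} * (J * (c : Ideal (𝓞 K)) ^ 3) ≤ span {y}) h2
  obtain ⟨a, ha⟩ := mem_span_singleton'.1 h1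
  have hbc : Cop m (span {b}) := TK1.cop_span.2 ⟨b0, 1, one_ne_zero, by rwa [mul_one]⟩
  have e3 : span {a} * I = span {b} * (J * (c : Ideal (𝓞 K)) ^ 3) := by
    have y1 : span {y} ≠ (0 : Ideal (𝓞 K)) := by
      rw [Ne, zero_eq_bot, span_singleton_eq_bot]; exact y0
    apply mul_left_cancel₀ y1
    rw [← mul_assoc, span_singleton_mul_span_singleton, mul_comm y a, ha, mul_left_comm, ← e2,
      ← mul_assoc, span_singleton_mul_span_singleton, mul_comm b x]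
  have hac : Cop m (span {a}) := (TK1.cop_mul.1 (e3 ▸ TK2a.cop_mul hbc hJc)).1
  have h1c : Cop m (span {(1 : 𝓞 K)}) := by rw [span_singleton_one]; exact TK2a.cop_top
  have e4 : κ (span {b}) = 1 := by
    rw [wd h hbc h1c hb1, span_singleton_one, top_one h.hom]
  refine ⟨a, κ c, hac, ?_⟩
  rw [← h.hom.mul _ _ hac hI, e3, h.hom.mul _ _ hbc hJc, e4, one_mul, h.hom.mul _ _ hJ hc3,
    map_pow' h.hom hc]

lemma card_le (h : Univ ∅ m κ) (hm : m ≠ ⊥) :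
    Nat.card (B ⧸ pw 3 B) ≤ absNorm m * tor 3 K := by
  classical
  have : Finite (𝓞 K ⧸ m) := Ideal.finiteQuotientOfFreeOfNeBot m hm
  choose J hJ hJ' using fun t : ClassGroup (𝓞 K) ⧸ pw 3 (ClassGroup (𝓞 K)) =>
    TK1.exists_rep hm t.out
  let g : 𝓞 K ⧸ m → B := fun r =>
    if hr : ∃ a : 𝓞 K, Cop m (span {a}) ∧ Ideal.Quotient.mk m a = r then κ (span {hr.choose})
    else 1
  have hg : ∀ a : 𝓞 K, Cop m (span {a}) → g (Ideal.Quotient.mk m a) = κ (span {a}) := by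
    intro a ha
    have hr : ∃ a' : 𝓞 K, Cop m (span {a'}) ∧ Ideal.Quotient.mk m a' = Ideal.Quotient.mk m a :=
      ⟨a, ha, rfl⟩
    simp only [g, dif_pos hr]
    exact wd h hr.choose_spec.1 ha (Ideal.Quotient.eq.1 hr.choose_spec.2)
  let F : (𝓞 K ⧸ m) × (ClassGroup (𝓞 K) ⧸ pw 3 (ClassGroup (𝓞 K))) → B ⧸ pw 3 B := fun z =>
    QuotientGroup.mk ((g z.1)⁻¹ * κ (J z.2))
  have hF : Function.Surjective F := by
    intro q
    obtain ⟨b, rfl⟩ := QuotientGroup.mk_surjective q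
    obtain ⟨I, hI, rfl⟩ := h.surj b
    let t : ClassGroup (𝓞 K) ⧸ pw 3 (ClassGroup (𝓞 K)) := QuotientGroup.mk (cl I)
    have e : (cl (J t : Ideal (𝓞 K)))⁻¹ * cl I ∈ pw 3 (ClassGroup (𝓞 K)) := by
      rw [cl_coe, hJ', ← QuotientGroup.eq, QuotientGroup.out_eq']
    obtain ⟨a, b, ha, e1⟩ := key h hm hI (hJ t) e
    refine ⟨(Ideal.Quotient.mk m a, t), ?_⟩
    simp only [F, hg a ha]
    rw [QuotientGroup.eq]
    refine mem_pw.2 ⟨b, ?_⟩
    rw [mul_inv_rev, inv_inv, mul_assoc, e1, inv_mul_cancel_left]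
  have h1 := Nat.card_le_card_of_surjective F hF
  rw [Nat.card_prod] at h1
  rw [tor, ← index_pw]
  exact h1

end RAY

theorem blk_RAY : StRay := by
  intro k _ _
  obtain ⟨B, _, _, κ, h⟩ := blockRG k ∅ (m9 k) m9_ne_bot
  refine ⟨B ⧸ pw 3 B, inferInstance, inferInstance, fun I => QuotientGroup.mk (κ I),
    ⟨fun I J hI hJ => ?_, fun α h0 h1 h2 => ?_⟩, fun q => ?_, fun q => ?_, fun I J hI hJ e => ?_,
    ?_⟩
  · rw [h.hom.mul I J hI hJ, QuotientGroup.mk_mul]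
  · rw [h.hom.triv α h0 h1 h2, QuotientGroup.mk_one]
  · obtain ⟨b, rfl⟩ := QuotientGroup.mk_surjective q
    obtain ⟨I, hI, rfl⟩ := h.surj b
    exact ⟨I, hI, rfl⟩
  · obtain ⟨b, rfl⟩ := QuotientGroup.mk_surjective q
    rw [← QuotientGroup.mk_pow, QuotientGroup.eq_one_iff]
    exact pow_mem_pw b
  · obtain ⟨b, hb⟩ := mem_pw.1 (QuotientGroup.eq.1 e.symm)
    obtain ⟨c, hc, rfl⟩ := h.surj b
    have hc3 := TK2a.cop_pow hc 3
    have e1 : κ I = κ (J * c ^ 3) := by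
      rw [h.hom.mul _ _ hJ hc3, RAY.map_pow' h.hom hc, hb, mul_inv_cancel_left]
    obtain ⟨α, β, a0, b0, a1, b1, -, e2⟩ := (h.ker _ _ hI (TK2a.cop_mul hJ hc3)).1 e1
    refine ⟨α, β, ⊤, c, a0, b0, a1, b1, TK2a.cop_top, hc, ?_⟩
    rw [← one_eq_top, one_pow, mul_one, e2, mul_assoc]
  · have h1 := RAY.card_le h m9_ne_bot
    have h2 : absNorm (m9 k) = 9 ^ finrank ℚ k := by
      rw [m9, ← RingOfIntegers.rank, ← absNorm_span_natCast]; rfl
    rwa [h2] at h1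

end Pool.Agent.Lib.N4
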