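import Pool.Agent.Lib.N4.Blue
import Pool.Agent.Lib.stark.TK1
import Pool.Agent.Lib.stark.TK2a
import Pool.Agent.Lib.stark.TK2b

set_option autoImplicit false

open NumberField Ideal Module
open scoped nonZeroDivisors Pointwise

namespace Pool.Agent.Lib.N4

open Pool.Agent.Lib.Stark

namespace REC

lemma one_of_sq {a : ℂˣ} (h3 : a ^ 3 = 1) (h2 : a ^ 2 = 1) : a = 1 := by
  rwa [pow_succ, h2, one_mul] at h3

lemma sq_sq {a : ℂˣ} (h3 : a ^ 3 = 1) : (a ^ 2) ^ 2 = a := by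
  rw [← pow_mul, show 2 * 2 = 3 + 1 from rfl, pow_succ, h3, one_mul]

/-- every class contains a prime -/
lemma prime_in_class (h2 : StDen2) {k : Type} [Field k] [NumberField k] {H : Type} [CommGroup H]
    [Finite H] {κ : Ideal (𝓞 k) → H} (hκ : Ray κ) (h : H) :
    ∃ p : Ideal (𝓞 k), p.IsMaximal ∧ Cop (m9 k) p ∧ κ p = h := by
  have hD := (blockTK2b blockTK1 blockTK2a).1 k
  obtain ⟨I, hI, rfl⟩ := hκ.surj h
  have h0 := (hD.quad (m9 k) m9_ne_bot H κ hκ.hom (by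
    rintro χ hχ ⟨J, hJ, hJ'⟩
    exact absurd (one_of_sq (hκ.cub χ _) (hχ J hJ)) hJ')).2
  obtain ⟨p, hp, hp', -⟩ := h2.ex k _ _ (hD.dich (m9 k) m9_ne_bot H κ hκ.hom h0 I hI)
    (h2.cop k (m9 k) m9_ne_bot)
  exact ⟨p, hp, hp'⟩

lemma grp (hC : StCh) {H : Type} [CommGroup H] {φ₀ ψ : H →* ℂˣ} (h0 : Cub φ₀) (hψ : Cub ψ)
    (hne : φ₀ ≠ 1) (h : ∀ x, ψ x ≠ 1 → φ₀ x = 1 ∨ φ₀ x = ψ x) (x : H) (hx : φ₀ x = 1) :
    ψ x = 1 := by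
  by_contra hx'
  obtain ⟨g, hg⟩ : ∃ g, φ₀ g ≠ 1 := by
    by_contra hc
    push Not at hc
    exact hne (MonoidHom.ext hc)
  obtain ⟨g, hg, hg'⟩ : ∃ g, φ₀ g ≠ 1 ∧ ψ g = 1 := by
    rcases hC.val (ψ g) (ψ x) (hψ g) (hψ x) hx' with h1 | h1 | h1
    · exact ⟨g, hg, h1⟩
    · exact ⟨g / x, by rwa [map_div, hx, div_one], by rw [map_div, h1, div_self']⟩
    · exact ⟨g / x ^ 2, by rwa [map_div, map_pow, hx, one_pow, div_one],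
        by rw [map_div, map_pow, h1, div_self']⟩
  have a1 := h (x * g) (by rwa [map_mul, hg', mul_one])
  have a2 := h (x * g ^ 2) (by rwa [map_mul, map_pow, hg', one_pow, mul_one])
  simp only [map_mul, map_pow, hx, hg', one_mul, one_pow, mul_one] at a1 a2
  rcases a1 with a1 | a1
  · exact hg a1
  rcases a2 with a2 | a2
  · exact hg (one_of_sq (h0 g) a2)
  · rw [← a1, sq] at a2
    exact hg (mul_eq_left.1 a2)

lemma ker_le (h2 : StDen2) (hC : StCh) {k Ω : Type} [Field k] [NumberField k] [Field Ω]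
    [NumberField Ω] [Algebra k Ω] [IsGalois k Ω] {δ χ : (Ω ≃ₐ[k] Ω) →* ℂˣ}
    (h : ∀ (p : Ideal (𝓞 k)) (P : Ideal (𝓞 Ω)) (σ : Ω ≃ₐ[k] Ω), p.IsMaximal → Cop (m9 k) p →
      Frob p P σ → δ σ = 1 → χ σ = 1) : δ.ker ≤ χ.ker := by
  have h1 := (h2.le k _ _ _ _ _ (hC.dens k Ω δ.ker inferInstance)
    (hC.dens k Ω (δ.ker ⊓ χ.ker) inferInstance) (h2.cop k (m9 k) m9_ne_bot) (by
      rintro p hp ⟨P, σ, h3, h4⟩
      by_cases hc : Cop (m9 k) p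
      · exact Or.inl ⟨P, σ, h3, h4, h p P σ hp hc h3 h4⟩
      · exact Or.inr hc)).1
  have e1 : δ.ker.index ≠ 0 := Subgroup.index_ne_zero_of_finite
  have e2 : (δ.ker ⊓ χ.ker).index ≠ 0 := Subgroup.index_ne_zero_of_finite
  rw [one_div_le_one_div (by positivity) (by positivity), Nat.cast_le] at h1
  have e3 := Subgroup.relIndex_mul_index (inf_le_left : δ.ker ⊓ χ.ker ≤ δ.ker)
  have e4 : (δ.ker ⊓ χ.ker).relIndex δ.ker = 1 := by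
    rcases hr : (δ.ker ⊓ χ.ker).relIndex δ.ker with _ | _ | r
    · rw [hr] at e3; omega
    · rfl
    · rw [hr] at e3; nlinarith [Nat.pos_of_ne_zero e1]
  exact (Subgroup.relIndex_eq_one.1 e4).trans inf_le_right

lemma bad (h2 : StDen2) (hC : StCh) {k Ω : Type} [Field k] [NumberField k] [Field Ω]
    [NumberField Ω] [Algebra k Ω] [IsGalois k Ω] {H : Type} [CommGroup H] [Finite H]
    {κ : Ideal (𝓞 k) → H} (hκ : Ray κ) {δ χ : (Ω ≃ₐ[k] Ω) →* ℂˣ} {φ₀ φ : H →* ℂˣ} (hδ : Cub δ)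
    (hχ : Cub χ) (hδ1 : δ ≠ 1) (hχ1 : χ ≠ 1) (hne : φ₀ ≠ 1)
    (h0 : ∀ p : Ideal (𝓞 k), p.IsMaximal → Cop (m9 k) p → TU δ.ker p → φ₀ (κ p) = 1)
    (hφ : Agr κ φ χ fun _ => True) (h1 : Agr κ φ₀ δ fun σ => δ σ = χ σ)
    (h3 : Agr κ φ₀ (δ ^ 2) fun σ => δ σ = χ σ ^ 2) : δ = χ ∨ δ = χ ^ 2 := by
  have a1 : ∀ x, φ x ≠ 1 → φ₀ x = 1 ∨ φ₀ x = φ x := by
    intro x hx
    obtain ⟨p, hp, hc, rfl⟩ := prime_in_class h2 hκ x
    obtain ⟨P, σ, hσ⟩ := hC.ex k Ω p hp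
    have e := hφ p P σ hp hc hσ trivial
    rw [e] at hx ⊢
    rcases hC.val (δ σ) (χ σ) (hδ σ) (hχ σ) hx with b | b | b
    · exact Or.inl (h0 p hp hc ⟨P, σ, hσ, b⟩)
    · exact Or.inr ((h1 p P σ hp hc hσ b).trans b)
    · refine Or.inr ((h3 p P σ hp hc hσ b).trans ?_)
      rw [MonoidHom.pow_apply, b, sq_sq (hχ σ)]
  have a2 : δ.ker ≤ χ.ker := ker_le h2 hC fun p P σ hp hc hσ b => by
    rw [← hφ p P σ hp hc hσ trivial]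
    exact grp hC (hκ.cub φ₀) (hκ.cub φ) hne a1 _ (h0 p hp hc ⟨P, σ, hσ, b⟩)
  have a3 : χ.ker ≤ δ.ker := by
    have e3 := Subgroup.relIndex_mul_index a2
    rw [hC.idx _ δ hδ hδ1, hC.idx _ χ hχ hχ1] at e3
    exact Subgroup.relIndex_eq_one.1 (by omega)
  rcases hC.same _ ⊤ δ χ hδ hχ (fun g _ => ⟨fun h => a2 h, fun h => a3 h⟩) with b | b
  · exact Or.inl (MonoidHom.ext fun g => b g trivial)
  · exact Or.inr (MonoidHom.ext fun g => b g trivial)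

end REC

open REC in
theorem blk_REC (h2 : StDen2) (hC : StCh) (hR : StRec1) (hA : StRecA) : StRec := by
  intro k Ω _ _ _ _ _ _ H _ _ κ hκ δ χ φ hδ hχ hu hφ
  have hφ2 : Agr κ (φ ^ 2) (χ ^ 2) fun _ => True := fun p P σ hp hc hσ _ => by
    rw [MonoidHom.pow_apply, MonoidHom.pow_apply, hφ p P σ hp hc hσ trivial]
  by_cases hχ1 : χ = 1
  · exact ⟨1, fun p P σ _ _ _ h => absurd (by rw [hχ1]; rfl) h⟩
  by_cases hδ1 : δ = 1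
  · exact ⟨1, fun p P σ _ _ _ _ => by rw [hδ1]; rfl⟩
  by_cases hδ2 : δ = χ
  · exact ⟨φ, fun p P σ hp hc hσ _ => hδ2 ▸ hφ p P σ hp hc hσ trivial⟩
  by_cases hδ3 : δ = χ ^ 2
  · exact ⟨φ ^ 2, fun p P σ hp hc hσ _ => hδ3 ▸ hφ2 p P σ hp hc hσ trivial⟩
  obtain ⟨φ₀, hne, h0⟩ := hR k Ω H κ hκ δ hδ hδ1 hu
  have hsq : (χ ^ 2) ^ 2 = χ := MonoidHom.ext fun σ => sq_sq (hχ σ)
  have hχ2 : χ ^ 2 ≠ 1 := fun h => hχ1 (MonoidHom.ext fun σ =>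
    one_of_sq (hχ σ) (DFunLike.congr_fun h σ))
  rcases hA k Ω H κ hκ δ χ φ₀ φ hδ hχ hδ1 hu hne h0 hφ with a | a <;>
    rcases hA k Ω H κ hκ δ (χ ^ 2) φ₀ (φ ^ 2) hδ (hχ.pow 2) hδ1 hu hne h0 hφ2 with b | b
  · refine ⟨φ₀, fun p P σ hp hc hσ h => ?_⟩
    rcases hC.val (δ σ) (χ σ) (hδ σ) (hχ σ) h with c | c | c
    · rw [c]; exact h0 p hp hc ⟨P, σ, hσ, c⟩
    · exact a p P σ hp hc hσ c
    · exact b p P σ hp hc hσ c
  · exact ((bad h2 hC hκ hδ hχ hδ1 hχ1 hne h0 hφ a b).elim hδ2 hδ3).elim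
  · refine ((bad h2 hC hκ hδ (hχ.pow 2) hδ1 hχ2 hne h0 hφ2 b fun p P σ hp hc hσ h =>
      a p P σ hp hc hσ ?_).elim hδ3 fun h => hδ2 (h.trans hsq)).elim
    exact h.trans (sq_sq (hχ σ))
  · refine ⟨φ₀ ^ 2, fun p P σ hp hc hσ h => ?_⟩
    rw [MonoidHom.pow_apply]
    rcases hC.val (δ σ) (χ σ) (hδ σ) (hχ σ) h with c | c | c
    · rw [c, h0 p hp hc ⟨P, σ, hσ, c⟩, one_pow]
    · rw [a p P σ hp hc hσ c]; exact sq_sq (hδ σ)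
    · rw [b p P σ hp hc hσ c]; exact sq_sq (hδ σ)

end Pool.Agent.Lib.N4
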