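import Pool.Agent.Lib.N4.Blue
import Pool.Agent.Lib.MP_4e64b4_nt.Cyclic
import Pool.Agent.Lib.stark.G0a
import Pool.Agent.Lib.stark.TK1

set_option autoImplicit false

open NumberField Ideal Module IsDedekindDomain
open scoped nonZeroDivisors Pointwise

namespace Pool.Agent.Lib.N4

open Pool.Agent.Lib.Stark

namespace REC1

open MP_4e64b4_nt (PP lg)

lemma index_three {G : Type} [Group G] {ρ : G →* ℂˣ} (h : Cub ρ) (h1 : ρ ≠ 1) :
    ρ.ker.index = 3 := by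
  rw [Subgroup.index_ker]
  have hle : ρ.range ≤ rootsOfUnity 3 ℂ := by
    rintro _ ⟨σ, rfl⟩
    exact (mem_rootsOfUnity 3 _).2 (h σ)
  have hd := Subgroup.card_dvd_of_le hle
  rw [Complex.card_rootsOfUnity] at hd
  rcases (Nat.dvd_prime Nat.prime_three).1 hd with h2 | h2
  · exact absurd (MonoidHom.range_eq_bot_iff.1 (Subgroup.card_eq_one.1 h2)) h1
  · exact h2

section Gal

variable {k Ω : Type} [Field k] [NumberField k] [Field Ω] [NumberField Ω] [Algebra k Ω]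
  [IsGalois k Ω]

lemma frob_conj {p : Ideal (𝓞 k)} {P P' : Ideal (𝓞 Ω)} {σ g : Ω ≃ₐ[k] Ω} (h : Frob p P σ)
    (hP' : P' ∈ p.primesOver (𝓞 Ω)) (hg : P' = g • P) : Frob p P' (g * σ * g⁻¹) := by
  refine ⟨hP', fun x => ?_⟩
  rw [hg, Ideal.mem_pointwise_smul_iff_inv_smul_mem, smul_sub, smul_pow', mul_smul, mul_smul,
    inv_smul_smul]
  exact h.2 _

lemma frob_div {p : Ideal (𝓞 k)} {P : Ideal (𝓞 Ω)} {σ σ' : Ω ≃ₐ[k] Ω} (h : Frob p P σ)
    (h' : Frob p P σ') : σ * σ'⁻¹ ∈ P.inertia (Ω ≃ₐ[k] Ω) := by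
  intro x
  have h1 := P.sub_mem (h.2 (σ'⁻¹ • x)) (h'.2 (σ'⁻¹ • x))
  rw [sub_sub_sub_cancel_right, smul_inv_smul, ← mul_smul] at h1
  exact h1

lemma inertia_bot {ρ : (Ω ≃ₐ[k] Ω) →* ℂˣ} (hρ : Unr 3 ρ) (M : IntermediateField k Ω)
    [IsGalois k M] (hM : M.fixingSubgroup = ρ.ker) (w : HeightOneSpectrum (𝓞 M))
    (hw : ((3 : ℕ) : 𝓞 M) ∉ w.asIdeal) : w.asIdeal.inertia (M ≃ₐ[k] M) = ⊥ := by
  rw [eq_bot_iff]
  intro τ hτ
  have hp := (w.under (𝓞 k)).isMaximal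
  have hwp : w.asIdeal ∈ (w.under (𝓞 k)).asIdeal.primesOver (𝓞 M) := ⟨w.isPrime, ⟨rfl⟩⟩
  obtain ⟨σ, hσ⟩ := G0a.exists_frob hp hwp
  have hτσ : Frob (w.under (𝓞 k)).asIdeal w.asIdeal (τ * σ) := by
    refine ⟨hwp, fun x => ?_⟩
    have h1 := w.asIdeal.add_mem (hτ (σ • x)) (hσ.2 x)
    rwa [sub_add_sub_cancel, ← mul_smul] at h1
  obtain ⟨P1, σ1, h11, h12, h13⟩ := G0a.frob_lift (Ω' := Ω) hp hσ
  obtain ⟨P2, σ2, h21, h22, h23⟩ := G0a.frob_lift (Ω' := Ω) hp hτσ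
  have := h12.1.1
  have := h22.1.1
  obtain ⟨g, hg⟩ := Algebra.IsInvariant.exists_smul_of_under_eq (𝓞 k) (𝓞 Ω) (Ω ≃ₐ[k] Ω) P1 P2
    (h12.1.2.over.symm.trans h22.1.2.over)
  have h3 : ((3 : ℤ) : 𝓞 Ω) ∉ P2 := by
    intro h
    apply hw
    rw [← h21, Ideal.under, Ideal.mem_comap, map_natCast]
    exact_mod_cast h
  have h4 := hρ P2 (G0a.fin_quot hp h22.1).1 h3 _ (frob_div h22 (frob_conj h12 h22.1 hg))
  have h5 : σ2 * σ1⁻¹ ∈ (AlgEquiv.restrictNormalHom (F := k) (K₁ := Ω) M).ker := by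
    rw [IntermediateField.restrictNormalHom_ker, hM, MonoidHom.mem_ker]
    simpa only [map_mul, map_inv, mul_inv_cancel_comm] using h4
  rw [MonoidHom.mem_ker, map_mul, map_inv] at h5
  change σ2.restrictNormal M * (σ1.restrictNormal M)⁻¹ = 1 at h5
  rw [h13, h23, mul_inv_cancel_right] at h5
  exact h5

lemma not_TU {ρ : (Ω ≃ₐ[k] Ω) →* ℂˣ} (hρ : Unr 3 ρ) (M : IntermediateField k Ω)
    [IsGalois k M] (hM : M.fixingSubgroup = ρ.ker) (hd : finrank k M = 3)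
    (w : HeightOneSpectrum (𝓞 M)) (hw : ((3 : ℕ) : 𝓞 M) ∉ w.asIdeal)
    (hf : ∀ σ : M ≃ₐ[k] M, σ • w = w) : ¬TU ρ.ker (w.under (𝓞 k)).asIdeal := by
  rintro ⟨P, σ, h1, h2⟩
  have hp := (w.under (𝓞 k)).isMaximal
  have hwp : w.asIdeal ∈ (w.under (𝓞 k)).asIdeal.primesOver (𝓞 M) := ⟨w.isPrime, ⟨rfl⟩⟩
  have h3 := (G0a.fix_iff hp M h1.1).1 ⟨σ, hM ▸ h2, h1⟩
  have h4 := G0a.under_mem (Ω := M) h1.1
  have := h4.1
  have := w.isPrime
  have hst : ∀ τ : M ≃ₐ[k] M, τ • w.asIdeal = w.asIdeal := fun τ =>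
    congrArg HeightOneSpectrum.asIdeal (hf τ)
  obtain ⟨g, hg⟩ := Algebra.IsInvariant.exists_smul_of_under_eq (𝓞 k) (𝓞 M) (M ≃ₐ[k] M)
    w.asIdeal (P.under (𝓞 M)) h4.2.over
  rw [hg, hst, ← G0a.card_eq, ← G0a.card_eq] at h3
  have := hwp.2
  have := (G0a.fin_quot hp hwp).2
  have hbij := (FaithfulSMul.algebraMap_injective (𝓞 k ⧸ (w.under (𝓞 k)).asIdeal)
    (𝓞 M ⧸ w.asIdeal)).bijective_of_nat_card_le h3.le
  have htop : w.asIdeal.inertia (M ≃ₐ[k] M) = ⊤ := by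
    rw [eq_top_iff]
    intro τ _ x
    obtain ⟨a, ha⟩ := hbij.2 (Ideal.Quotient.mk _ x)
    obtain ⟨a, rfl⟩ := Ideal.Quotient.mk_surjective a
    have h5 : algebraMap (𝓞 k) (𝓞 M) a - x ∈ w.asIdeal := Ideal.Quotient.eq.1 ha
    have h6 : τ • (algebraMap (𝓞 k) (𝓞 M) a - x) ∈ w.asIdeal := by
      rw [← hst τ]
      exact Ideal.smul_mem_pointwise_smul τ _ _ h5
    rw [smul_sub, smul_algebraMap] at h6
    have h7 := w.asIdeal.sub_mem h5 h6
    rwa [sub_sub_sub_cancel_left] at h7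
  have h8 := congrArg (fun S : Subgroup (M ≃ₐ[k] M) => Nat.card S)
    ((inertia_bot hρ M hM w hw).symm.trans htop)
  simp only [Subgroup.card_bot, Subgroup.card_top, IsGalois.card_aut_eq_finrank, hd] at h8
  omega

end Gal

variable {k : Type} [Field k] [NumberField k]

/-- exponent of a prime in an ideal -/
noncomputable def ct (v : HeightOneSpectrum (𝓞 k)) (I : Ideal (𝓞 k)) : ℕ :=
  (Associates.mk v.asIdeal).count (Associates.mk I).factors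

lemma ct_mul (v : HeightOneSpectrum (𝓞 k)) {I J : Ideal (𝓞 k)} (hI : I ≠ ⊥) (hJ : J ≠ ⊥) :
    ct v (I * J) = ct v I + ct v J := by
  rw [ct, ← Associates.mk_mul_mk, Associates.count_mul (Associates.mk_ne_zero.2 hI)
    (Associates.mk_ne_zero.2 hJ) v.associates_irreducible, ct, ct]

lemma ct_pow (v : HeightOneSpectrum (𝓞 k)) {I : Ideal (𝓞 k)} (hI : I ≠ ⊥) (n : ℕ) :
    ct v (I ^ n) = n * ct v I := by
  rw [ct, Associates.mk_pow, Associates.count_pow (Associates.mk_ne_zero.2 hI)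
    v.associates_irreducible, ct]

lemma ct_zero (v : HeightOneSpectrum (𝓞 k)) {I : Ideal (𝓞 k)} (hI : I ≠ ⊥)
    (h : ¬I ≤ v.asIdeal) : ct v I = 0 := by
  by_contra h0
  exact h (Ideal.le_of_dvd ((Associates.count_ne_zero_iff_dvd hI v.irreducible).1 h0))

open scoped Classical in
lemma ct_prime (v q : HeightOneSpectrum (𝓞 k)) : ct v q.asIdeal = if v = q then 1 else 0 := by
  split_ifs with h
  · subst h
    exact Associates.count_self v.associates_irreducible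
  · refine ct_zero v q.ne_bot fun hle => h (HeightOneSpectrum.ext ?_)
    exact (q.isMaximal.eq_of_le v.isPrime.ne_top hle).symm

lemma lg_int (v : HeightOneSpectrum (𝓞 k)) {a : 𝓞 k} (ha : a ≠ 0) :
    lg 3 v (a : k) = -(ct v (span {a}) : ZMod 3) := by
  have h : v.valuation k (a : k) = v.intValuation a := v.valuation_of_algebraMap a
  rw [lg, h, v.intValuation_if_neg ha, WithZero.log_exp, ct]
  push_cast
  rfl

lemma pp_nine {a : 𝓞 k} (ha : a - 1 ∈ m9 k) : PP 3 2 ((a : k) - 1) := by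
  obtain ⟨b, hb⟩ := Ideal.mem_span_singleton'.1 ha
  have h := (MP_4e64b4_nt.PP.self_pow (L := k) (p := 3) 2).mul0 (MP_4e64b4_nt.PP.int b)
  have e : (a : k) - 1 = ((3 : ℕ) : k) ^ 2 * b := by
    have h2 := congrArg (algebraMap (𝓞 k) k) hb
    rw [map_mul, map_sub, map_one, map_ofNat] at h2
    change (b : k) * 9 = (a : k) - 1 at h2
    rw [← h2]
    push_cast
    ring
  rwa [e]

lemma cop_top : Cop (m9 k) (⊤ : Ideal (𝓞 k)) := ⟨top_sup_eq _, top_ne_bot⟩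

lemma closure_rep {H : Type} [CommGroup H] {κ : Ideal (𝓞 k) → H} (hκ : Ray κ)
    (T : Ideal (𝓞 k) → Prop) (u : H)
    (hu : u ∈ Subgroup.closure {h | ∃ p : Ideal (𝓞 k), p.IsMaximal ∧ Cop (m9 k) p ∧ T p ∧ κ p = h}) :
    ∃ J, Cop (m9 k) J ∧ κ J = u ∧ ∀ p : Ideal (𝓞 k), p.IsMaximal → J ≤ p → T p := by
  induction hu using Subgroup.closure_induction with
  | mem x hx =>
    obtain ⟨p, h1, h2, h3, rfl⟩ := hx
    exact ⟨p, h2, rfl, fun p' hp' hle => h1.eq_of_le hp'.ne_top hle ▸ h3⟩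
  | one =>
    refine ⟨⊤, cop_top, ?_, fun p hp hle => absurd (top_le_iff.1 hle) hp.ne_top⟩
    have h := hκ.hom.mul ⊤ ⊤ cop_top cop_top
    rw [Ideal.top_mul] at h
    exact mul_eq_left.1 h.symm
  | mul x y _ _ hx hy =>
    obtain ⟨I, h1, rfl, h2⟩ := hx
    obtain ⟨J, h3, rfl, h4⟩ := hy
    refine ⟨I * J, TK1.cop_mul.2 ⟨h1, h3⟩, hκ.hom.mul I J h1 h3, fun p hp hle => ?_⟩
    exact (hp.isPrime.mul_le.1 hle).elim (h2 p hp) (h4 p hp)
  | inv x _ hx =>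
    obtain ⟨I, h1, rfl, h2⟩ := hx
    refine ⟨I * I, TK1.cop_mul.2 ⟨h1, h1⟩, ?_, fun p hp hle => ?_⟩
    · rw [hκ.hom.mul I I h1 h1, eq_inv_iff_mul_eq_one, ← hκ.cube (κ I), pow_succ, pow_two]
    · exact (hp.isPrime.mul_le.1 hle).elim (h2 p hp) (h2 p hp)

open scoped Classical in
lemma exists_elt {H : Type} [CommGroup H] {κ : Ideal (𝓞 k) → H} (hκ : Ray κ)
    (q : HeightOneSpectrum (𝓞 k)) (hq : Cop (m9 k) q.asIdeal) {J : Ideal (𝓞 k)}
    (hJ : Cop (m9 k) J) (h : κ J = κ q.asIdeal) : ∃ z : k, PP 3 2 (z - 1) ∧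
      ∀ v : HeightOneSpectrum (𝓞 k), ¬J ≤ v.asIdeal → lg 3 v z = if v = q then 1 else 0 := by
  obtain ⟨α, β, c, c', hα, hβ, hα1, hβ1, hc, hc', e⟩ := hκ.ker _ _ hq hJ h.symm
  have hα0 : (α : k) ≠ 0 := RingOfIntegers.coe_ne_zero_iff.2 hα
  have hβ0 : (β : k) ≠ 0 := RingOfIntegers.coe_ne_zero_iff.2 hβ
  refine ⟨α * (β : k)⁻¹, MP_4e64b4_nt.PP.div_sub_one (l := 1) Nat.prime_three (pp_nine hβ1) ?_,
    fun v hv => ?_⟩
  · have h1 := (pp_nine hα1).sub (pp_nine hβ1)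
    rwa [sub_sub_sub_cancel_right] at h1
  · have sα : span {α} ≠ ⊥ := mt span_singleton_eq_bot.1 hα
    have sβ : span {β} ≠ ⊥ := mt span_singleton_eq_bot.1 hβ
    have h1 := congrArg (ct v) e
    rw [ct_mul v (mul_ne_zero sα q.ne_bot) (pow_ne_zero 3 hc.2),
      ct_mul v (mul_ne_zero sβ hJ.2) (pow_ne_zero 3 hc'.2), ct_mul v sα q.ne_bot,
      ct_mul v sβ hJ.2, ct_pow v hc.2, ct_pow v hc'.2, ct_zero v hJ.2 hv, ct_prime] at h1
    have h2 := congrArg (Nat.cast : ℕ → ZMod 3) h1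
    have h3 : ((3 : ℕ) : ZMod 3) = 0 := ZMod.natCast_self 3
    simp only [Nat.cast_add, Nat.cast_mul, h3, zero_mul, add_zero, Nat.cast_ite, Nat.cast_one,
      Nat.cast_zero] at h2
    rw [MP_4e64b4_nt.lg_mul v hα0 (inv_ne_zero hβ0), MP_4e64b4_nt.lg_inv, lg_int v hα,
      lg_int v hβ, ← h2]
    ring

end REC1

theorem blk_REC1 : StRec1 := by
  classical
  intro k Ω _ _ _ _ _ _ H _ _ κ hκ ρ hc h1 hρ
  let U : Subgroup H :=
    Subgroup.closure {h | ∃ p : Ideal (𝓞 k), p.IsMaximal ∧ Cop (m9 k) p ∧ TU ρ.ker p ∧ κ p = h}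
  by_cases hU : ∀ h, h ∈ U
  · exfalso
    let M := IntermediateField.fixedField ρ.ker
    have hM : M.fixingSubgroup = ρ.ker := IntermediateField.fixingSubgroup_fixedField _
    have hd : finrank k M = 3 := by
      rw [IntermediateField.finrank_eq_fixingSubgroup_index, hM, REC1.index_three hc h1]
    obtain ⟨k0, hk0⟩ := MP_4e64b4_nt.first' (E := k) (M := M) Nat.prime_three (by norm_num) hd
      (MP_4e64b4_nt.unr_of_inertia (REC1.inertia_bot hρ M hM))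
    refine hk0 (k0 + 1) (Nat.le_succ _) fun q hq => ?_
    have hq' : Cop (m9 k) q.asIdeal :=
      (cop_m9_iff q.isMaximal).2 ⟨by exact_mod_cast hq, q.ne_bot⟩
    obtain ⟨J, hJ, e, hT⟩ := REC1.closure_rep hκ _ _ (hU (κ q.asIdeal))
    obtain ⟨z, hz, hv⟩ := REC1.exists_elt hκ q hq' hJ e
    obtain ⟨x, hx, hxv⟩ := MP_4e64b4_nt.exists_deep Nat.prime_three (by norm_num) hz k0
    refine ⟨x, hx, fun w hw hf => ?_⟩
    rw [hxv]
    exact hv _ fun hle => REC1.not_TU hρ M hM hd w hw hf (hT _ (w.under (𝓞 k)).isMaximal hle)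
  · push Not at hU
    obtain ⟨h, hh⟩ := hU
    obtain ⟨φ, hφ⟩ := CommGroup.exists_apply_ne_one_of_hasEnoughRootsOfUnity (H ⧸ U) ℂ
      (a := (h : H ⧸ U)) (mt (QuotientGroup.eq_one_iff h).1 hh)
    refine ⟨φ.comp (QuotientGroup.mk' U), fun e => hφ (DFunLike.congr_fun e h),
      fun p hp hcp hT => ?_⟩
    have h2 : κ p ∈ U := Subgroup.subset_closure ⟨p, hp, hcp, hT, rfl⟩
    rw [MonoidHom.comp_apply, QuotientGroup.mk'_apply, (QuotientGroup.eq_one_iff _).2 h2, map_one]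

end Pool.Agent.Lib.N4
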