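import Pool.Agent.Lib.N4.Blue
import Pool.Agent.Lib.stark.G2
import Pool.Agent.Lib.stark.G0a
import Pool.Agent.Lib.stark.G0b
import Pool.Agent.Lib.stark.TK1
import Pool.Agent.Lib.stark.TK2a
import Pool.Agent.Lib.stark.TK2b

set_option autoImplicit false

open NumberField Ideal Module
open scoped nonZeroDivisors

namespace Pool.Agent.Lib.N4

open Pool.Agent.Lib.Stark

namespace RECA

lemma ray_comp {K : Type} [Field K] {m : Ideal (𝓞 K)} {B B' : Type} [CommGroup B] [CommGroup B']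
    {κ : Ideal (𝓞 K) → B} (h : RayHom m κ) (f : B →* B') : RayHom m fun I => f (κ I) where
  mul I J hI hJ := by rw [h.mul I J hI hJ, map_mul]
  triv α h0 h1 hp := by rw [h.triv α h0 h1 hp, map_one]

/-- Almost all primes in the kernel of the ray class character split. -/
lemma null0 (h2 : StDen2) (hC : StCh) {k Ω : Type} [Field k] [NumberField k] [Field Ω]
    [NumberField Ω] [Algebra k Ω] [IsGalois k Ω] {H : Type} [CommGroup H] [Finite H]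
    {κ : Ideal (𝓞 k) → H} (hκ : Ray κ) {δ : (Ω ≃ₐ[k] Ω) →* ℂˣ} {φ₀ : H →* ℂˣ} (hδ : Cub δ)
    (hδ1 : δ ≠ 1) (hφ1 : φ₀ ≠ 1)
    (hT : ∀ p : Ideal (𝓞 k), p.IsMaximal → Cop (m9 k) p → TU δ.ker p → φ₀ (κ p) = 1) :
    Dens (fun p => (Cop (m9 k) p ∧ φ₀ (κ p) = 1) ∧ ¬TU δ.ker p) 0 := by
  obtain ⟨ρ, hρ, hD⟩ := h2.ker k (m9 k) m9_ne_bot (H ⧸ φ₀.ker)
    (fun I => QuotientGroup.mk' φ₀.ker (κ I)) (ray_comp hκ.hom _) (fun b => by
      obtain ⟨h, rfl⟩ := QuotientGroup.mk'_surjective φ₀.ker b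
      obtain ⟨I, hI, rfl⟩ := hκ.surj h
      exact ⟨I, hI, rfl⟩)
  have e : (fun P => Cop (m9 k) P ∧ QuotientGroup.mk' φ₀.ker (κ P) = 1) =
      fun P => Cop (m9 k) P ∧ φ₀ (κ P) = 1 := by
    funext P
    rw [QuotientGroup.mk'_apply, QuotientGroup.eq_one_iff, MonoidHom.mem_ker]
  rw [e] at hD
  have h3 : Nat.card (H ⧸ φ₀.ker) = 3 := hC.idx H φ₀ (hκ.cub φ₀) hφ1
  have hD' := hC.dens k Ω δ.ker inferInstance
  rw [hC.idx _ δ hδ hδ1] at hD'
  rw [h3] at hρ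
  refine (h2.le k _ _ _ _ _ hD' hD (h2.cop k (m9 k) m9_ne_bot) fun P hP hTU => ?_).2 hρ
  by_cases hc : Cop (m9 k) P
  · exact Or.inl ⟨hc, hT P hP hc hTU⟩
  · exact Or.inr hc

end RECA

open RECA G2 in
theorem blk_RECA (h2 : StDen2) (hC : StCh) : StRecA := by
  intro k Ω _ _ _ _ _ _ H _ _ κ hκ δ χ φ₀ φ hδ hχ hδ1 hU hφ1 hT hA
  have h1 : StmtDens := blockTK2b blockTK1 blockTK2a
  have h3 : StmtLift := blockG0a
  have h4 : StmtNorm := blockG0b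
  have hm : m9 k ≠ ⊥ := m9_ne_bot
  have hN0 := null0 h2 hC hκ hδ hδ1 hφ1 hT
  set E : IntermediateField k Ω := IntermediateField.fixedField (δ / χ).ker with hE
  have hfix : E.fixingSubgroup = (δ / χ).ker := IntermediateField.fixingSubgroup_fixedField _
  have hker : ∀ σ, σ ∈ (δ / χ).ker ↔ δ σ = χ σ := fun σ => by
    rw [MonoidHom.mem_ker, MonoidHom.div_apply, div_eq_one]
  set mE : Ideal (𝓞 E) := (m9 k).map (algebraMap (𝓞 k) (𝓞 E)) with hmE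
  have hmE0 : mE ≠ ⊥ := by
    rw [hmE, Ne, Ideal.map_eq_bot_iff_of_injective (FaithfulSMul.algebraMap_injective _ _)]
    exact hm
  have hκE : RayHom mE fun I => κ (relNorm (𝓞 k) I) := (h4 k E (m9 k) hm).2.2.1 H _ hκ.hom
  set W : Subgroup H := φ₀.ker ⊓ φ.ker with hW
  have hκ2 : RayHom mE fun I => QuotientGroup.mk' W (κ (relNorm (𝓞 k) I)) := ray_comp hκE _
  have deg : ∀ (p : Ideal (𝓞 k)) (P : Ideal (𝓞 Ω)) (σ : Ω ≃ₐ[k] Ω), p.IsMaximal →
      Frob p P σ → δ σ = χ σ → absNorm (P.under (𝓞 E)) = absNorm p := by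
    intro p P σ hp hF hH
    apply ((h3.2 k Ω p hp).2.2 E P hF.1).1
    exact ⟨σ, by rw [hfix]; exact (hker σ).2 hH, hF⟩
  have step1 : ¬Dens (fun Q : Ideal (𝓞 E) => Cop mE Q ∧
      QuotientGroup.mk' W (κ (relNorm (𝓞 k) Q)) = 1) 0 := by
    intro hD
    have hT' : Dens (fun p : Ideal (𝓞 k) => Cop (m9 k) p ∧ TU (⊥ : Subgroup (Ω ≃ₐ[k] Ω)) p) 0 := by
      refine h1.2 k E _ _ ?_ hD
      rintro p hp ⟨hc, P, σ, hσ, hb⟩
      rw [Subgroup.mem_bot] at hb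
      subst hb
      have hn := deg p P 1 hp hσ (by rw [map_one, map_one])
      have hQ := under_mem E hσ.1
      refine ⟨P.under (𝓞 E), hQ, ⟨cop_over hp hc.1 hQ, ?_⟩, hn⟩
      rw [relNorm_eq h4 hp hQ hn, QuotientGroup.mk'_apply, QuotientGroup.eq_one_iff]
      refine ⟨hT p hp hc ⟨P, 1, hσ, one_mem _⟩, ?_⟩
      have := hA p P 1 hp hc hσ trivial
      rwa [map_one] at this
    have hle := (h2.le k _ _ _ _ _ (hC.dens k Ω ⊥ inferInstance) hT' (h2.cop k (m9 k) hm)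
      fun P _ hTU => by
        by_cases hc : Cop (m9 k) P
        · exact Or.inl ⟨hc, hTU⟩
        · exact Or.inr hc).1
    have hpos : (0 : ℝ) < ((⊥ : Subgroup (Ω ≃ₐ[k] Ω)).index : ℝ) := by
      rw [Subgroup.index_bot]
      exact_mod_cast Nat.card_pos
    exact absurd hle (not_le.2 (one_div_pos.2 hpos))
  have step2 : ∀ I, Cop mE I →
      (φ₀ (κ (relNorm (𝓞 k) I)) = 1 ↔ φ (κ (relNorm (𝓞 k) I)) = 1) := by
    intro I hI
    have hD := (h1.1 E).dich mE hmE0 (H ⧸ W) _ hκ2 step1 I hI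
    obtain ⟨Q, hQm, ⟨hQc, hk⟩, hN⟩ := h2.ex E _ _ hD (h2.pull k E _ hN0)
    rw [not_or, not_not] at hN
    obtain ⟨hB, hN⟩ := hN
    have hp : (Q.under (𝓞 k)).IsMaximal := inferInstance
    have hQ : Q ∈ (Q.under (𝓞 k)).primesOver (𝓞 E) := ⟨hQm.isPrime, inferInstance⟩
    have hn := norm_eq_of_prime h4 hp hQ hB.2.1
    have hr := relNorm_eq h4 hp hQ hn
    have hc : Cop (m9 k) (Q.under (𝓞 k)) := hr ▸ (h4 k E (m9 k) hm).1 Q hQc
    obtain ⟨P, hP, hPQ⟩ := exists_over E hQm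
    obtain ⟨σ, hσ, hF⟩ := ((h3.2 k Ω _ hp).2.2 E P hP).2 (by rw [hPQ, hn])
    rw [hfix, hker] at hσ
    have ha := hA _ P σ hp hc hF trivial
    rw [QuotientGroup.mk'_apply, QuotientGroup.mk'_apply, QuotientGroup.eq, hr] at hk
    have e1 : φ₀ (κ (Q.under (𝓞 k))) = φ₀ (κ (relNorm (𝓞 k) I)) := by
      have : φ₀ _ = 1 := hk.1
      rwa [map_mul, map_inv, inv_mul_eq_one] at this
    have e2 : φ (κ (Q.under (𝓞 k))) = φ (κ (relNorm (𝓞 k) I)) := by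
      have : φ _ = 1 := hk.2
      rwa [map_mul, map_inv, inv_mul_eq_one] at this
    rw [← e1, ← e2, ha, ← hσ]
    constructor
    · intro h
      have hTU : TU δ.ker (Q.under (𝓞 k)) := by
        by_contra hno
        exact hN ⟨⟨hc, h⟩, hno⟩
      obtain ⟨P', σ', hF', hσ'⟩ := hTU
      rw [hC.uniq k Ω δ hU _ P P' σ σ' hp hc hF hF']
      exact hσ'
    · intro h
      exact hT _ hp hc ⟨P, σ, hF, h⟩
  let U : Subgroup H :=
    { carrier := {h | ∃ I, Cop mE I ∧ κ (relNorm (𝓞 k) I) = h}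
      one_mem' := ⟨⊤, cop_top _, ray_top hκE⟩
      mul_mem' := by
        rintro _ _ ⟨I, hI, rfl⟩ ⟨J, hJ, rfl⟩
        exact ⟨I * J, cop_mul hI hJ, hκE.mul I J hI hJ⟩
      inv_mem' := by
        rintro _ ⟨I, hI, rfl⟩
        refine ⟨I * I, cop_mul hI hI, ?_⟩
        have e := hκE.mul I I hI hI
        rw [e, eq_inv_iff_mul_eq_one, ← hκ.cube (κ (relNorm (𝓞 k) I)), pow_succ, pow_two] }
  have step4 : ∀ (p : Ideal (𝓞 k)) (P : Ideal (𝓞 Ω)) (σ : Ω ≃ₐ[k] Ω), p.IsMaximal →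
      Cop (m9 k) p → Frob p P σ → δ σ = χ σ → κ p ∈ U := by
    intro p P σ hp hc hF hH
    have hQ := under_mem E hF.1
    exact ⟨_, cop_over hp hc.1 hQ, by rw [relNorm_eq h4 hp hQ (deg p P σ hp hF hH)]⟩
  rcases hC.same H U φ₀ φ (hκ.cub _) (hκ.cub _) (by
    rintro _ ⟨I, hI, rfl⟩
    exact step2 I hI) with h | h
  · left
    intro p P σ hp hc hF hH
    rw [h _ (step4 p P σ hp hc hF hH), hA p P σ hp hc hF trivial, hH]
  · right
    intro p P σ hp hc hF hH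
    rw [h _ (step4 p P σ hp hc hF hH), hA p P σ hp hc hF trivial, MonoidHom.pow_apply, hH]

end Pool.Agent.Lib.N4
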