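import Pool.Agent.Lib.N4.Blue

set_option autoImplicit false

open NumberField Ideal Module

namespace Pool.Agent.Lib.N4

namespace S3B

section

variable {k L : Type} [Field k] [NumberField k] [Field L] [NumberField L] [Algebra k L]

theorem fix_k {d : ℤ} {s : k} (hs : Sq d s) (g : L →+* L)
    (hg : g (algebraMap k L s) = algebraMap k L s) (y : k) :
    g (algebraMap k L y) = algebraMap k L y := by
  obtain ⟨a, b, rfl⟩ := hs.2 y
  simp [hg]

theorem sgn {d : ℤ} {s : k} (hs : Sq d s) (g : L →+* L) :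
    g (algebraMap k L s) = algebraMap k L s ∨ g (algebraMap k L s) = -algebraMap k L s := by
  have h1 : algebraMap k L s ^ 2 = (d : L) := by rw [← map_pow, hs.1, map_intCast]
  refine sq_eq_sq_iff_eq_or_eq_neg.1 ?_
  rw [← map_pow, h1, map_intCast]

theorem toK {d : ℤ} {s : k} (hs : Sq d s) (g : L →+* L)
    (hg : g (algebraMap k L s) = algebraMap k L s) : ∃ σ : L ≃ₐ[k] L, ∀ x, σ x = g x := by
  let f : L →ₐ[k] L := { g with commutes' := fix_k hs g hg }
  have : FiniteDimensional k L := Module.Finite.of_restrictScalars_finite ℚ k L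
  exact ⟨AlgEquiv.ofBijective f (Algebra.IsAlgebraic.algHom_bijective f), fun x => rfl⟩

end

/-- The field generated by `k` and all conjugates of `R`. -/
theorem exists_L (hO : StOmega) (k R : Type) [Field k] [NumberField k] [Field R] [NumberField R]
    {d : ℤ} {s : k} (hs : Sq d s) :
    ∃ (L : Type) (_ : Field L) (_ : NumberField L) (_ : Algebra k L), IsGalois ℚ L ∧
      Nonempty (R →+* L) ∧
      ∀ σ : L ≃ₐ[k] L, (∀ (e : R →+* L) (x : R), σ (e x) = e x) → σ = 1 := by
  obtain ⟨Ω, _, _, _, -, hG, -, hne⟩ := hO k Unit fun _ => R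
  obtain ⟨e0⟩ := hne ()
  let N : Subgroup (Ω ≃ₐ[ℚ] Ω) :=
    { carrier := {g | g (algebraMap k Ω s) = algebraMap k Ω s ∧
        ∀ (e : R →+* Ω) (x : R), g (e x) = e x}
      one_mem' := ⟨rfl, fun _ _ => rfl⟩
      mul_mem' := fun {a b} ha hb =>
        ⟨by rw [AlgEquiv.mul_apply, hb.1, ha.1], fun e x => by
          rw [AlgEquiv.mul_apply, hb.2, ha.2]⟩
      inv_mem' := fun {a} ha =>
        ⟨a.injective (by rw [ha.1]; exact a.apply_symm_apply _), fun e x =>
          a.injective (by rw [ha.2]; exact a.apply_symm_apply _)⟩ }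
  have hN : N.Normal := ⟨fun g hg h => by
    refine ⟨?_, fun e x => ?_⟩
    · rw [AlgEquiv.mul_apply, AlgEquiv.mul_apply]
      have h2 : g (h⁻¹ (algebraMap k Ω s)) = h⁻¹ (algebraMap k Ω s) := by
        rcases sgn hs (h⁻¹ : Ω ≃ₐ[ℚ] Ω).toRingEquiv.toRingHom with h1 | h1
        · have h1' : h⁻¹ (algebraMap k Ω s) = algebraMap k Ω s := h1
          rw [h1', hg.1]
        · have h1' : h⁻¹ (algebraMap k Ω s) = -algebraMap k Ω s := h1
          rw [h1', map_neg, hg.1]
      rw [h2]
      exact h.apply_symm_apply _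
    · rw [AlgEquiv.mul_apply, AlgEquiv.mul_apply]
      have h2 : g (h⁻¹ (e x)) = h⁻¹ (e x) :=
        hg.2 ((h⁻¹ : Ω ≃ₐ[ℚ] Ω).toRingEquiv.toRingHom.comp e) x
      rw [h2]
      exact h.apply_symm_apply _⟩
  let L := IntermediateField.fixedField N
  have hk : ∀ y : k, algebraMap k Ω y ∈ L := fun y g =>
    fix_k hs (g : Ω ≃ₐ[ℚ] Ω).toRingEquiv.toRingHom g.2.1 y
  have hR : ∀ (e : R →+* Ω) (x : R), e x ∈ L := fun e x g => g.2.2 e x
  let ι : k →+* L := (algebraMap k Ω).codRestrict L hk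
  let _ : Algebra k L := ι.toAlgebra
  refine ⟨L, inferInstance, inferInstance, inferInstance,
    IsGalois.of_fixedField_normal_subgroup N, ⟨e0.codRestrict L (hR e0)⟩, fun σ hσ => ?_⟩
  let σ' : L ≃ₐ[ℚ] L := σ.restrictScalars ℚ
  have hl : ∀ x : L, σ'.liftNormal Ω (x : Ω) = (σ x : Ω) := fun x => σ'.liftNormal_commutes Ω x
  have hmem : σ'.liftNormal Ω ∈ N := by
    refine ⟨?_, fun e x => ?_⟩
    · have := hl (algebraMap k L s)
      rw [σ.commutes] at this
      exact this
    · have := hl (e.codRestrict L (hR e) x)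
      rw [hσ] at this
      exact this
  ext x
  rw [← hl]
  exact x.2 ⟨_, hmem⟩

end S3B

open S3B in
theorem blk_S3 (hO : StOmega) (h1 : StV1) : StS3 := by
  intro k R _ _ _ _ s₀ hk hR hs
  obtain ⟨L, _, _, _, hG, ⟨e0⟩, hgen⟩ := exists_L hO k R hs
  obtain ⟨⟨ψ, hψ⟩, hodd, hunr⟩ := h1 k L R s₀ hR ⟨e0⟩ hs.1
  let _ : Algebra R L := e0.toAlgebra
  have he0 : ∀ x, algebraMap R L x = e0 x := fun _ => rfl
  have galk : IsGalois k L := IsGalois.tower_top_of_isGalois ℚ k L
  have galR : IsGalois R L := IsGalois.tower_top_of_isGalois ℚ R L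
  have : FiniteDimensional k L := Module.Finite.of_restrictScalars_finite ℚ k L
  have : FiniteDimensional R L := Module.Finite.of_restrictScalars_finite ℚ R L
  have hinj : ∀ σ, ψ σ = 1 → σ = 1 := fun σ h => hgen σ fun e => (hψ.2 e σ).1 h
  have hle : Nat.card (L ≃ₐ[k] L) ≤ 3 := by
    refine le_trans (Nat.card_le_card_of_injective
      (fun σ => (⟨ψ σ, (mem_rootsOfUnity 3 _).2 (hψ.1 σ)⟩ : rootsOfUnity 3 ℂ)) ?_)
      (card_rootsOfUnity ℂ 3)
    intro a b hab
    exact (injective_iff_map_eq_one ψ).2 hinj (congrArg Subtype.val hab)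
  have t1 := Module.finrank_mul_finrank ℚ k L
  have t2 := Module.finrank_mul_finrank ℚ R L
  have c1 := IsGalois.card_aut_eq_finrank k L
  have c2 := IsGalois.card_aut_eq_finrank R L
  have p1 : 0 < finrank k L := Module.finrank_pos
  rw [hk] at t1
  rw [hR] at t2
  have rkL : finrank k L = 3 := by omega
  have rRL : finrank R L = 2 := by omega
  rw [rkL] at c1
  rw [rRL] at c2
  have n1 : Nontrivial (L ≃ₐ[k] L) := Finite.one_lt_card_iff_nontrivial.1 (by omega)
  have n2 : Nontrivial (L ≃ₐ[R] L) := Finite.one_lt_card_iff_nontrivial.1 (by omega)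
  obtain ⟨τ, hτ⟩ := exists_ne (1 : L ≃ₐ[k] L)
  obtain ⟨s, hs1⟩ := exists_ne (1 : L ≃ₐ[R] L)
  have hse : ∀ x, s (e0 x) = e0 x := fun x => s.commutes x
  have hτ3 : τ ^ 3 = 1 := by rw [← c1]; exact pow_card_eq_one'
  have hall : ∀ σ : L ≃ₐ[k] L, σ = 1 ∨ σ = τ ∨ σ = τ ^ 2 := by
    intro σ
    have : Fact (Nat.Prime 3) := ⟨Nat.prime_three⟩
    obtain ⟨n, rfl⟩ := mem_powers_of_prime_card c1 (g' := σ) hτ
    have h3 : τ ^ n = τ ^ (n % 3) := by
      conv_lhs => rw [← Nat.div_add_mod n 3, pow_add, pow_mul, hτ3, one_pow, one_mul]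
    have : n % 3 = 0 ∨ n % 3 = 1 ∨ n % 3 = 2 := by omega
    rcases this with h | h | h <;> simp [h3, h]
  have hst : s (algebraMap k L s₀) ≠ algebraMap k L s₀ := by
    intro h
    obtain ⟨σ, hσ⟩ := toK hs s.toRingEquiv.toRingHom h
    have h2 : σ = 1 := hinj σ ((hψ.2 e0 σ).2 fun x => (hσ _).trans (hse x))
    apply hs1
    ext x
    have := hσ x
    rw [h2] at this
    exact this.symm
  have hneg : s (algebraMap k L s₀) = -algebraMap k L s₀ :=
    (sgn hs s.toRingEquiv.toRingHom).resolve_left hst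
  have hneg' : s.symm (algebraMap k L s₀) = -algebraMap k L s₀ :=
    s.injective (by rw [s.apply_symm_apply, map_neg, hneg, neg_neg])
  obtain ⟨c, hc⟩ := toK hs (s.toRingEquiv.toRingHom.comp
    (τ.toRingEquiv.toRingHom.comp s.symm.toRingEquiv.toRingHom)) (by
      change s (τ (s.symm (algebraMap k L s₀))) = _
      rw [hneg', map_neg, τ.commutes, map_neg, hneg, neg_neg])
  have hc' : ∀ x, c (s x) = s (τ x) := fun x => by
    rw [hc]
    change s (τ (s.symm (s x))) = _
    rw [s.symm_apply_apply]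
  refine ⟨L, inferInstance, inferInstance, inferInstance, inferInstance, τ, s,
    ⟨hk, hR, galk, galR, rkL, rRL, hτ, hs1, ?_, fun P hP hd => ?_⟩⟩
  · rcases hall c with h | h | h
    · exfalso
      apply hτ
      ext x
      have := hc' x
      rw [h] at this
      exact (s.injective this).symm
    · exfalso
      rw [h] at hc'
      have hcomm : ∀ (σ : L ≃ₐ[k] L) x, s (σ x) = σ (s x) := by
        intro σ x
        rcases hall σ with h' | h' | h'
        · rw [h']; rfl
        · rw [h', hc']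
        · rw [h', sq, AlgEquiv.mul_apply, AlgEquiv.mul_apply, ← hc', ← hc']
      obtain ⟨-, e, x, hex⟩ := hodd (s.restrictScalars ℚ) hst
      apply hex
      change s (e x) = e x
      let g : L →ₐ[ℚ] L := e.toRatAlgHom.liftNormal L
      have hg : g (e0 x) = e x := e.toRatAlgHom.liftNormal_commutes L x
      have key : ∃ σ : L ≃ₐ[k] L, σ (e0 x) = e x := by
        rcases sgn hs g.toRingHom with h' | h'
        · obtain ⟨σ, hσ⟩ := toK hs g.toRingHom h'
          exact ⟨σ, (hσ _).trans hg⟩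
        · obtain ⟨σ, hσ⟩ := toK hs (g.toRingHom.comp s.toRingEquiv.toRingHom) (by
            have h'' : g (algebraMap k L s₀) = -algebraMap k L s₀ := h'
            change g (s (algebraMap k L s₀)) = _
            rw [hneg, map_neg, h'', neg_neg])
          refine ⟨σ, (hσ _).trans ?_⟩
          change g (s (e0 x)) = _
          rw [hse, hg]
      obtain ⟨σ, hσ⟩ := key
      rw [← hσ, hcomm, hse]
    · intro x
      rw [← hc', h, sq, AlgEquiv.mul_apply]
  · rw [eq_bot_iff]
    intro σ hσ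
    exact Subgroup.mem_bot.2 (hinj σ (hunr ψ hψ P hP hd σ hσ))

end Pool.Agent.Lib.N4
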