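import Pool.Agent.Lib.N4.Blue

set_option autoImplicit false

open NumberField Ideal Module
open scoped nonZeroDivisors

namespace Pool.Agent.Lib.N4

namespace SEL

variable {F : Type} [Field F] [NumberField F]

lemma mk_pr (g : Fˣ) : ClassGroup.mk F (toPrincipalIdeal (𝓞 F) F g) = 1 := by
  rw [ClassGroup.mk_eq_one_iff, coe_toPrincipalIdeal]
  exact ⟨⟨g, FractionalIdeal.coe_spanSingleton _ _⟩⟩

lemma ex_gen {A B : (FractionalIdeal (𝓞 F)⁰ F)ˣ} (h : ClassGroup.mk F A = ClassGroup.mk F B) :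
    ∃ g : Fˣ, A = toPrincipalIdeal (𝓞 F) F g * B := by
  have h1 : ClassGroup.mk F (A / B) = 1 := by rw [map_div, h, div_self']
  rw [ClassGroup.mk_eq_one_iff, FractionalIdeal.isPrincipal_iff] at h1
  obtain ⟨g, hg⟩ := h1
  have h0 : g ≠ 0 := by
    rintro rfl
    exact (A / B).ne_zero (by rw [hg, FractionalIdeal.spanSingleton_zero])
  refine ⟨Units.mk0 g h0, ?_⟩
  rw [← div_eq_iff_eq_mul]
  exact Units.ext (by rw [hg, coe_toPrincipalIdeal]; rfl)

lemma step1 (hU : StUni) {ι : Type} (d : ι → Fˣ) (A : ι → (FractionalIdeal (𝓞 F)⁰ F)ˣ)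
    (hd : ∀ i j, i ≠ j → ∀ β : F, (d j : F) ≠ d i * β ^ 2) (s : Finset ι)
    (h1 : ∀ i ∈ s, ∀ j ∈ s,
      toPrincipalIdeal (𝓞 F) F (d i) * A i ^ 2 = toPrincipalIdeal (𝓞 F) F (d j) * A j ^ 2)
    (h2 : ∀ i ∈ s, ∀ j ∈ s, ClassGroup.mk F (A i) = ClassGroup.mk F (A j)) :
    s.card ≤ 2 ^ finrank ℚ F := by
  rcases s.eq_empty_or_nonempty with rfl | ⟨i1, hi1⟩
  · simp
  obtain ⟨U, hc, hu⟩ := hU F 2 two_pos
  have key : ∀ i ∈ s, ∃ v ∈ U, ∃ β : F, β ≠ 0 ∧
      (d i : F) * β ^ 2 = algebraMap (𝓞 F) F v * d i1 := by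
    intro i hi
    obtain ⟨g, hg⟩ := ex_gen (h2 i hi i1 hi1)
    have h3 := h1 i hi i1 hi1
    rw [hg, mul_pow, ← mul_assoc, mul_left_inj, ← map_pow, ← map_mul] at h3
    have h4 := congrArg Units.val h3.symm
    rw [coe_toPrincipalIdeal, coe_toPrincipalIdeal,
      FractionalIdeal.spanSingleton_eq_spanSingleton] at h4
    obtain ⟨z, hz⟩ := h4
    obtain ⟨v, hv, w, rfl⟩ := hu z
    have hw : algebraMap (𝓞 F) F w ≠ 0 := (w.isUnit.map _).ne_zero
    refine ⟨v, hv, g / algebraMap (𝓞 F) F w, div_ne_zero g.ne_zero hw, ?_⟩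
    rw [Units.smul_def, Algebra.smul_def] at hz
    simp only [Units.val_mul, Units.val_pow_eq_pow_val, map_mul, map_pow] at hz
    field_simp
    linear_combination -hz
  choose! v hv β hβ h using key
  refine le_trans (Finset.card_le_card_of_injOn v hv ?_) hc
  intro i hi j hj hij
  by_contra hne
  refine hd i j hne (β i / β j) ?_
  have e1 := h i hi
  have e2 := h j hj
  have e3 := hβ j hj
  rw [hij, ← e2] at e1
  field_simp
  linear_combination -e1

lemma step2 (hU : StUni) {ι : Type} (d : ι → Fˣ) (A : ι → (FractionalIdeal (𝓞 F)⁰ F)ˣ)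
    (hd : ∀ i j, i ≠ j → ∀ β : F, (d j : F) ≠ d i * β ^ 2) (s : Finset ι)
    (h1 : ∀ i ∈ s, ∀ j ∈ s,
      toPrincipalIdeal (𝓞 F) F (d i) * A i ^ 2 = toPrincipalIdeal (𝓞 F) F (d j) * A j ^ 2) :
    s.card ≤ 2 ^ finrank ℚ F * tor 2 F := by
  classical
  rcases s.eq_empty_or_nonempty with rfl | ⟨i0, hi0⟩
  · simp
  have hT : (Finset.univ.filter fun c : ClassGroup (𝓞 F) => c ^ 2 = 1).card = tor 2 F := by
    rw [tor, gt, Nat.card_eq_fintype_card, Fintype.card_subtype]
  rw [← hT]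
  refine Finset.card_le_mul_card_image_of_maps_to
    (f := fun i => ClassGroup.mk F (A i) / ClassGroup.mk F (A i0)) (fun i hi => ?_) _
    (fun c _ => step1 hU d A hd _ (fun i hi j hj => h1 i (Finset.mem_filter.1 hi).1 j
      (Finset.mem_filter.1 hj).1) fun i hi j hj => ?_)
  · have h3 := congrArg (ClassGroup.mk F) (h1 i hi i0 hi0)
    simp only [map_mul, map_pow, mk_pr, one_mul] at h3
    simp only [Finset.mem_filter, Finset.mem_univ, true_and]
    rw [div_pow, h3, div_self']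
  · have e1 := (Finset.mem_filter.1 hi).2
    have e2 := (Finset.mem_filter.1 hj).2
    exact div_left_injective (e1.trans e2.symm)

end SEL

theorem blk_SEL (hI : StIdc) (hU : StUni) : StSel := by
  classical
  intro n ε hε
  obtain ⟨C, hC, h⟩ := hI.dvd n ε hε
  refine ⟨C * 2 ^ n, by positivity, ?_⟩
  intro F _ _ hn m hm ι _ δ hA hd
  choose a b ha hab hb using fun i => (hA i).2
  have hfin : {I : Ideal (𝓞 F) | absNorm I ∣ m}.Finite :=
    (finite_norm_le (m : ℝ)).subset fun I hI =>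
      show (absNorm I : ℝ) ≤ m from Nat.cast_le.2 (Nat.le_of_dvd (Nat.pos_of_ne_zero hm) hI)
  have h1 := Finset.card_le_mul_card_image_of_maps_to (s := (Finset.univ : Finset ι))
    (t := hfin.toFinset) (f := b) (fun i _ => hfin.mem_toFinset.2 (hb i))
    (2 ^ finrank ℚ F * tor 2 F) (fun c _ => SEL.step2 hU (fun i => Units.mk0 (δ i) (hA i).1)
      (fun i => Units.mk0 (a i) (ha i)) hd _ fun i hi j hj => by
        refine Units.ext ?_
        simp only [Units.val_mul, Units.val_pow_eq_pow_val, coe_toPrincipalIdeal, Units.val_mk0]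
        rw [hab, hab, (Finset.mem_filter.1 hi).2, (Finset.mem_filter.1 hj).2])
  rw [Finset.card_univ, ← Set.ncard_eq_toFinset_card _ hfin, hn] at h1
  have h2 := h F hn.le m hm
  refine (Nat.cast_le.2 h1).trans ?_
  push_cast
  refine (mul_le_mul_of_nonneg_left h2 (by positivity)).trans (le_of_eq ?_)
  ring

end Pool.Agent.Lib.N4
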