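import Pool.Agent.Lib.N4.Blue

set_option autoImplicit false

open Polynomial

namespace Pool.Agent.Lib.N4

namespace SQV

theorem approx {p : ℤ} (hp : Prime p) {y0 A B y s : ℤ} (hD : ¬p ∣ 2 * y0) (hs : p ∣ s)
    (hy : p ∣ y - y0) (h : y ^ 2 = y0 ^ 2 + A * s + B * s ^ 2 + s ^ 3) :
    p ^ 3 ∣ (2 * y0) ^ 3 * (y - y0) - ((2 * y0) ^ 2 * A * s + (B * (2 * y0) ^ 2 - A ^ 2) * s ^ 2) := by
  set H := (2 * y0) ^ 3 * y0 + ((2 * y0) ^ 2 * A * s + (B * (2 * y0) ^ 2 - A ^ 2) * s ^ 2) with hH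
  have e : ((2 * y0) ^ 3 * y + H) * ((2 * y0) ^ 3 * y - H) =
      s ^ 3 * ((2 * y0) ^ 6 - 2 * (2 * y0) ^ 2 * A * (B * (2 * y0) ^ 2 - A ^ 2)
        - (B * (2 * y0) ^ 2 - A ^ 2) ^ 2 * s) := by
    have : ((2 * y0) ^ 3 * y + H) * ((2 * y0) ^ 3 * y - H) = (2 * y0) ^ 6 * y ^ 2 - H ^ 2 := by ring
    rw [this, h, hH]
    ring
  have d1 : p ^ 3 ∣ ((2 * y0) ^ 3 * y + H) * ((2 * y0) ^ 3 * y - H) := by
    rw [e]
    exact (pow_dvd_pow_of_dvd hs 3).mul_right _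
  have d2 : ¬p ∣ (2 * y0) ^ 3 * y + H := by
    intro hd
    have e2 : (2 * y0) ^ 4 = ((2 * y0) ^ 3 * y + H) - (2 * y0) ^ 3 * (y - y0) -
        s * ((2 * y0) ^ 2 * A + (B * (2 * y0) ^ 2 - A ^ 2) * s) := by
      rw [hH]
      ring
    apply hD
    apply hp.dvd_of_dvd_pow (n := 4)
    rw [e2]
    exact dvd_sub (dvd_sub hd (hy.mul_left _)) (hs.mul_right _)
  have := hp.pow_dvd_of_dvd_mul_left 3 d2 d1
  have e3 : (2 * y0) ^ 3 * (y - y0) - ((2 * y0) ^ 2 * A * s + (B * (2 * y0) ^ 2 - A ^ 2) * s ^ 2) =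
      (2 * y0) ^ 3 * y - H := by
    rw [hH]
    ring
  rw [e3]
  exact this

theorem det_dvd {p : ℤ} (hp : Prime p) {D u v z1 z2 z3 s1 s2 s3 : ℤ} (hD : ¬p ∣ D)
    (h1 : p ∣ s1) (h2 : p ∣ s2) (h3 : p ∣ s3) (g1 : p ^ 3 ∣ D ^ 3 * z1 - (u * s1 + v * s1 ^ 2))
    (g2 : p ^ 3 ∣ D ^ 3 * z2 - (u * s2 + v * s2 ^ 2))
    (g3 : p ^ 3 ∣ D ^ 3 * z3 - (u * s3 + v * s3 ^ 2)) :
    p ^ 6 ∣ z1 * (s2 * s3 * (s3 - s2)) - z2 * (s1 * s3 * (s3 - s1)) + z3 * (s1 * s2 * (s2 - s1)) := by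
  obtain ⟨a1, rfl⟩ := h1
  obtain ⟨a2, rfl⟩ := h2
  obtain ⟨a3, rfl⟩ := h3
  obtain ⟨b1, g1⟩ := g1
  obtain ⟨b2, g2⟩ := g2
  obtain ⟨b3, g3⟩ := g3
  refine hp.pow_dvd_of_dvd_mul_left 6 (a := D ^ 3) (fun h => hD (hp.dvd_of_dvd_pow h)) ?_
  refine ⟨b1 * (a2 * a3 * (a3 - a2)) - b2 * (a1 * a3 * (a3 - a1)) + b3 * (a1 * a2 * (a2 - a1)), ?_⟩
  linear_combination (p ^ 3 * (a2 * a3 * (a3 - a2))) * g1 - (p ^ 3 * (a1 * a3 * (a3 - a1))) * g2
    + (p ^ 3 * (a1 * a2 * (a2 - a1))) * g3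

theorem term_bd {T U z r s t : ℝ} (hU : U ^ 4 = T ^ 3) (hz : |z| ≤ 2 * U ^ 2)
    (hr : |r| ≤ 2 * T) (hs : |s| ≤ 2 * T) (ht : |t| ≤ 2 * T) : |z * (r * s * t)| ≤ 16 * U ^ 6 := by
  have hT : 0 ≤ 2 * T := (abs_nonneg _).trans hr
  rw [abs_mul, abs_mul, abs_mul]
  calc |z| * (|r| * |s| * |t|) ≤ 2 * U ^ 2 * (2 * T * (2 * T) * (2 * T)) := by gcongr
    _ = 16 * U ^ 2 * T ^ 3 := by ring
    _ = 16 * U ^ 6 := by rw [← hU]; ring

theorem roots4 (a b c E q0 q1 q2 : ℤ) (hE : E ≠ 0) (F : Finset ℤ)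
    (hF : ∀ t ∈ F, (q0 + q1 * t + q2 * t ^ 2) ^ 2 = E ^ 2 * (t ^ 3 + a * t ^ 2 + b * t + c)) :
    F.card ≤ 4 := by
  let g : ℤ[X] := C (q2 ^ 2) * X ^ 4 + C (2 * q1 * q2 - E ^ 2) * X ^ 3 +
    C (q1 ^ 2 + 2 * q0 * q2 - E ^ 2 * a) * X ^ 2 + C (2 * q0 * q1 - E ^ 2 * b) * X +
    C (q0 ^ 2 - E ^ 2 * c)
  have hd : g.natDegree ≤ 4 := by
    simp only [g]
    compute_degree
  have hg : g ≠ 0 := by
    intro h
    have c4 := congrArg (fun f => coeff f 4) h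
    have c3 := congrArg (fun f => coeff f 3) h
    simp only [g, coeff_add, coeff_C_mul, coeff_X_pow, coeff_X, coeff_C, coeff_zero] at c4 c3
    norm_num at c4 c3
    rw [c4] at c3
    apply hE
    simpa using c3
  refine le_trans (card_le_degree_of_subset_roots (p := g) ?_) hd
  intro t ht
  rw [mem_roots hg, IsRoot.def]
  have := hF t ht
  simp only [g, eval_add, eval_mul, eval_C, eval_pow, eval_X]
  linear_combination this

theorem roots3 (a b c : ℤ) (F : Finset ℤ) (hF : ∀ t ∈ F, t ^ 3 + a * t ^ 2 + b * t + c = 0) :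
    F.card ≤ 4 :=
  roots4 a b c 1 0 0 0 one_ne_zero F fun t ht => by rw [hF t ht]; ring

theorem cls_card {p : ℕ} (hp : p.Prime) (hp2 : 2 < p) (a b c : ℤ) {T U : ℝ} (hU0 : 0 ≤ U)
    (hU : U ^ 4 = T ^ 3) (hpU : 2 * U < p) (F : Finset ℤ)
    (hF : ∀ t ∈ F, |(t : ℝ)| ≤ T ∧ ∃ y : ℤ, y ^ 2 = t ^ 3 + a * t ^ 2 + b * t + c ∧
      (y : ℝ) ^ 2 ≤ T ^ 3 ∧ ¬(p : ℤ) ∣ y) (hc : ∀ t ∈ F, ∀ t' ∈ F, (p : ℤ) ∣ t - t') :
    F.card ≤ 4 := by
  by_contra hcard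
  obtain ⟨t0, t1, t2, m0, m1, m2, n01, n02, n12⟩ := Finset.two_lt_card_iff.1 (by omega : 2 < F.card)
  have hpi : Prime (p : ℤ) := Nat.prime_iff_prime_int.1 hp
  have habs : ∀ y : ℤ, (y : ℝ) ^ 2 ≤ T ^ 3 → |(y : ℝ)| ≤ U ^ 2 := by
    intro y hy
    apply abs_le_of_sq_le_sq' _ (by positivity) |> abs_le.2
    rw [← pow_mul, hU]
    exact hy
  obtain ⟨-, y0, e0, l0, d0⟩ := hF t0 m0
  have hD : ¬(p : ℤ) ∣ 2 * y0 := by
    intro h
    rcases hpi.dvd_or_dvd h with h | h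
    · have := Int.le_of_dvd (by norm_num) h
      omega
    · exact d0 h
  have hY : ∀ t ∈ F, ∃ y : ℤ, y ^ 2 = t ^ 3 + a * t ^ 2 + b * t + c ∧ |(y : ℝ)| ≤ U ^ 2 ∧
      (p : ℤ) ∣ y - y0 := by
    intro t ht
    obtain ⟨-, y, e, l, -⟩ := hF t ht
    have h1 : (p : ℤ) ∣ (y - y0) * (-y - y0) := by
      have : (y - y0) * (-y - y0) =
          (t - t0) * -(t ^ 2 + t * t0 + t0 ^ 2 + a * (t + t0) + b) := by
        linear_combination e0 - e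
      rw [this]
      exact (hc t ht t0 m0).mul_right _
    rcases hpi.dvd_or_dvd h1 with h | h
    · exact ⟨y, e, habs y l, h⟩
    · refine ⟨-y, by rw [← e]; ring, ?_, h⟩
      push_cast
      rw [abs_neg]
      exact habs y l
  choose! Y hY1 hY2 hY3 using hY
  have ap : ∀ t ∈ F, _ := fun t ht =>
    approx (A := 3 * t0 ^ 2 + 2 * a * t0 + b) (B := 3 * t0 + a) hpi hD (hc t ht t0 m0) (hY3 t ht)
      (by rw [hY1 t ht, e0]; ring)
  have hz : ∀ t ∈ F, |((Y t - y0 : ℤ) : ℝ)| ≤ 2 * U ^ 2 := by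
    intro t ht
    push_cast
    have := abs_sub (Y t : ℝ) y0
    have := hY2 t ht
    have := habs y0 l0
    linarith
  have hs : ∀ t ∈ F, ∀ t' ∈ F, |((t - t' : ℤ) : ℝ)| ≤ 2 * T := by
    intro t ht t' ht'
    push_cast
    have := abs_sub (t : ℝ) t'
    have := (hF t ht).1
    have := (hF t' ht').1
    linarith
  have hW : ∀ t ∈ F, (Y t1 - y0) * ((t2 - t0) * (t - t0) * (t - t2)) -
      (Y t2 - y0) * ((t1 - t0) * (t - t0) * (t - t1)) +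
      (Y t - y0) * ((t1 - t0) * (t2 - t0) * (t2 - t1)) = 0 := by
    intro t ht
    have h1 := det_dvd hpi hD (hc t1 m1 t0 m0) (hc t2 m2 t0 m0) (hc t ht t0 m0) (ap t1 m1)
      (ap t2 m2) (ap t ht)
    simp only [sub_sub_sub_cancel_right] at h1
    refine Int.eq_zero_of_abs_lt_dvd h1 ?_
    have b1 := term_bd hU (hz t1 m1) (hs t2 m2 t0 m0) (hs t ht t0 m0) (hs t ht t2 m2)
    have b2 := term_bd hU (hz t2 m2) (hs t1 m1 t0 m0) (hs t ht t0 m0) (hs t ht t1 m1)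
    have b3 := term_bd hU (hz t ht) (hs t1 m1 t0 m0) (hs t2 m2 t0 m0) (hs t2 m2 t1 m1)
    have b4 : (2 * U) ^ 6 < (p : ℝ) ^ 6 := pow_lt_pow_left₀ hpU (by positivity) (by norm_num)
    have b5 : 0 ≤ U ^ 6 := by positivity
    rw [← @Int.cast_lt ℝ, Int.cast_abs]
    rw [abs_le] at b1 b2 b3
    rw [abs_lt]
    push_cast at b1 b2 b3 ⊢
    constructor <;> nlinarith
  apply hcard
  refine roots4 a b c ((t1 - t0) * (t2 - t0) * (t2 - t1))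
    ((t1 - t0) * (t2 - t0) * (t2 - t1) * y0 + (Y t2 - y0) * ((t1 - t0) * t0 * t1) -
      (Y t1 - y0) * ((t2 - t0) * t0 * t2))
    ((Y t1 - y0) * ((t2 - t0) * (t0 + t2)) - (Y t2 - y0) * ((t1 - t0) * (t0 + t1)))
    ((Y t2 - y0) * (t1 - t0) - (Y t1 - y0) * (t2 - t0)) ?_ F ?_
  · exact mul_ne_zero (mul_ne_zero (sub_ne_zero.2 n01.symm) (sub_ne_zero.2 n02.symm))
      (sub_ne_zero.2 n12.symm)
  · intro t ht
    rw [← hY1 t ht, ← mul_pow]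
    congr 1
    linear_combination -hW t ht

theorem prime_card {p : ℕ} (hp : p.Prime) (hp2 : 2 < p) (a b c : ℤ) {T U : ℝ} (hU0 : 0 ≤ U)
    (hU : U ^ 4 = T ^ 3) (hpU : 2 * U < p) (F : Finset ℤ)
    (hF : ∀ t ∈ F, |(t : ℝ)| ≤ T ∧ ∃ y : ℤ, y ^ 2 = t ^ 3 + a * t ^ 2 + b * t + c ∧
      (y : ℝ) ^ 2 ≤ T ^ 3 ∧ ¬(p : ℤ) ∣ y) : F.card ≤ 4 * p := by
  have : NeZero p := ⟨hp.ne_zero⟩
  have h := Finset.card_le_mul_card_image_of_maps_to (f := fun t : ℤ => (t : ZMod p)) (s := F)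
    (t := Finset.univ) (fun _ _ => Finset.mem_univ _) 4 ?_
  · rwa [Finset.card_univ, ZMod.card] at h
  · intro r _
    refine cls_card hp hp2 a b c hU0 hU hpU _ (fun t ht => hF t (Finset.mem_filter.1 ht).1) ?_
    intro t ht t' ht'
    rw [← ZMod.intCast_eq_intCast_iff_dvd_sub, (Finset.mem_filter.1 ht).2,
      (Finset.mem_filter.1 ht').2]

end SQV

open scoped Classical in
theorem blk_SQV : StSqv := by
  refine ⟨76, by norm_num, fun a b c T hT S hS => ?_⟩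
  set U := T ^ (3 / 4 : ℝ) with hUdef
  have hU1 : 1 ≤ U := Real.one_le_rpow hT (by norm_num)
  have hU : U ^ 4 = T ^ 3 := by
    rw [hUdef, ← Real.rpow_natCast, ← Real.rpow_mul (by linarith), ← Real.rpow_natCast]
    norm_num
  set N := ⌈2 * U⌉₊ with hN
  have hN1 : 2 * U ≤ N := Nat.le_ceil _
  have hN2 : (N : ℝ) < 2 * U + 1 := Nat.ceil_lt_add_one (by linarith)
  have hN3 : 2 ≤ N := by
    have : (2 : ℝ) ≤ N := by linarith
    exact_mod_cast this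
  obtain ⟨p, hp, p1, p2⟩ := Nat.exists_prime_lt_and_le_two_mul N (by omega)
  obtain ⟨q, hq, q1, q2⟩ := Nat.exists_prime_lt_and_le_two_mul (2 * N) (by omega)
  have hpU : 2 * U < p := hN1.trans_lt (by exact_mod_cast p1)
  have hqU : 2 * U < q := hN1.trans_lt (by exact_mod_cast (by omega : N < q))
  let P : ℕ → ℤ → Prop := fun r t => ∃ y : ℤ, y ^ 2 = t ^ 3 + a * t ^ 2 + b * t + c ∧
      (y : ℝ) ^ 2 ≤ T ^ 3 ∧ ¬(r : ℤ) ∣ y
  have c1 := SQV.prime_card hp (by omega) a b c (by linarith) hU hpU (S.filter (P p))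
    fun t ht => ⟨(hS t (Finset.mem_filter.1 ht).1).1, (Finset.mem_filter.1 ht).2⟩
  have c2 := SQV.prime_card hq (by omega) a b c (by linarith) hU hqU (S.filter (P q))
    fun t ht => ⟨(hS t (Finset.mem_filter.1 ht).1).1, (Finset.mem_filter.1 ht).2⟩
  have c3 := SQV.roots3 a b c (S.filter fun t => t ^ 3 + a * t ^ 2 + b * t + c = 0)
    fun t ht => (Finset.mem_filter.1 ht).2
  have hsub : S ⊆ S.filter (P p) ∪ S.filter (P q) ∪
      S.filter fun t => t ^ 3 + a * t ^ 2 + b * t + c = 0 := by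
    intro t ht
    obtain ⟨-, y, e, l⟩ := hS t ht
    simp only [Finset.mem_union, Finset.mem_filter]
    by_cases d1 : (p : ℤ) ∣ y
    · by_cases d2 : (q : ℤ) ∣ y
      · refine Or.inr ⟨ht, ?_⟩
        have cop : IsCoprime (p : ℤ) (q : ℤ) :=
          Nat.isCoprime_iff_coprime.2 ((Nat.coprime_primes hp hq).2 (by omega))
        have hy : y = 0 := by
          refine Int.eq_zero_of_abs_lt_dvd (cop.mul_dvd d1 d2) ?_
          rw [← @Int.cast_lt ℝ, Int.cast_abs]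
          push_cast
          have h1 : |(y : ℝ)| ≤ U ^ 2 := by
            apply abs_le_of_sq_le_sq' _ (by positivity) |> abs_le.2
            rw [← pow_mul, hU]
            exact l
          nlinarith
        rw [← e, hy]
        ring
      · exact Or.inl (Or.inr ⟨ht, y, e, l, d2⟩)
    · exact Or.inl (Or.inl ⟨ht, y, e, l, d1⟩)
  have c4 := (Finset.card_le_card hsub).trans
    ((Finset.card_union_le _ _).trans (Nat.add_le_add_right (Finset.card_union_le _ _) _))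
  have c5 : S.card ≤ 24 * N + 4 := by omega
  have c6 : (S.card : ℝ) ≤ 24 * N + 4 := by exact_mod_cast c5
  linarith

end Pool.Agent.Lib.N4
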