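import Pool.Agent.Lib.N4.Blue

set_option autoImplicit false

open NumberField Ideal Module
open scoped nonZeroDivisors

namespace Pool.Agent.Lib.N4

namespace TAME

variable {R G : Type} [CommRing R] [IsDedekindDomain R] [Group G] [MulSemiringAction G R]
  {P : Ideal R}

omit [IsDedekindDomain R] in
lemma smul_pow_mem {σ : G} (hσ : σ ∈ P.inertia G) (m : ℕ) {x : R} (hx : x ∈ P ^ m) :
    σ • x ∈ P ^ m := by
  have h1 : P.map (MulSemiringAction.toRingHom G R σ) ≤ P :=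
    Ideal.map_le_iff_le_comap.2 fun y hy => by
      have := P.add_mem (hσ y) hy
      rwa [sub_add_cancel] at this
  have h2 := Ideal.mem_map_of_mem (MulSemiringAction.toRingHom G R σ) hx
  rw [Ideal.map_pow] at h2
  exact Ideal.pow_right_mono h1 m h2

lemma le_span [P.IsPrime] (h0 : P ≠ ⊥) {π : R} (h1 : π ∈ P) (h2 : π ∉ P ^ 2) (m : ℕ) :
    P ≤ span {π} ⊔ P ^ (m + 1) := by
  have h3 : span {π} ⊔ P ^ (1 + 1) = P ^ 1 :=
    Ideal.eq_prime_pow_of_succ_lt_of_le h0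
      (lt_of_le_of_ne le_sup_right fun e =>
        h2 (by rw [show 2 = 1 + 1 from rfl, e]; exact mem_sup_left (mem_span_singleton_self π)))
      (sup_le (by rwa [pow_one, span_singleton_le_iff_mem])
        (Ideal.pow_le_pow_right (by omega)))
  induction m with
  | zero => simp
  | succ m ih =>
    refine ih.trans (sup_le le_sup_left ?_)
    rw [pow_add, ← h3, Ideal.mul_sup, ← pow_add]
    exact sup_le_sup Ideal.mul_le_right le_rfl

lemma decomp [P.IsPrime] (h0 : P ≠ ⊥) {π : R} (h1 : π ∈ P) (h2 : π ∉ P ^ 2) (m : ℕ) {x : R}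
    (hx : x ∈ P) : ∃ c, x - c * π ∈ P ^ (m + 1) := by
  obtain ⟨a, ha, b, hb, rfl⟩ := Submodule.mem_sup.1 (le_span h0 h1 h2 m hx)
  obtain ⟨c, rfl⟩ := mem_span_singleton'.1 ha
  exact ⟨c, by simpa using hb⟩

/-- The trace along the cyclic group generated by `τ`. -/
def tr (τ : G) (N : ℕ) (x : R) : R := ∑ i ∈ Finset.range N, τ ^ i • x

omit [IsDedekindDomain R] in
lemma smul_tr {τ : G} {N : ℕ} (h : τ ^ N = 1) (x : R) : τ • tr τ N x = tr τ N x := by
  have h1 := Finset.sum_range_succ (fun i => τ ^ i • x) N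
  rw [Finset.sum_range_succ', h, pow_zero, add_left_inj] at h1
  rw [tr, Finset.smul_sum]
  refine Eq.trans ?_ h1
  exact Finset.sum_congr rfl fun i _ => by rw [pow_succ', mul_smul]

omit [IsDedekindDomain R] in
lemma tr_sub {τ : G} {N : ℕ} {Q : Ideal R} {x : R} (h : ∀ i : ℕ, τ ^ i • x - x ∈ Q) :
    tr τ N x - N * x ∈ Q := by
  have : tr τ N x - N * x = ∑ i ∈ Finset.range N, (τ ^ i • x - x) := by
    rw [Finset.sum_sub_distrib, tr]; simp
  rw [this]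
  exact Q.sum_mem fun i _ => h i

lemma wild [hP : P.IsPrime] (h0 : P ≠ ⊥) {π : R} (h1 : π ∈ P) (h2 : π ∉ P ^ 2) {τ : G}
    (hτ : τ ∈ P.inertia G) (hπ : τ • π - π ∈ P ^ 2) {N : ℕ} (hN : τ ^ N = 1)
    (hN' : (N : R) ∉ P) (x : R) : τ • x = x := by
  have h3 : ∀ i : ℕ, τ ^ i • π - π ∈ P ^ 2 := fun i => by
    induction i with
    | zero => simp
    | succ i ih =>
      have := (P ^ 2).add_mem (smul_pow_mem hτ 2 ih) hπ
      rwa [smul_sub, sub_add_sub_cancel, ← mul_smul, ← pow_succ'] at this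
  have h4 := tr_sub (N := N) h3
  have h5 : tr τ N π ∈ P := by
    have := P.add_mem (Ideal.pow_le_self two_ne_zero h4) (P.mul_mem_left N h1)
    rwa [sub_add_cancel] at this
  have h6 : tr τ N π ∉ P ^ 2 := fun h => by
    have := (P ^ 2).sub_mem h h4
    rw [sub_sub_cancel] at this
    exact (Ideal.IsPrime.mul_mem_pow P this).elim hN' h2
  have h7 : ∀ m : ℕ, ∀ y : R, τ • y - y ∈ P ^ m := fun m => by
    induction m with
    | zero => simp
    | succ m ih =>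
      intro y
      have e1 : tr τ N y - N * y ∈ P := tr_sub fun i => (P.inertia G).pow_mem hτ i y
      obtain ⟨c, hc⟩ := decomp h0 h5 h6 m e1
      have e2 := (P ^ (m + 1)).sub_mem hc (smul_pow_mem hτ _ hc)
      have e3 : (τ • c - c) * tr τ N π ∈ P ^ (m + 1) := by
        rw [pow_succ]; exact Ideal.mul_mem_mul (ih c) h5
      have e4 := (P ^ (m + 1)).sub_mem e2 e3
      have e5 : τ • (N : R) = N := map_natCast (MulSemiringAction.toRingHom G R τ) N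
      simp only [smul_sub, smul_mul', smul_tr hN, e5] at e4
      refine (Ideal.IsPrime.mul_mem_pow P (a := N) ?_).resolve_left hN'
      rwa [show (N : R) * (τ • y - y) = tr τ N y - N * y - c * tr τ N π -
        (tr τ N y - N * τ • y - τ • c * tr τ N π) - (τ • c - c) * tr τ N π by ring]
  have h8 : τ • x - x ∈ ⨅ m : ℕ, P ^ m := Submodule.mem_iInf _ |>.2 fun m => h7 m x
  rwa [Ideal.iInf_pow_eq_bot_of_isDomain _ hP.ne_top, Ideal.mem_bot, sub_eq_zero] at h8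

lemma chr [hP : P.IsPrime] (h0 : P ≠ ⊥) {π : R} (h1 : π ∈ P) (h2 : π ∉ P ^ 2) :
    ∃ t : P.inertia G →* R ⧸ P, ∀ σ, t σ = 1 → σ.1 • π - π ∈ P ^ 2 := by
  have h3 : ∀ σ : P.inertia G, ∃ c, σ.1 • π - c * π ∈ P ^ 2 := fun σ =>
    decomp h0 h1 h2 1 (by simpa using smul_pow_mem σ.2 1 (by simpa using h1))
  choose c hc using h3
  have h4 : ∀ (σ : P.inertia G) (d : R), σ.1 • π - d * π ∈ P ^ 2 →
      Ideal.Quotient.mk P (c σ) = Ideal.Quotient.mk P d := fun σ d hd => by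
    have := (P ^ 2).sub_mem hd (hc σ)
    rw [sub_sub_sub_cancel_left, ← sub_mul] at this
    exact Ideal.Quotient.eq.2 ((Ideal.IsPrime.mul_mem_pow P this).resolve_right h2)
  have h5 : ∀ {d : R}, d ∈ P → d * π ∈ P ^ 2 := fun hd => by
    rw [pow_two]; exact Ideal.mul_mem_mul hd h1
  refine ⟨⟨⟨fun σ => Ideal.Quotient.mk P (c σ), ?_⟩, fun σ τ => ?_⟩, fun σ h => ?_⟩
  · exact h4 1 1 (by simp)
  · rw [← map_mul]
    refine h4 _ _ ?_
    have e1 := smul_pow_mem σ.2 2 (hc τ)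
    have e2 := (P ^ 2).mul_mem_left (σ.1 • c τ) (hc σ)
    have e3 := h5 (P.mul_mem_left (c σ) (σ.2 (c τ)))
    have e4 := (P ^ 2).add_mem ((P ^ 2).add_mem e1 e2) e3
    rw [smul_sub, smul_mul', ← mul_smul] at e4
    rwa [show (σ * τ).1 • π - c σ * c τ * π = (σ.1 * τ.1) • π - σ.1 • c τ * σ.1 • π +
      σ.1 • c τ * (σ.1 • π - c σ * π) + c σ * (σ.1 • c τ - c τ) * π by
        rw [Subgroup.coe_mul]; ring]
  · have e1 : c σ - 1 ∈ P := Ideal.Quotient.eq.1 h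
    have e2 := (P ^ 2).add_mem (hc σ) (h5 e1)
    rwa [show σ.1 • π - c σ * π + (c σ - 1) * π = σ.1 • π - π by ring] at e2

lemma main [Finite G] [hP : P.IsPrime] (h0 : P ≠ ⊥) (h3 : (3 : R) ∉ P)
    (hf : ∀ σ : G, (∀ x : R, σ • x = x) → σ = 1) :
    ∃ σ₀ : G, ∀ ρ : G →* ℂˣ, Cub ρ → ρ σ₀ = 1 → ∀ σ ∈ P.inertia G, ρ σ = 1 := by
  obtain ⟨π, h1, h2⟩ := Ideal.exists_mem_pow_notMem_pow_succ P h0 hP.ne_top 1
  rw [pow_one] at h1
  obtain ⟨t, ht⟩ := chr (G := G) h0 h1 h2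
  haveI : Finite t.toHomUnits.range := Finite.of_surjective _ t.toHomUnits.rangeRestrict_surjective
  obtain ⟨⟨_, σ₀, rfl⟩, hg⟩ := IsCyclic.exists_generator (α := t.toHomUnits.range)
  have key : ∀ ρ : G →* ℂˣ, Cub ρ → ∀ τ : P.inertia G, t.toHomUnits τ = 1 → ρ τ = 1 := by
    intro ρ hρ τ hτ
    obtain ⟨a, m, hm, e⟩ := Nat.exists_eq_pow_mul_and_not_dvd (orderOf_pos τ).ne' 3 (by norm_num)
    have e1 : t (τ ^ m) = 1 := by
      have : t τ = 1 := congrArg Units.val hτ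
      rw [map_pow, this, one_pow]
    have e2 : (τ ^ m).1 ^ 3 ^ a = 1 := by
      rw [← Subgroup.coe_pow, ← pow_mul, mul_comm, ← e, pow_orderOf_eq_one]; rfl
    have e3 : (τ ^ m).1 = 1 := hf _ (wild h0 h1 h2 (τ ^ m).2 (ht _ e1) e2 fun h =>
      h3 (hP.mem_of_pow_mem a (by simpa using h)))
    have e4 : ρ τ ^ m = 1 := by rw [← map_pow, ← Subgroup.coe_pow, e3, map_one]
    have e5 := pow_gcd_eq_one.2 ⟨hρ τ, e4⟩
    rwa [(Nat.prime_three.coprime_iff_not_dvd.2 hm : Nat.gcd 3 m = 1), pow_one] at e5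
  refine ⟨σ₀, fun ρ hρ h σ hσ => ?_⟩
  obtain ⟨j, hj⟩ := hg ⟨_, ⟨σ, hσ⟩, rfl⟩
  have e1 : t.toHomUnits σ₀ ^ j = t.toHomUnits ⟨σ, hσ⟩ := congrArg Subtype.val hj
  have e2 := key ρ hρ (⟨σ, hσ⟩ * (σ₀ ^ j)⁻¹) (by rw [map_mul, map_inv, map_zpow, e1, mul_inv_cancel])
  simpa [h] using e2

end TAME

theorem blk_TAME : StTame := by
  intro k Ω _ _ _ _ _ P hP h3
  refine TAME.main (Ring.ne_bot_of_isMaximal_of_not_isField hP (RingOfIntegers.not_isField Ω)) h3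
    fun σ h => AlgEquiv.ext fun x => ?_
  obtain ⟨a, b, -, rfl⟩ := IsFractionRing.div_surjective (𝓞 Ω) x
  have e : ∀ y : 𝓞 Ω, σ (algebraMap (𝓞 Ω) Ω y) = algebraMap (𝓞 Ω) Ω y := fun y =>
    congrArg (algebraMap (𝓞 Ω) Ω) (h y)
  rw [map_div₀, e, e, AlgEquiv.one_apply]

end Pool.Agent.Lib.N4
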