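import Pool.Agent.Lib.N4.Blue

set_option autoImplicit false

open NumberField Ideal Module
open scoped nonZeroDivisors

namespace Pool.Agent.Lib.N4

namespace TOP

lemma grp (ι : Type) [Fintype ι] (F : ι → Type) [∀ i, Field (F i)] (W : ι → ℝ)
    (h : ∀ i₀, (Nat.card {i // Nonempty (F i ≃+* F i₀)} : ℝ) ≤ W i₀) :
    ∃ T : Finset ι, (∀ i ∈ T, ∀ j ∈ T, i ≠ j → IsEmpty (F i ≃+* F j)) ∧
      (Fintype.card ι : ℝ) ≤ ∑ i ∈ T, W i := by
  classical
  let r : Setoid ι := ⟨fun i j => Nonempty (F i ≃+* F j), fun _ => ⟨RingEquiv.refl _⟩,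
    fun ⟨e⟩ => ⟨e.symm⟩, fun ⟨e⟩ ⟨f⟩ => ⟨e.trans f⟩⟩
  let g : ι → ι := fun i => (Quotient.mk r i).out
  have hg : ∀ i, r (g i) i := fun i => Quotient.mk_out (s := r) i
  refine ⟨Finset.univ.image g, fun i hi j hj hij => ⟨fun e => hij ?_⟩, ?_⟩
  · obtain ⟨a, -, rfl⟩ := Finset.mem_image.1 hi
    obtain ⟨b, -, rfl⟩ := Finset.mem_image.1 hj
    exact congrArg Quotient.out
      (Quotient.sound (r.trans (r.symm (hg a)) (r.trans (show r (g a) (g b) from ⟨e⟩) (hg b))))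
  · rw [← Finset.card_univ, Finset.card_eq_sum_card_image g, Nat.cast_sum]
    refine Finset.sum_le_sum fun i _ => le_trans (Nat.cast_le.2 ?_) (h i)
    rw [Nat.card_eq_fintype_card, Fintype.card_subtype]
    refine Finset.card_le_card fun j hj => Finset.mem_filter.2 ⟨Finset.mem_univ _, ?_⟩
    rw [← (Finset.mem_filter.1 hj).2]
    exact r.symm (hg j)

lemma exists_Z {M : ℕ} (hM : M ≠ 0) : ∃ Z : Finset ℤ, Z.card ≤ 2 * M.divisors.card ∧
    ∀ d : ℤ, d.natAbs ∣ M → d ∈ Z := by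
  refine ⟨M.divisors.image (fun a : ℕ => (a : ℤ)) ∪ M.divisors.image fun a : ℕ => -(a : ℤ),
    (Finset.card_union_le _ _).trans ?_, fun d hd => ?_⟩
  · rw [two_mul]; exact add_le_add Finset.card_image_le Finset.card_image_le
  · have h := Nat.mem_divisors.2 ⟨hd, hM⟩
    rcases Int.natAbs_eq d with e | e
    · exact Finset.mem_union_left _ (Finset.mem_image.2 ⟨_, h, e.symm⟩)
    · exact Finset.mem_union_right _ (Finset.mem_image.2 ⟨_, h, e.symm⟩)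

lemma Adm.mono {F : Type} [Field F] [NumberField F] {δ : F} {m M : ℕ} (h : Adm δ m) (hm : m ∣ M) :
    Adm δ M := by
  obtain ⟨h0, a, b, h1, h2, h3⟩ := h
  exact ⟨h0, a, b, h1, h2, h3.trans hm⟩

lemma cntA (hI : StIdc) (a2 : StQA2) (hR : StQI) (hS : StSel) (hF : StFam) {ε : ℝ} (hε : 0 < ε) :
    ∃ C : ℝ, 0 < C ∧ ∀ D : ℕ, 1 ≤ D → ∀ (ι : Type) [Fintype ι] (K : ι → Type) [∀ i, Field (K i)]
      [∀ i, NumberField (K i)], (∀ i, (discr (K i)).natAbs = D) →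
      (∀ i j, i ≠ j → IsEmpty (K i ≃+* K j)) → (∀ i, ∃ (R : Type) (_ : Field R) (_ : NumberField R)
        (δ : R), finrank ℚ R = 3 ∧ EncA (K i) R δ) →
      (Fintype.card ι : ℝ) ≤ C * ((256 * D : ℕ) : ℝ) ^ (5 / 12 + ε) := by
  classical
  obtain ⟨C₁, hC₁, h1⟩ := hS 3 (ε / 3) (by positivity)
  obtain ⟨C₂, hC₂, h2⟩ := hF (ε / 3) (by positivity)
  obtain ⟨C₃, hC₃, h3⟩ := hI.om 1 (ε / 3) (by positivity)
  refine ⟨C₁ * (2 * C₃ * C₂), by positivity, fun D hD ι _ K _ _ hK hne hA => ?_⟩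
  choose R i1 i2 δ hR3 hδ using hA
  have hM : 256 * D ≠ 0 := by omega
  generalize hMd : 256 * D = M at hM
  have hM0 : (0 : ℝ) < M := Nat.cast_pos.2 (Nat.pos_of_ne_zero hM)
  obtain ⟨T, hT1, hT2⟩ := grp ι R (fun i => C₁ * (M : ℝ) ^ (ε / 3) * tor 2 (R i)) fun i₀ => by
    rw [Nat.card_eq_fintype_card]
    refine h1 (R i₀) (hR3 i₀) M hM _ (fun i => i.2.some (δ i.1)) (fun i => ?_) fun i j hij β e => ?_
    · obtain ⟨m, h4, h5⟩ := a2 _ _ _ (hR.trA _ _ _ _ i.2.some (hδ i.1))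
      rw [hK, hMd] at h5
      exact Adm.mono h4 (dvd_of_mul_left_dvd h5)
    · obtain ⟨f⟩ := hR.rigA _ _ _ _ β (hR.trA _ _ _ _ i.2.some (hδ i.1))
        (e ▸ hR.trA _ _ _ _ j.2.some (hδ j.1))
      exact (hne i j fun e => hij (Subtype.ext e)).elim f
  obtain ⟨Z, hZ1, hZ2⟩ := exists_Z hM
  have hdv : ∀ i, (discr (R i)).natAbs ∣ M := fun i => by
    obtain ⟨m, -, h5⟩ := a2 _ _ _ (hδ i)
    rw [hK, hMd] at h5
    exact dvd_of_mul_right_dvd h5
  have h4 : ∑ i ∈ T, (tor 2 (R i) : ℝ) ≤ Z.card * (C₂ * (M : ℝ) ^ (5 / 12 + ε / 3)) := by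
    rw [← Finset.sum_fiberwise_of_maps_to (t := Z) (g := fun i => discr (R i))
      fun i _ => hZ2 _ (hdv i), ← nsmul_eq_mul]
    refine Finset.sum_le_card_nsmul _ _ _ fun d _ => ?_
    rcases (T.filter fun i => discr (R i) = d).eq_empty_or_nonempty with e | ⟨i₀, hi₀⟩
    · rw [e, Finset.sum_empty]; positivity
    rw [← Finset.sum_coe_sort]
    refine (h2 d (T.filter fun i => discr (R i) = d) (fun i => R i) (fun i => hR3 i)
      (fun i => (Finset.mem_filter.1 i.2).2) fun i j hij => hT1 i (Finset.mem_filter.1 i.2).1 j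
        (Finset.mem_filter.1 j.2).1 fun e => hij (Subtype.ext e)).trans ?_
    have h5 := Nat.le_of_dvd (Nat.pos_of_ne_zero hM) (hdv i₀)
    rw [(Finset.mem_filter.1 hi₀).2] at h5
    gcongr
  have h5 : (Z.card : ℝ) ≤ 2 * (C₃ * (M : ℝ) ^ (ε / 3)) :=
    (Nat.cast_le.2 hZ1).trans (by push_cast; linarith [(h3 M hM).2])
  rw [← Finset.mul_sum] at hT2
  refine hT2.trans ((mul_le_mul_of_nonneg_left (h4.trans (mul_le_mul_of_nonneg_right h5
    (by positivity))) (by positivity)).trans (le_of_eq ?_))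
  rw [show 5 / 12 + ε = ε / 3 + (ε / 3 + (5 / 12 + ε / 3)) by ring, Real.rpow_add hM0 (ε / 3),
    Real.rpow_add hM0 (ε / 3)]
  ring

lemma cntB (hI : StIdc) (hV : StVol) (b2 : StQB2) (hR : StQI) (hS : StSel) (hQ : StQuad) {ε : ℝ}
    (hε : 0 < ε) :
    ∃ C : ℝ, 0 < C ∧ ∀ D : ℕ, 1 ≤ D → ∀ (ι : Type) [Fintype ι] (K : ι → Type) [∀ i, Field (K i)]
      [∀ i, NumberField (K i)], (∀ i, (discr (K i)).natAbs = D) →
      (∀ i j, i ≠ j → IsEmpty (K i ≃+* K j)) → (∀ i, ∃ (R : Type) (_ : Field R) (_ : NumberField R)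
        (δ : R), finrank ℚ R = 2 ∧ EncB (K i) R δ) →
      (Fintype.card ι : ℝ) ≤ C * ((256 * D : ℕ) : ℝ) ^ (5 / 12 + ε) := by
  classical
  obtain ⟨C₁, hC₁, h1⟩ := hS 2 (ε / 2) (by positivity)
  obtain ⟨C₂, hC₂, h2⟩ := hV.cn 2 (1 / 3) (by positivity)
  obtain ⟨C₃, hC₃, h3⟩ := hI.om 1 (ε / 2) (by positivity)
  refine ⟨C₁ * (2 * C₃ * C₂), by positivity, fun D hD ι _ K _ _ hK hne hA => ?_⟩
  choose R i1 i2 δ hR3 hδ using hA
  have hM : 256 * D ≠ 0 := by omega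
  have hM' : 16 * D ∣ 256 * D := Nat.mul_dvd_mul_right (by norm_num) D
  generalize hMd : 256 * D = M at hM hM'
  have hM0 : (0 : ℝ) < M := Nat.cast_pos.2 (Nat.pos_of_ne_zero hM)
  obtain ⟨T, hT1, hT2⟩ := grp ι R (fun i => C₁ * (M : ℝ) ^ (ε / 2) * tor 2 (R i)) fun i₀ => by
    rw [Nat.card_eq_fintype_card]
    refine h1 (R i₀) (hR3 i₀) M hM _ (fun i => i.2.some (δ i.1)) (fun i => ?_) fun i j hij β e => ?_
    · obtain ⟨m, h4, h5⟩ := b2 _ _ _ (hR.trB _ _ _ _ i.2.some (hδ i.1))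
      rw [hK] at h5
      exact Adm.mono h4 ((dvd_of_mul_left_dvd h5).trans hM')
    · obtain ⟨f⟩ := hR.rigB _ _ _ _ β (hR.trB _ _ _ _ i.2.some (hδ i.1))
        (e ▸ hR.trB _ _ _ _ j.2.some (hδ j.1))
      exact (hne i j fun e => hij (Subtype.ext e)).elim f
  obtain ⟨Z, hZ1, hZ2⟩ := exists_Z hM
  have hdv : ∀ i, (discr (R i)).natAbs ^ 2 ∣ M := fun i => by
    obtain ⟨m, -, h5⟩ := b2 _ _ _ (hδ i)
    rw [hK] at h5
    exact (dvd_of_mul_right_dvd h5).trans hM'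
  have h6 : T.card ≤ Z.card := Finset.card_le_card_of_injOn (fun i => discr (R i))
    (fun i _ => hZ2 _ ((dvd_pow_self _ two_ne_zero).trans (hdv i))) fun i hi j hj e => by
      by_contra hij
      obtain ⟨f⟩ := hQ.iso _ _ (hR3 i) (hR3 j) e
      exact (hT1 i hi j hj hij).elim f
  have h4 : ∑ i ∈ T, (tor 2 (R i) : ℝ) ≤ Z.card * (C₂ * (M : ℝ) ^ (5 / 12 : ℝ)) := by
    refine (Finset.sum_le_card_nsmul _ _ (C₂ * (M : ℝ) ^ (5 / 12 : ℝ)) fun i _ => ?_).trans ?_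
    · refine ((Nat.cast_le.2 gt_le_card).trans (h2 (R i) (hR3 i))).trans ?_
      have h5 : dn (R i) ^ (2 : ℝ) ≤ M := by
        rw [dn]; exact_mod_cast Nat.le_of_dvd (Nat.pos_of_ne_zero hM) (hdv i)
      rw [show (1 / 2 + 1 / 3 : ℝ) = 2 * (5 / 12) by norm_num, Real.rpow_mul dn_pos.le]
      have := dn_pos (K := R i)
      gcongr
    · rw [nsmul_eq_mul]; gcongr
  have h5 : (Z.card : ℝ) ≤ 2 * (C₃ * (M : ℝ) ^ (ε / 2)) :=
    (Nat.cast_le.2 hZ1).trans (by push_cast; linarith [(h3 M hM).2])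
  rw [← Finset.mul_sum] at hT2
  refine hT2.trans ((mul_le_mul_of_nonneg_left (h4.trans (mul_le_mul_of_nonneg_right h5
    (by positivity))) (by positivity)).trans (le_of_eq ?_))
  rw [show 5 / 12 + ε = ε / 2 + (ε / 2 + 5 / 12) by ring, Real.rpow_add hM0 (ε / 2),
    Real.rpow_add hM0 (ε / 2)]
  ring

end TOP

open TOP in
theorem blk_TOP (hI : StIdc) (hV : StVol) (a1 : StQA1) (b1 : StQB1) (a2 : StQA2) (b2 : StQB2)
    (hR : StQI) (hS : StSel) (hQ : StQuad) (hF : StFam) : StTop := by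
  classical
  intro ε hε
  obtain ⟨C₁, hC₁, h1⟩ := cntA hI a2 hR hS hF hε
  obtain ⟨C₂, hC₂, h2⟩ := cntB hI hV b2 hR hS hQ hε
  refine ⟨(C₁ + C₂) * 256 ^ (5 / 12 + ε), fun D hD m K _ _ hK hd hne => ?_⟩
  let A : Fin m → Prop := fun i => ∃ (R : Type) (_ : Field R) (_ : NumberField R) (δ : R),
    finrank ℚ R = 3 ∧ EncA (K i) R δ
  have h3 := h1 D hD {i // A i} (fun i => K i) (fun i => hd i)
    (fun i j h => hne i j fun e => h (Subtype.ext e)) fun i => i.2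
  have h4 := h2 D hD {i // ¬A i} (fun i => K i) (fun i => hd i)
    (fun i j h => hne i j fun e => h (Subtype.ext e)) fun i => by
      obtain ⟨y, a, h5, h6⟩ := (a1 (K i) (hK i)).resolve_left i.2
      exact b1 (K i) (hK i) y a h5 h6
  have h5 : Fintype.card {i // A i} + Fintype.card {i // ¬A i} = m := by
    rw [Fintype.card_subtype_compl, Fintype.card_fin, Nat.add_sub_cancel']
    exact (Fintype.card_subtype_le A).trans (Fintype.card_fin m).le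
  rw [← h5, Nat.cast_add, mul_assoc, ← Real.mul_rpow (by norm_num) (Nat.cast_nonneg _), add_mul]
  push_cast at h3 h4
  exact add_le_add h3 h4

end Pool.Agent.Lib.N4
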