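import Pool.Agent.Lib.N4.Blue

set_option autoImplicit false

open NumberField Ideal Module
open scoped nonZeroDivisors

namespace Pool.Agent.Lib.N4

namespace UNI

lemma split {A : Type} [CommGroup A] (g : A) {l : ℕ} (hl : 0 < l) (m : ℤ) :
    ∃ (r : Fin l) (w : A), g ^ m = g ^ (r : ℕ) * w ^ l := by
  have hl' : (0 : ℤ) < l := by exact_mod_cast hl
  have h0 := Int.emod_nonneg m hl'.ne'
  have h1 := Int.emod_lt_of_pos m hl'
  refine ⟨⟨(m % l).toNat, by omega⟩, g ^ (m / l), ?_⟩
  rw [← zpow_natCast, ← zpow_natCast, ← zpow_mul, ← zpow_add]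
  congr 1
  have := Int.emod_add_ediv_mul m l
  simp only [Int.toNat_of_nonneg h0]
  exact this.symm

end UNI

theorem blk_UNI : StUni := by
  intro F _ _ l hl
  classical
  obtain ⟨g, hg⟩ := IsCyclic.exists_generator (α := Units.torsion F)
  refine ⟨Finset.univ.image fun p : Fin l × (Fin (Units.rank F) → Fin l) =>
    (g : (𝓞 F)ˣ) ^ (p.1 : ℕ) * ∏ i, Units.fundSystem F i ^ (p.2 i : ℕ), ?_, fun u => ?_⟩
  · refine Finset.card_image_le.trans ?_
    rw [Finset.card_univ, Fintype.card_prod, Fintype.card_fun, Fintype.card_fin,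
      Fintype.card_fin, ← pow_succ']
    refine Nat.pow_le_pow_right hl ?_
    have h1 := InfinitePlace.card_add_two_mul_card_eq_rank F
    have h2 := InfinitePlace.card_eq_nrRealPlaces_add_nrComplexPlaces F
    have h3 : 0 < Fintype.card (InfinitePlace F) := Fintype.card_pos
    rw [Units.rank]
    omega
  · obtain ⟨⟨ζ, e⟩, h, -⟩ := Units.exist_unique_eq_mul_prod F u
    obtain ⟨m, rfl⟩ := Subgroup.mem_zpowers_iff.1 (hg ζ)
    obtain ⟨r, w, hw⟩ := UNI.split (g : (𝓞 F)ˣ) hl m
    choose s t hst using fun i => UNI.split (Units.fundSystem F i) hl (e i)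
    refine ⟨_, Finset.mem_image.2 ⟨(r, s), Finset.mem_univ _, rfl⟩, w * ∏ i, t i, ?_⟩
    rw [h]
    simp only [SubgroupClass.coe_zpow, hw, hst, Finset.prod_mul_distrib, Finset.prod_pow, mul_pow]
    exact mul_mul_mul_comm _ _ _ _

end Pool.Agent.Lib.N4
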