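import Pool.Agent.Lib.N4.Blue

set_option autoImplicit false

open NumberField Ideal Module
open scoped nonZeroDivisors Pointwise

namespace Pool.Agent.Lib.N4

namespace V1

variable {Ω R : Type} [Field Ω] [NumberField Ω] [Field R] [NumberField R]

theorem exists_eqv [IsGalois ℚ Ω] (h3 : finrank ℚ R = 3) (e0 : R →+* Ω) :
    Nonempty (Fin 3 ≃ (R →+* Ω)) := by
  have h1 : Fintype.card (R →ₐ[ℚ] Ω) = finrank ℚ R := by
    refine AlgHom.card_of_splits ℚ R Ω fun x => ?_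
    rw [← minpoly.algHom_eq e0.toRatAlgHom e0.injective x]
    exact Normal.splits inferInstance _
  rw [h3] at h1
  exact ⟨(Fintype.equivFinOfCardEq h1).symm.trans (RingHom.equivRatAlgHom R Ω).symm⟩

/-- The matrix of conjugates of a family of integers. -/
noncomputable def mat (ε : Fin 3 ≃ (R →+* Ω)) (w : Fin 3 → 𝓞 R) : Matrix (Fin 3) (Fin 3) (𝓞 Ω) :=
  Matrix.of fun i j => RingOfIntegers.mapRingHom (ε i) (w j)

theorem exists_fam (h3 : finrank ℚ R = 3) (ε : Fin 3 ≃ (R →+* Ω)) :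
    ∃ w : Fin 3 → 𝓞 R, (mat ε w).det ^ 2 = (discr R : 𝓞 Ω) := by
  have hc : Fintype.card (Free.ChooseBasisIndex ℤ (𝓞 R)) = 3 := by
    rw [← finrank_eq_card_chooseBasisIndex, RingOfIntegers.rank, h3]
  set f := Fintype.equivFinOfCardEq hc
  refine ⟨fun j => RingOfIntegers.basis R (f.symm j), ?_⟩
  obtain ⟨j⟩ : Nonempty (Ω →+* ℂ) := inferInstance
  have hinj : Function.Injective fun i : Fin 3 => (j.comp (ε i)).toRatAlgHom := by
    intro a b hab
    apply ε.injective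
    ext x
    apply j.injective
    exact DFunLike.congr_fun hab x
  have hbij : Function.Bijective fun i : Fin 3 => (j.comp (ε i)).toRatAlgHom := by
    rw [Fintype.bijective_iff_injective_and_card]
    exact ⟨hinj, by rw [AlgHom.card, h3, Fintype.card_fin]⟩
  have h1 := Algebra.discr_eq_det_embeddingsMatrixReindex_pow_two ℚ ℂ
    (integralBasis R ∘ f.symm) (Equiv.ofBijective _ hbij)
  rw [Algebra.discr_reindex, ← coe_discr, ← Matrix.det_transpose] at h1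
  have h2 : Function.Injective (j.comp (algebraMap (𝓞 Ω) Ω)) :=
    j.injective.comp RingOfIntegers.coe_injective
  apply h2
  rw [map_pow, RingHom.map_det, map_intCast]
  rw [map_intCast] at h1
  rw [h1]
  congr 2
  ext a b
  simp [mat, Algebra.embeddingsMatrixReindex, integralBasis_apply]

/-- The permutation of the embeddings induced by an automorphism. -/
def prm (ε : Fin 3 ≃ (R →+* Ω)) (g : Ω ≃+* Ω) : Equiv.Perm (Fin 3) where
  toFun i := ε.symm (g.toRingHom.comp (ε i))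
  invFun i := ε.symm (g.symm.toRingHom.comp (ε i))
  left_inv i := by
    simp only [Equiv.apply_symm_apply, Equiv.symm_apply_eq]
    ext x; simp
  right_inv i := by
    simp only [Equiv.apply_symm_apply, Equiv.symm_apply_eq]
    ext x; simp

omit [NumberField Ω] [NumberField R] in
theorem prm_apply (ε : Fin 3 ≃ (R →+* Ω)) (g : Ω ≃+* Ω) (i : Fin 3) (x : R) :
    ε (prm ε g i) x = g (ε i x) := by
  simp [prm]

omit [NumberField Ω] [NumberField R] in
theorem prm_fix (ε : Fin 3 ≃ (R →+* Ω)) (g : Ω ≃+* Ω) (i : Fin 3) :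
    prm ε g i = i ↔ ∀ x, g (ε i x) = ε i x := by
  constructor
  · intro h x
    rw [← prm_apply, h]
  · intro h
    apply ε.injective
    ext x
    rw [prm_apply, h]

omit [NumberField Ω] [NumberField R] in
theorem prm_det (ε : Fin 3 ≃ (R →+* Ω)) (w : Fin 3 → 𝓞 R) (g : Ω ≃+* Ω) :
    g ((mat ε w).det : 𝓞 Ω) = ((Equiv.Perm.sign (prm ε g) : ℤ) : Ω) * ((mat ε w).det : 𝓞 Ω) := by
  have h1 : (((mat ε w).det : 𝓞 Ω) : Ω) = ((mat ε w).map (algebraMap (𝓞 Ω) Ω)).det :=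
    (algebraMap (𝓞 Ω) Ω).map_det _
  rw [h1, ← Matrix.det_permute]
  refine (g.toRingHom.map_det _).trans ?_
  congr 1
  ext a b
  simp [mat, prm_apply]

theorem sign_iff (ε : Fin 3 ≃ (R →+* Ω)) {w : Fin 3 → 𝓞 R}
    (hw : (mat ε w).det ^ 2 = (discr R : 𝓞 Ω)) {t : Ω} (ht : t ^ 2 = discr R) (g : Ω ≃+* Ω) :
    g t = t ↔ Equiv.Perm.sign (prm ε g) = 1 := by
  have h1 : (((mat ε w).det : 𝓞 Ω) : Ω) ^ 2 = discr R := by
    have := congrArg (algebraMap (𝓞 Ω) Ω) hw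
    rwa [map_pow, map_intCast] at this
  have h0 : t ≠ 0 := by
    rintro rfl
    rw [zero_pow two_ne_zero] at ht
    exact discr_ne_zero R (by exact_mod_cast ht.symm)
  have h2 : g t = ((Equiv.Perm.sign (prm ε g) : ℤ) : Ω) * t := by
    rcases sq_eq_sq_iff_eq_or_eq_neg.1 (ht.trans h1.symm) with h | h
    · rw [h, prm_det]
    · rw [h, map_neg, prm_det, mul_neg]
  rw [h2]
  rcases Int.units_eq_one_or (Equiv.Perm.sign (prm ε g)) with h | h
  · simp [h]
  · rw [h]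
    simp only [Units.val_neg, Units.val_one, Int.cast_neg, Int.cast_one, neg_mul, one_mul]
    constructor
    · intro h3
      exact absurd (by linear_combination (-1 / 2 : Ω) * h3) h0
    · intro h3
      exact absurd h3 (by decide)

theorem even_rot : ∀ p : Equiv.Perm (Fin 3), Equiv.Perm.sign p = 1 → ∀ i, p i = i + p 0 := by
  decide

theorem odd_fix : ∀ p : Equiv.Perm (Fin 3), Equiv.Perm.sign p ≠ 1 →
    (∃ i, p i = i) ∧ ∃ i, p i ≠ i := by
  decide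

theorem exists_root : ∃ z : ℂˣ, IsPrimitiveRoot z 3 := by
  have h := Complex.isPrimitiveRoot_exp 3 three_ne_zero
  exact ⟨(h.isUnit three_ne_zero).unit, by
    rw [← IsPrimitiveRoot.coe_units_iff]; simpa using h⟩

variable {k : Type} [Field k] [Algebra k Ω]

omit [NumberField Ω] [NumberField R] in
theorem exists_att (ε : Fin 3 ≃ (R →+* Ω))
    (hs : ∀ σ : Ω ≃ₐ[k] Ω, Equiv.Perm.sign (prm ε σ.toRingEquiv) = 1) :
    ∃ ψ : (Ω ≃ₐ[k] Ω) →* ℂˣ, Cub ψ ∧
      ∀ (e : R →+* Ω) (σ : Ω ≃ₐ[k] Ω), ψ σ = 1 ↔ ∀ x, σ (e x) = e x := by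
  obtain ⟨z, hz⟩ := exists_root
  have hmul : ∀ σ τ : Ω ≃ₐ[k] Ω, prm ε (σ * τ).toRingEquiv 0 =
      prm ε τ.toRingEquiv 0 + prm ε σ.toRingEquiv 0 := by
    intro σ τ
    rw [← even_rot _ (hs σ)]
    apply ε.injective
    ext x
    rw [prm_apply, prm_apply, prm_apply]
    rfl
  refine ⟨MonoidHom.mk' (fun σ => z ^ (prm ε σ.toRingEquiv 0 : ℕ)) fun σ τ => ?_, fun σ => ?_,
    fun e σ => ?_⟩
  · rw [hmul, Fin.val_add, ← pow_add, add_comm, ← pow_eq_pow_mod _ hz.pow_eq_one]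
  · show (z ^ _) ^ 3 = 1
    rw [← pow_mul, mul_comm, pow_mul, hz.pow_eq_one, one_pow]
  · obtain ⟨i, rfl⟩ := ε.surjective e
    refine Iff.trans ?_ (prm_fix ε σ.toRingEquiv i)
    show z ^ _ = 1 ↔ _
    rw [hz.pow_eq_one_iff_dvd, even_rot _ (hs σ) i, add_eq_left]
    generalize prm ε σ.toRingEquiv 0 = a
    revert a
    decide

omit [NumberField Ω] in
theorem fix_of_inertia (ε : Fin 3 ≃ (R →+* Ω)) {w : Fin 3 → 𝓞 R}
    (hw : (mat ε w).det ^ 2 = (discr R : 𝓞 Ω)) (P : Ideal (𝓞 Ω))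
    (hP : ((discr R : ℤ) : 𝓞 Ω) ∉ P) (σ : Ω ≃ₐ[k] Ω) (hσ : σ ∈ P.inertia (Ω ≃ₐ[k] Ω)) :
    prm ε σ.toRingEquiv 0 = 0 := by
  by_contra hc
  apply hP
  rw [← hw]
  refine P.pow_mem_of_mem ?_ 2 two_pos
  rw [← Ideal.Quotient.eq_zero_iff_mem, RingHom.map_det]
  refine Matrix.det_zero_of_row_eq hc (funext fun j => ?_)
  show Ideal.Quotient.mk P _ = Ideal.Quotient.mk P _
  rw [Ideal.Quotient.eq]
  have h1 : mat ε w (prm ε σ.toRingEquiv 0) j = σ • mat ε w 0 j := by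
    apply RingOfIntegers.coe_injective
    exact prm_apply ε σ.toRingEquiv 0 (w j)
  rw [h1]
  exact hσ _

end V1

theorem blk_V1 : StV1 := by
  intro k Ω R _ _ _ _ _ _ _ _ s h3 ⟨e0⟩ hs
  obtain ⟨ε⟩ := V1.exists_eqv h3 e0
  obtain ⟨w, hw⟩ := V1.exists_fam h3 ε
  have ht : algebraMap k Ω s ^ 2 = discr R := by rw [← map_pow, hs, map_intCast]
  refine ⟨V1.exists_att ε fun σ => (V1.sign_iff ε hw ht _).1 (σ.commutes s), fun g hg => ?_,
    fun ψ hψ P _ hP σ hσ => ?_⟩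
  · obtain ⟨⟨i, hi⟩, ⟨j, hj⟩⟩ := V1.odd_fix (V1.prm ε g.toRingEquiv)
      fun h => hg ((V1.sign_iff ε hw ht _).2 h)
    refine ⟨⟨ε i, (V1.prm_fix ε _ i).1 hi⟩, ε j, ?_⟩
    by_contra hc
    push Not at hc
    exact hj ((V1.prm_fix ε _ j).2 hc)
  · exact (hψ.2 (ε 0) σ).2 ((V1.prm_fix ε _ 0).1 (V1.fix_of_inertia ε hw P hP σ hσ))

end Pool.Agent.Lib.N4
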