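import Pool.Agent.Lib.N4.Blue

set_option autoImplicit false

open NumberField Ideal Module
open scoped nonZeroDivisors Pointwise

namespace Pool.Agent.Lib.N4

open Pool.Agent.Lib.Stark

namespace V2

variable {Ω R : Type} [Field Ω] [Field R] [NumberField R]

theorem core (e : R →+* Ω) (P : Ideal (𝓞 Ω)) [P.IsPrime] {p : ℕ} (hp : p.Prime)
    (hP : (p : 𝓞 Ω) ∈ P) (h : ∀ x : 𝓞 R, RingOfIntegers.mapRingHom e x -
      RingOfIntegers.mapRingHom e x ^ p ∈ P) : ∃ q : Ideal (𝓞 R), absNorm q = p := by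
  set q : Ideal (𝓞 R) := P.comap (RingOfIntegers.mapRingHom e) with hq
  have hpq : (p : 𝓞 R) ∈ q := by rw [hq, mem_comap, map_natCast]; exact hP
  have hq0 : q ≠ ⊥ := fun h0 => by
    rw [h0, mem_bot] at hpq
    exact hp.ne_zero (by exact_mod_cast hpq)
  have hpr : q.IsPrime := inferInstance
  have hm : q.IsMaximal := hpr.isMaximal hq0
  have hfin : Finite (𝓞 R ⧸ q) := q.finiteQuotientOfFreeOfNeBot hq0
  letI := Fintype.ofFinite (𝓞 R ⧸ q)
  letI := Ideal.Quotient.field q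
  have hch : CharP (𝓞 R ⧸ q) p := (CharP.charP_iff_prime_eq_zero hp).2 (by
    rw [← map_natCast (Ideal.Quotient.mk q), Ideal.Quotient.eq_zero_iff_mem]; exact hpq)
  obtain ⟨n, -, hn⟩ := FiniteField.card (𝓞 R ⧸ q) p
  have hle := Polynomial.card_le_degree_of_subset_roots
    (p := (Polynomial.X ^ p - Polynomial.X : Polynomial (𝓞 R ⧸ q))) (Z := Finset.univ)
    fun y _ => by
      rw [Polynomial.mem_roots (FiniteField.X_pow_card_sub_X_ne_zero _ hp.one_lt)]
      obtain ⟨x, rfl⟩ := Ideal.Quotient.mk_surjective y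
      have h1 : x - x ^ p ∈ q := by rw [hq, mem_comap, map_sub, map_pow]; exact h x
      have h2 := Ideal.Quotient.eq.2 h1
      rw [map_pow] at h2
      simp only [Polynomial.IsRoot, Polynomial.eval_sub, Polynomial.eval_pow, Polynomial.eval_X]
      rw [← h2, sub_self]
  rw [FiniteField.X_pow_card_sub_X_natDegree_eq _ hp.one_lt, Finset.card_univ, hn] at hle
  refine ⟨q, ?_⟩
  rw [absNorm_apply, Submodule.cardQuot_apply, Nat.card_eq_fintype_card, hn]
  exact le_antisymm hle (Nat.le_self_pow n.ne_zero p)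

variable [NumberField Ω] {k : Type} [Field k] [NumberField k] [Algebra k Ω]

theorem fix_of_sq {d : ℤ} {s : k} (hs : Sq d s) {g : Ω ≃ₐ[ℚ] Ω}
    (hg : g (algebraMap k Ω s) = algebraMap k Ω s) (y : k) :
    g (algebraMap k Ω y) = algebraMap k Ω y := by
  obtain ⟨a, b, rfl⟩ := hs.2 y
  simp only [map_add, map_mul, map_ratCast, hg]

theorem even_iff {R' : Type} [Field R'] {d : ℤ} {s : k} (hs : Sq d s)
    {ψ : (Ω ≃ₐ[k] Ω) →* ℂˣ} (h1 : Att R ψ) (h2 : Att R' ψ) (e : R →+* Ω) (e' : R' →+* Ω)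
    {g : Ω ≃ₐ[ℚ] Ω} (hg : g (algebraMap k Ω s) = algebraMap k Ω s) :
    (∀ x, g (e x) = e x) ↔ ∀ x, g (e' x) = e' x :=
  (h1.2 e (AlgEquiv.ofRingEquiv (f := g.toRingEquiv) (fix_of_sq hs hg))).symm.trans
    (h2.2 e' (AlgEquiv.ofRingEquiv (f := g.toRingEquiv) (fix_of_sq hs hg)))

theorem odd_neg {d : ℤ} {s : k} (hs : Sq d s) {g : Ω ≃ₐ[ℚ] Ω}
    (hg : g (algebraMap k Ω s) ≠ algebraMap k Ω s) :
    g (algebraMap k Ω s) = -algebraMap k Ω s := by
  refine (sq_eq_sq_iff_eq_or_eq_neg.1 ?_).resolve_left hg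
  rw [← map_pow, ← map_pow, hs.1, map_intCast, map_intCast]

theorem iso_of_stab [IsGalois ℚ Ω] {R' : Type} [Field R'] [NumberField R'] (e : R →+* Ω)
    (e' : R' →+* Ω) (h : ∀ g : Ω ≃ₐ[ℚ] Ω, (∀ x, g (e x) = e x) ↔ ∀ x, g (e' x) = e' x) :
    Nonempty (R ≃+* R') := by
  have h1 : e.toRatAlgHom.fieldRange.fixingSubgroup = e'.toRatAlgHom.fieldRange.fixingSubgroup := by
    ext g
    simp only [IntermediateField.mem_fixingSubgroup_iff, AlgHom.mem_fieldRange,
      forall_exists_index, forall_apply_eq_imp_iff]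
    exact h g
  have h2 : e.toRatAlgHom.fieldRange = e'.toRatAlgHom.fieldRange := by
    rw [← IsGalois.fixedField_fixingSubgroup e.toRatAlgHom.fieldRange, h1,
      IsGalois.fixedField_fixingSubgroup]
  exact ⟨((e.toRatAlgHom.equivFieldRange.trans (IntermediateField.equivOfEq h2)).trans
    e'.toRatAlgHom.equivFieldRange.symm).toRingEquiv⟩

omit [Algebra k Ω] in
theorem exists_frob [IsGalois ℚ Ω] {p : ℕ} (hp : p.Prime) : ∃ (P : Ideal (𝓞 Ω)) (g : Ω ≃ₐ[ℚ] Ω),
    P.IsPrime ∧ (p : 𝓞 Ω) ∈ P ∧ ∀ x : 𝓞 Ω, g • x - x ^ p ∈ P := by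
  have : Fact p.Prime := ⟨hp⟩
  obtain ⟨P, hP, hl⟩ := exists_maximal_ideal_liesOver_of_isIntegral (S := 𝓞 Ω)
    (span {(p : ℤ)})
  have hmem : (p : 𝓞 Ω) ∈ P := by
    have := (mem_of_liesOver P (span {(p : ℤ)}) p).1 (mem_span_singleton_self _)
    simpa using this
  have h0 : P ≠ ⊥ := fun h0 => by
    rw [h0, mem_bot] at hmem
    exact hp.ne_zero (by exact_mod_cast hmem)
  have hfin : Finite (𝓞 Ω ⧸ P) := P.finiteQuotientOfFreeOfNeBot h0
  obtain ⟨g, hg⟩ := IsArithFrobAt.exists_of_isInvariant ℤ (Ω ≃ₐ[ℚ] Ω) P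
  refine ⟨P, g, inferInstance, hmem, fun x => ?_⟩
  have h1 := hg x
  have h2 : Nat.card (ℤ ⧸ P.under ℤ) = p := by
    rw [← hl.over, Nat.card_congr (Int.quotientSpanNatEquivZMod p).toEquiv, Nat.card_zmod]
  rw [h2] at h1
  exact h1

end V2

theorem blk_V2 (hO : StOmega) (h1 : StV1) : StV2 where
  iso k Ω R R' _ _ _ _ _ _ _ _ _ _ s h3 h3' he he' hs hd ψ ha ha' := by
    by_cases hodd : ∃ g : Ω ≃ₐ[ℚ] Ω, g (algebraMap k Ω s) ≠ algebraMap k Ω s
    · obtain ⟨g, hg⟩ := hodd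
      obtain ⟨⟨e, hge⟩, -⟩ := (h1 k Ω R s h3 he hs.1).2.1 g hg
      obtain ⟨⟨e', hge'⟩, -⟩ := (h1 k Ω R' s h3' he' (by rw [hd]; exact hs.1)).2.1 g hg
      refine V2.iso_of_stab e e' fun h => ?_
      by_cases hh : h (algebraMap k Ω s) = algebraMap k Ω s
      · exact V2.even_iff hs ha ha' e e' hh
      · have h2 : (g⁻¹ * h) (algebraMap k Ω s) = algebraMap k Ω s := by
          rw [AlgEquiv.mul_apply, V2.odd_neg hs hh, ← V2.odd_neg hs hg]
          exact g.symm_apply_apply _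
        have h4 := V2.even_iff hs ha ha' e e' h2
        have h5 : ∀ y : Ω, (g⁻¹ * h) y = y ↔ h y = g y := fun y => g.symm_apply_eq
        simpa only [h5, hge, hge'] using h4
    · push Not at hodd
      obtain ⟨e⟩ := he
      obtain ⟨e'⟩ := he'
      exact V2.iso_of_stab e e' fun h => V2.even_iff hs ha ha' e e' (hodd h)
  split k Ω R _ _ _ _ _ _ _ _ e p P σ hp hF hσ := by
    have := hF.1.1
    have := hF.1.2
    refine V2.core e P hp ?_ fun x => ?_
    · have := (mem_of_liesOver P p _).1 (absNorm_mem p)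
      rwa [map_natCast] at this
    · have h2 : σ • RingOfIntegers.mapRingHom e x = RingOfIntegers.mapRingHom e x :=
        RingOfIntegers.coe_injective (hσ x)
      have h4 := hF.2 (RingOfIntegers.mapRingHom e x)
      rwa [h2] at h4
  inert k R _ _ _ _ s h3 hs p hp := by
    obtain ⟨Ω, _, _, _, -, _, -, he⟩ := hO k Unit fun _ => R
    obtain ⟨P, g, _, hP, hg⟩ := V2.exists_frob (Ω := Ω) hp
    have key : ∀ (E : Type) [Field E] [NumberField E] (e : E →+* Ω), (∀ x, g (e x) = e x) →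
        ∃ q : Ideal (𝓞 E), absNorm q = p := by
      intro E _ _ e hσ
      refine V2.core e P hp hP fun x => ?_
      have h2 : g • RingOfIntegers.mapRingHom e x = RingOfIntegers.mapRingHom e x :=
        RingOfIntegers.coe_injective (hσ x)
      have h4 := hg (RingOfIntegers.mapRingHom e x)
      rwa [h2] at h4
    by_cases hh : g (algebraMap k Ω s) = algebraMap k Ω s
    · exact Or.inl (key k (algebraMap k Ω) (V2.fix_of_sq hs hh))
    · obtain ⟨⟨e, hge⟩, -⟩ := (h1 k Ω R s h3 (he ()) hs.1).2.1 g hh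
      exact Or.inr (key R e hge)

end Pool.Agent.Lib.N4
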