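import Pool.Agent.Lib.N4.Blue

set_option autoImplicit false

open NumberField Ideal Module
open scoped Pointwise

namespace Pool.Agent.Lib.N4

namespace V4

variable {k Ω : Type} [Field k] [NumberField k] [Field Ω] [NumberField Ω] [Algebra k Ω]

omit [NumberField k] [NumberField Ω] in
lemma conj_mem {P : Ideal (𝓞 Ω)} (g σ : Ω ≃ₐ[k] Ω) (h : σ ∈ (g • P).inertia (Ω ≃ₐ[k] Ω)) :
    g⁻¹ * σ * g ∈ P.inertia (Ω ≃ₐ[k] Ω) := by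
  intro x
  have h1 : σ • g • x - g • x ∈ g • P := h (g • x)
  rw [Ideal.mem_pointwise_smul_iff_inv_smul_mem, smul_sub, inv_smul_smul] at h1
  change (g⁻¹ * σ * g) • x - x ∈ P
  rwa [mul_smul, mul_smul]

lemma gen [IsGalois k Ω] (hT : StTame) (p : Ideal (𝓞 k)) : ∃ σ₀ : Ω ≃ₐ[k] Ω,
    ∀ P : Ideal (𝓞 Ω), P.IsMaximal → (3 : 𝓞 Ω) ∉ P → P.under (𝓞 k) = p →
      ∀ ρ : (Ω ≃ₐ[k] Ω) →* ℂˣ, Cub ρ → ρ σ₀ = 1 → ∀ σ ∈ P.inertia (Ω ≃ₐ[k] Ω), ρ σ = 1 := by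
  by_cases h : ∃ P : Ideal (𝓞 Ω), P.IsMaximal ∧ (3 : 𝓞 Ω) ∉ P ∧ P.under (𝓞 k) = p
  · obtain ⟨P₀, h1, h2, h3⟩ := h
    obtain ⟨σ₀, hσ⟩ := hT k Ω P₀ h1 h2
    refine ⟨σ₀, fun P hP _ hp ρ hρ h0 σ hs => ?_⟩
    have : P₀.LiesOver p := ⟨h3.symm⟩
    have : P.LiesOver p := ⟨hp.symm⟩
    obtain ⟨g, rfl⟩ := exists_smul_eq_of_isGaloisGroup p P₀ P (Ω ≃ₐ[k] Ω)
    have h4 := hσ ρ hρ h0 _ (conj_mem g σ hs)
    rwa [map_mul, map_mul, map_inv, inv_mul_cancel_comm] at h4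
  · exact ⟨1, fun P h1 h2 h3 => absurd ⟨P, h1, h2, h3⟩ h⟩

end V4

theorem blk_V4 (hI : StIdc) (hT : StTame) : StV4 := by
  classical
  intro k Ω _ _ _ _ _ _ N hN
  obtain ⟨hf, hc⟩ := hI.ram k N hN
  choose s hs using V4.gen (k := k) (Ω := Ω) hT
  have := hf.fintype
  have := Fintype.ofFinite (rootsOfUnity 3 ℂ)
  refine ⟨{P : Ideal (𝓞 k) | P.IsMaximal ∧ (N : 𝓞 k) ∈ P} → rootsOfUnity 3 ℂ, inferInstance,
    fun ψ p => if h : ψ (s p) ∈ rootsOfUnity 3 ℂ then ⟨_, h⟩ else 1, ?_, ?_⟩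
  · rw [Fintype.card_fun, ← Nat.card_eq_fintype_card, ← Nat.card_eq_fintype_card,
      Complex.card_rootsOfUnity, Nat.card_coe_set_eq]
    exact Nat.pow_le_pow_right (by norm_num) hc
  · intro ψ ψ' h h' u u' e P hP h3 σ hσ
    by_cases hNP : (N : 𝓞 Ω) ∈ P
    · have hm : (N : 𝓞 k) ∈ P.under (𝓞 k) := by
        rw [Ideal.under_def, Ideal.mem_comap, map_intCast]
        exact hNP
      have e1 := congrFun e ⟨P.under (𝓞 k), inferInstance, hm⟩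
      simp only [dif_pos ((mem_rootsOfUnity 3 _).2 (h _)),
        dif_pos ((mem_rootsOfUnity 3 _).2 (h' _)), Subtype.mk.injEq] at e1
      refine hs _ P hP (by simpa using h3) rfl _ (h.div h') ?_ σ hσ
      rw [MonoidHom.div_apply, e1, div_self']
    · rw [MonoidHom.div_apply, u P hP hNP σ hσ, u' P hP hNP σ hσ, div_one]

end Pool.Agent.Lib.N4
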