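import Pool.Agent.Lib.N4.AllT
import Pool.Agent.Lib.N4.PRI
import Pool.Agent.Lib.N4.QA1
import Pool.Agent.Lib.N4.QB1
import Pool.Agent.Lib.N4.QA2
import Pool.Agent.Lib.N4.QB2
import Pool.Agent.Lib.N4.QI
import Pool.Agent.Lib.N4.UNI
import Pool.Agent.Lib.N4.SEL
import Pool.Agent.Lib.N4.QUAD
import Pool.Agent.Lib.N4.CNT2
import Pool.Agent.Lib.N4.SQV
import Pool.Agent.Lib.N4.C2A
import Pool.Agent.Lib.N4.C2B
import Pool.Agent.Lib.N4.C2
import Pool.Agent.Lib.N4.PTS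
import Pool.Agent.Lib.N4.COSET
import Pool.Agent.Lib.N4.LS
import Pool.Agent.Lib.N4.DEN1
import Pool.Agent.Lib.N4.DEN2
import Pool.Agent.Lib.N4.CH
import Pool.Agent.Lib.N4.RAY
import Pool.Agent.Lib.N4.REC1
import Pool.Agent.Lib.N4.CYC
import Pool.Agent.Lib.N4.RECA
import Pool.Agent.Lib.N4.REC
import Pool.Agent.Lib.N4.OMEGA
import Pool.Agent.Lib.N4.V1
import Pool.Agent.Lib.N4.V2
import Pool.Agent.Lib.N4.TAME
import Pool.Agent.Lib.N4.V4
import Pool.Agent.Lib.N4.SET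
import Pool.Agent.Lib.N4.EXC
import Pool.Agent.Lib.N4.CLG
import Pool.Agent.Lib.N4.GALG
import Pool.Agent.Lib.N4.GAMB
import Pool.Agent.Lib.N4.S3
import Pool.Agent.Lib.N4.GER
import Pool.Agent.Lib.N4.FAM
import Pool.Agent.Lib.N4.TOP

set_option autoImplicit false

namespace Pool.Agent.Lib.N4

theorem stCh : StCh := blk_CH blk_DEN1 blk_DEN2

theorem stRec : StRec := blk_REC blk_DEN2 stCh blk_REC1 (blk_RECA blk_DEN2 stCh)

theorem stV2 : StV2 := blk_V2 blk_OMEGA blk_V1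

theorem stSet : StSet :=
  blk_SET blk_QUAD stCh blk_RAY blk_CYC stRec blk_OMEGA blk_V1 stV2 (blk_V4 blk_IDC blk_TAME)

theorem stCoset : StCoset := blk_COSET blk_NET stVol (blk_PTS blk_CNT2 blk_LATD)

theorem stExc : StExc := blk_EXC blk_IDC stVol blk_PRI blk_QUAD stCoset blk_LS stV2 stSet

theorem stGer : StGer :=
  blk_GER (blk_CLG blk_DEN1 blk_DEN2) blk_GALG (blk_GAMB blk_IDC blk_UNI) (blk_S3 blk_OMEGA blk_V1)

theorem stC2 : StC2 := blk_C2 blk_SQV blk_C2A (blk_C2B blk_CNT2 blk_LATD)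

theorem stFam : StFam := blk_FAM blk_IDC stTS blk_QUAD stC2 stSet stExc stGer

theorem stTop : StTop :=
  blk_TOP blk_IDC stVol blk_QA1 blk_QB1 (blk_QA2 blk_LATD) (blk_QB2 blk_LATD) blk_QI
    (blk_SEL blk_IDC blk_UNI) blk_QUAD stFam

end Pool.Agent.Lib.N4
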