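import Pool.Agent.Lib.N4.Blue

set_option autoImplicit false

open Module

namespace Pool.Agent.Lib.N4

namespace COV

variable {K : Type} [AddCommGroup K] {E : Type} [NormedAddCommGroup E] [InnerProductSpace ℝ E]

lemma basis_of {A : Submodule ℤ K} {κ : Type} {v : κ → K} (h : IsB A v) :
    ∃ b : Basis κ ℤ A, ∀ i, (b i : K) = v i := by
  obtain ⟨h1, rfl⟩ := h
  exact ⟨Basis.span h1, fun i => by simp⟩

lemma isB_of {A : Submodule ℤ K} {κ : Type} (b : Basis κ ℤ A) : IsB A fun i => (b i : K) := by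
  refine ⟨b.linearIndependent.map' A.subtype (Submodule.ker_subtype A), ?_⟩
  have : (Set.range fun i => (b i : K)) = A.subtype '' Set.range b := by
    rw [← Set.range_comp]; rfl
  rw [this, ← Submodule.map_span, b.span_eq, Submodule.map_subtype_top]

lemma rank_eq {A : Submodule ℤ K} {κ : Type} [Fintype κ] {v : κ → K} (h : IsB A v) :
    finrank ℤ A = Fintype.card κ := by
  rw [← h.2, finrank_span_eq_card h.1]

lemma reidx {A : Submodule ℤ K} {κ κ' : Type} {v : κ → K} (h : IsB A v) (e : κ' ≃ κ) :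
    IsB A fun i => v (e i) := by
  refine ⟨h.1.comp e e.injective, ?_⟩
  rw [← h.2]
  congr 1
  exact e.surjective.range_comp v

lemma key (hG : StGram) (ι : K →+ E) {A A' : Submodule ℤ K} {κ : Type} [Fintype κ]
    [DecidableEq κ] {v w : κ → K} (hv : IsB A v) (hw : IsB A' w) (hle : A' ≤ A) :
    A'.toAddSubgroup.relIndex A.toAddSubgroup ≠ 0 ∧
      √(gr fun i => ι (w i)) =
        (A'.toAddSubgroup.relIndex A.toAddSubgroup : ℝ) * √(gr fun i => ι (v i)) := by
  obtain ⟨b, hb⟩ := basis_of hv
  obtain ⟨b', hb'⟩ := basis_of hw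
  let u : κ → A := fun i => ⟨b' i, hle (b' i).2⟩
  have h1 : A'.toAddSubgroup.relIndex A.toAddSubgroup = (b.det u).natAbs :=
    AddSubgroup.relIndex_eq_natAbs_det A'.toAddSubgroup A.toAddSubgroup hle b' b
  have hu : LinearIndependent ℤ u := by
    apply LinearIndependent.of_comp A.subtype
    have : A.subtype ∘ u = w := funext fun i => hb' i
    rw [this]
    exact hw.1
  have h2 : b.det u ≠ 0 := by
    rw [Basis.det_apply]
    intro h0
    obtain ⟨c, hc, hc'⟩ := Matrix.exists_mulVec_eq_zero_iff.2 h0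
    apply hc
    have h3 : ∑ i, c i • u i = 0 := by
      apply b.repr.injective
      ext j
      have := congrFun hc' j
      simpa [Matrix.mulVec, dotProduct, Basis.toMatrix_apply, mul_comm] using this
    exact funext (Fintype.linearIndependent_iff.1 hu c h3)
  refine ⟨by rw [h1]; exact Int.natAbs_ne_zero.2 h2, ?_⟩
  have h4 : (fun i => ι (w i)) = fun i =>
      ∑ j, ((b.toMatrix u).transpose.map (Int.castRingHom ℝ)) i j • ι (v j) := by
    funext i
    have h5 : w i = ∑ j, b.repr (u i) j • v j := by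
      have := congrArg A.subtype (b.sum_repr (u i))
      rw [map_sum] at this
      simp only [map_smul, Submodule.subtype_apply, hb] at this
      rw [this]
      exact (hb' i).symm
    rw [h5, map_sum]
    refine Finset.sum_congr rfl fun j _ => ?_
    simp [Basis.toMatrix_apply, Int.cast_smul_eq_zsmul]
  have h6 : ((b.toMatrix u).transpose.map (Int.castRingHom ℝ)).det = (b.det u : ℝ) := by
    rw [Basis.det_apply, ← Matrix.det_transpose (b.toMatrix u)]
    exact ((Int.castRingHom ℝ).map_det _).symm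
  rw [h4, hG.mul, h6, Real.sqrt_mul (sq_nonneg _), Real.sqrt_sq_eq_abs, h1, Nat.cast_natAbs,
    Int.cast_abs]

lemma eq' (hG : StGram) (ι : K →+ E) {A : Submodule ℤ K} {κ : Type} [Fintype κ] [DecidableEq κ]
    {v : κ → K} (h : IsB A v) : cov ι A = √(gr fun i => ι (v i)) := by
  let e : Fin (finrank ℤ A) ≃ κ := Fintype.equivOfCardEq (by simp [rank_eq h])
  have h1 := reidx h e
  have h2 : IsB A (Classical.epsilon fun v : Fin (finrank ℤ A) → K => IsB A v) :=
    Classical.epsilon_spec (p := fun v : Fin (finrank ℤ A) → K => IsB A v) ⟨_, h1⟩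
  have h3 := (key hG ι h1 h2 le_rfl).2
  rw [AddSubgroup.relIndex_self, Nat.cast_one, one_mul,
    hG.reidx E κ _ (fun i => ι (v i)) e] at h3
  exact h3

lemma ex [Module ℚ K] {A : Submodule ℤ K} (h : A.FG) :
    ∃ v : Fin (finrank ℤ A) → K, IsB A v := by
  have : Module.Finite ℤ A := Module.Finite.iff_fg.2 h
  have : IsAddTorsionFree K := IsAddTorsionFree.of_module_rat K
  exact ⟨_, isB_of (Module.finBasis ℤ A)⟩

lemma fg_of_le {A A' : Submodule ℤ K} (h : A.FG) (hle : A' ≤ A) : A'.FG := by
  have : Module.Finite ℤ A := Module.Finite.iff_fg.2 h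
  have h1 : (A'.comap A.subtype).FG := IsNoetherian.noetherian _
  have h2 := h1.map A.subtype
  rwa [Submodule.map_comap_subtype, inf_eq_right.2 hle] at h2

lemma rank [Module ℚ K] (Λ : Submodule ℤ K) (V : Submodule ℚ K) (h : Full Λ) :
    (sat Λ V).FG ∧ finrank ℤ (sat Λ V) = finrank ℚ V := by
  have hfg : (sat Λ V).FG := fg_of_le h.1 inf_le_left
  refine ⟨hfg, ?_⟩
  obtain ⟨v, hv⟩ := ex hfg
  have h1 : LinearIndependent ℚ v := (LinearIndependent.iff_fractionRing ℤ ℚ).1 hv.1
  have h2 : Submodule.span ℚ (Set.range v) = V := by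
    apply le_antisymm
    · rw [Submodule.span_le]
      intro x hx
      have : x ∈ sat Λ V := hv.2 ▸ Submodule.subset_span hx
      exact (mem_sat.1 this).2
    · intro x hx
      obtain ⟨m, hm, hm'⟩ := h.2 x
      have h3 : m • x ∈ sat Λ V := mem_sat.2 ⟨hm', V.toAddSubgroup.zsmul_mem hx m⟩
      rw [← hv.2] at h3
      have h4 : m • x ∈ Submodule.span ℚ (Set.range v) :=
        Submodule.span_le_restrictScalars ℤ ℚ _ h3
      have h5 : x = (m : ℚ)⁻¹ • (m • x) := by
        rw [← Int.cast_smul_eq_zsmul ℚ, smul_smul, inv_mul_cancel₀ (by exact_mod_cast hm.ne'),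
          one_smul]
      rw [h5]
      exact Submodule.smul_mem _ _ h4
  have h6 := finrank_span_eq_card h1
  rw [h2, Fintype.card_fin] at h6
  exact h6.symm

end COV

open COV in
theorem blk_COV (hG : StGram) (hS : StShort) : StCov where
  eq := fun _ _ _ _ _ _ ι _ _ _ _ _ h => eq' hG ι h
  ex := fun _ _ _ _ h => ex h
  pos := by
    intro K E _ _ _ _ ι A hι hA
    obtain ⟨v, hv⟩ := ex hA
    rw [eq' hG ι hv]
    exact Real.sqrt_pos.2 (hG.pos E _ _ (hι _ v hv.1))
  bot := by
    intro K E _ _ _ _ ι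
    have h : IsB (⊥ : Submodule ℤ K) (fun i : Empty => (i.elim : K)) :=
      ⟨linearIndependent_empty_type, by simp⟩
    rw [eq' hG ι h]
    simp [gr]
  idx := by
    intro K E _ _ _ _ ι A A' hA hle hr
    obtain ⟨v, hv⟩ := ex hA
    obtain ⟨w, hw⟩ := ex (fg_of_le hA hle)
    have hw' := reidx hw (finCongr hr.symm)
    rw [eq' hG ι hv, eq' hG ι hw']
    exact key hG ι hv hw' hle
  comp := by
    intro K E E' _ _ _ _ _ _ ι ι' T C A hA hC hT hT'
    obtain ⟨v, hv⟩ := ex hA
    rw [eq' hG ι hv, eq' hG ι' hv]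
    have h := hG.contr E E' _ (fun i => ι (v i)) (fun i => ι' (v i)) C hC (fun c => by
      have : ∑ i, c i • ι' (v i) = T (∑ i, c i • ι (v i)) := by simp [hT]
      rw [this]
      exact hT' _)
    refine (Real.sqrt_le_sqrt h).trans (le_of_eq ?_)
    rw [Fintype.card_fin, mul_comm 2, pow_mul, Real.sqrt_mul (sq_nonneg _),
      Real.sqrt_sq (pow_nonneg hC _)]
  map := by
    intro K E _ _ _ _ ι e A A' hA he
    obtain ⟨v, hv⟩ := ex hA
    have hw : IsB A' fun i => e (v i) := by
      refine ⟨hv.1.map' e.toIntLinearEquiv.toLinearMap e.toIntLinearEquiv.ker, ?_⟩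
      have : (Set.range fun i => e (v i)) = e.toIntLinearEquiv.toLinearMap '' Set.range v := by
        rw [← Set.range_comp]; rfl
      rw [this, ← Submodule.map_span, hv.2]
      ext y
      obtain ⟨x, rfl⟩ := e.surjective y
      rw [← he]
      constructor
      · rintro ⟨z, hz, hz'⟩
        rwa [← e.injective hz']
      · exact fun hx => ⟨x, hx, rfl⟩
    rw [eq' hG ι hw, eq' hG _ hv]
    rfl
  short := by
    intro K E _ _ _ _ ι A hι hA hne
    obtain ⟨v, hv⟩ := ex hA
    have hpos : 0 < finrank ℤ A := by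
      rcases Nat.eq_zero_or_pos (finrank ℤ A) with h0 | h0
      · refine absurd ?_ hne
        have : IsEmpty (Fin (finrank ℤ A)) := by rw [h0]; infer_instance
        rw [← hv.2, Set.range_eq_empty, Submodule.span_empty]
      · exact h0
    obtain ⟨c, hc, hc'⟩ := hS E _ (fun i => ι (v i)) hpos (hι _ v hv.1)
    refine ⟨∑ i, c i • v i, ?_, ?_, ?_⟩
    · refine Submodule.sum_mem _ fun i _ => Submodule.smul_mem _ _ ?_
      have : v i ∈ Submodule.span ℤ (Set.range v) := Submodule.subset_span ⟨i, rfl⟩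
      rwa [hv.2] at this
    · exact fun h0 => hc (funext (Fintype.linearIndependent_iff.1 hv.1 c h0))
    · rw [eq' hG ι hv, map_sum]
      simpa [Int.cast_smul_eq_zsmul] using hc'
  rank := fun _ _ _ Λ V h => rank Λ V h

end Pool.Agent.Lib.N4
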