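import Pool.Agent.Lib.N4.Blue

set_option autoImplicit false

open NumberField Ideal Module Finset

namespace Pool.Agent.Lib.N4

namespace IDC

lemma div_bound {ε : ℝ} (hε : 0 < ε) : ∃ C : ℝ, 0 < C ∧ ∀ M : ℕ, M ≠ 0 →
    ((∏ p ∈ M.primeFactors, (M.factorization p + 2) : ℕ) : ℝ) ≤ C * (M : ℝ) ^ ε := by
  set η := ε * Real.log 2 with hη
  have hη0 : 0 < η := mul_pos hε (Real.log_pos one_lt_two)
  obtain ⟨B, hB⟩ := exists_nat_ge ((3 : ℝ) ^ (1 / ε))
  have h0 : (1 : ℝ) ≤ 2 + 1 / η := by have := one_div_pos.2 hη0; linarith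
  refine ⟨(2 + 1 / η) ^ B, by positivity, fun M hM => ?_⟩
  have key : ∀ p ∈ M.primeFactors, ((M.factorization p + 2 : ℕ) : ℝ) ≤
      (if p < B then 2 + 1 / η else 1) * (((p ^ M.factorization p : ℕ) : ℝ)) ^ ε := by
    intro p hp
    have hp' := Nat.prime_of_mem_primeFactors hp
    have he : 1 ≤ M.factorization p :=
      (hp'.dvd_iff_one_le_factorization hM).1 (Nat.dvd_of_mem_primeFactors hp)
    generalize M.factorization p = e at he
    have hp2 : (2 : ℝ) ≤ p := by exact_mod_cast hp'.two_le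
    have e1 : (((p ^ e : ℕ) : ℝ)) ^ ε = ((p : ℝ) ^ ε) ^ e := by
      rw [Nat.cast_pow, ← Real.rpow_natCast, ← Real.rpow_mul (by linarith), mul_comm,
        Real.rpow_mul_natCast (by linarith)]
    rw [e1]
    split_ifs with h
    · have h1 : Real.exp η ≤ (p : ℝ) ^ ε := by
        rw [hη, mul_comm, ← Real.rpow_def_of_pos two_pos]
        exact Real.rpow_le_rpow (by norm_num) hp2 hε.le
      have h2 : 1 + e * η ≤ ((p : ℝ) ^ ε) ^ e := by
        refine le_trans ?_ (pow_le_pow_left₀ (Real.exp_pos _).le h1 e)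
        rw [← Real.exp_nat_mul]
        linarith [Real.add_one_le_exp (e * η)]
      refine le_trans ?_ (mul_le_mul_of_nonneg_left h2 (by linarith))
      have h3 : (2 + 1 / η) * (1 + e * η) = 2 + e + (1 / η + 2 * e * η) := by field_simp; ring
      rw [h3]
      push_cast
      have : 0 ≤ 1 / η + 2 * e * η := by positivity
      linarith
    · have h1 : (3 : ℝ) ≤ (p : ℝ) ^ ε := by
        have h2 : (3 : ℝ) ^ (1 / ε) ≤ p := hB.trans (by exact_mod_cast not_lt.1 h)
        have := Real.rpow_le_rpow (by positivity) h2 hε.le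
        rwa [← Real.rpow_mul (by norm_num), one_div_mul_cancel hε.ne', Real.rpow_one] at this
      rw [one_mul]
      refine le_trans ?_ (pow_le_pow_left₀ (by norm_num) h1 e)
      have : e + 2 ≤ 3 ^ e := by
        clear e1
        induction e, he using Nat.le_induction with
        | base => norm_num
        | succ e _ ih => rw [pow_succ]; omega
      exact_mod_cast this
  rw [Nat.cast_prod]
  refine (prod_le_prod (fun _ _ => by positivity) key).trans ?_
  rw [prod_mul_distrib, Real.finsetProd_rpow _ _ (fun _ _ => by positivity), ← Nat.cast_prod]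
  have h1 : ∏ p ∈ M.primeFactors, p ^ M.factorization p = M := Nat.prod_factorization_pow_eq_self hM
  rw [h1]
  refine mul_le_mul_of_nonneg_right ?_ (by positivity)
  rw [prod_ite, prod_const, prod_const_one, mul_one]
  refine pow_le_pow_right₀ h0 ((card_le_card fun p hp => ?_).trans (card_range B).le)
  exact mem_range.2 (mem_filter.1 hp).2

lemma pw_bound (k : ℕ) {ε : ℝ} (hε : 0 < ε) : ∃ C : ℝ, 0 < C ∧ ∀ m : ℕ, m ≠ 0 →
    ((m.divisors.card : ℝ)) ^ (k + 1) ≤ C * (m : ℝ) ^ ε := by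
  have hk : (0 : ℝ) < (k + 1 : ℕ) := by positivity
  obtain ⟨C, hC, h⟩ := div_bound (ε := ε / (k + 1 : ℕ)) (by positivity)
  refine ⟨C ^ (k + 1), by positivity, fun m hm => ?_⟩
  have h1 : (m.divisors.card : ℝ) ≤ C * (m : ℝ) ^ (ε / (k + 1 : ℕ)) := by
    refine le_trans ?_ (h m hm)
    rw [Nat.card_divisors hm]
    exact_mod_cast Finset.prod_le_prod' fun p _ => by omega
  refine (pow_le_pow_left₀ (Nat.cast_nonneg _) h1 _).trans (le_of_eq ?_)
  rw [mul_pow, ← Real.rpow_mul_natCast (Nat.cast_nonneg _), div_mul_cancel₀ _ hk.ne']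

lemma one_le_d {m : ℕ} (hm : m ≠ 0) : 1 ≤ m.divisors.card :=
  card_pos.mpr ⟨1, Nat.one_mem_divisors.mpr hm⟩

lemma two_pow_om {m : ℕ} (hm : m ≠ 0) : 2 ^ om m ≤ m.divisors.card := by
  rw [Nat.card_divisors hm, om, ← prod_const]
  refine Finset.prod_le_prod' fun p hp => ?_
  have he : 1 ≤ m.factorization p :=
    ((Nat.prime_of_mem_primeFactors hp).dvd_iff_one_le_factorization hm).1
      (Nat.dvd_of_mem_primeFactors hp)
  omega

variable {K : Type} [Field K] [NumberField K]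

lemma norm_p (p : ℕ) : absNorm (span {(p : 𝓞 K)}) = p ^ finrank ℚ K := by
  rw [Ideal.absNorm_span_natCast, RingOfIntegers.rank]

lemma norm_dvd {p : ℕ} {P : Ideal (𝓞 K)} (h : (p : 𝓞 K) ∈ P) : absNorm P ∣ p ^ finrank ℚ K := by
  rw [← norm_p]
  exact absNorm_dvd_absNorm_of_le ((span_singleton_le_iff_mem _).2 h)

lemma dvd_norm {p : ℕ} (hp : p.Prime) {P : Ideal (𝓞 K)} (hP : P.IsMaximal)
    (h : (p : 𝓞 K) ∈ P) : p ∣ absNorm P := by
  obtain ⟨j, -, hj⟩ := (Nat.dvd_prime_pow hp).1 (norm_dvd h)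
  rcases j with _ | j
  · exact absurd (absNorm_eq_one_iff.1 (by simpa using hj)) hP.ne_top
  · rw [hj]; exact dvd_pow_self p (by omega)

lemma fin_nat {m : ℕ} (hm : m ≠ 0) : {P : Ideal (𝓞 K) | P.IsMaximal ∧ (m : 𝓞 K) ∈ P}.Finite :=
  (Ideal.finite_setOfPred_absNorm_le (m ^ finrank ℚ K)).subset fun _ h =>
    Nat.le_of_dvd (by positivity) (norm_dvd h.2)

lemma card_le {p : ℕ} (hp : p.Prime) (u : Finset (Ideal (𝓞 K)))
    (hu : ∀ P ∈ u, P.IsMaximal ∧ (p : 𝓞 K) ∈ P) : u.card ≤ finrank ℚ K := by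
  have h1 : ∏ P ∈ u, P ∣ span {(p : 𝓞 K)} := by
    refine Finset.prod_dvd_of_coprime ?_ fun P hP => ?_
    · intro P hP Q hQ hne
      exact Ideal.isCoprime_iff_sup_eq.2 ((hu P hP).1.coprime_of_ne (hu Q hQ).1 hne)
    · exact Ideal.dvd_iff_le.2 ((span_singleton_le_iff_mem _).2 (hu P hP).2)
  have h2 := map_dvd (absNorm (S := 𝓞 K)) h1
  rw [norm_p, map_prod] at h2
  have h3 : p ^ u.card ∣ ∏ P ∈ u, absNorm P := by
    rw [← prod_const]
    exact Finset.prod_dvd_prod_of_dvd _ _ fun P hP => dvd_norm hp (hu P hP).1 (hu P hP).2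
  exact (Nat.pow_dvd_pow_iff_le_right hp.one_lt).1 (h3.trans h2)

lemma ovr {p : ℕ} (hp : p.Prime) :
    {P : Ideal (𝓞 K) | P.IsMaximal ∧ (p : 𝓞 K) ∈ P}.ncard ≤ finrank ℚ K := by
  rw [Set.ncard_eq_toFinset_card _ (fin_nat hp.ne_zero)]
  exact card_le hp _ fun P hP => by simpa using hP

lemma exists_p {m : ℕ} (hm : m ≠ 0) {P : Ideal (𝓞 K)} (hP : P.IsMaximal) (h : (m : 𝓞 K) ∈ P) :
    ∃ p ∈ m.primeFactors, (p : 𝓞 K) ∈ P := by
  have := hP.isPrime
  have e : (m : 𝓞 K) = ∏ p ∈ m.primeFactors, (p : 𝓞 K) ^ m.factorization p := by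
    conv_lhs => rw [← Nat.prod_factorization_pow_eq_self hm]
    simp [Finsupp.prod]
  rw [e, Ideal.IsPrime.prod_mem_iff] at h
  obtain ⟨p, hp, h⟩ := h
  exact ⟨p, hp, this.mem_of_pow_mem _ h⟩

lemma ram {m : ℕ} (hm : m ≠ 0) :
    {P : Ideal (𝓞 K) | P.IsMaximal ∧ (m : 𝓞 K) ∈ P}.ncard ≤ finrank ℚ K * om m := by
  classical
  rw [Set.ncard_eq_toFinset_card _ (fin_nat hm)]
  set T := (fin_nat (K := K) hm).toFinset
  have hT : T ⊆ m.primeFactors.biUnion fun p => T.filter fun P => (p : 𝓞 K) ∈ P := by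
    intro P hP
    have hP' : P.IsMaximal ∧ (m : 𝓞 K) ∈ P := by simpa [T] using hP
    obtain ⟨p, hp, h⟩ := exists_p hm hP'.1 hP'.2
    exact mem_biUnion.2 ⟨p, hp, mem_filter.2 ⟨hP, h⟩⟩
  refine (card_le_card hT).trans (card_biUnion_le.trans ?_)
  rw [om, mul_comm, ← smul_eq_mul, ← sum_const]
  refine sum_le_sum fun p hp => card_le (Nat.prime_of_mem_primeFactors hp) _ fun P hP => ?_
  have hP' : P.IsMaximal ∧ (m : 𝓞 K) ∈ P := by simpa [T] using (mem_filter.1 hP).1
  exact ⟨hP'.1, (mem_filter.1 hP).2⟩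

lemma fin_dvd {m : ℕ} (hm : m ≠ 0) : {I : Ideal (𝓞 K) | absNorm I ∣ m}.Finite :=
  (Ideal.finite_setOfPred_absNorm_le m).subset fun _ h => Nat.le_of_dvd (by omega) h

open UniqueFactorizationMonoid in
lemma count_dvd {m : ℕ} (hm : m ≠ 0) :
    {I : Ideal (𝓞 K) | absNorm I ∣ m}.ncard ≤ m.divisors.card ^ finrank ℚ K := by
  classical
  set T := (fin_nat (K := K) hm).toFinset
  have mT : ∀ P, P ∈ T ↔ P.IsMaximal ∧ (m : 𝓞 K) ∈ P := fun P => by simp [T]
  have hq : ∀ P : Ideal (𝓞 K), ∃ p : ℕ, P ∈ T → p ∈ m.primeFactors ∧ (p : 𝓞 K) ∈ P := by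
    intro P
    by_cases h : P ∈ T
    · obtain ⟨p, hp, h'⟩ := exists_p hm ((mT P).1 h).1 ((mT P).1 h).2
      exact ⟨p, fun _ => ⟨hp, h'⟩⟩
    · exact ⟨0, fun h' => absurd h' h⟩
  choose q hq using hq
  have ne0 : ∀ I : Ideal (𝓞 K), absNorm I ∣ m → I ≠ ⊥ := by
    rintro I h rfl
    simp [hm] at h
  have h1 : (fin_dvd (K := K) hm).toFinset.card ≤
      (T.pi fun P => range (m.factorization (q P) + 1)).card := by
    refine card_le_card_of_injOn (fun I P _ => (normalizedFactors I).count P) ?_ ?_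
    · intro I hI
      have hI' : absNorm I ∣ m := by simpa using hI
      refine mem_coe.2 (mem_pi.2 fun P hP => mem_range.2 (Nat.lt_succ_of_le ?_))
      have hp := Nat.prime_of_mem_primeFactors (hq P hP).1
      rw [← hp.pow_dvd_iff_le_factorization hm]
      have d1 : P ^ (normalizedFactors I).count P ∣ I := by
        have := Multiset.prod_dvd_prod_of_le
          (Multiset.le_count_iff_replicate_le.1 (le_refl ((normalizedFactors I).count P)))
        rwa [Multiset.prod_replicate, Ideal.prod_normalizedFactors_eq_self (ne0 I hI')] at this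
      have d2 := map_dvd (absNorm (S := 𝓞 K)) d1
      rw [map_pow] at d2
      exact (pow_dvd_pow_of_dvd (dvd_norm hp ((mT P).1 hP).1 (hq P hP).2) _).trans (d2.trans hI')
    · have key : ∀ I : Ideal (𝓞 K), absNorm I ∣ m → ∀ P, P ∉ T →
          (normalizedFactors I).count P = 0 := by
        intro I hI P hP
        rw [Multiset.count_eq_zero]
        intro h
        have hp := prime_of_normalized_factor P h
        have hle : I ≤ P := Ideal.le_of_dvd (dvd_of_mem_normalizedFactors h)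
        refine hP ((mT P).2 ⟨(Ideal.isPrime_of_prime hp).isMaximal hp.ne_zero, ?_⟩)
        obtain ⟨c, hc⟩ := hI
        rw [hc, Nat.cast_mul]
        exact P.mul_mem_right _ (hle (absNorm_mem I))
      intro I hI J hJ h
      have hI' : absNorm I ∣ m := by simpa using hI
      have hJ' : absNorm J ∣ m := by simpa using hJ
      rw [← Ideal.prod_normalizedFactors_eq_self (ne0 I hI'),
        ← Ideal.prod_normalizedFactors_eq_self (ne0 J hJ')]
      congr 1
      ext P
      by_cases hP : P ∈ T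
      · exact congrFun (congrFun h P) hP
      · rw [key I hI' P hP, key J hJ' P hP]
  rw [Set.ncard_eq_toFinset_card _ (fin_dvd hm)]
  refine h1.trans ?_
  rw [card_pi, Nat.card_divisors hm, ← prod_pow,
    ← prod_fiberwise_of_maps_to (t := m.primeFactors) (g := q) fun P hP => (hq P hP).1]
  refine Finset.prod_le_prod' fun p hp => ?_
  rw [prod_congr rfl (g := fun _ => m.factorization p + 1)
    (fun P hP => by rw [card_range, (mem_filter.1 hP).2]), prod_const]
  refine Nat.pow_le_pow_right (by omega)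
    (card_le (Nat.prime_of_mem_primeFactors hp) _ fun P hP => ?_)
  obtain ⟨h1, h2⟩ := mem_filter.1 hP
  exact ⟨((mT P).1 h1).1, h2 ▸ (hq P h1).2⟩

lemma dvd_bound (n : ℕ) (ε : ℝ) (hε : 0 < ε) : ∃ C : ℝ, 0 < C ∧
    ∀ (K : Type) [Field K] [NumberField K], finrank ℚ K ≤ n → ∀ m : ℕ, m ≠ 0 →
      ({I : Ideal (𝓞 K) | absNorm I ∣ m}.ncard : ℝ) ≤ C * (m : ℝ) ^ ε := by
  obtain ⟨C, hC, h⟩ := pw_bound n hε
  refine ⟨C, hC, fun K _ _ hK m hm => le_trans ?_ (h m hm)⟩
  exact_mod_cast (count_dvd hm).trans (Nat.pow_le_pow_right (one_le_d hm) (by omega))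

end IDC

open IDC in
theorem blk_IDC : StIdc where
  dvd := dvd_bound
  le := by
    classical
    intro n ε hε
    obtain ⟨C, hC, h⟩ := dvd_bound n ε hε
    refine ⟨C, hC, fun K _ _ hK X hX => ?_⟩
    have hf : {I : Ideal (𝓞 K) | I ≠ ⊥ ∧ (absNorm I : ℝ) ≤ X}.Finite :=
      (finite_norm_le X).subset fun _ h => h.2
    rw [Set.ncard_eq_toFinset_card _ hf]
    have hT : hf.toFinset ⊆
        (Icc 1 ⌊X⌋₊).biUnion fun m => hf.toFinset.filter fun I => absNorm I ∣ m := by
      intro I hI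
      have hI' : I ≠ ⊥ ∧ (absNorm I : ℝ) ≤ X := by simpa using hI
      refine mem_biUnion.2 ⟨absNorm I, mem_Icc.2 ⟨?_, Nat.le_floor hI'.2⟩,
        mem_filter.2 ⟨hI, dvd_rfl⟩⟩
      exact Nat.pos_of_ne_zero fun e => hI'.1 (absNorm_eq_zero_iff.1 e)
    have h1 := (card_le_card hT).trans card_biUnion_le
    have hX0 : 0 < X := by linarith
    have h2 : ∀ m ∈ Icc 1 ⌊X⌋₊,
        ((hf.toFinset.filter fun I => absNorm I ∣ m).card : ℝ) ≤ C * X ^ ε := by
      intro m hm
      obtain ⟨m1, m2⟩ := mem_Icc.1 hm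
      have hm0 : m ≠ 0 := by omega
      have h3 : (hf.toFinset.filter fun I => absNorm I ∣ m).card ≤
          {I : Ideal (𝓞 K) | absNorm I ∣ m}.ncard := by
        rw [← Set.ncard_coe_finset]
        exact Set.ncard_le_ncard (fun I hI => (mem_filter.1 hI).2) (fin_dvd hm0)
      refine le_trans (by exact_mod_cast h3) ((h K hK m hm0).trans ?_)
      exact mul_le_mul_of_nonneg_left (Real.rpow_le_rpow (Nat.cast_nonneg _)
        ((Nat.le_floor_iff hX0.le).1 m2) hε.le) hC.le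
    have h4 : (hf.toFinset.card : ℝ) ≤ ∑ m ∈ Icc 1 ⌊X⌋₊, C * X ^ ε :=
      le_trans (by exact_mod_cast h1) (sum_le_sum h2)
    refine h4.trans ?_
    rw [sum_const, Nat.card_Icc, nsmul_eq_mul, Real.rpow_add hX0, Real.rpow_one,
      Nat.add_sub_cancel, mul_left_comm]
    exact mul_le_mul_of_nonneg_left
      (mul_le_mul_of_nonneg_right (Nat.floor_le hX0.le) (by positivity)) hC.le
  ovr := fun _ _ _ _ hp => ⟨fin_nat hp.ne_zero, ovr hp⟩
  ram := by
    intro K _ _ N hN
    have hm : N.natAbs ≠ 0 := Int.natAbs_ne_zero.2 hN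
    have e : {P : Ideal (𝓞 K) | P.IsMaximal ∧ (N : 𝓞 K) ∈ P} =
        {P : Ideal (𝓞 K) | P.IsMaximal ∧ ((N.natAbs : ℕ) : 𝓞 K) ∈ P} := by
      ext P
      rcases Int.natAbs_eq N with h | h
      · conv_lhs => rw [h]
        simp
      · conv_lhs => rw [h]
        simp
    rw [e]
    exact ⟨fin_nat hm, ram hm⟩
  om := by
    intro c ε hε
    obtain ⟨C, hC, h⟩ := pw_bound c hε
    refine ⟨C, hC, fun m hm => ⟨le_trans ?_ (h m hm), le_trans ?_ (h m hm)⟩⟩
    · have h1 : c ^ om m ≤ m.divisors.card ^ (c + 1) :=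
        calc c ^ om m ≤ (2 ^ (c + 1)) ^ om m :=
              Nat.pow_le_pow_left (Nat.lt_two_pow_self.le.trans
                (Nat.pow_le_pow_right (by omega) (by omega))) _
          _ = (2 ^ om m) ^ (c + 1) := by rw [← pow_mul, ← pow_mul, mul_comm]
          _ ≤ _ := Nat.pow_le_pow_left (two_pow_om hm) _
      exact_mod_cast h1
    · exact_mod_cast Nat.le_self_pow (by omega) _

end Pool.Agent.Lib.N4
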