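import Pool.Agent.Lib.N4.Blue

set_option autoImplicit false

open NumberField Ideal Module
open scoped nonZeroDivisors

namespace Pool.Agent.Lib.N4

open Pool.Agent.Lib.Stark

namespace LATD

variable {F : Type} [Field F] [NumberField F]

lemma sum_le {κ : Type} (s : Finset κ) (f : κ → FractionalIdeal (𝓞 F)⁰ F)
    (c : FractionalIdeal (𝓞 F)⁰ F) (h : ∀ i ∈ s, f i ≤ c) : ∑ i ∈ s, f i ≤ c := by
  classical
  induction s using Finset.induction_on with
  | empty => simp
  | insert i s hi ih =>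
    rw [Finset.sum_insert hi, ← FractionalIdeal.sup_eq_add]
    exact sup_le (h i (Finset.mem_insert_self _ _))
      (ih fun j hj => h j (Finset.mem_insert_of_mem hj))

lemma le_sum {κ : Type} [Fintype κ] (f : κ → FractionalIdeal (𝓞 F)⁰ F) (i : κ) :
    f i ≤ ∑ j, f j := by
  classical
  rw [← Finset.add_sum_erase _ _ (Finset.mem_univ i), ← FractionalIdeal.sup_eq_add]
  exact le_sup_left

lemma gen (δ : F) (κ : Type) [Fintype κ] (β : κ → F) (h0 : ∃ i, β i ≠ 0)
    (h : ∀ i j, IsIntegral ℤ (δ * β i * β j)) :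
    ∃ (a : FractionalIdeal (𝓞 F)⁰ F) (b : Ideal (𝓞 F)), a ≠ 0 ∧ (∀ i, β i ∈ a) ∧
      FractionalIdeal.spanSingleton (𝓞 F)⁰ δ * a ^ 2 = b := by
  set a : FractionalIdeal (𝓞 F)⁰ F := ∑ i, FractionalIdeal.spanSingleton (𝓞 F)⁰ (β i) with ha
  have hm : ∀ i, β i ∈ a := fun i => FractionalIdeal.spanSingleton_le_iff_mem.1
    (le_sum (fun i => FractionalIdeal.spanSingleton (𝓞 F)⁰ (β i)) i)
  have hle : FractionalIdeal.spanSingleton (𝓞 F)⁰ δ * a ^ 2 ≤ 1 := by
    rw [ha, pow_two, Finset.sum_mul_sum, Finset.mul_sum]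
    refine sum_le _ _ _ fun i _ => ?_
    rw [Finset.mul_sum]
    refine sum_le _ _ _ fun j _ => ?_
    rw [FractionalIdeal.spanSingleton_mul_spanSingleton,
      FractionalIdeal.spanSingleton_mul_spanSingleton, FractionalIdeal.spanSingleton_le_iff_mem,
      FractionalIdeal.mem_one_iff, ← mul_assoc]
    exact ⟨⟨_, h i j⟩, rfl⟩
  obtain ⟨b, hb⟩ := FractionalIdeal.le_one_iff_exists_coeIdeal.1 hle
  refine ⟨a, b, fun e => ?_, hm, hb.symm⟩
  obtain ⟨i, hi⟩ := h0
  have := hm i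
  rw [e, FractionalIdeal.mem_zero_iff] at this
  exact hi this

lemma det (a : FractionalIdeal (𝓞 F)⁰ F) (ha : a ≠ 0) (κ : Type) [Fintype κ] [DecidableEq κ]
    (e : κ ≃ (F →+* ℂ)) : ∃ b : κ → F,
      IsB (lat a) b ∧ (Matrix.of fun x i => e x (b i)).det ^ 2 =
        ((FractionalIdeal.absNorm a : ℚ) : ℂ) ^ 2 * (discr F : ℂ) := by
  classical
  set I : (FractionalIdeal (𝓞 F)⁰ F)ˣ := Units.mk0 a ha with hI
  let e₀ : Free.ChooseBasisIndex ℤ (𝓞 F) ≃ Free.ChooseBasisIndex ℤ I :=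
    Fintype.equivOfCardEq (by
      rw [← finrank_eq_card_chooseBasisIndex, ← finrank_eq_card_chooseBasisIndex,
        fractionalIdeal_rank])
  let B := (basisOfFractionalIdeal F I).reindex e₀.symm
  let e₁ : κ ≃ Free.ChooseBasisIndex ℤ (𝓞 F) := e.trans (equivReindex F)
  have hdet : |(integralBasis F).det B| = FractionalIdeal.absNorm a :=
    det_basisOfFractionalIdeal_eq_absNorm F I e₀
  have hdis : Algebra.discr ℚ B = (FractionalIdeal.absNorm a) ^ 2 * (discr F : ℚ) := by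
    rw [← hdet, sq_abs, coe_discr, Basis.det_apply, ← Algebra.discr_of_matrix_vecMul,
      Basis.toMatrix_map_vecMul]
  refine ⟨B ∘ e₁, ⟨?_, ?_⟩, ?_⟩
  · exact (B.linearIndependent.restrict_scalars' ℤ).comp _ e₁.injective
  · rw [e₁.surjective.range_comp, Basis.range_reindex]
    ext x
    exact mem_span_basisOfFractionalIdeal F
  · have h1 := Algebra.discr_eq_det_embeddingsMatrixReindex_pow_two ℚ ℂ (B ∘ e₁)
      (e.trans (RingHom.equivRatAlgHom F ℂ))
    have h2 : Algebra.discr ℚ (B ∘ e₁) = Algebra.discr ℚ B := Algebra.discr_reindex ℚ B e₁.symm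
    have h3 : (Matrix.of fun x i => e x ((B ∘ e₁) i)) =
        (Algebra.embeddingsMatrixReindex ℚ ℂ (B ∘ e₁)
          (e.trans (RingHom.equivRatAlgHom F ℂ))).transpose := by
      ext x i
      simp [Algebra.embeddingsMatrixReindex]
    rw [h3, Matrix.det_transpose, ← h1, h2, hdis]
    simp

end LATD

theorem blk_LATD : StLatD :=
  ⟨fun _ _ _ a ha κ _ _ e => LATD.det a ha κ e, fun _ _ _ δ κ _ β h0 h => LATD.gen δ κ β h0 h⟩

end Pool.Agent.Lib.N4
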