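import Pool.Agent.Lib.N4.Blue

set_option autoImplicit false

open Module

namespace Pool.Agent.Lib.N4

namespace MI

variable {K : Type} [AddCommGroup K] [Module ℚ K] [FiniteDimensional ℚ K]

lemma one_le {V : Submodule ℚ K} (h : V ≠ ⊥) : (1 : ℝ) ≤ finrank ℚ V := by
  exact_mod_cast Submodule.one_le_finrank_iff.2 h

lemma le_top (V : Submodule ℚ K) : (finrank ℚ V : ℝ) ≤ finrank ℚ K := by
  exact_mod_cast Submodule.finrank_le V

lemma H_le {τ s a : ℝ} {L : Submodule ℚ K → ℝ} (hτ : 0 ≤ τ) (hs : 0 < s)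
    (hb : BddBelow (Set.range L)) {V : Submodule ℚ K} (hV : V ≠ ⊥) :
    Hh τ s a L V ≤ Ph τ s a L := by
  obtain ⟨m, hm⟩ := hb
  refine le_csSup ⟨finrank ℚ K * τ + s * (a + |m|), ?_⟩ ⟨V, hV, rfl⟩
  rintro _ ⟨W, hW, rfl⟩
  have h1 := one_le hW
  have h2 : m ≤ L W := hm ⟨W, rfl⟩
  have h3 : -|m| ≤ L W / finrank ℚ W := by
    rw [le_div_iff₀ (by linarith)]
    nlinarith [neg_abs_le m, abs_nonneg m]
  have h4 := mul_le_mul_of_nonneg_right (le_top W) hτ
  have h5 := mul_le_mul_of_nonneg_left h3 hs.le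
  unfold Hh
  nlinarith

lemma mul_H (τ s a : ℝ) (L : Submodule ℚ K → ℝ) {V : Submodule ℚ K} (hV : V ≠ ⊥) :
    finrank ℚ V * Hh τ s a L V = finrank ℚ V * (finrank ℚ V * τ + s * a) - s * L V := by
  have h1 := one_le hV
  unfold Hh
  field_simp
  ring

lemma H_top [Nontrivial K] {τ s a : ℝ} {L : Submodule ℚ K → ℝ} (h : L ⊤ = finrank ℚ K * a) :
    Hh τ s a L ⊤ = finrank ℚ K * τ := by
  have h1 := one_le (top_ne_bot : (⊤ : Submodule ℚ K) ≠ ⊥)
  rw [finrank_top] at h1
  unfold Hh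
  rw [finrank_top, h, mul_div_cancel_left₀ _ (by linarith)]
  ring

end MI

open MI in
theorem blk_MI : StMI := by
  intro K _ _ _ _ L Q _ L' bad τ s a ω β γ B hs hω hβ hγ hB hτ h0 htop hsub hb htop' hall hgood hbad
  classical
  have hn := one_le (top_ne_bot : (⊤ : Submodule ℚ K) ≠ ⊥)
  rw [finrank_top] at hn
  have hτ0 : 0 ≤ τ := le_trans (by positivity) hτ
  have hle : ∀ V : Submodule ℚ K, V ≠ ⊥ → Hh τ s a L V ≤ Ph τ s a L :=
    fun V hV => H_le hτ0 hs hb hV
  have hΦ : finrank ℚ K * τ ≤ Ph τ s a L := H_top htop ▸ hle ⊤ top_ne_bot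
  generalize Ph τ s a L = Φ at hle hΦ ⊢
  have hU : ∀ U : Submodule ℚ K,
      finrank ℚ U * (finrank ℚ U * τ + s * a) - s * L U ≤ finrank ℚ U * Φ := fun U => by
    by_cases h : U = ⊥
    · subst h; simp [h0]
    · rw [← mul_H τ s a L h]
      exact mul_le_mul_of_nonneg_left (hle U h) (Nat.cast_nonneg _)
  have huniq : ∀ V W : Submodule ℚ K, V ≠ ⊥ → W ≠ ⊥ → Φ - ω ≤ Hh τ s a L V →
      Φ - ω ≤ Hh τ s a L W → finrank ℚ V = finrank ℚ W → V = W := by
    intro V W hV hW h1 h2 h3
    by_contra hne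
    have h4 : finrank ℚ ↥(V ⊓ W) < finrank ℚ V := by
      refine lt_of_le_of_ne (Submodule.finrank_mono inf_le_left) fun h => hne ?_
      exact (Submodule.eq_of_le_of_finrank_eq inf_le_left h).symm.trans
        (Submodule.eq_of_le_of_finrank_eq inf_le_right (h.trans h3))
    have h5 := Submodule.finrank_sup_add_finrank_inf_eq V W
    obtain ⟨j, hj⟩ := Nat.exists_eq_add_of_lt h4
    have e1 : (finrank ℚ ↥(V ⊓ W) : ℝ) = finrank ℚ V - (j + 1) := by
      rw [hj]; push_cast; ring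
    have e2 : (finrank ℚ ↥(V ⊔ W) : ℝ) = finrank ℚ V + (j + 1) := by
      have : finrank ℚ ↥(V ⊔ W) = finrank ℚ V + (j + 1) := by omega
      rw [this]; push_cast; ring
    have a1 := mul_le_mul_of_nonneg_left h1 (Nat.cast_nonneg (α := ℝ) (finrank ℚ V))
    have a2 := mul_le_mul_of_nonneg_left h2 (Nat.cast_nonneg (α := ℝ) (finrank ℚ W))
    rw [mul_H τ s a L hV] at a1
    rw [mul_H τ s a L hW, ← h3] at a2
    have a3 := hU (V ⊓ W)
    have a4 := hU (V ⊔ W)
    rw [e1] at a3
    rw [e2] at a4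
    have a5 := mul_le_mul_of_nonneg_left (hsub V W) hs.le
    have a6 := mul_le_mul_of_nonneg_right (le_top V) hω.le
    have a7 : (0 : ℝ) ≤ j := Nat.cast_nonneg j
    have a8 : τ ≤ ((j : ℝ) + 1) ^ 2 * τ := le_mul_of_one_le_left hτ0 (by nlinarith)
    nlinarith
  have hlow : ∀ V : Submodule ℚ K, V ≠ ⊥ → V ≠ ⊤ → Φ - ω ≤ Hh τ s a L V →
      L V ≤ finrank ℚ V * a := by
    intro V hV hV' h1
    have h2 : (finrank ℚ V : ℝ) + 1 ≤ finrank ℚ K := by
      exact_mod_cast Submodule.finrank_lt hV'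
    have h3 := one_le hV
    have h4 := mul_le_mul_of_nonneg_right h2 hτ0
    have h5 : 0 ≤ s * (a - L V / finrank ℚ V) := by
      unfold Hh at h1
      nlinarith
    have h6 := nonneg_of_mul_nonneg_right h5 hs |> sub_nonneg.1
    rwa [div_le_iff₀ (by linarith), mul_comm] at h6
  let N : Finset Q := Finset.univ.filter fun q =>
    ∃ V : Submodule ℚ K, V ≠ ⊥ ∧ V ≠ ⊤ ∧ Φ - ω ≤ Hh τ s a L V ∧ bad V q
  have hN : (N.card : ℝ) ≤ finrank ℚ K * B := by
    let M : ℕ → Finset Q := fun i => Finset.univ.filter fun q =>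
      ∃ V : Submodule ℚ K, V ≠ ⊥ ∧ V ≠ ⊤ ∧ Φ - ω ≤ Hh τ s a L V ∧ bad V q ∧ finrank ℚ V = i
    have h1 : N ⊆ (Finset.range (finrank ℚ K)).biUnion M := fun q hq => by
      obtain ⟨V, h2, h3, h4, h5⟩ := (Finset.mem_filter.1 hq).2
      exact Finset.mem_biUnion.2 ⟨_, Finset.mem_range.2 (Submodule.finrank_lt h3),
        Finset.mem_filter.2 ⟨Finset.mem_univ _, V, h2, h3, h4, h5, rfl⟩⟩
    have h2 : ∀ i, ((M i).card : ℝ) ≤ B := fun i => by
      rcases (M i).eq_empty_or_nonempty with h | ⟨q, hq⟩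
      · simp [h, hB]
      obtain ⟨V, h2, h3, h4, -, h5⟩ := (Finset.mem_filter.1 hq).2
      refine le_trans ?_ (hbad V h2 (hlow V h2 h3 h4))
      rw [Nat.card_eq_fintype_card, Fintype.card_subtype]
      refine Nat.cast_le.2 (Finset.card_le_card fun q' hq' => ?_)
      obtain ⟨W, k2, -, k4, k5, k6⟩ := (Finset.mem_filter.1 hq').2
      exact Finset.mem_filter.2 ⟨Finset.mem_univ _, huniq W V k2 h2 k4 h4 (k6.trans h5.symm) ▸ k5⟩
    calc (N.card : ℝ) ≤ ∑ i ∈ Finset.range (finrank ℚ K), ((M i).card : ℝ) := by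
          exact_mod_cast (Finset.card_le_card h1).trans Finset.card_biUnion_le
      _ ≤ ∑ i ∈ Finset.range (finrank ℚ K), B := Finset.sum_le_sum fun i _ => h2 i
      _ = _ := by simp
  have hstep : ∀ q (V : Submodule ℚ K), V ≠ ⊥ →
      Hh τ s a (L' q) V ≤ Hh τ s a L V + s * β := fun q V hV => by
    have h1 := one_le hV
    have h2 : L V / finrank ℚ V - β ≤ L' q V / finrank ℚ V := by
      rw [le_div_iff₀ (by linarith), sub_mul, div_mul_cancel₀ _ (by linarith), mul_comm]
      exact hall q V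
    have := mul_le_mul_of_nonneg_left h2 hs.le
    unfold Hh
    nlinarith
  have hne : ∀ q, (Hh τ s a (L' q) '' {V | V ≠ ⊥}).Nonempty := fun q => ⟨_, ⊤, top_ne_bot, rfl⟩
  have key : ∀ q, Real.exp (Ph τ s a (L' q)) ≤ Real.exp (finrank ℚ K * τ) +
      (Real.exp (s * β - ω) + Real.exp (-(s * γ / finrank ℚ K))) * Real.exp Φ +
      if q ∈ N then Real.exp (s * β) * Real.exp Φ else 0 := fun q => by
    split_ifs with hq
    · have : Ph τ s a (L' q) ≤ s * β + Φ := csSup_le (hne q) (by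
        rintro _ ⟨V, hV, rfl⟩
        linarith [hstep q V hV, hle V hV])
      have h1 := Real.exp_le_exp.2 this
      rw [Real.exp_add] at h1
      refine h1.trans (le_add_of_nonneg_left (by positivity))
    · have : Ph τ s a (L' q) ≤ max (finrank ℚ K * τ)
          (max (s * β - ω + Φ) (-(s * γ / finrank ℚ K) + Φ)) := csSup_le (hne q) (by
        rintro _ ⟨V, hV, rfl⟩
        by_cases h1 : V = ⊤
        · rw [h1, H_top (htop' q)]
          exact le_max_left _ _
        refine le_trans ?_ (le_max_right _ _)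
        by_cases h2 : Φ - ω ≤ Hh τ s a L V
        · refine le_trans ?_ (le_max_right _ _)
          have h3 := hgood q V hV h1 fun h =>
            hq (Finset.mem_filter.2 ⟨Finset.mem_univ _, V, hV, h1, h2, h⟩)
          have h4 := one_le hV
          have h5 : L V / finrank ℚ V + γ / finrank ℚ K ≤ L' q V / finrank ℚ V := by
            have h6 : γ / finrank ℚ K ≤ γ / finrank ℚ V :=
              div_le_div_of_nonneg_left hγ (by linarith) (le_top V)
            have h7 := div_le_div_of_nonneg_right h3 (show (0 : ℝ) ≤ finrank ℚ V by linarith)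
            rw [add_div] at h7
            linarith
          have h6 := mul_le_mul_of_nonneg_left h5 hs.le
          have h7 := hle V hV
          unfold Hh at h7 ⊢
          rw [mul_div_assoc]
          nlinarith
        · refine le_trans ?_ (le_max_left _ _)
          linarith [hstep q V hV, not_le.1 h2])
      have h1 := Real.exp_le_exp.2 this
      refine h1.trans ?_
      rw [add_zero, add_mul, ← Real.exp_add, ← Real.exp_add]
      have p1 := Real.exp_pos (finrank ℚ K * τ)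
      have p2 := Real.exp_pos (s * β - ω + Φ)
      have p3 := Real.exp_pos (-(s * γ / finrank ℚ K) + Φ)
      rcases max_choice (finrank ℚ K * τ) (max (s * β - ω + Φ) (-(s * γ / finrank ℚ K) + Φ)) with
        h | h <;> rw [h]
      · linarith
      · rcases max_choice (s * β - ω + Φ) (-(s * γ / finrank ℚ K) + Φ) with h' | h' <;> rw [h'] <;>
          linarith
  refine (Finset.sum_le_sum fun q _ => key q).trans ?_
  rw [Finset.sum_add_distrib, Finset.sum_const, Finset.sum_ite_mem, Finset.univ_inter,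
    Finset.sum_const, Finset.card_univ, nsmul_eq_mul, nsmul_eq_mul]
  have := mul_le_mul_of_nonneg_right hN
    (show 0 ≤ Real.exp (s * β) * Real.exp Φ by positivity)
  nlinarith

end Pool.Agent.Lib.N4
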