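import Pool.Agent.Lib.N4.Blue

set_option autoImplicit false

namespace Pool.Agent.Lib.N4

namespace NET

lemma ex (X : Type) [CommGroup X] (G : Set X) (R : X → Prop) (M : ℝ) (h1 : R 1)
    (hinv : ∀ x, R x → R x⁻¹)
    (hM : ∀ S : Finset X, (∀ x ∈ S, x ∈ G) → Sep R S → (S.card : ℝ) ≤ M) :
    ∃ S : Finset X, (∀ x ∈ S, x ∈ G) ∧ Sep R S ∧ ∀ g ∈ G, ∃ x ∈ S, R (g / x) := by
  classical
  by_contra hne
  have key : ∀ n : ℕ, ∃ S : Finset X, (∀ x ∈ S, x ∈ G) ∧ Sep R S ∧ S.card = n := by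
    intro n
    induction n with
    | zero => exact ⟨∅, by simp, by simp [Sep], rfl⟩
    | succ n ih =>
      obtain ⟨S, hS, hS', hc⟩ := ih
      have : ¬ ∀ g ∈ G, ∃ x ∈ S, R (g / x) := fun h => hne ⟨S, hS, hS', h⟩
      push Not at this
      obtain ⟨g, hg, hg'⟩ := this
      have hgS : g ∉ S := fun h => hg' g h (by simpa using h1)
      refine ⟨insert g S, ?_, ?_, by rw [Finset.card_insert_of_notMem hgS, hc]⟩
      · intro x hx
        rcases Finset.mem_insert.1 hx with rfl | hx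
        · exact hg
        · exact hS x hx
      · intro x hx y hy hxy
        rcases Finset.mem_insert.1 hx with rfl | hx'
        · rcases Finset.mem_insert.1 hy with rfl | hy'
          · exact absurd rfl hxy
          · exact hg' y hy'
        · rcases Finset.mem_insert.1 hy with rfl | hy'
          · intro h
            exact hg' x hx' (by simpa using hinv _ h)
          · exact hS' x hx' y hy' hxy
  obtain ⟨n, hn⟩ := exists_nat_gt M
  obtain ⟨S, hS, hS', hc⟩ := key n
  have := hM S hS hS'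
  rw [hc] at this
  linarith

lemma avg (X : Type) [CommGroup X] (G : Subgroup X) (R : X → Prop) (S : Finset X) (f : X → ℝ)
    (Q : Type) [Fintype Q] [Nonempty Q] (st : Q → X) (C₁ C₂ c b : ℝ)
    (hS : ∀ x ∈ S, x ∈ G) (hcov : ∀ g ∈ G, ∃ x ∈ S, R (g / x)) (hst : ∀ q, st q ∈ G)
    (hf : ∀ x, 0 ≤ f x) (h1 : 0 ≤ C₁) (_h2 : 0 ≤ C₂)
    (hR : ∀ x ∈ G, ∀ y ∈ G, R (x / y) → f x ≤ C₁ * f y)
    (hc : ∀ z, (({y | y ∈ S ∧ R (y / z)} : Set X).ncard : ℝ) ≤ C₂)
    (hq : ∀ x ∈ G, ∑ q, f (x * st q) ≤ Fintype.card Q * b + Fintype.card Q * c * f x)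
    (hh : C₁ * C₂ * c ≤ 1 / 2) : f 1 ≤ 2 * C₁ ^ 2 * C₂ * b * S.card := by
  classical
  set T := ∑ y ∈ S, f y with hT
  have hT0 : 0 ≤ T := Finset.sum_nonneg fun y _ => hf y
  have step : ∀ q, T ≤ C₁ * C₂ * ∑ x ∈ S, f (x * st q) := by
    intro q
    calc T ≤ ∑ y ∈ S, ∑ x ∈ S, if R (y / (x * st q)) then C₁ * f (x * st q) else 0 := by
          refine Finset.sum_le_sum fun y hy => ?_
          obtain ⟨x, hx, hx'⟩ := hcov (y / st q) (G.div_mem (hS y hy) (hst q))
          have e : y / st q / x = y / (x * st q) := by rw [div_div, mul_comm]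
          rw [e] at hx'
          refine le_trans ?_ (Finset.single_le_sum
            (f := fun x => if R (y / (x * st q)) then C₁ * f (x * st q) else 0) (fun z _ => ?_) hx)
          · rw [if_pos hx']
            exact hR y (hS y hy) _ (G.mul_mem (hS x hx) (hst q)) hx'
          · split_ifs
            · exact mul_nonneg h1 (hf _)
            · exact le_rfl
      _ = ∑ x ∈ S, ((S.filter fun y => R (y / (x * st q))).card : ℝ) * (C₁ * f (x * st q)) := by
          rw [Finset.sum_comm]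
          refine Finset.sum_congr rfl fun x _ => ?_
          rw [← Finset.sum_filter, Finset.sum_const, nsmul_eq_mul]
      _ ≤ ∑ x ∈ S, C₂ * (C₁ * f (x * st q)) := by
          refine Finset.sum_le_sum fun x _ => ?_
          refine mul_le_mul_of_nonneg_right ?_ (mul_nonneg h1 (hf _))
          have := hc (x * st q)
          rwa [← Finset.coe_filter, Set.ncard_coe_finset] at this
      _ = _ := by
          rw [Finset.mul_sum]
          exact Finset.sum_congr rfl fun x _ => by ring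
  have hN : (0 : ℝ) < Fintype.card Q := by exact_mod_cast Fintype.card_pos
  have h12 : 0 ≤ C₁ * C₂ := mul_nonneg h1 _h2
  have hsum : (Fintype.card Q : ℝ) * T ≤
      Fintype.card Q * (C₁ * C₂ * b * S.card + C₁ * C₂ * c * T) := by
    calc (Fintype.card Q : ℝ) * T = ∑ _q : Q, T := by simp
      _ ≤ ∑ q, C₁ * C₂ * ∑ x ∈ S, f (x * st q) := Finset.sum_le_sum fun q _ => step q
      _ = C₁ * C₂ * ∑ x ∈ S, ∑ q, f (x * st q) := by rw [← Finset.mul_sum, Finset.sum_comm]
      _ ≤ C₁ * C₂ * ∑ x ∈ S, (Fintype.card Q * b + Fintype.card Q * c * f x) :=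
          mul_le_mul_of_nonneg_left (Finset.sum_le_sum fun x hx => hq x (hS x hx)) h12
      _ = _ := by
          rw [Finset.sum_add_distrib, Finset.sum_const, nsmul_eq_mul, ← Finset.mul_sum, ← hT]
          ring
  have h3 := le_of_mul_le_mul_left hsum hN
  have h4 : C₁ * C₂ * c * T ≤ 1 / 2 * T := mul_le_mul_of_nonneg_right hh hT0
  have h5 : T ≤ 2 * (C₁ * C₂ * b * S.card) := by linarith
  obtain ⟨x, hx, hx'⟩ := hcov 1 G.one_mem
  calc f 1 ≤ C₁ * f x := hR 1 G.one_mem x (hS x hx) hx'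
    _ ≤ C₁ * T := mul_le_mul_of_nonneg_left (Finset.single_le_sum (fun y _ => hf y) hx) h1
    _ ≤ C₁ * (2 * (C₁ * C₂ * b * S.card)) := mul_le_mul_of_nonneg_left h5 h1
    _ = _ := by ring

end NET

theorem blk_NET : StNet := ⟨NET.ex, NET.avg⟩

end Pool.Agent.Lib.N4
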