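import Pool.Agent.Lib.N4.Blue

set_option autoImplicit false

open NumberField Ideal Module
open scoped nonZeroDivisors ComplexConjugate Matrix

namespace Pool.Agent.Lib.N4

open Pool.Agent.Lib.Stark

namespace NL1

variable {K : Type} [Field K] [NumberField K]

lemma can_indep {κ : Type} (v : κ → K) (hv : LinearIndependent ℤ v) :
    LinearIndependent ℂ fun i => canonicalEmbedding K (v i) := by
  classical
  have h1 : LinearIndependent ℚ v := (LinearIndependent.iff_fractionRing ℤ ℚ).1 hv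
  have h2 : LinearIndependent ℚ fun i => (integralBasis K).equivFun (v i) :=
    h1.map' (integralBasis K).equivFun.toLinearMap (integralBasis K).equivFun.ker
  have h3 := (linearIndependent_algebraMap_comp_iff (S := ℂ)).2 h2
  refine LinearIndependent.of_comp (canonicalEmbedding.latticeBasis K).equivFun.toLinearMap ?_
  have h4 : (canonicalEmbedding.latticeBasis K).equivFun.toLinearMap ∘
      (fun i => canonicalEmbedding K (v i)) =
      fun i => algebraMap ℚ ℂ ∘ (integralBasis K).equivFun (v i) := by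
    funext i j
    simp [canonicalEmbedding.integralBasis_repr_apply]
  rw [h4]
  exact h3

lemma rinj (u : InfinitePlace K → ℝ) : RInj (emb u) := by
  intro κ _ v hv
  have h := Fintype.linearIndependent_iff.1 (can_indep v hv)
  refine Fintype.linearIndependent_iff.2 fun c hc i => ?_
  have h2 : ∑ i, (c i : ℂ) • canonicalEmbedding K (v i) = 0 := by
    funext σ
    have h3 : (∑ i, c i • emb u (v i)) σ = 0 := by rw [hc]; rfl
    have h4 : (Real.exp (u (InfinitePlace.mk σ)) : ℂ) ≠ 0 :=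
      Complex.ofReal_ne_zero.2 (Real.exp_pos _).ne'
    simp only [WithLp.ofLp_sum, WithLp.ofLp_smul, Finset.sum_apply, Pi.smul_apply, emb_apply,
      Complex.real_smul] at h3
    apply mul_left_cancel₀ h4
    simp only [Finset.sum_apply, Pi.smul_apply, canonicalEmbedding.apply_at, smul_eq_mul,
      Pi.zero_apply, mul_zero, Finset.mul_sum]
    rw [← h3]
    exact Finset.sum_congr rfl fun i _ => by ring
  exact Complex.ofReal_eq_zero.1 (h _ h2 i)

lemma full (hL : StLatD) (a : FractionalIdeal (𝓞 K)⁰ K) (ha : a ≠ 0) : Full (lat a) := by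
  classical
  obtain ⟨b, hb, -⟩ := hL.det K a ha (K →+* ℂ) (Equiv.refl _)
  refine ⟨hb.2 ▸ Submodule.fg_span (Set.finite_range b), fun x => ?_⟩
  obtain ⟨y, hy, hy0⟩ : ∃ y ∈ a, y ≠ 0 := by
    by_contra h
    push Not at h
    exact ha (FractionalIdeal.eq_zero_iff.2 h)
  have hal : IsAlgebraic ℤ (x / y) :=
    (IsFractionRing.isAlgebraic_iff ℤ ℚ K).2 (Algebra.IsAlgebraic.isAlgebraic _)
  obtain ⟨m, hm, hi⟩ := hal.exists_integral_multiple
  have h1 : m • x ∈ lat a := by
    have h2 : (⟨m • (x / y), hi⟩ : 𝓞 K) • y ∈ (a : Submodule (𝓞 K) K) :=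
      Submodule.smul_mem _ _ hy
    have h3 : (⟨m • (x / y), hi⟩ : 𝓞 K) • y = m • x := by
      change (m • (x / y)) * y = m • x
      rw [smul_mul_assoc, div_mul_cancel₀ _ hy0]
    rw [h3] at h2
    exact h2
  refine ⟨m * m, mul_self_pos.2 hm, ?_⟩
  rw [mul_smul]
  exact Submodule.smul_mem _ _ h1

lemma sum_mk (u : InfinitePlace K → ℝ) :
    ∑ σ : K →+* ℂ, u (InfinitePlace.mk σ) = ∑ w : InfinitePlace K, (w.mult : ℝ) * u w := by
  classical
  rw [← Finset.sum_fiberwise Finset.univ InfinitePlace.mk]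
  refine Finset.sum_congr rfl fun w _ => ?_
  rw [Finset.sum_congr rfl (g := fun _ => u w) fun σ hσ => by rw [(Finset.mem_filter.1 hσ).2],
    Finset.sum_const, InfinitePlace.card_filter_mk_eq, nsmul_eq_mul]

lemma emb_conj (u : InfinitePlace K → ℝ) (a : K) (σ : K →+* ℂ) :
    emb u a (ComplexEmbedding.conjugate σ) = conj (emb u a σ) := by
  rw [emb_apply, emb_apply, InfinitePlace.mk_conjugate_eq, map_mul, Complex.conj_ofReal]
  rfl

lemma inner_emb (u : InfinitePlace K → ℝ) (a b : K) :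
    ((inner ℝ (emb u a) (emb u b) : ℝ) : ℂ) = ∑ σ, conj (emb u a σ) * emb u b σ := by
  have h1 : inner ℝ (emb u a) (emb u b) = (∑ σ, conj (emb u a σ) * emb u b σ).re := by
    rw [PiLp.inner_apply, Complex.re_sum]
    refine Finset.sum_congr rfl fun σ _ => ?_
    rw [Complex.inner, mul_comm]
  rw [h1]
  refine Complex.conj_eq_iff_re.1 ?_
  rw [map_sum, ← Equiv.sum_comp (ComplexEmbedding.involutive_conjugate K).toPerm]
  refine Finset.sum_congr rfl fun σ _ => ?_
  rw [Function.Involutive.coe_toPerm, emb_conj, emb_conj, map_mul, Complex.conj_conj,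
    Complex.conj_conj]

lemma gr_emb [DecidableEq (K →+* ℂ)] (u : InfinitePlace K → ℝ) (b : (K →+* ℂ) → K) :
    gr (fun i => emb u (b i)) = (Real.exp (∑ w : InfinitePlace K, (w.mult : ℝ) * u w)) ^ 2 *
      ‖(Matrix.of fun (σ : K →+* ℂ) i => σ (b i)).det ^ 2‖ := by
  set A : Matrix (K →+* ℂ) (K →+* ℂ) ℂ := Matrix.of fun σ i => emb u (b i) σ with hA
  have h1 : (Complex.ofRealHom.mapMatrix (Matrix.gram ℝ fun i => emb u (b i))) = Aᴴ * A := by
    ext i j
    rw [RingHom.mapMatrix_apply, Matrix.map_apply, Matrix.gram_apply, Matrix.mul_apply]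
    exact inner_emb u _ _
  have h2 : ((gr (fun i => emb u (b i)) : ℝ) : ℂ) = conj A.det * A.det := by
    have h3 := Complex.ofRealHom.map_det (Matrix.gram ℝ fun i => emb u (b i))
    rw [h1, Matrix.det_mul, Matrix.det_conjTranspose] at h3
    exact h3
  have h3 : A = Matrix.diagonal (fun σ => (Real.exp (u (InfinitePlace.mk σ)) : ℂ)) *
      Matrix.of fun (σ : K →+* ℂ) i => σ (b i) := by
    ext σ i
    rw [Matrix.diagonal_mul]
    rfl
  rw [Complex.conj_mul', ← Complex.ofReal_pow, Complex.ofReal_inj] at h2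
  rw [h2, h3, Matrix.det_mul, Matrix.det_diagonal, ← Complex.ofReal_prod, ← Real.exp_sum, sum_mk,
    norm_mul, mul_pow, norm_pow, Complex.norm_real, Real.norm_eq_abs, sq_abs]

lemma top (hC : StCov) (hL : StLatD) (x : Ob K) : lc x ⊤ = deg x + Real.log (dn K) / 2 := by
  classical
  obtain ⟨b, hb, hd⟩ := hL.det K x.1 x.1.ne_zero (K →+* ℂ) (Equiv.refl _)
  have hs : sat (lat (x.1 : FractionalIdeal (𝓞 K)⁰ K)) (⊤ : Submodule ℚ K) = lat x.1 := by
    ext v
    simp [mem_sat]
  have hN := absNorm_unit_pos x.1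
  have hD := dn_pos (K := K)
  simp only [Equiv.refl_apply] at hd
  rw [lc, hs, hC.eq K _ _ _ _ b hb, gr_emb, hd, norm_mul, norm_pow, Complex.norm_ratCast,
    Complex.norm_intCast, ← dn_eq_abs, abs_of_pos hN, Real.log_sqrt (by positivity),
    Real.log_mul (by positivity) (by positivity), Real.log_mul (by positivity) hD.ne',
    Real.log_pow, Real.log_pow, Real.log_exp, deg]
  push_cast
  ring

lemma one (hC : StCov) :
    lc (1 : Ob K) (Submodule.span ℚ {1}) = Real.log (finrank ℚ K) / 2 := by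
  have hb : IsB (sat (lat ((1 : Ob K).1 : FractionalIdeal (𝓞 K)⁰ K)) (Submodule.span ℚ {(1 : K)}))
      (fun _ : Unit => (1 : K)) := by
    refine ⟨linearIndependent_unique_iff.2 one_ne_zero, ?_⟩
    ext v
    rw [Set.range_const, mem_sat, mem_lat, Submodule.mem_span_singleton,
      Submodule.mem_span_singleton, Prod.fst_one, Units.val_one, FractionalIdeal.mem_one_iff]
    constructor
    · rintro ⟨m, rfl⟩
      exact ⟨⟨m, by simp⟩, m, by simp⟩
    · rintro ⟨⟨y, hy⟩, q, rfl⟩
      have h1 : IsIntegral ℤ (algebraMap ℚ K q) := by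
        rw [Algebra.algebraMap_eq_smul_one, ← hy]
        exact y.isIntegral_coe
      obtain ⟨m, rfl⟩ := IsIntegrallyClosed.isIntegral_iff.1
        ((isIntegral_algebraMap_iff (algebraMap ℚ K).injective).1 h1)
      exact ⟨m, by simp⟩
  have h1 := inner_emb (K := K) (1 : Ob K).2.toAdd 1 1
  have h2 : inner ℝ (emb (K := K) (1 : Ob K).2.toAdd 1) (emb (K := K) (1 : Ob K).2.toAdd 1) =
      (finrank ℚ K : ℝ) := by
    rw [← Complex.ofReal_inj, h1]
    simp [emb_apply, Embeddings.card K ℂ]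
  rw [lc, hC.eq K _ _ _ _ _ hb, gr, Matrix.det_unique, Matrix.gram_apply, h2,
    Real.log_sqrt (Nat.cast_nonneg _)]

lemma prod_emb (u : InfinitePlace K → ℝ) (v : K) :
    ∏ σ : K →+* ℂ, ‖emb u v σ‖ =
      Real.exp (∑ w : InfinitePlace K, (w.mult : ℝ) * u w) * (|Algebra.norm ℚ v| : ℚ) := by
  classical
  have h1 : ∏ σ : K →+* ℂ, ‖σ v‖ = ∏ w : InfinitePlace K, w v ^ w.mult := by
    rw [← Finset.prod_fiberwise Finset.univ InfinitePlace.mk]
    refine Finset.prod_congr rfl fun w _ => ?_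
    rw [Finset.prod_congr rfl (g := fun _ => w v) fun σ hσ => by
      rw [← (Finset.mem_filter.1 hσ).2, InfinitePlace.apply],
      Finset.prod_const, InfinitePlace.card_filter_mk_eq]
  simp only [emb_apply, norm_mul, Complex.norm_real, Real.norm_eq_abs, Real.abs_exp]
  rw [Finset.prod_mul_distrib, ← Real.exp_sum, sum_mk, h1, InfinitePlace.prod_eq_abs_norm]

lemma low (x : Ob K) (v : K) (hv : v ∈ (x.1 : FractionalIdeal (𝓞 K)⁰ K)) (h0 : v ≠ 0) :
    ∃ J : Ideal (𝓞 K), J ≠ ⊥ ∧
      (J : FractionalIdeal (𝓞 K)⁰ K) * x.1 = FractionalIdeal.spanSingleton (𝓞 K)⁰ v ∧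
      absNorm J * Real.exp (deg x) ≤ ‖emb x.2.toAdd v‖ ^ finrank ℚ K := by
  have hle : FractionalIdeal.spanSingleton (𝓞 K)⁰ v * (x.1⁻¹ : (FractionalIdeal (𝓞 K)⁰ K)ˣ) ≤
      1 := by
    rw [← x.1.mul_inv]
    exact mul_le_mul_left (FractionalIdeal.spanSingleton_le_iff_mem.2 hv) _
  obtain ⟨J, hJ⟩ := FractionalIdeal.le_one_iff_exists_coeIdeal.1 hle
  have hm : (J : FractionalIdeal (𝓞 K)⁰ K) * x.1 = FractionalIdeal.spanSingleton (𝓞 K)⁰ v := by
    rw [hJ, mul_assoc, Units.inv_mul, mul_one]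
  refine ⟨J, ?_, hm, ?_⟩
  · rintro rfl
    rw [FractionalIdeal.coeIdeal_bot, zero_mul, eq_comm,
      FractionalIdeal.spanSingleton_eq_zero_iff] at hm
    exact h0 hm
  · have h1 := congrArg FractionalIdeal.absNorm hm
    rw [map_mul, FractionalIdeal.coeIdeal_absNorm, FractionalIdeal.absNorm_span_singleton] at h1
    have h2 := prod_emb x.2.toAdd v
    rw [← h1] at h2
    have h3 : ∏ σ : K →+* ℂ, ‖emb x.2.toAdd v σ‖ ≤ ‖emb x.2.toAdd v‖ ^ finrank ℚ K := by
      rw [← Embeddings.card K ℂ, ← Finset.card_univ, ← Finset.prod_const]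
      exact Finset.prod_le_prod (fun _ _ => norm_nonneg _) fun σ _ => PiLp.norm_apply_le _ σ
    refine le_of_eq_of_le ?_ h3
    rw [h2, deg, Real.exp_add, Real.exp_log (absNorm_unit_pos x.1)]
    push_cast
    ring

end NL1

theorem blk_NL1 (hC : StCov) (hL : StLatD) : StNL1 where
  rinj _ _ _ u := NL1.rinj u
  full _ _ _ a ha := NL1.full hL a ha
  top _ _ _ x := NL1.top hC hL x
  one _ _ _ := NL1.one hC
  low _ _ _ x v hv h0 := NL1.low x v hv h0

end Pool.Agent.Lib.N4
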