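import Pool.Agent.Lib.N4.Blue

set_option autoImplicit false

open NumberField Ideal Module
open scoped nonZeroDivisors

namespace Pool.Agent.Lib.N4

open Pool.Agent.Lib.Stark

namespace NL2

variable {K : Type} [Field K] [NumberField K]

lemma fg (hC : StCov) (h1 : StNL1) (x : Ob K) (V : Submodule ℚ K) :
    (sat (lat (x.1 : FractionalIdeal (𝓞 K)⁰ K)) V).FG ∧
      finrank ℤ (sat (lat (x.1 : FractionalIdeal (𝓞 K)⁰ K)) V) = finrank ℚ V :=
  hC.rank K _ V (h1.full K _ x.1.ne_zero)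

lemma cov_pos (hC : StCov) (h1 : StNL1) (x : Ob K) (V : Submodule ℚ K) :
    0 < cov (emb x.2.toAdd) (sat (lat (x.1 : FractionalIdeal (𝓞 K)⁰ K)) V) :=
  hC.pos K _ _ _ (h1.rinj K _) (fg hC h1 x V).1

lemma short (hC : StCov) (h1 : StNL1) (x : Ob K) (V : Submodule ℚ K) (hV : V ≠ ⊥) :
    0 < finrank ℚ V ∧ ∃ v ∈ V, v ∈ (x.1 : FractionalIdeal (𝓞 K)⁰ K) ∧ v ≠ 0 ∧
      ‖emb x.2.toAdd v‖ ^ finrank ℚ V ≤
        (2 * finrank ℚ V : ℝ) ^ finrank ℚ V * Real.exp (lc x V) := by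
  have hp : 0 < finrank ℚ V := Nat.pos_of_ne_zero fun h => hV (Submodule.finrank_eq_zero.1 h)
  obtain ⟨f1, f2⟩ := fg hC h1 x V
  have hne : sat (lat (x.1 : FractionalIdeal (𝓞 K)⁰ K)) V ≠ ⊥ := by
    intro h
    rw [h, finrank_bot] at f2
    omega
  obtain ⟨v, hv, hv0, hv1⟩ := hC.short K _ (emb x.2.toAdd) _ (h1.rinj K _) f1 hne
  rw [f2] at hv1
  refine ⟨hp, v, (mem_sat.1 hv).2, (mem_sat.1 hv).1, hv0, ?_⟩
  rwa [lc, Real.exp_log (cov_pos hC h1 x V)]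

lemma one_le_norm {J : Ideal (𝓞 K)} (hJ : J ≠ ⊥) : (1 : ℝ) ≤ absNorm J := by
  have : absNorm J ≠ 0 := by rwa [Ne, absNorm_eq_zero_iff]
  exact_mod_cast Nat.pos_of_ne_zero this

lemma bdd (hC : StCov) (h1 : StNL1) (x : Ob K) (hx : deg x = 0) (V : Submodule ℚ K)
    (hV : V ≠ ⊥) : -Real.log ((2 * finrank ℚ K : ℝ) ^ finrank ℚ K) ≤ lc x V := by
  obtain ⟨hp, v, -, hv, hv0, hv1⟩ := short hC h1 x V hV
  obtain ⟨J, hJ, -, hJ1⟩ := h1.low K x v hv hv0
  rw [hx, Real.exp_zero, mul_one] at hJ1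
  have hn : 0 < finrank ℚ K := finrank_pos
  have hle : finrank ℚ V ≤ finrank ℚ K := Submodule.finrank_le V
  have a1 : 1 ≤ ‖emb x.2.toAdd v‖ :=
    (one_le_pow_iff_of_nonneg (norm_nonneg _) hn.ne').1 ((one_le_norm hJ).trans hJ1)
  have a2 : 1 ≤ ‖emb x.2.toAdd v‖ ^ finrank ℚ V := one_le_pow₀ a1
  have hn' : (1 : ℝ) ≤ finrank ℚ K := by exact_mod_cast hn
  have hle' : (finrank ℚ V : ℝ) ≤ finrank ℚ K := by exact_mod_cast hle
  have a3 : (2 * finrank ℚ V : ℝ) ^ finrank ℚ V ≤ (2 * finrank ℚ K : ℝ) ^ finrank ℚ K :=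
    (pow_le_pow_left₀ (by positivity) (by linarith) _).trans
      (pow_le_pow_right₀ (by linarith) hle)
  have a4 : 1 ≤ (2 * finrank ℚ K : ℝ) ^ finrank ℚ K * Real.exp (lc x V) :=
    a2.trans (hv1.trans (mul_le_mul_of_nonneg_right a3 (Real.exp_pos _).le))
  have a5 := Real.log_nonneg a4
  rw [Real.log_mul (by positivity) (Real.exp_pos _).ne', Real.log_exp] at a5
  linarith

/-- Diagonal multiplication. -/
noncomputable def diag {ι : Type} (d : ι → ℂ) : EuclideanSpace ℂ ι →ₗ[ℝ] EuclideanSpace ℂ ι where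
  toFun z := WithLp.toLp 2 fun σ => d σ * z σ
  map_add' a b := by ext σ; simp [mul_add]
  map_smul' c a := by ext σ; simp; ring

lemma diag_le {ι : Type} [Fintype ι] (d : ι → ℂ) (C : ℝ) (hC : 0 ≤ C) (hd : ∀ σ, ‖d σ‖ ≤ C)
    (z : EuclideanSpace ℂ ι) : ‖diag d z‖ ≤ C * ‖z‖ := by
  rw [EuclideanSpace.norm_eq, EuclideanSpace.norm_eq, ← Real.sqrt_sq hC,
    ← Real.sqrt_mul (sq_nonneg _), Finset.mul_sum]
  refine Real.sqrt_le_sqrt (Finset.sum_le_sum fun σ _ => ?_)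
  rw [← mul_pow]
  refine pow_le_pow_left₀ (norm_nonneg _) ?_ _
  change ‖d σ * z σ‖ ≤ _
  rw [norm_mul]
  exact mul_le_mul_of_nonneg_right (hd σ) (norm_nonneg _)

lemma quasi (hC : StCov) (h1 : StNL1) (x y : Ob K) (t : ℝ) (h : Small t (x / y))
    (V : Submodule ℚ K) : ∃ V' : Submodule ℚ K, finrank ℚ V' = finrank ℚ V ∧
      lc y V' ≤ lc x V + finrank ℚ V * t := by
  obtain ⟨α, hα, hw⟩ := h
  have hα0 : (α : K) ≠ 0 := α.ne_zero
  have hx : (x.1 : FractionalIdeal (𝓞 K)⁰ K) =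
      FractionalIdeal.spanSingleton (𝓞 K)⁰ (α : K) * y.1 := by
    have : x.1 = toPrincipalIdeal (𝓞 K) K α * y.1 := by
      rw [← hα, Prod.fst_div, div_mul_cancel]
    rw [this, Units.val_mul, coe_toPrincipalIdeal]
  let e : K ≃ₗ[ℚ] K :=
    { toFun := fun a => (α : K)⁻¹ * a
      invFun := fun a => (α : K) * a
      map_add' := fun a b => mul_add _ _ _
      map_smul' := fun c a => by simp
      left_inv := fun a => by simp
      right_inv := fun a => by simp }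
  have he : ∀ a, e a = (α : K)⁻¹ * a := fun a => rfl
  refine ⟨V.map (e : K →ₗ[ℚ] K), e.finrank_map_eq V, ?_⟩
  obtain ⟨f1, f2⟩ := fg hC h1 x V
  have hm := hC.map K _ (emb y.2.toAdd) e.toAddEquiv _
    (sat (lat (y.1 : FractionalIdeal (𝓞 K)⁰ K)) (V.map (e : K →ₗ[ℚ] K))) f1 (by
      intro a
      rw [mem_sat, mem_sat, mem_lat, mem_lat, hx, FractionalIdeal.mem_singleton_mul]
      refine and_congr ⟨?_, ?_⟩ ⟨fun ha => ⟨a, ha, rfl⟩, ?_⟩
      · rintro ⟨b, hb, rfl⟩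
        change (α : K)⁻¹ * (α * b) ∈ _
        rwa [inv_mul_cancel_left₀ hα0]
      · intro ha
        exact ⟨_, ha, (mul_inv_cancel_left₀ hα0 a).symm⟩
      · rintro ⟨b, hb, hb'⟩
        have : b = a := e.injective hb'
        exact this ▸ hb)
  have hc := hC.comp K _ _ (emb x.2.toAdd) ((emb y.2.toAdd).comp (e.toAddEquiv : K →+ K))
    (diag fun σ : K →+* ℂ => (Real.exp (y.2.toAdd (InfinitePlace.mk σ) -
      x.2.toAdd (InfinitePlace.mk σ)) : ℂ) * (σ α)⁻¹) (Real.exp t) _ f1 (Real.exp_pos t).le (by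
      intro a
      ext σ
      change (Real.exp (y.2.toAdd (InfinitePlace.mk σ)) : ℂ) * σ ((α : K)⁻¹ * a) =
        (Real.exp (y.2.toAdd (InfinitePlace.mk σ) - x.2.toAdd (InfinitePlace.mk σ)) : ℂ) *
          (σ α)⁻¹ * ((Real.exp (x.2.toAdd (InfinitePlace.mk σ)) : ℂ) * σ a)
      have h0 : (Real.exp (x.2.toAdd (InfinitePlace.mk σ)) : ℂ) ≠ 0 :=
        Complex.ofReal_ne_zero.2 (Real.exp_pos _).ne'
      rw [Real.exp_sub, map_mul, map_inv₀, Complex.ofReal_div]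
      field_simp) (diag_le _ _ (Real.exp_pos t).le (by
      intro σ
      have h2 := hw (InfinitePlace.mk σ)
      rw [Prod.snd_div, toAdd_div, Pi.sub_apply, InfinitePlace.apply] at h2
      have h3 : 0 < ‖σ (α : K)‖ := norm_pos_iff.2 ((map_ne_zero σ).2 hα0)
      rw [norm_mul, norm_inv, Complex.norm_real, Real.norm_of_nonneg (Real.exp_pos _).le,
        ← Real.exp_log h3, ← Real.exp_neg, ← Real.exp_add]
      refine Real.exp_le_exp.2 ?_
      have := (abs_le.1 h2).1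
      linarith))
  rw [← hm, f2] at hc
  have hl := Real.log_le_log (cov_pos hC h1 y _) hc
  rw [Real.log_mul (by positivity) (cov_pos hC h1 x V).ne', Real.log_pow, Real.log_exp] at hl
  unfold lc
  linarith

lemma bad (hC : StCov) (h1 : StNL1) (x : Ob K) (V : Submodule ℚ K) (hx : deg x = 0)
    (hV : V ≠ ⊥) (hl : lc x V ≤ finrank ℚ V * (Real.log (dn K) / (2 * finrank ℚ K))) :
    ∃ J : Ideal (𝓞 K), J ≠ ⊥ ∧ (absNorm J : ℝ) ≤ (2 * finrank ℚ K : ℝ) ^ finrank ℚ K * √(dn K) ∧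
      ∀ q : Ideal (𝓞 K), Bad x V q → q ∣ J := by
  obtain ⟨hp, v, hvV, hv, hv0, hv1⟩ := short hC h1 x V hV
  obtain ⟨J, hJ, hJ0, hJ1⟩ := h1.low K x v hv hv0
  rw [hx, Real.exp_zero, mul_one] at hJ1
  have hn : 0 < finrank ℚ K := finrank_pos
  have hle : finrank ℚ V ≤ finrank ℚ K := Submodule.finrank_le V
  have hn' : (0 : ℝ) < finrank ℚ K := by exact_mod_cast hn
  have hle' : (finrank ℚ V : ℝ) ≤ finrank ℚ K := by exact_mod_cast hle
  refine ⟨J, hJ, ?_, fun q hq => ?_⟩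
  · set L := Real.log (dn K) / (2 * finrank ℚ K) with hL
    have a1 : ‖emb x.2.toAdd v‖ ^ finrank ℚ V ≤ (2 * finrank ℚ V * Real.exp L) ^ finrank ℚ V := by
      rw [mul_pow (2 * finrank ℚ V : ℝ), ← Real.exp_nat_mul]
      exact hv1.trans (mul_le_mul_of_nonneg_left (Real.exp_le_exp.2 hl) (by positivity))
    have a2 : ‖emb x.2.toAdd v‖ ≤ 2 * finrank ℚ V * Real.exp L :=
      (pow_le_pow_iff_left₀ (norm_nonneg _) (by positivity) hp.ne').1 a1
    have a3 : ‖emb x.2.toAdd v‖ ≤ 2 * finrank ℚ K * Real.exp L :=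
      a2.trans (mul_le_mul_of_nonneg_right (by linarith) (Real.exp_pos _).le)
    refine hJ1.trans ((pow_le_pow_left₀ (norm_nonneg _) a3 _).trans (le_of_eq ?_))
    rw [mul_pow (2 * finrank ℚ K : ℝ), ← Real.exp_nat_mul]
    congr 1
    rw [Real.sqrt_eq_rpow, Real.rpow_def_of_pos dn_pos, hL]
    congr 1
    field_simp
  · have h2 := FractionalIdeal.spanSingleton_le_iff_mem.2 (hq v hvV hv)
    rw [← hJ0, mul_comm (x.1 : FractionalIdeal (𝓞 K)⁰ K)] at h2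
    have h3 := mul_le_mul_left h2 ((x.1⁻¹ : (FractionalIdeal (𝓞 K)⁰ K)ˣ) :
      FractionalIdeal (𝓞 K)⁰ K)
    rw [mul_assoc, mul_assoc, Units.mul_inv, mul_one, mul_one] at h3
    exact Ideal.dvd_iff_le.2 ((FractionalIdeal.coeIdeal_le_coeIdeal K).1 h3)

end NL2

theorem blk_NL2 (hC : StCov) (hS : StSub) (h1 : StNL1) : StNL2 where
  bot K _ _ x := by
    rw [lc, sat, Submodule.restrictScalars_bot, inf_bot_eq, hC.bot, Real.log_one]
  sub K _ _ x V W := by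
    have h := hS K _ (emb x.2.toAdd) _ V W (h1.rinj K _) (h1.full K _ x.1.ne_zero)
    have p := NL2.cov_pos hC h1 x
    unfold lc
    rw [← Real.log_mul (p _).ne' (p _).ne', ← Real.log_mul (p _).ne' (p _).ne']
    exact Real.log_le_log (mul_pos (p _) (p _)) h
  bdd K _ _ x hx := by
    refine ⟨-Real.log ((2 * finrank ℚ K : ℝ) ^ finrank ℚ K), ?_⟩
    rintro _ ⟨V, rfl⟩
    by_cases hV : V = ⊥
    · subst hV
      rw [lc, sat, Submodule.restrictScalars_bot, inf_bot_eq, hC.bot, Real.log_one, neg_nonpos]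
      have hn : (1 : ℝ) ≤ finrank ℚ K := by exact_mod_cast (finrank_pos : 0 < finrank ℚ K)
      exact Real.log_nonneg (one_le_pow₀ (by linarith))
    · exact NL2.bdd hC h1 x hx V hV
  quasi K _ _ x y t h V := NL2.quasi hC h1 x y t h V
  bad K _ _ x V hx hV hl := NL2.bad hC h1 x V hx hV hl

end Pool.Agent.Lib.N4
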