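import Pool.Agent.Lib.N4.Blue

set_option autoImplicit false

open NumberField Ideal Module
open scoped nonZeroDivisors

namespace Pool.Agent.Lib.N4

open Pool.Agent.Lib.Stark

namespace NL3

variable {K : Type} [Field K] [NumberField K]

theorem pow_dvd {q : Ideal (𝓞 K)} (hp : (absNorm q).Prime)
    (h2 : ¬q ^ 2 ∣ span {(absNorm q : 𝓞 K)}) (l : ℕ) :
    ∀ m : ℕ, q ^ l ∣ span {(m : 𝓞 K)} → absNorm q ^ l ∣ m := by
  have hq : Prime q := prime_of_isPrime (ne_bot_of_prime hp) (isMaximal_of_prime hp).isPrime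
  obtain ⟨J, hJ⟩ : q ∣ span {(absNorm q : 𝓞 K)} := dvd_iff_le.2 (span_singleton_absNorm_le q)
  have hqJ : ¬q ∣ J := by
    intro h
    apply h2
    rw [hJ, pow_two]
    exact mul_dvd_mul_left q h
  induction l with
  | zero => intro m _; simp
  | succ l ih =>
    intro m hm
    have h1 : q ∣ span {(m : 𝓞 K)} := (dvd_pow_self q l.succ_ne_zero).trans hm
    have h3 := absNorm_dvd_absNorm_of_le (dvd_iff_le.1 h1)
    rw [absNorm_span_natCast] at h3
    obtain ⟨m1, rfl⟩ := hp.dvd_of_dvd_pow h3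
    rw [Nat.cast_mul, ← span_singleton_mul_span_singleton, hJ, mul_assoc, pow_succ',
      mul_dvd_mul_iff_left hq.ne_zero] at hm
    rw [pow_succ']
    exact mul_dvd_mul_left _ (ih m1 (hq.pow_dvd_of_dvd_mul_left l hqJ hm))

theorem fst_eq (x : Ob K) (q : (Ideal (𝓞 K))⁰) (l : ℕ) :
    ((x * ob q ^ l).1 : FractionalIdeal (𝓞 K)⁰ K) =
      x.1 * (((q : Ideal (𝓞 K)) ^ l : Ideal (𝓞 K)) : FractionalIdeal (𝓞 K)⁰ K) := by
  simp [ob, FractionalIdeal.coeIdeal_pow]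

theorem snd_eq (x : Ob K) (q : (Ideal (𝓞 K))⁰) (l : ℕ) (w : InfinitePlace K) :
    x.2.toAdd w = l / finrank ℚ K * Real.log (absNorm (q : Ideal (𝓞 K))) +
      (x * ob q ^ l).2.toAdd w := by
  simp only [ob, Prod.snd_mul, Prod.pow_snd, toAdd_mul, toAdd_pow, toAdd_ofAdd, Pi.add_apply,
    Pi.smul_apply]
  rw [nsmul_eq_mul]
  ring

theorem sat_le (x : Ob K) (q : (Ideal (𝓞 K))⁰) (l : ℕ) (V : Submodule ℚ K) :
    sat (lat ((x * ob q ^ l).1 : FractionalIdeal (𝓞 K)⁰ K)) V ≤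
      sat (lat (x.1 : FractionalIdeal (𝓞 K)⁰ K)) V := by
  intro v hv
  rw [mem_sat, mem_lat] at hv ⊢
  refine ⟨?_, hv.2⟩
  have h := hv.1
  rw [fst_eq] at h
  have : (x.1 : FractionalIdeal (𝓞 K)⁰ K) *
      (((q : Ideal (𝓞 K)) ^ l : Ideal (𝓞 K)) : FractionalIdeal (𝓞 K)⁰ K) ≤ x.1 * 1 :=
    mul_le_mul_right FractionalIdeal.coeIdeal_le_one _
  rw [mul_one] at this
  exact this h

theorem key (hC : StCov) (h1 : StNL1) (x : Ob K) (V : Submodule ℚ K) (q : (Ideal (𝓞 K))⁰)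
    (l : ℕ) : ∃ m : ℕ, m ≠ 0 ∧ (∀ v ∈ V, v ∈ (x.1 : FractionalIdeal (𝓞 K)⁰ K) →
      m • v ∈ ((x * ob q ^ l).1 : FractionalIdeal (𝓞 K)⁰ K)) ∧
      lc x V + Real.log m -
        finrank ℚ V * (l / finrank ℚ K * Real.log (absNorm (q : Ideal (𝓞 K)))) ≤
        lc (x * ob q ^ l) V := by
  set y := x * ob q ^ l with hy
  set c : ℝ := l / finrank ℚ K * Real.log (absNorm (q : Ideal (𝓞 K))) with hc
  obtain ⟨fx, rx⟩ := hC.rank K _ V (h1.full K _ x.1.ne_zero)
  obtain ⟨fy, ry⟩ := hC.rank K _ V (h1.full K _ y.1.ne_zero)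
  obtain ⟨i0, i1⟩ := hC.idx K _ (emb x.2.toAdd) _ _ fx (sat_le x q l V) (ry.trans rx.symm)
  refine ⟨_, i0, fun v hv hvx => ?_, ?_⟩
  · exact (mem_sat.1 (AddSubgroup.nsmul_relIndex_mem
      (sat (lat (y.1 : FractionalIdeal (𝓞 K)⁰ K)) V).toAddSubgroup
      (show v ∈ (sat (lat (x.1 : FractionalIdeal (𝓞 K)⁰ K)) V).toAddSubgroup from ⟨hvx, hv⟩))).1
  · have h2 := hC.comp K _ _ (emb y.2.toAdd) (emb x.2.toAdd) (Real.exp c • LinearMap.id)
      (Real.exp c) _ fy (Real.exp_pos c).le ?_ ?_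
    · have p1 := hC.pos K _ (emb x.2.toAdd) _ (h1.rinj K _) fx
      have p2 := hC.pos K _ (emb y.2.toAdd) _ (h1.rinj K _) fy
      have p3 : (0 : ℝ) < _ := Nat.cast_pos.2 (Nat.pos_of_ne_zero i0)
      rw [i1, ry] at h2
      have h3 := Real.log_le_log (mul_pos p3 p1) h2
      rw [Real.log_mul p3.ne' p1.ne', Real.log_mul (by positivity) p2.ne', Real.log_pow,
        Real.log_exp] at h3
      unfold lc
      linarith
    · intro a
      ext σ
      simp only [LinearMap.smul_apply, LinearMap.id_apply, PiLp.smul_apply, emb_apply]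
      rw [snd_eq x q l, Real.exp_add, Complex.real_smul, Complex.ofReal_mul, mul_assoc]
    · intro z
      simp only [LinearMap.smul_apply, LinearMap.id_apply, norm_smul, Real.norm_eq_abs,
        abs_of_pos (Real.exp_pos c), le_refl]

end NL3

theorem blk_NL3 (hC : StCov) (h1 : StNL1) : StNL3 := by
  refine ⟨fun K _ _ x V q l => ?_, fun K _ _ x V q l hp h2 hb => ?_⟩
  · obtain ⟨m, hm, -, h⟩ := NL3.key hC h1 x V q l
    have : 0 ≤ Real.log m := Real.log_natCast_nonneg m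
    linarith
  · obtain ⟨m, hm, hv, h⟩ := NL3.key hC h1 x V q l
    unfold Bad at hb
    push Not at hb
    obtain ⟨v, hvV, hvx, hvq⟩ := hb
    have hv0 : v ≠ 0 := by
      rintro rfl
      exact hvq (FractionalIdeal.zero_mem _)
    obtain ⟨J, -, hJ, -⟩ := h1.low K x v hvx hv0
    have hq : Prime (q : Ideal (𝓞 K)) :=
      prime_of_isPrime (ne_bot_of_prime hp) (isMaximal_of_prime hp).isPrime
    have hqJ : ¬(q : Ideal (𝓞 K)) ∣ J := by
      intro hd
      apply hvq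
      rw [← FractionalIdeal.spanSingleton_le_iff_mem, ← hJ, mul_comm]
      exact mul_le_mul_right ((FractionalIdeal.coeIdeal_le_coeIdeal K).2 (dvd_iff_le.1 hd)) _
    have h3 := hv v hvV hvx
    have h4 : (q : Ideal (𝓞 K)) ^ l ∣ J * span {(m : 𝓞 K)} := by
      rw [dvd_iff_le, ← FractionalIdeal.coeIdeal_le_coeIdeal K]
      rw [NL3.fst_eq, ← FractionalIdeal.spanSingleton_le_iff_mem, nsmul_eq_mul,
        ← FractionalIdeal.spanSingleton_mul_spanSingleton, ← hJ] at h3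
      refine le_of_mul_le_mul_left (a := (x.1 : FractionalIdeal (𝓞 K)⁰ K)) ?_
        (pos_iff_ne_zero.2 x.1.ne_zero)
      refine le_trans (le_of_eq ?_) h3
      rw [FractionalIdeal.coeIdeal_mul, FractionalIdeal.coeIdeal_span_singleton, map_natCast]
      ring
    have h5 := Nat.le_of_dvd (Nat.pos_of_ne_zero hm)
      (NL3.pow_dvd hp h2 l m (hq.pow_dvd_of_dvd_mul_left l hqJ h4))
    have h6 : ((absNorm (q : Ideal (𝓞 K)) : ℝ)) ^ l ≤ m := by exact_mod_cast h5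
    have h7 := Real.log_le_log (pow_pos (Nat.cast_pos.2 hp.pos) l) h6
    rw [Real.log_pow] at h7
    linarith

end Pool.Agent.Lib.N4
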