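import Pool.Agent.Lib.N4.Blue

set_option autoImplicit false

open NumberField Ideal Module

namespace Pool.Agent.Lib.N4

namespace POOL

variable {K : Type} [Field K] [NumberField K]

lemma cnt (J : Ideal (𝓞 K)) (Q : Finset (Ideal (𝓞 K))) (z : ℝ) (hJ : J ≠ ⊥) (hz : 0 ≤ z)
    (h : ∀ q ∈ Q, (absNorm q).Prime ∧ z ≤ absNorm q ∧ q ∣ J) : z ^ Q.card ≤ absNorm J := by
  have h1 : ∏ q ∈ Q, q ∣ J := Finset.prod_dvd_of_coprime (fun p hp q hq hpq =>
    isCoprime_iff_sup_eq.2 ((isMaximal_of_prime (h p hp).1).coprime_of_ne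
      (isMaximal_of_prime (h q hq).1) hpq)) fun q hq => (h q hq).2.2
  have h2 := Nat.le_of_dvd (Nat.pos_of_ne_zero (absNorm_eq_zero_iff.not.2 hJ))
    (map_dvd absNorm h1)
  rw [map_prod] at h2
  rw [← Finset.prod_const]
  exact (Finset.prod_le_prod (fun _ _ => hz) fun q hq => (h q hq).2.1).trans (by exact_mod_cast h2)

attribute [local instance] FractionRing.liftAlgebra in
lemma dvd_diff {q : Ideal (𝓞 K)} (hq : (absNorm q).Prime)
    (h : q ^ 2 ∣ span {(absNorm q : 𝓞 K)}) : q ∣ differentIdeal ℤ (𝓞 K) := by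
  have hp : Prime (absNorm q : ℤ) := Nat.prime_iff_prime_int.1 hq
  have hb : span {(absNorm q : ℤ)} ≠ ⊥ := span_singleton_eq_bot.not.2 hp.ne_zero
  have := ((span_singleton_prime hp.ne_zero).2 hp).isMaximal hb
  simpa using pow_sub_one_dvd_differentIdeal ℤ q 2 hb (by simpa [Ideal.map_span] using h)

end POOL

theorem blk_POOL (hI : StIdc) : StPool := by
  refine ⟨fun n θ η hθ hη => ?_, fun K _ _ => POOL.cnt⟩
  classical
  obtain ⟨C, hC, hle⟩ := hI.le n (1 / 2) (by norm_num)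
  have hδ : 0 < η * θ := mul_pos hη hθ
  obtain ⟨D₀, hD₀⟩ := Filter.eventually_atTop.1 (((tendsto_rpow_atTop
    (by positivity : 0 < η * θ / 4)).eventually_ge_atTop (2 * C + 4 / (η * θ))).and
      (Filter.eventually_gt_atTop 1))
  refine ⟨D₀, fun K _ _ hn hD hnp => ?_⟩
  obtain ⟨h1, h2⟩ := hD₀ _ hD
  have hD0 : 0 ≤ dn K := dn_pos.le
  have hz : 1 ≤ dn K ^ (η * θ / 2) := Real.one_le_rpow h2.le (by positivity)
  have hw : 1 ≤ dn K ^ (η * θ / 4) := Real.one_le_rpow h2.le (by positivity)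
  set A := (finite_np (K := K) (dn K ^ η)).toFinset with hA
  have hm : ∀ q ∈ A, (absNorm q).Prime ∧ (absNorm q : ℝ) ≤ dn K ^ η := fun q hq => by
    simpa [hA] using hq
  have h3 : np K (dn K ^ η) = A.card := Set.ncard_eq_toFinset_card _ _
  set A1 := A.filter fun q => (absNorm q : ℝ) < dn K ^ (η * θ / 2)
  set A2 := A.filter fun q => dn K ^ (η * θ / 2) ≤ absNorm q ∧ q ^ 2 ∣ span {(absNorm q : 𝓞 K)}
  have h4 : (A1.card : ℝ) ≤ C * (dn K ^ (η * θ / 4)) ^ 3 := by
    have := hle K hn.le _ hz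
    rw [← Real.rpow_mul hD0] at this
    rw [← Real.rpow_natCast, ← Real.rpow_mul hD0, show η * θ / 4 * (3 : ℕ) =
      η * θ / 2 * (1 + 1 / 2) by push_cast; ring]
    refine le_trans (Nat.cast_le.2 ?_) this
    rw [← Set.ncard_coe_finset]
    exact Set.ncard_le_ncard (fun q hq => ⟨ne_bot_of_prime (hm q (Finset.mem_filter.1 hq).1).1,
      (Finset.mem_filter.1 hq).2.le⟩) ((finite_norm_le _).subset fun _ h => h.2)
  have h5 : (A2.card : ℝ) ≤ 2 / (η * θ) := by
    have := POOL.cnt (differentIdeal ℤ (𝓞 K)) A2 _ differentIdeal_ne_bot (zero_le_one.trans hz)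
      fun q hq => by
        obtain ⟨a, b, c⟩ := Finset.mem_filter.1 hq
        exact ⟨(hm q a).1, b, POOL.dvd_diff (hm q a).1 c⟩
    rw [absNorm_differentIdeal K, ← Real.rpow_natCast, ← Real.rpow_mul hD0] at this
    have h6 := (Real.rpow_le_rpow_left_iff h2).1 (this.trans_eq (Real.rpow_one (dn K)).symm)
    rw [le_div_iff₀ hδ]
    linarith
  refine ⟨A \ (A1 ∪ A2), ?_, fun q hq => ?_⟩
  · have h6 : A.card ≤ (A \ (A1 ∪ A2)).card + (A1.card + A2.card) :=
      Finset.card_le_card_sdiff_add_card.trans (by gcongr; exact Finset.card_union_le _ _)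
    have h7 : (A.card : ℝ) ≤ (A \ (A1 ∪ A2)).card + (A1.card + A2.card) := by exact_mod_cast h6
    have h8 : dn K ^ (η * θ) = (dn K ^ (η * θ / 4)) ^ 4 := by
      rw [← Real.rpow_natCast, ← Real.rpow_mul hD0]; congr 1; push_cast; ring
    rw [h3, h8] at hnp
    rw [h8]
    have h9 : 0 < 2 / (η * θ) := by positivity
    have h10 : 4 / (η * θ) = 2 * (2 / (η * θ)) := by ring
    have h11 := one_le_pow₀ (n := 3) hw
    rw [h10] at h1
    generalize dn K ^ (η * θ / 4) = w at *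
    nlinarith [mul_le_mul_of_nonneg_right h1 (zero_le_one.trans h11)]
  · obtain ⟨a, b⟩ := Finset.mem_sdiff.1 hq
    rw [Finset.mem_union, not_or] at b
    have c : dn K ^ (η * θ / 2) ≤ absNorm q := not_lt.1 fun c => b.1 (Finset.mem_filter.2 ⟨a, c⟩)
    exact ⟨(hm q a).1, c, (hm q a).2, fun d => b.2 (Finset.mem_filter.2 ⟨a, c, d⟩)⟩

end Pool.Agent.Lib.N4
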