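import Pool.Agent.Lib.N4.Blue

set_option autoImplicit false

open Module MeasureTheory

namespace Pool.Agent.Lib.N4

namespace SHORT

theorem box (m : ℕ) (hm : 0 < m) (B : Basis (Fin m) ℝ (Fin m → ℝ)) (R : ℝ) (hR : 0 < R)
    (h : |(Matrix.of B).det| < R ^ m) : ∃ c : Fin m → ℤ, c ≠ 0 ∧ ‖∑ i, (c i : ℝ) • B i‖ ≤ R := by
  have : Nonempty (Fin m) := ⟨⟨0, hm⟩⟩
  have : Countable (Submodule.span ℤ (Set.range B)).toAddSubgroup :=
    inferInstanceAs (Countable (Submodule.span ℤ (Set.range B)))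
  obtain ⟨x, hx, hx'⟩ := exists_ne_zero_mem_lattice_of_measure_mul_two_pow_lt_measure
    (ZSpan.isAddFundamentalDomain' B volume) (s := Metric.ball 0 R)
    (fun x hx => by simpa using hx) (convex_ball _ _) (by
      rw [ZSpan.volume_fundamentalDomain, Real.volume_pi_ball _ hR, finrank_pi, Fintype.card_fin,
        ← ENNReal.ofReal_ofNat 2, ← ENNReal.ofReal_pow zero_le_two,
        ← ENNReal.ofReal_mul (abs_nonneg _), ENNReal.ofReal_lt_ofReal_iff (by positivity), mul_pow,
        mul_comm]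
      gcongr)
  obtain ⟨c, hc⟩ := (Submodule.mem_span_range_iff_exists_fun ℤ).1 x.2
  refine ⟨c, fun h0 => hx (Subtype.ext ?_), ?_⟩
  · rw [← hc, h0]
    simp
  · simp only [Int.cast_smul_eq_zsmul, hc]
    exact (mem_ball_zero_iff.1 hx').le

end SHORT

theorem blk_SHORT : StShort := by
  intro E _ _ m v hm hv
  let U := Submodule.span ℝ (Set.range v)
  have : FiniteDimensional ℝ U := FiniteDimensional.span_of_finite ℝ (Set.finite_range v)
  have hU : finrank ℝ U = m := by rw [finrank_span_eq_card hv, Fintype.card_fin]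
  let b : OrthonormalBasis (Fin m) ℝ U := (stdOrthonormalBasis ℝ U).reindex (finCongr hU)
  let w := Basis.span hv
  let B := w.map b.toBasis.equivFun
  have h1 : gr v = (Matrix.of B).det ^ 2 := by
    have e : Matrix.gram ℝ v = Matrix.gram ℝ w := by
      ext i j
      simp [w, Matrix.gram_apply, Basis.span_apply]
    rw [gr, e, Matrix.gram_eq_conjTranspose_mul b, Matrix.det_mul, Matrix.det_conjTranspose,
      star_trivial, ← sq, ← Matrix.det_transpose]
    rfl
  have hd : 0 < |(Matrix.of B).det| := by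
    have := (Matrix.posDef_gram_of_linearIndependent hv).det_pos
    rw [← gr, h1] at this
    exact abs_pos.2 fun h => by simp [h] at this
  rw [h1, Real.sqrt_sq_eq_abs]
  set d := |(Matrix.of B).det| with hd'
  have hr : (d ^ (m : ℝ)⁻¹) ^ m = d := Real.rpow_inv_natCast_pow hd.le hm.ne'
  have hr0 : 0 < d ^ (m : ℝ)⁻¹ := by positivity
  obtain ⟨c, hc, hc'⟩ := SHORT.box m hm B (2 * d ^ (m : ℝ)⁻¹) (by positivity) (by
    rw [mul_pow, hr]
    exact lt_mul_of_one_lt_left hd (one_lt_pow₀ one_lt_two hm.ne'))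
  refine ⟨c, hc, ?_⟩
  have h2 : ∑ i, (c i : ℝ) • v i = ((∑ k, (∑ i, (c i : ℝ) • B i) k • b k : U) : E) := by
    have : ∑ i, (c i : ℝ) • B i = b.toBasis.equivFun (∑ i, (c i : ℝ) • w i) := by
      simp only [B, map_sum, map_smul, Basis.map_apply]
    rw [this]
    have e := b.toBasis.sum_equivFun (∑ i, (c i : ℝ) • w i)
    simp only [OrthonormalBasis.coe_toBasis] at e
    rw [e]
    simp [w, Basis.span_apply]
  have h3 : ‖∑ i, (c i : ℝ) • v i‖ ≤ m * (2 * d ^ (m : ℝ)⁻¹) := by
    rw [h2, ← Submodule.coe_norm]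
    refine (norm_sum_le _ _).trans ?_
    refine (Finset.sum_le_card_nsmul _ _ (2 * d ^ (m : ℝ)⁻¹) fun k _ => ?_).trans_eq (by simp)
    rw [norm_smul, b.orthonormal.1 k, mul_one]
    exact (norm_le_pi_norm _ k).trans hc'
  refine (pow_le_pow_left₀ (norm_nonneg _) h3 m).trans_eq ?_
  rw [← mul_assoc, mul_pow, hr, mul_comm (m : ℝ)]

end Pool.Agent.Lib.N4
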