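import Pool.Agent.Lib.N4.Blue

set_option autoImplicit false

open Module

namespace Pool.Agent.Lib.N4

namespace SUB

variable {K : Type} [AddCommGroup K]

lemma isB_sum {C A : Submodule ℤ K} {κ κ' : Type} {c : κ → K} {a : κ' → K} (hc : IsB C c)
    (ha : IsB A a) (hd : Disjoint C A) : IsB (C ⊔ A) (Sum.elim c a) := by
  refine ⟨hc.1.sum_type ha.1 (by rw [hc.2, ha.2]; exact hd), ?_⟩
  rw [Set.Sum.elim_range, Submodule.span_union, hc.2, ha.2]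

lemma isB_rank {A : Submodule ℤ K} {κ : Type} [Fintype κ] {a : κ → K} (ha : IsB A a) :
    finrank ℤ A = Fintype.card κ := by
  rw [← ha.2]
  exact finrank_span_eq_card ha.1

lemma fg_of_le {A B : Submodule ℤ K} (hA : A.FG) (h : B ≤ A) : B.FG := by
  have : IsNoetherian ℤ A := isNoetherian_of_fg_of_noetherian A hA
  have h1 : (B.comap A.subtype).FG := IsNoetherian.noetherian _
  have h2 := h1.map A.subtype
  rwa [Submodule.map_comap_subtype, inf_eq_right.2 h] at h2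

lemma compl {C A : Submodule ℤ K} (hA : A.FG) (hCA : C ≤ A)
    (hs : ∀ x ∈ A, ∀ m : ℤ, m ≠ 0 → m • x ∈ C → x ∈ C) :
    ∃ A₁ : Submodule ℤ K, A₁ ≤ A ∧ Disjoint C A₁ ∧ C ⊔ A₁ = A := by
  have : Module.Finite ℤ A := Module.Finite.iff_fg.2 hA
  set C' : Submodule ℤ A := C.comap A.subtype with hC'
  have : NoZeroSMulDivisors ℤ (A ⧸ C') := by
    refine ⟨fun {m x} h => ?_⟩
    obtain ⟨y, rfl⟩ := C'.mkQ_surjective x
    by_cases hm : m = 0
    · exact Or.inl hm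
    right
    rw [← map_smul, Submodule.mkQ_apply, Submodule.Quotient.mk_eq_zero] at h
    rw [Submodule.mkQ_apply, Submodule.Quotient.mk_eq_zero]
    exact hs y y.2 m hm h
  have : Module.Free ℤ (A ⧸ C') := Module.free_of_finite_type_torsion_free'
  obtain ⟨s, hs'⟩ := Module.projective_lifting_property C'.mkQ LinearMap.id C'.mkQ_surjective
  have hs2 : ∀ x, C'.mkQ (s x) = x := fun x => LinearMap.congr_fun hs' x
  refine ⟨(LinearMap.range s).map A.subtype, ?_, ?_, ?_⟩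
  · rintro _ ⟨y, -, rfl⟩
    exact y.2
  · rw [Submodule.disjoint_def]
    rintro _ hx ⟨_, ⟨z, rfl⟩, rfl⟩
    have h1 : C'.mkQ (s z) = 0 := by
      rw [Submodule.mkQ_apply, Submodule.Quotient.mk_eq_zero]
      exact hx
    rw [hs2] at h1
    simp [h1]
  · refine le_antisymm (sup_le hCA ?_) fun x hx => ?_
    · rintro _ ⟨y, -, rfl⟩
      exact y.2
    · have h1 : (⟨x, hx⟩ : A) - s (C'.mkQ ⟨x, hx⟩) ∈ C' := by
        rw [← Submodule.Quotient.mk_eq_zero, ← Submodule.mkQ_apply, map_sub, hs2, sub_self]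
      refine Submodule.mem_sup.2 ⟨_, h1, _, ⟨_, ⟨C'.mkQ ⟨x, hx⟩, rfl⟩, rfl⟩, ?_⟩
      simp

variable [Module ℚ K]

lemma fin_dim {Λ : Submodule ℤ K} (h : Full Λ) : FiniteDimensional ℚ K := by
  obtain ⟨⟨s, hs⟩, h2⟩ := h
  refine ⟨⟨s, eq_top_iff.2 fun x _ => ?_⟩⟩
  obtain ⟨m, hm, hx⟩ := h2 x
  rw [← hs] at hx
  have h3 : m • x ∈ Submodule.span ℚ (s : Set K) := Submodule.span_le_restrictScalars ℤ ℚ _ hx
  have h4 := Submodule.smul_mem _ ((m : ℚ)⁻¹) h3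
  rwa [← Int.cast_smul_eq_zsmul ℚ, smul_smul, inv_mul_cancel₀ (by exact_mod_cast hm.ne'),
    one_smul] at h4

lemma sat_div {V : Submodule ℚ K} {x : K} {m : ℤ} (hm : m ≠ 0) (h : m • x ∈ V) : x ∈ V := by
  have h4 := V.smul_mem ((m : ℚ)⁻¹) h
  rwa [← Int.cast_smul_eq_zsmul ℚ, smul_smul, inv_mul_cancel₀ (by exact_mod_cast hm),
    one_smul] at h4

omit [AddCommGroup K] [Module ℚ K] in
lemma elim_map {E κ κ' : Type} (f : K → E) (c : κ → K) (a : κ' → K) :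
    (fun i => f (Sum.elim c a i)) = Sum.elim (fun i => f (c i)) (fun i => f (a i)) := by
  funext i
  cases i <;> rfl

end SUB

theorem blk_SUB (hG : StGram) (hC : StCov) : StSub := by
  intro K E _ _ _ _ ι Λ V W _ hΛ
  have := SUB.fin_dim hΛ
  obtain ⟨fA, rA⟩ := hC.rank K Λ V hΛ
  obtain ⟨fB, rB⟩ := hC.rank K Λ W hΛ
  obtain ⟨fC, rC⟩ := hC.rank K Λ (V ⊓ W) hΛ
  obtain ⟨fS, rS⟩ := hC.rank K Λ (V ⊔ W) hΛ
  set A := sat Λ V with hA
  set B := sat Λ W with hB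
  set C := sat Λ (V ⊓ W) with hC'
  set S := sat Λ (V ⊔ W) with hS
  have mC : ∀ x, x ∈ C ↔ x ∈ A ∧ x ∈ B := fun x => by
    simp only [hA, hB, hC', mem_sat, Submodule.mem_inf]
    tauto
  obtain ⟨A₁, a1, a2, a3⟩ := SUB.compl (C := C) fA (fun x hx => ((mC x).1 hx).1)
    fun x hx m hm h => mem_sat.2 ⟨(mem_sat.1 hx).1, SUB.sat_div hm (mem_sat.1 h).2⟩
  obtain ⟨B₁, b1, b2, b3⟩ := SUB.compl (C := C) fB (fun x hx => ((mC x).1 hx).2)
    fun x hx m hm h => mem_sat.2 ⟨(mem_sat.1 hx).1, SUB.sat_div hm (mem_sat.1 h).2⟩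
  obtain ⟨c, hc⟩ := hC.ex K C fC
  obtain ⟨a, ha⟩ := hC.ex K A₁ (SUB.fg_of_le fA a1)
  obtain ⟨b, hb⟩ := hC.ex K B₁ (SUB.fg_of_le fB b1)
  rw [Submodule.disjoint_def] at a2 b2
  have d1 : Disjoint A₁ B₁ := Submodule.disjoint_def.2 fun x h1 h2 =>
    a2 x ((mC x).2 ⟨a1 h1, b1 h2⟩) h1
  have d2 : Disjoint C (A₁ ⊔ B₁) := by
    refine Submodule.disjoint_def.2 fun x h1 h2 => ?_
    obtain ⟨y, hy, z, hz, rfl⟩ := Submodule.mem_sup.1 h2
    have e1 : z ∈ A := by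
      have := A.sub_mem ((mC _).1 h1).1 (a1 hy)
      rwa [add_sub_cancel_left] at this
    have e2 : z = 0 := b2 z ((mC z).2 ⟨e1, b1 hz⟩) hz
    rw [e2, add_zero] at h1 ⊢
    exact a2 y h1 hy
  have iA : IsB A (Sum.elim c a) := a3 ▸ SUB.isB_sum hc ha (Submodule.disjoint_def.2 a2)
  have iB : IsB B (Sum.elim c b) := b3 ▸ SUB.isB_sum hc hb (Submodule.disjoint_def.2 b2)
  have iS := SUB.isB_sum hc (SUB.isB_sum ha hb d1) d2
  have hle : C ⊔ (A₁ ⊔ B₁) ≤ S := by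
    have e1 : A ≤ S := fun x hx => mem_sat.2 ⟨(mem_sat.1 hx).1,
      Submodule.mem_sup_left (mem_sat.1 hx).2⟩
    have e2 : B ≤ S := fun x hx => mem_sat.2 ⟨(mem_sat.1 hx).1,
      Submodule.mem_sup_right (mem_sat.1 hx).2⟩
    exact sup_le (fun x hx => e1 ((mC x).1 hx).1) (sup_le (a1.trans e1) (b1.trans e2))
  have hr : finrank ℤ (C ⊔ (A₁ ⊔ B₁) : Submodule ℤ K) = finrank ℤ S := by
    have e1 := SUB.isB_rank iA
    have e2 := SUB.isB_rank iB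
    have e3 := SUB.isB_rank iS
    have e4 := Submodule.finrank_sup_add_finrank_inf_eq V W
    simp only [Fintype.card_sum, Fintype.card_fin] at e1 e2 e3
    omega
  obtain ⟨i1, i2⟩ := hC.idx K E ι S _ fS hle hr
  have n0 : 0 ≤ cov ι S := Real.sqrt_nonneg _
  have n1 : cov ι S ≤ cov ι (C ⊔ (A₁ ⊔ B₁)) := by
    rw [i2]
    refine le_mul_of_one_le_left n0 ?_
    exact_mod_cast Nat.one_le_iff_ne_zero.2 i1
  have n2 : 0 ≤ cov ι C := Real.sqrt_nonneg _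
  refine (mul_le_mul_of_nonneg_left n1 n2).trans ?_
  rw [hC.eq K E ι _ _ _ iS, hC.eq K E ι _ _ _ iA, hC.eq K E ι _ _ _ iB, hC.eq K E ι _ _ _ hc,
    ← Real.sqrt_mul (hG.nonneg _ _ _), ← Real.sqrt_mul (hG.nonneg _ _ _)]
  refine Real.sqrt_le_sqrt ?_
  rw [SUB.elim_map, SUB.elim_map, SUB.elim_map, SUB.elim_map]
  exact hG.kot _ _ _ _ _ _ _

end Pool.Agent.Lib.N4
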