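import Pool.Agent.Lib.N4.Blue

set_option autoImplicit false

open NumberField Ideal Module Filter Topology
open scoped nonZeroDivisors

namespace Pool.Agent.Lib.N4

namespace TS

section Abs

variable {K : Type} [AddCommGroup K] [Module ℚ K] [FiniteDimensional ℚ K] {τ s a : ℝ}

lemma rank_pos {V : Submodule ℚ K} (h : V ≠ ⊥) : (1 : ℝ) ≤ finrank ℚ V :=
  Nat.one_le_cast.2 (Nat.pos_of_ne_zero fun e => h (Submodule.finrank_eq_zero.1 e))

lemma bdd {L : Submodule ℚ K → ℝ} (hL : BddBelow (Set.range L)) (hs : 0 ≤ s) (hτ : 0 ≤ τ) :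
    BddAbove (Hh τ s a L '' {V | V ≠ ⊥}) := by
  obtain ⟨m, hm⟩ := hL
  refine ⟨finrank ℚ K * τ + s * (a + |m|), ?_⟩
  rintro _ ⟨V, hV, rfl⟩
  have h1 := rank_pos hV
  have h2 : (finrank ℚ V : ℝ) ≤ finrank ℚ K := Nat.cast_le.2 V.finrank_le
  have h3 : -|m| ≤ L V / finrank ℚ V := by
    rw [le_div_iff₀ (by linarith)]
    have := hm ⟨V, rfl⟩
    nlinarith [neg_abs_le m, abs_nonneg m]
  exact add_le_add (mul_le_mul_of_nonneg_right h2 hτ)
    (mul_le_mul_of_nonneg_left (by linarith) hs)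

lemma quasi [Nontrivial K] {L L' : Submodule ℚ K → ℝ} (hL : BddBelow (Set.range L')) (hs : 0 ≤ s)
    (hτ : 0 ≤ τ) (h : ∀ V : Submodule ℚ K, ∃ V' : Submodule ℚ K, finrank ℚ V' = finrank ℚ V ∧
      L' V' ≤ L V + finrank ℚ V * 1) : Ph τ s a L ≤ s + Ph τ s a L' := by
  refine csSup_le ⟨_, ⊤, top_ne_bot, rfl⟩ ?_
  rintro _ ⟨V, hV, rfl⟩
  obtain ⟨V', h1, h2⟩ := h V
  have h3 := rank_pos hV
  have h4 : V' ≠ ⊥ := by
    rintro rfl
    rw [← h1, finrank_bot] at h3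
    norm_num at h3
  have h5 : Hh τ s a L' V' ≤ Ph τ s a L' := le_csSup (bdd hL hs hτ) ⟨V', h4, rfl⟩
  have h6 : L' V' / finrank ℚ V ≤ L V / finrank ℚ V + 1 := by
    rw [div_add_one (by linarith)]
    exact div_le_div_of_nonneg_right (by linarith) (by linarith)
  simp only [Hh, h1] at h5 ⊢
  nlinarith

end Abs

lemma small_c (C α β γ B : ℝ) (hα : 0 < α) (hβ : 0 < β) (hγ : 0 < γ) : ∃ L₀ : ℝ, ∀ L, L₀ ≤ L →
    C * (Real.exp (-(α * L)) + Real.exp (-(β * L)) + B * Real.exp (-(γ * L))) ≤ 1 / 2 := by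
  have k : ∀ δ : ℝ, 0 < δ → Tendsto (fun L => Real.exp (-(δ * L))) atTop (𝓝 0) := fun δ hδ =>
    Real.tendsto_exp_neg_atTop_nhds_zero.comp (tendsto_id.const_mul_atTop hδ)
  have h := (((k α hα).add (k β hβ)).add ((k γ hγ).const_mul B)).const_mul C
  simp only [add_zero, mul_zero] at h
  exact eventually_atTop.1 (h.eventually (ge_mem_nhds (by norm_num)))

variable {K : Type} [Field K] [NumberField K]

/-- Objects of degree zero whose class is an `l`-th power. -/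
def grp (K : Type) [Field K] [NumberField K] (l : ℕ) : Subgroup (Ob K) where
  carrier := {x | deg x = 0 ∧ cls x ∈ pw l (ClassGroup (𝓞 K))}
  mul_mem' := fun {x y} hx hy => ⟨by rw [deg_mul, hx.1, hy.1, add_zero],
    cls_mul x y ▸ mul_mem hx.2 hy.2⟩
  one_mem' := ⟨deg_one, cls_one (K := K) ▸ one_mem _⟩
  inv_mem' := fun {x} hx => ⟨by rw [deg_inv, hx.1, neg_zero], cls_inv x ▸ inv_mem hx.2⟩

/-- The Margulis inequality for the walk. -/
lemma step (hM : StMI) (h1 : StNL1) (h2 : StNL2) (h3 : StNL3) (hP : StPool) {l : ℕ} (hl : 1 ≤ l)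
    {θ θ' η : ℝ} (hθ : 0 < θ) (hθ' : 0 < θ') (hη : 0 < η) (hL : 1 ≤ Real.log (dn K))
    (Q : Finset (Ideal (𝓞 K))) (hQ : ∀ q ∈ Q, (absNorm q).Prime ∧
      dn K ^ (η * θ / 2) ≤ absNorm q ∧ (absNorm q : ℝ) ≤ dn K ^ η ∧
        ¬q ^ 2 ∣ span {(absNorm q : 𝓞 K)}) (st : Q → Ob K)
    (hst : ∀ q : Q, st q =
      ob ⟨q.1, mem_nonZeroDivisors_of_ne_zero (ne_bot_of_prime (hQ q.1 q.2).1)⟩ ^ l)
    {n L τ s a : ℝ} (hn : n = finrank ℚ K) (hLd : L = Real.log (dn K))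
    (hτ : τ = (n + 1) * (2 * (θ' * η * L))) (hs : s = n * θ' / l) (ha : a = L / (2 * n))
    (x : Ob K) (hx : deg x = 0) :
    ∑ q, Real.exp (Ph τ s a (lc (x * st q))) ≤ Fintype.card Q * Real.exp (n * τ) +
      (Fintype.card Q * (Real.exp (-(θ' * η * L)) + Real.exp (-(θ' * η * θ / (2 * n) * L))) +
        n * ((2 * n * Real.log (2 * n) + 1) / (η * θ)) * Real.exp (θ' * η * L)) *
          Real.exp (Ph τ s a (lc x)) := by
  have hn1 : 1 ≤ n := hn ▸ Nat.one_le_cast.2 finrank_pos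
  have hl1 : (1 : ℝ) ≤ l := Nat.one_le_cast.2 hl
  rw [← hLd] at hL
  have hlog : 0 ≤ Real.log (2 * n) := Real.log_nonneg (by linarith)
  have hD := dn_pos (K := K)
  have hup : ∀ q : Q, Real.log (absNorm q.1) ≤ η * L := fun q => by
    rw [hLd, ← Real.log_rpow hD]
    exact Real.log_le_log (Nat.cast_pos.2 (hQ q.1 q.2).1.pos) (hQ q.1 q.2).2.2.1
  have hlo : ∀ q : Q, η * θ / 2 * L ≤ Real.log (absNorm q.1) := fun q => by
    rw [hLd, ← Real.log_rpow hD]
    exact Real.log_le_log (Real.rpow_pos_of_pos hD _) (hQ q.1 q.2).2.1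
  have e1 : s * (l / n * (η * L)) = θ' * η * L := by rw [hs]; field_simp
  have e2 : s * (l / n * (η * θ / 2 * L)) / n = θ' * η * θ / (2 * n) * L := by rw [hs]; field_simp
  have e3 : n * a = L / 2 := by rw [ha]; field_simp
  have key := hM K (lc x) Q (fun q => lc (x * st q)) (fun V q => Bad x V q.1) τ s a
    (2 * (θ' * η * L)) (l / n * (η * L)) (l / n * (η * θ / 2 * L))
    ((2 * n * Real.log (2 * n) + 1) / (η * θ)) (by rw [hs]; positivity) (by positivity)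
    (by positivity) (by positivity) (by positivity) (by rw [← hn, hτ]) (h2.bot K x)
    (by rw [h1.top, hx, ← hn, e3, hLd, zero_add]) (h2.sub K x) (h2.bdd K x hx)
    (fun q => by rw [h1.top, deg_mul, hx, hst, deg_pow, deg_ob, ← hn, e3, hLd]; simp)
    (fun q V => ?_) (fun q V hV hV' hb => ?_) (fun V hV hV' => ?_)
  · rw [← hn, e1, e2, show θ' * η * L - 2 * (θ' * η * L) = -(θ' * η * L) by ring] at key
    exact key
  · rw [hst]
    refine le_trans ?_ (h3.all K x V _ l)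
    rw [← hn]
    exact sub_le_sub_left (mul_le_mul_of_nonneg_left
      (mul_le_mul_of_nonneg_left (hup q) (by positivity)) (Nat.cast_nonneg _)) _
  · rw [hst]
    refine le_trans ?_ (h3.good K x V _ l (hQ q.1 q.2).1 (hQ q.1 q.2).2.2.2 hb)
    rw [← hn]
    have h4 : (finrank ℚ V : ℝ) + 1 ≤ n := by
      rw [hn]; exact_mod_cast Submodule.finrank_lt hV'
    have h5 := hlo q
    have h6 : 0 ≤ η * θ / 2 * L := by positivity
    generalize Real.log (absNorm q.1) = t at h5 ⊢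
    have h7 : l * t = n * (l / n * t) := by field_simp
    have h8 : l / n * (η * θ / 2 * L) ≤ l / n * t := mul_le_mul_of_nonneg_left h5 (by positivity)
    have h9 : 0 ≤ l / n * t := mul_nonneg (by positivity) (h6.trans h5)
    show _ ≤ lc x V + l * t - finrank ℚ V * (l / n * t)
    nlinarith
  · classical
    obtain ⟨J, hJ, hJ1, hJ2⟩ := h2.bad K x V hx hV (by rwa [← hn, ← hLd, ← ha])
    have h4 := hP.cnt K J (Q.filter fun q => Bad x V q) (dn K ^ (η * θ / 2)) hJ (by positivity)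
      fun q hq => by
        obtain ⟨h5, h6⟩ := Finset.mem_filter.1 hq
        exact ⟨(hQ q h5).1, (hQ q h5).2.1, hJ2 q h6⟩
    have h5 : Nat.card {q : Q // Bad x V q.1} = (Q.filter fun q => Bad x V q).card := by
      rw [← Nat.card_eq_finsetCard]
      refine Nat.card_congr ⟨fun q => ⟨q.1.1, Finset.mem_filter.2 ⟨q.1.2, q.2⟩⟩,
        fun q => ⟨⟨q.1, (Finset.mem_filter.1 q.2).1⟩, (Finset.mem_filter.1 q.2).2⟩,
        fun _ => rfl, fun _ => rfl⟩
    rw [h5]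
    have h6 := Real.log_le_log (by positivity) (h4.trans hJ1)
    rw [← hn, Real.log_pow, Real.log_rpow hD, Real.log_mul (by positivity) (by positivity),
      Real.log_pow, Real.log_sqrt hD.le, ← hn, ← hLd] at h6
    rw [le_div_iff₀ (by positivity)]
    refine le_of_mul_le_mul_right ?_ (show 0 < L by linarith)
    nlinarith [mul_nonneg (mul_nonneg (by linarith : 0 ≤ n) hlog) (sub_nonneg.2 hL)]

end TS

open TS in
theorem blk_TS (hM : StMI) (hN : StNet) (hV : StVol) (h1 : StNL1) (h2 : StNL2) (h3 : StNL3)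
    (hP : StPool) : StTS := by
  intro n l θ ε hl hθ hε
  have hl1 : (1 : ℝ) ≤ l := Nat.one_le_cast.2 hl
  obtain ⟨g, hg0, hg1, hg2⟩ : ∃ g : ℝ, 0 < g ∧ g ≤ θ / 2 ∧ g ≤ ε * l / 2 :=
    ⟨min (θ / 2) (ε * l / 2), by positivity, min_le_left _ _, min_le_right _ _⟩
  obtain ⟨θ', hθ'⟩ : ∃ θ', θ' = θ - g := ⟨_, rfl⟩
  have hθ0 : 0 < θ' := by linarith
  refine ⟨ε / (8 * (n + 1) ^ 2 * θ), by positivity, fun η hη hη0 => ?_⟩
  rcases Nat.eq_zero_or_pos n with rfl | hn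
  · exact ⟨1, one_pos, fun K _ _ h => absurd h finrank_pos.ne'⟩
  have hn1 : (1 : ℝ) ≤ n := Nat.one_le_cast.2 hn
  obtain ⟨s, hs⟩ : ∃ s : ℝ, s = n * θ' / l := ⟨_, rfl⟩
  have hs0 : 0 < s := by rw [hs]; positivity
  obtain ⟨B, hB⟩ : ∃ B : ℝ, B = (2 * n * Real.log (2 * n) + 1) / (η * θ) := ⟨_, rfl⟩
  have hB0 : 0 ≤ B := by
    have : 0 ≤ Real.log (2 * n) := Real.log_nonneg (by linarith)
    rw [hB]; positivity
  obtain ⟨L₀, hL₀⟩ := small_c (Real.exp s * 2 ^ n) (θ' * η) (θ' * η * θ / (2 * n)) (g * η)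
    (2 * n * B) (by positivity) (by positivity) (by positivity)
  obtain ⟨D₀, hD₀⟩ := hP.ex n θ η hθ hη
  obtain ⟨Cv, hCv, hv⟩ := hV.coset n (ε / 4) (by positivity)
  obtain ⟨Ch, hCh, hh⟩ := hV.cn n ε hε
  obtain ⟨D₁, hD₁⟩ : ∃ D₁ : ℝ, D₁ = max D₀ (Real.exp (max L₀ 1)) := ⟨_, rfl⟩
  have hD₁0 : 0 < D₁ := hD₁ ▸ lt_max_of_lt_right (Real.exp_pos _)
  obtain ⟨C₂, hC₂⟩ : ∃ C₂ : ℝ,
    C₂ = 2 * Real.exp s ^ 2 * 2 ^ n * Real.exp (s * (Real.log n / 2)) * Cv := ⟨_, rfl⟩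
  have hC₂0 : 0 < C₂ := by rw [hC₂]; positivity
  refine ⟨Ch * D₁ ^ (θ / (2 * l)) + C₂, by positivity, fun K _ _ hK hnp => ?_⟩
  have hD := dn_pos (K := K)
  have hD1 := one_le_dn (K := K)
  have hpos : 0 < dn K ^ (1 / 2 - θ / (2 * l) + ε) := by positivity
  rw [add_mul]
  rcases le_or_gt D₁ (dn K) with hbig | hsm
  swap
  · refine le_add_of_le_of_nonneg ?_ (by positivity)
    refine ((Nat.cast_le.2 gt_le_card).trans (hh K hK)).trans ?_
    rw [mul_assoc, show 1 / 2 + ε = θ / (2 * l) + (1 / 2 - θ / (2 * l) + ε) by ring,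
      Real.rpow_add hD]
    gcongr
  refine le_add_of_nonneg_of_le (by positivity) ?_
  obtain ⟨L, hL⟩ : ∃ L, L = Real.log (dn K) := ⟨_, rfl⟩
  have hL1 : max L₀ 1 ≤ L := by
    rw [hL, Real.le_log_iff_exp_le hD]
    exact ((le_max_right _ _).trans hD₁.ge).trans hbig
  have hL2 : 1 ≤ L := (le_max_right _ _).trans hL1
  have hr : ∀ t, dn K ^ t = Real.exp (t * L) := fun t => by
    rw [Real.rpow_def_of_pos hD, hL, mul_comm]
  obtain ⟨Q, hQ1, hQ⟩ := hD₀ K hK (((le_max_left _ _).trans hD₁.ge).trans hbig) hnp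
  have hQ0 : (0 : ℝ) < Q.card := lt_of_lt_of_le (by positivity) hQ1
  have : Nonempty Q := (Finset.card_pos.1 (Nat.cast_pos.1 hQ0)).to_subtype
  have hidx : (1 : ℝ) ≤ (pw l (ClassGroup (𝓞 K))).index := by
    rw [index_pw]; exact Nat.one_le_cast.2 gt_pos
  obtain ⟨S, hS1, hS2, hS3⟩ := hN.ex (Ob K) (grp K l) (Small 1) (Cv * dn K ^ (1 / 2 + ε / 4))
    (small_one zero_le_one) (fun _ h => h.inv) fun S h4 h5 =>
      (le_mul_of_one_le_right (Nat.cast_nonneg _) hidx).trans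
        (hv K hK _ 1 S (fun x hx => ⟨(h4 x hx).1, by rw [div_one]; exact (h4 x hx).2⟩) h5)
  have hS4 := hv K hK _ 1 S (fun x hx => ⟨(hS1 x hx).1, by rw [div_one]; exact (hS1 x hx).2⟩) hS2
  rw [index_pw] at hS4
  obtain ⟨τ, hτ⟩ : ∃ τ : ℝ, τ = (n + 1) * (2 * (θ' * η * L)) := ⟨_, rfl⟩
  have hτ0 : 0 ≤ τ := by rw [hτ]; positivity
  obtain ⟨a, ha⟩ : ∃ a : ℝ, a = L / (2 * n) := ⟨_, rfl⟩
  have hnK : (n : ℝ) = finrank ℚ K := by rw [hK]
  have key := hN.avg (Ob K) (grp K l) (Small 1) S (fun x => Real.exp (Ph τ s a (lc x))) Q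
    (fun q => ob ⟨q.1, mem_nonZeroDivisors_of_ne_zero (ne_bot_of_prime (hQ q.1 q.2).1)⟩ ^ l)
    (Real.exp s) (2 ^ n) (Real.exp (-(θ' * η * L)) + Real.exp (-(θ' * η * θ / (2 * n) * L)) +
      2 * n * B * Real.exp (-(g * η * L))) (Real.exp (n * τ)) hS1 hS3
    (fun q => ⟨by rw [deg_pow, deg_ob, mul_zero], by rw [cls_pow]; exact pow_mem_pw _⟩)
    (fun x => (Real.exp_pos _).le) (Real.exp_pos _).le (by positivity)
    (fun x _ y hy h => by
      rw [← Real.exp_add, Real.exp_le_exp]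
      exact quasi (h2.bdd K y hy.1) hs0.le hτ0 (h2.quasi K x y 1 h))
    (fun z => by rw [← hK]; exact_mod_cast hV.pack K S z hS2)
    (fun x hx => ?_) (hL₀ L ((le_max_left _ _).trans hL1))
  · have h4 : Hh τ s a (lc (1 : Ob K)) (Submodule.span ℚ {1}) ≤ Ph τ s a (lc (1 : Ob K)) :=
      le_csSup (bdd (h2.bdd K 1 deg_one) hs0.le hτ0) ⟨_, by simp, rfl⟩
    rw [Hh, h1.one, finrank_span_singleton one_ne_zero, ← hnK, Nat.cast_one, one_mul, div_one] at h4
    have h5 : Real.exp (s * a - s * (Real.log n / 2)) ≤ _ :=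
      (Real.exp_le_exp.2 (by linarith)).trans key
    have h6 : n * τ ≤ ε / 4 * L := by
      rw [le_div_iff₀ (by positivity)] at hη0
      have h7 : n * (n + 1) * θ' ≤ (n + 1) ^ 2 * θ := by
        rw [sq]; gcongr <;> linarith
      rw [hτ]
      nlinarith [mul_le_mul_of_nonneg_right (mul_le_mul_of_nonneg_left h7 hη.le)
        (by linarith : 0 ≤ L), mul_le_mul_of_nonneg_right hη0 (by linarith : 0 ≤ L)]
    have h7 : s * a = θ' / (2 * l) * L := by rw [hs, ha]; field_simp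
    have h8 : 1 / 2 + ε / 4 + ε / 4 - θ' / (2 * l) ≤ 1 / 2 - θ / (2 * l) + ε := by
      have : g / (2 * l) ≤ ε / 4 := by rw [div_le_iff₀ (by positivity)]; linarith
      rw [hθ', sub_div]; linarith
    have h9 : (tor l K : ℝ) * Real.exp (s * a - s * (Real.log n / 2)) ≤
        2 * Real.exp s ^ 2 * 2 ^ n * Real.exp (ε / 4 * L) * (Cv * dn K ^ (1 / 2 + ε / 4)) := by
      refine (mul_le_mul_of_nonneg_left h5 (Nat.cast_nonneg _)).trans ?_
      rw [mul_comm, mul_assoc]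
      exact mul_le_mul (by gcongr) hS4 (by positivity) (by positivity)
    rw [← le_div_iff₀ (Real.exp_pos _)] at h9
    refine h9.trans ?_
    rw [hr, hr, hC₂, h7, div_eq_mul_inv, ← Real.exp_neg]
    have h10 := Real.exp_le_exp.2 (mul_le_mul_of_nonneg_right h8 (by linarith : 0 ≤ L))
    refine le_trans (le_of_eq ?_) (mul_le_mul_of_nonneg_left h10 (by positivity))
    rw [show (1 / 2 + ε / 4 + ε / 4 - θ' / (2 * l)) * L =
      ε / 4 * L + (1 / 2 + ε / 4) * L + -(θ' / (2 * l) * L) by ring, Real.exp_add, Real.exp_add,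
      neg_sub, sub_eq_add_neg (s * _), Real.exp_add]
    ring
  · refine (step hM h1 h2 h3 hP hl hθ hθ0 hη (hL ▸ hL2) Q hQ _ (fun _ => rfl) hnK hL hτ hs ha x
      hx.1).trans (add_le_add le_rfl (mul_le_mul_of_nonneg_right ?_ (Real.exp_pos _).le))
    rw [← hB, mul_add (Fintype.card Q : ℝ) (_ + _), Fintype.card_coe]
    refine add_le_add le_rfl ?_
    rw [hr] at hQ1
    have h4 : Real.exp (θ' * η * L) = Real.exp (η * θ * L) * Real.exp (-(g * η * L)) := by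
      rw [← Real.exp_add, hθ']; congr 1; ring
    rw [h4]
    have h5 : 0 ≤ n * B * Real.exp (-(g * η * L)) := by positivity
    nlinarith

end Pool.Agent.Lib.N4
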