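import Pool.Agent.Lib.N4.Blue

set_option autoImplicit false

open NumberField Ideal Module
open scoped nonZeroDivisors

namespace Pool.Agent.Lib.N4

namespace VOL

variable {K : Type} [Field K] [NumberField K]

lemma card_places : Fintype.card (InfinitePlace K) ≤ finrank ℚ K := by
  rw [← InfinitePlace.sum_mult_eq, ← Finset.card_univ, Finset.card_eq_sum_ones]
  exact Finset.sum_le_sum fun w _ => InfinitePlace.mult_pos

lemma small_div {x y : Ob K} {α β : Kˣ} (hx : x.1 = toPrincipalIdeal (𝓞 K) K α)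
    (hy : y.1 = toPrincipalIdeal (𝓞 K) K β)
    (h : ∀ w : InfinitePlace K, |(Real.log (w (α : K)) + x.2.toAdd w) -
      (Real.log (w (β : K)) + y.2.toAdd w)| ≤ 1) : Small 1 (x / y) := by
  refine ⟨α / β, by rw [map_div, ← hx, ← hy]; rfl, fun w => ?_⟩
  have ha : w (α : K) ≠ 0 := (InfinitePlace.pos_iff.2 α.ne_zero).ne'
  have hb : w (β : K) ≠ 0 := (InfinitePlace.pos_iff.2 β.ne_zero).ne'
  rw [Units.val_div_eq_div_val, map_div₀, Real.log_div ha hb, Prod.snd_div, toAdd_div,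
    Pi.sub_apply]
  convert h w using 2
  ring

lemma pack (S : Finset (Ob K)) (z : Ob K) (hS : Sep (Small 1) S) :
    ({y | y ∈ S ∧ Small 1 (y / z)} : Set (Ob K)).ncard ≤ 2 ^ finrank ℚ K := by
  classical
  set T : Set (Ob K) := {y | y ∈ S ∧ Small 1 (y / z)} with hT
  have hc : ∀ y : T, ∃ α : Kˣ, (y.1 / z).1 = toPrincipalIdeal (𝓞 K) K α ∧
      ∀ w : InfinitePlace K, |Real.log (w (α : K)) + (y.1 / z).2.toAdd w| ≤ 1 := fun y => y.2.2
  choose α h1 h2 using hc
  let f : T → InfinitePlace K → Bool := fun y w =>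
    decide (Real.log (w (α y : K)) + (y.1 / z).2.toAdd w ≤ 0)
  have hf : Function.Injective f := fun y y' h => by
    by_contra hne
    refine hS y.1 y.2.1 y'.1 y'.2.1 (fun e => hne (Subtype.ext e)) ?_
    rw [← div_div_div_cancel_right y.1 y'.1 z]
    refine small_div (h1 y) (h1 y') fun w => ?_
    have e := congrFun h w
    simp only [f, decide_eq_decide] at e
    have a := abs_le.1 (h2 y w)
    have b := abs_le.1 (h2 y' w)
    rw [abs_le]
    by_cases h0 : Real.log (w (α y : K)) + (y.1 / z).2.toAdd w ≤ 0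
    · have := e.1 h0
      constructor <;> linarith [a.1, b.1]
    · have := fun h => h0 (e.2 h)
      constructor <;> linarith [a.2, b.2, not_le.1 h0, not_le.1 this]
  rw [← Nat.card_coe_set_eq]
  refine (Nat.card_le_card_of_injective f hf).trans ?_
  rw [Nat.card_eq_fintype_card, Fintype.card_fun, Fintype.card_bool]
  exact Nat.pow_le_pow_right (by norm_num) card_places

lemma ext (Z : Subgroup (ClassGroup (𝓞 K))) (c : ClassGroup (𝓞 K)) (S : Finset (Ob K))
    (h : ∀ x ∈ S, deg x = 0 ∧ cls x / c ∈ Z) (hS : Sep (Small 1) S) :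
    ∃ S' : Finset (Ob K), (∀ x ∈ S', deg x = 0) ∧ Sep (Small 1) S' ∧
      S'.card = S.card * Z.index := by
  classical
  have hI : ∀ t : ClassGroup (𝓞 K) ⧸ Z, ∃ o : Ob K, deg o = 0 ∧ (cls o : _ ⧸ Z) = t := fun t => by
    obtain ⟨I, h1, h2⟩ := cl_surj t.out
    refine ⟨ob ⟨I, mem_nonZeroDivisors_of_ne_zero h1⟩, deg_ob _, ?_⟩
    rw [cls_ob, h2, QuotientGroup.out_eq']
  choose o ho1 ho2 using hI
  have := Fintype.ofFinite (ClassGroup (𝓞 K) ⧸ Z)
  have hx : ∀ x ∈ S, (cls x : _ ⧸ Z) = c := fun x hx => by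
    rw [QuotientGroup.eq_iff_div_mem]
    exact (h x hx).2
  have key : ∀ x ∈ S, ∀ x' ∈ S, ∀ t t', cls (x * o t) = cls (x' * o t') → t = t' :=
    fun x h1 x' h2 t t' e => by
      have e2 := congrArg (fun a : ClassGroup (𝓞 K) => (a : _ ⧸ Z)) e
      simp only [cls_mul, QuotientGroup.mk_mul, hx x h1, hx x' h2, ho2] at e2
      exact mul_left_cancel e2
  refine ⟨(S ×ˢ Finset.univ).image fun p : Ob K × (ClassGroup (𝓞 K) ⧸ Z) => p.1 * o p.2,
    ?_, ?_, ?_⟩
  · intro y hy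
    obtain ⟨p, hp, rfl⟩ := Finset.mem_image.1 hy
    rw [deg_mul, (h _ (Finset.mem_product.1 hp).1).1, ho1, add_zero]
  · intro y hy y' hy' hne hs
    obtain ⟨⟨x, t⟩, hp, rfl⟩ := Finset.mem_image.1 hy
    obtain ⟨⟨x', t'⟩, hp', rfl⟩ := Finset.mem_image.1 hy'
    have h1 := (Finset.mem_product.1 hp).1
    have h2 := (Finset.mem_product.1 hp').1
    have e := hs.cls_eq
    rw [cls_div, div_eq_one] at e
    obtain rfl := key x h1 x' h2 t t' e
    rw [mul_div_mul_right_eq_div] at hs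
    exact hS x h1 x' h2 (fun e => hne (by simp only [e])) hs
  · rw [Finset.card_image_of_injOn, Finset.card_product, Finset.card_univ, Subgroup.index,
      Nat.card_eq_fintype_card]
    rintro ⟨x, t⟩ hp ⟨x', t'⟩ hp' e
    have h1 := (Finset.mem_product.1 (Finset.mem_coe.1 hp)).1
    have h2 := (Finset.mem_product.1 (Finset.mem_coe.1 hp')).1
    have e' : x * o t = x' * o t' := e
    obtain rfl := key x h1 x' h2 t t' (by rw [e'])
    rw [mul_right_cancel e']

end VOL

theorem blk_VOL (h0 : StVol0) : StVol := by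
  have hc : ∀ (n : ℕ) (ε : ℝ), 0 < ε → ∃ C : ℝ, 0 < C ∧ ∀ (K : Type) [Field K] [NumberField K],
      finrank ℚ K = n → ∀ (Z : Subgroup (ClassGroup (𝓞 K))) (c : ClassGroup (𝓞 K))
        (S : Finset (Ob K)), (∀ x ∈ S, deg x = 0 ∧ cls x / c ∈ Z) → Sep (Small 1) S →
          (S.card : ℝ) * Z.index ≤ C * dn K ^ (1 / 2 + ε) := fun n ε hε => by
    obtain ⟨C, hC, h⟩ := h0 n ε hε
    refine ⟨C, hC, fun K _ _ hn Z c S h1 h2 => ?_⟩
    obtain ⟨S', a1, a2, a3⟩ := VOL.ext Z c S h1 h2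
    have := h K hn S' a1 a2
    rwa [a3, Nat.cast_mul] at this
  refine ⟨fun K _ _ S z hS => VOL.pack S z hS, hc, fun n ε hε => ?_⟩
  obtain ⟨C, hC, h⟩ := hc n ε hε
  refine ⟨C, hC, fun K _ _ hn => ?_⟩
  have := h K hn ⊥ 1 {1} (fun x hx => by
    rw [Finset.mem_singleton.1 hx, deg_one, cls_one, div_one]
    exact ⟨rfl, Subgroup.one_mem _⟩) (fun x hx y hy hne => by
    rw [Finset.mem_singleton.1 hx, Finset.mem_singleton.1 hy] at hne
    exact absurd rfl hne)
  rwa [Finset.card_singleton, Nat.cast_one, one_mul, Subgroup.index_bot] at this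

end Pool.Agent.Lib.N4
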