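import Pool.Agent.Lib.N4.Blue

set_option autoImplicit false

open NumberField Ideal Module
open scoped nonZeroDivisors NNReal ENNReal

namespace Pool.Agent.Lib.N4

namespace VOL0

variable {K : Type} [Field K] [NumberField K]

lemma sum_mult : ∑ w : InfinitePlace K, (w.mult : ℝ) = finrank ℚ K := by
  rw [← Nat.cast_sum, InfinitePlace.sum_mult_eq]

omit [NumberField K] in
lemma one_le_mult (w : InfinitePlace K) : (1 : ℝ) ≤ w.mult :=
  Nat.one_le_cast.2 InfinitePlace.mult_pos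

lemma card_le : Fintype.card (InfinitePlace K) ≤ finrank ℚ K := by
  rw [← InfinitePlace.sum_mult_eq, Fintype.card_eq_sum_ones]
  exact Finset.sum_le_sum fun w _ => InfinitePlace.mult_pos

lemma mink_real (I : (FractionalIdeal (𝓞 K)⁰ K)ˣ) :
    (mixedEmbedding.minkowskiBound K I).toReal ≤
      ((FractionalIdeal.absNorm (I : FractionalIdeal (𝓞 K)⁰ K) : ℚ) : ℝ) *
        (2 ^ finrank ℚ K * √(dn K)) := by
  classical
  have h0 := absNorm_unit_pos I
  rw [mixedEmbedding.minkowskiBound,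
    mixedEmbedding.volume_fundamentalDomain_fractionalIdealLatticeBasis,
    mixedEmbedding.volume_fundamentalDomain_latticeBasis, mixedEmbedding.finrank]
  simp only [ENNReal.toReal_mul, ENNReal.toReal_pow, ENNReal.toReal_inv, ENNReal.toReal_ofNat,
    ENNReal.coe_toReal, Real.coe_sqrt, coe_nnnorm, Int.norm_eq_abs, ENNReal.toReal_ofReal h0.le]
  rw [← dn_eq_abs, mul_assoc]
  refine mul_le_mul_of_nonneg_left ?_ h0.le
  have h1 : ((2 : ℝ)⁻¹) ^ InfinitePlace.nrComplexPlaces K ≤ 1 :=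
    pow_le_one₀ (by norm_num) (by norm_num)
  have h2 : 0 ≤ √(dn K) * 2 ^ finrank ℚ K := by positivity
  nlinarith

lemma mink (x : Ob K) (hx : deg x = 0) (L : ℝ) (hL : 2 ^ finrank ℚ K * √(dn K) < Real.exp L) :
    ∃ a ∈ (x.1 : FractionalIdeal (𝓞 K)⁰ K), a ≠ 0 ∧
      ∀ w : InfinitePlace K, Real.log (w a) + x.2.toAdd w ≤ L / finrank ℚ K := by
  classical
  have hn : (0 : ℝ) < finrank ℚ K := Nat.cast_pos.2 finrank_pos
  have h0 := absNorm_unit_pos x.1
  set f : InfinitePlace K → ℝ≥0 := fun w =>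
    ⟨Real.exp (L / finrank ℚ K - x.2.toAdd w), (Real.exp_pos _).le⟩ with hf
  have hp : ((∏ w, f w ^ w.mult : ℝ≥0) : ℝ) =
      ((FractionalIdeal.absNorm (x.1 : FractionalIdeal (𝓞 K)⁰ K) : ℚ) : ℝ) * Real.exp L := by
    have e : ∀ w : InfinitePlace K, ((f w ^ w.mult : ℝ≥0) : ℝ) =
        Real.exp (w.mult * (L / finrank ℚ K - x.2.toAdd w)) := fun w => by
      rw [Real.exp_nat_mul]; rfl
    rw [NNReal.coe_prod, Finset.prod_congr rfl fun w _ => e w, ← Real.exp_sum,
      ← Real.exp_log h0, ← Real.exp_add]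
    congr 1
    simp only [mul_sub, Finset.sum_sub_distrib, ← Finset.sum_mul, sum_mult]
    unfold deg at hx
    field_simp
    linarith
  have h : mixedEmbedding.minkowskiBound K x.1 <
      MeasureTheory.volume (mixedEmbedding.convexBodyLT K f) := by
    rw [mixedEmbedding.convexBodyLT_volume, ← ENNReal.coe_mul,
      ← ENNReal.toReal_lt_toReal (mixedEmbedding.minkowskiBound_lt_top K x.1).ne
        ENNReal.coe_ne_top, ENNReal.coe_toReal, NNReal.coe_mul, hp]
    refine (mink_real x.1).trans_lt ((mul_lt_mul_of_pos_left hL h0).trans_le ?_)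
    have h1 : (1 : ℝ) ≤ mixedEmbedding.convexBodyLTFactor K := by
      exact_mod_cast mixedEmbedding.one_le_convexBodyLTFactor K
    exact le_mul_of_one_le_left (by positivity) h1
  obtain ⟨a, ha, ha0, hw⟩ := mixedEmbedding.exists_ne_zero_mem_ideal_lt K x.1 h
  refine ⟨a, ha, ha0, fun w => ?_⟩
  have h2 : Real.log (w a) ≤ L / finrank ℚ K - x.2.toAdd w := by
    rw [Real.log_le_iff_le_exp (InfinitePlace.pos_iff.2 ha0)]
    exact (hw w).le
  linarith

lemma log_norm {a : K} (ha : a ≠ 0) :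
    ∑ w : InfinitePlace K, (w.mult : ℝ) * Real.log (w a) =
      Real.log ((|Algebra.norm ℚ a| : ℚ) : ℝ) := by
  rw [← InfinitePlace.prod_eq_abs_norm, Real.log_prod
    (fun w _ => pow_ne_zero _ (InfinitePlace.pos_iff.2 ha).ne')]
  simp only [Real.log_pow]

lemma red (x : Ob K) (hx : deg x = 0) (L : ℝ) (hL0 : 0 ≤ L)
    (hL : 2 ^ finrank ℚ K * √(dn K) < Real.exp L) :
    ∃ (α : Kˣ) (J : Ideal (𝓞 K)), J ≠ ⊥ ∧ (absNorm J : ℝ) ≤ Real.exp L ∧
      ((toPrincipalIdeal (𝓞 K) K α / x.1 : (FractionalIdeal (𝓞 K)⁰ K)ˣ) :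
        FractionalIdeal (𝓞 K)⁰ K) = J ∧
      ∀ w : InfinitePlace K, |Real.log (w (α : K)) + x.2.toAdd w| ≤ L := by
  have hn : (1 : ℝ) ≤ finrank ℚ K := Nat.one_le_cast.2 finrank_pos
  obtain ⟨a, ha, ha0, hw⟩ := mink x hx L hL
  set α := Units.mk0 a ha0
  set U : (FractionalIdeal (𝓞 K)⁰ K)ˣ := toPrincipalIdeal (𝓞 K) K α / x.1 with hU
  have hm : (U : FractionalIdeal (𝓞 K)⁰ K) * x.1 = FractionalIdeal.spanSingleton (𝓞 K)⁰ a := by
    rw [← Units.val_mul, hU, div_mul_cancel, coe_toPrincipalIdeal]; rfl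
  have hle : (U : FractionalIdeal (𝓞 K)⁰ K) ≤ 1 := by
    have h1 : FractionalIdeal.spanSingleton (𝓞 K)⁰ a ≤ x.1 :=
      FractionalIdeal.spanSingleton_le_iff_mem.2 ha
    have h2 : (U : FractionalIdeal (𝓞 K)⁰ K) =
        FractionalIdeal.spanSingleton (𝓞 K)⁰ a * (x.1⁻¹ : (FractionalIdeal (𝓞 K)⁰ K)ˣ) := by
      rw [← hm, mul_assoc, Units.mul_inv, mul_one]
    rw [h2, ← x.1.mul_inv]
    exact mul_le_mul_left h1 _
  obtain ⟨J, hJ⟩ := FractionalIdeal.le_one_iff_exists_coeIdeal.1 hle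
  have hJ0 : J ≠ ⊥ := by
    rintro rfl
    exact U.ne_zero (by rw [← hJ]; simp)
  have hN : (1 : ℝ) ≤ absNorm J :=
    Nat.one_le_cast.2 (Nat.pos_of_ne_zero (by rwa [Ne, absNorm_eq_zero_iff]))
  have h0 := absNorm_unit_pos x.1
  have hs : ∑ w : InfinitePlace K, (w.mult : ℝ) * (Real.log (w a) + x.2.toAdd w) =
      Real.log (absNorm J) := by
    have h3 := congrArg FractionalIdeal.absNorm hm
    rw [map_mul, ← hJ, FractionalIdeal.coeIdeal_absNorm,
      FractionalIdeal.absNorm_span_singleton] at h3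
    simp only [mul_add, Finset.sum_add_distrib]
    rw [log_norm ha0, ← h3, Rat.cast_mul, Rat.cast_natCast,
      Real.log_mul (by linarith) h0.ne']
    unfold deg at hx
    linarith
  have hs2 : ∑ w : InfinitePlace K, (w.mult : ℝ) *
      (L / finrank ℚ K - (Real.log (w a) + x.2.toAdd w)) = L - Real.log (absNorm J) := by
    simp only [mul_sub, Finset.sum_sub_distrib, ← Finset.sum_mul, sum_mult, hs]
    field_simp
  have hnn : ∀ w : InfinitePlace K, 0 ≤ (w.mult : ℝ) *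
      (L / finrank ℚ K - (Real.log (w a) + x.2.toAdd w)) := fun w =>
    mul_nonneg (Nat.cast_nonneg _) (sub_nonneg.2 (hw w))
  have hLn : L / finrank ℚ K ≤ L := div_le_self hL0 hn
  have hLn0 : 0 ≤ L / finrank ℚ K := by positivity
  refine ⟨α, J, hJ0, ?_, hJ.symm, fun w => ?_⟩
  · rw [← Real.log_le_iff_le_exp (by linarith)]
    have := Finset.sum_nonneg fun w (_ : w ∈ Finset.univ) => hnn w
    linarith
  · have h4 := Finset.single_le_sum (fun w (_ : w ∈ Finset.univ) => hnn w) (Finset.mem_univ w)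
    have h5 := Real.log_nonneg hN
    have h6 := le_mul_of_one_le_left (sub_nonneg.2 (hw w)) (one_le_mult w)
    have h7 := hw w
    change |Real.log (w a) + x.2.toAdd w| ≤ L
    rw [abs_le]
    constructor <;> linarith

lemma count (S : Finset (Ob K)) (hS : ∀ x ∈ S, deg x = 0) (hsep : Sep (Small 1) S) (L : ℝ)
    (hL0 : 0 ≤ L) (hL : 2 ^ finrank ℚ K * √(dn K) < Real.exp L) :
    (S.card : ℝ) ≤ ({I : Ideal (𝓞 K) | I ≠ ⊥ ∧ (absNorm I : ℝ) ≤ Real.exp L}.ncard : ℝ) *
      (2 * L + 3) ^ finrank ℚ K := by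
  classical
  have hfin : {I : Ideal (𝓞 K) | I ≠ ⊥ ∧ (absNorm I : ℝ) ≤ Real.exp L}.Finite :=
    (finite_norm_le _).subset fun _ h => h.2
  choose! α J h1 h2 h3 h4 using fun x (hx : x ∈ S) => red x (hS x hx) L hL0 hL
  have hc := Finset.card_le_card_of_injOn (s := S)
    (t := hfin.toFinset ×ˢ Fintype.piFinset fun _ : InfinitePlace K =>
      Finset.Icc (-(⌈L⌉₊ : ℤ)) ⌈L⌉₊)
    (fun x => (J x, fun w : InfinitePlace K => ⌊Real.log (w (α x : K)) + x.2.toAdd w⌋))
    (by
      intro x hx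
      simp only [Finset.coe_product, Set.mem_prod, Finset.mem_coe, Set.Finite.mem_toFinset,
        Set.mem_ofPred_eq, Fintype.mem_piFinset, Finset.mem_Icc]
      refine ⟨⟨h1 x hx, h2 x hx⟩, fun w => ?_⟩
      have h5 := abs_le.1 (h4 x hx w)
      have h6 := Nat.le_ceil L
      constructor
      · rw [Int.le_floor]; push_cast; linarith
      · have := Int.floor_le (Real.log (w (α x : K)) + x.2.toAdd w)
        have h7 : ((⌊Real.log (w (α x : K)) + x.2.toAdd w⌋ : ℤ) : ℝ) ≤ ((⌈L⌉₊ : ℤ) : ℝ) := by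
          push_cast; linarith
        exact_mod_cast h7)
    (by
      intro x hx y hy hxy
      by_contra hne
      refine hsep x hx y hy hne ⟨α x / α y, ?_, fun w => ?_⟩
      · have e1 : J x = J y := congrArg Prod.fst hxy
        have e2 : toPrincipalIdeal (𝓞 K) K (α x) / x.1 = toPrincipalIdeal (𝓞 K) K (α y) / y.1 :=
          Units.ext (by rw [h3 x hx, h3 y hy, e1])
        rw [map_div, Prod.fst_div, eq_comm, div_eq_div_iff_mul_eq_mul]
        rw [div_eq_div_iff_mul_eq_mul] at e2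
        rw [e2, mul_comm]
      · have e1 := congrFun (congrArg Prod.snd hxy) w
        have e2 := Int.abs_sub_lt_one_of_floor_eq_floor e1
        rw [Units.val_div_eq_div_val, map_div₀, Real.log_div
          (InfinitePlace.pos_iff.2 (α x).ne_zero).ne' (InfinitePlace.pos_iff.2 (α y).ne_zero).ne',
          Prod.snd_div, toAdd_div, Pi.sub_apply]
        refine le_trans (le_of_eq ?_) e2.le
        congr 1
        ring)
  rw [Finset.card_product, Fintype.card_piFinset, Finset.prod_const, Finset.card_univ,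
    ← Set.ncard_eq_toFinset_card _ hfin] at hc
  have hI : (Finset.Icc (-(⌈L⌉₊ : ℤ)) ⌈L⌉₊).card = 2 * ⌈L⌉₊ + 1 := by
    rw [Int.card_Icc]; omega
  rw [hI] at hc
  have h6 := Nat.ceil_lt_add_one hL0
  refine (Nat.cast_le.2 hc).trans ?_
  push_cast
  refine mul_le_mul_of_nonneg_left ?_ (Nat.cast_nonneg _)
  refine (pow_le_pow_left₀ (by positivity) (by linarith : _ ≤ 2 * L + 3) _).trans ?_
  exact pow_le_pow_right₀ (by linarith) card_le

end VOL0

theorem blk_VOL0 (hI : StIdc) : StVol0 := by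
  intro n ε hε
  obtain ⟨C, hC, h⟩ := hI.le n ε hε
  set δ : ℝ := ε / (2 * (n + 1)) with hδ
  have hδ0 : 0 < δ := by positivity
  refine ⟨C * ((2 : ℝ) ^ (n + 1)) ^ (1 + ε) * (2 * n + 5 + 1 / δ) ^ n, by positivity, ?_⟩
  intro K _ _ hn S hS hsep
  have hD := one_le_dn (K := K)
  have hD0 := dn_pos (K := K)
  have hsq : 1 ≤ √(dn K) := Real.one_le_sqrt.2 hD
  have hX : (1 : ℝ) ≤ 2 ^ (n + 1) * √(dn K) :=
    one_le_mul_of_one_le_of_one_le (one_le_pow₀ one_le_two) hsq
  set L := Real.log (2 ^ (n + 1) * √(dn K)) with hL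
  have hE : Real.exp L = 2 ^ (n + 1) * √(dn K) := Real.exp_log (by linarith)
  have h1 := VOL0.count S hS hsep L (Real.log_nonneg hX) (by
    rw [hE, hn, pow_succ]
    have : (0 : ℝ) < 2 ^ n * √(dn K) := by positivity
    nlinarith)
  have h2 := h K hn.le _ hX
  rw [hE, hn] at h1
  have h3 : 2 * L + 3 ≤ (2 * n + 5 + 1 / δ) * dn K ^ δ := by
    have e : L = (n + 1) * Real.log 2 + Real.log (dn K) / 2 := by
      rw [hL, Real.log_mul (by positivity) (by positivity), Real.log_pow,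
        Real.log_sqrt hD0.le]
      push_cast; ring
    have a1 : Real.log 2 ≤ 1 := by linarith [Real.log_le_sub_one_of_pos two_pos]
    have a2 := Real.log_le_rpow_div hD0.le hδ0
    have a3 : 1 ≤ dn K ^ δ := Real.one_le_rpow hD hδ0.le
    have a4 : (0 : ℝ) ≤ n := Nat.cast_nonneg n
    rw [e, add_mul (2 * (n : ℝ) + 5), one_div, inv_mul_eq_div]
    nlinarith
  have h4 : (2 * L + 3) ^ n ≤ (2 * n + 5 + 1 / δ) ^ n * dn K ^ (ε / 2) := by
    refine (pow_le_pow_left₀ (by linarith [Real.log_nonneg hX]) h3 n).trans ?_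
    rw [mul_pow]
    refine mul_le_mul_of_nonneg_left ?_ (by positivity)
    rw [← Real.rpow_mul_natCast hD0.le]
    refine Real.rpow_le_rpow_of_exponent_le hD ?_
    rw [hδ, div_mul_eq_mul_div, div_le_div_iff₀ (by positivity) two_pos]
    nlinarith
  have h5 : ((2 : ℝ) ^ (n + 1) * √(dn K)) ^ (1 + ε) =
      ((2 : ℝ) ^ (n + 1)) ^ (1 + ε) * dn K ^ (1 / 2 + ε / 2) := by
    rw [Real.mul_rpow (by positivity) (by positivity), Real.sqrt_eq_rpow,
      ← Real.rpow_mul hD0.le]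
    congr 2
    ring
  have h6 : dn K ^ (1 / 2 + ε) = dn K ^ (1 / 2 + ε / 2) * dn K ^ (ε / 2) := by
    rw [← Real.rpow_add hD0]; congr 1; ring
  rw [h5] at h2
  refine h1.trans ((mul_le_mul h2 h4 (pow_nonneg (by linarith [Real.log_nonneg hX]) _)
    (by positivity)).trans (le_of_eq ?_))
  rw [h6]
  ring

end Pool.Agent.Lib.N4
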