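import Pool.Agent.Lib.N4.GRAM
import Pool.Agent.Lib.N4.SHORT
import Pool.Agent.Lib.N4.COV
import Pool.Agent.Lib.N4.SUB
import Pool.Agent.Lib.N4.MI
import Pool.Agent.Lib.N4.NET
import Pool.Agent.Lib.N4.IDC
import Pool.Agent.Lib.N4.VOL0
import Pool.Agent.Lib.N4.VOL
import Pool.Agent.Lib.N4.LATD
import Pool.Agent.Lib.N4.NL1
import Pool.Agent.Lib.N4.NL2
import Pool.Agent.Lib.N4.NL3
import Pool.Agent.Lib.N4.POOL
import Pool.Agent.Lib.N4.TS

set_option autoImplicit false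

namespace Pool.Agent.Lib.N4

theorem stCov : StCov := blk_COV blk_GRAM blk_SHORT

theorem stVol : StVol := blk_VOL (blk_VOL0 blk_IDC)

theorem stNL1 : StNL1 := blk_NL1 stCov blk_LATD

theorem stTS : StTS :=
  blk_TS blk_MI blk_NET stVol stNL1 (blk_NL2 stCov (blk_SUB blk_GRAM stCov) stNL1)
    (blk_NL3 stCov stNL1) (blk_POOL blk_IDC)

end Pool.Agent.Lib.N4
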