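import Pool.Agent.Lib.N4.Defs

set_option autoImplicit false

open NumberField Ideal Module
open scoped nonZeroDivisors

namespace Pool.Agent.Lib.N4

section Grp

variable {A : Type} [CommGroup A] {l : ℕ}

lemma mem_pw {a : A} : a ∈ pw l A ↔ ∃ b, b ^ l = a := Iff.rfl

lemma pow_mem_pw (b : A) : b ^ l ∈ pw l A := ⟨b, rfl⟩

lemma gt_eq_ker : gt l A = Nat.card (powMonoidHom l : A →* A).ker := rfl

lemma gt_pos [Finite A] : 0 < gt l A := by
  rw [gt_eq_ker]; exact Nat.card_pos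

lemma gt_le_card [Finite A] : gt l A ≤ Nat.card A :=
  Nat.card_le_card_of_injective _ Subtype.val_injective

lemma index_pw [Finite A] : (pw l A).index = gt l A := by
  have h1 := (pw l A).card_mul_index
  have h2 := (powMonoidHom l : A →* A).ker.card_mul_index
  rw [Subgroup.index_ker] at h2
  have h3 : 0 < Nat.card (pw l A) := Nat.card_pos
  rw [gt_eq_ker]
  refine Nat.eq_of_mul_eq_mul_left h3 ?_
  rw [h1, ← h2, mul_comm]; rfl

lemma gt_le_of_injective {B : Type} [CommGroup B] [Finite B] (f : A →* B)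
    (hf : Function.Injective f) : gt l A ≤ gt l B :=
  Nat.card_le_card_of_injective (fun c : {c : A // c ^ l = 1} =>
    (⟨f c.1, by rw [← map_pow, c.2, map_one]⟩ : {c : B // c ^ l = 1}))
    fun _ _ h => Subtype.ext (hf (congrArg Subtype.val h))

lemma gt_subgroup_le [Finite A] (S : Subgroup A) : gt l S ≤ gt l A :=
  gt_le_of_injective S.subtype S.subtype_injective

lemma gt_two_mul_three [Finite A] : gt 2 A * gt 3 A ≤ gt 6 A := by
  rw [gt, gt, ← Nat.card_prod]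
  refine Nat.card_le_card_of_injective (β := {c : A // c ^ 6 = 1}) (fun x => ⟨x.1.1 * x.2.1, by
    rw [mul_pow, show 6 = 2 * 3 from rfl, pow_mul, x.1.2, pow_mul', x.2.2]; simp⟩) ?_
  rintro ⟨⟨a, ha⟩, ⟨b, hb⟩⟩ ⟨⟨a', ha'⟩, ⟨b', hb'⟩⟩ h
  have h0 : a * b = a' * b' := congrArg Subtype.val h
  have k : ∀ a b : A, a ^ 2 = 1 → b ^ 3 = 1 → (a * b) ^ 3 = a := fun a b h1 h2 => by
    rw [mul_pow, h2, pow_succ, h1]; simp
  have h1 : a = a' := by rw [← k a b ha hb, h0, k a' b' ha' hb']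
  subst h1
  have h2 := mul_left_cancel h0
  subst h2
  rfl

end Grp

variable {K : Type} [Field K] [NumberField K]

lemma tor_pos (l : ℕ) : 0 < tor l K := gt_pos

lemma one_le_dn : 1 ≤ dn K :=
  Nat.one_le_cast.2 (Int.natAbs_pos.2 (discr_ne_zero K))

lemma dn_pos : 0 < dn K := lt_of_lt_of_le one_pos one_le_dn

lemma dn_eq_abs : dn K = |(discr K : ℝ)| := by
  rw [dn, Nat.cast_natAbs, Int.cast_abs]

lemma finite_norm_le (y : ℝ) : {I : Ideal (𝓞 K) | (absNorm I : ℝ) ≤ y}.Finite :=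
  (Ideal.finite_setOfPred_absNorm_le ⌊y⌋₊).subset fun _ h => Nat.le_floor h

lemma finite_np (y : ℝ) :
    {P : Ideal (𝓞 K) | (absNorm P).Prime ∧ (absNorm P : ℝ) ≤ y}.Finite :=
  (finite_norm_le y).subset fun _ h => h.2

lemma ne_bot_of_prime {P : Ideal (𝓞 K)} (h : (absNorm P).Prime) : P ≠ ⊥ := by
  rintro rfl
  exact Nat.not_prime_zero (by simpa using h)

lemma isMaximal_of_prime {P : Ideal (𝓞 K)} (h : (absNorm P).Prime) : P.IsMaximal :=
  (isPrime_of_irreducible_absNorm h).isMaximal (ne_bot_of_prime h)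

/-! ### Classes of ideals -/

lemma cl_bot : cl (⊥ : Ideal (𝓞 K)) = 1 := dif_pos rfl

lemma cl_eq {I : Ideal (𝓞 K)} (h : I ≠ ⊥) :
    cl I = ClassGroup.mk0 ⟨I, mem_nonZeroDivisors_of_ne_zero h⟩ := dif_neg h

lemma cl_coe (I : (Ideal (𝓞 K))⁰) : cl (I : Ideal (𝓞 K)) = ClassGroup.mk0 I :=
  cl_eq (nonZeroDivisors.coe_ne_zero I)

lemma cl_mul {I J : Ideal (𝓞 K)} (hI : I ≠ ⊥) (hJ : J ≠ ⊥) : cl (I * J) = cl I * cl J := by
  rw [cl_eq hI, cl_eq hJ, cl_eq (mul_ne_zero hI hJ), ← map_mul]; rfl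

lemma cl_top : cl (⊤ : Ideal (𝓞 K)) = 1 := by
  have h := cl_mul (K := K) top_ne_bot top_ne_bot
  rw [Ideal.top_mul] at h
  exact mul_eq_left.1 h.symm

lemma cl_pow (I : Ideal (𝓞 K)) (n : ℕ) : cl (I ^ n) = cl I ^ n := by
  by_cases hI : I = ⊥
  · subst hI
    rcases n with - | n
    · rw [pow_zero, pow_zero, one_eq_top, cl_top]
    · rw [bot_pow n.succ_ne_zero, cl_bot, one_pow]
  induction n with
  | zero => rw [pow_zero, pow_zero, one_eq_top, cl_top]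
  | succ n ih => rw [pow_succ, cl_mul (pow_ne_zero n hI) hI, ih, pow_succ]

lemma cl_surj (c : ClassGroup (𝓞 K)) : ∃ I : Ideal (𝓞 K), I ≠ ⊥ ∧ cl I = c := by
  obtain ⟨I, rfl⟩ := ClassGroup.mk0_surjective c
  exact ⟨I, nonZeroDivisors.coe_ne_zero I, cl_coe I⟩

lemma cl_eq_cl_iff {I J : Ideal (𝓞 K)} (hI : I ≠ ⊥) (hJ : J ≠ ⊥) : cl I = cl J ↔
    ∃ x y : 𝓞 K, x ≠ 0 ∧ y ≠ 0 ∧ span {x} * I = span {y} * J := by
  rw [cl_eq hI, cl_eq hJ, ClassGroup.mk0_eq_mk0_iff]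
  simp only [exists_prop]

lemma cl_eq_one_iff {I : Ideal (𝓞 K)} : cl I = 1 ↔ I.IsPrincipal := by
  by_cases hI : I = ⊥
  · subst hI
    exact iff_of_true cl_bot inferInstance
  · rw [cl_eq hI, ClassGroup.mk0_eq_one_iff]

lemma cl_span (x : 𝓞 K) : cl (span {x}) = 1 := cl_eq_one_iff.2 ⟨⟨x, rfl⟩⟩

/-! ### Metrized ideals -/

lemma absNorm_unit_pos (a : (FractionalIdeal (𝓞 K)⁰ K)ˣ) :
    (0 : ℝ) < (FractionalIdeal.absNorm (a : FractionalIdeal (𝓞 K)⁰ K) : ℚ) := by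
  have h1 := FractionalIdeal.absNorm_nonneg (a : FractionalIdeal (𝓞 K)⁰ K)
  have h2 : FractionalIdeal.absNorm (a : FractionalIdeal (𝓞 K)⁰ K) ≠ 0 := by
    rw [Ne, FractionalIdeal.absNorm_eq_zero_iff]; exact a.ne_zero
  exact_mod_cast lt_of_le_of_ne h1 h2.symm

lemma deg_mul (x y : Ob K) : deg (x * y) = deg x + deg y := by
  simp only [deg, Prod.fst_mul, Prod.snd_mul, Units.val_mul, map_mul, Rat.cast_mul, toAdd_mul,
    Pi.add_apply, mul_add, Finset.sum_add_distrib]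
  rw [Real.log_mul (absNorm_unit_pos _).ne' (absNorm_unit_pos _).ne']
  ring

lemma deg_one : deg (1 : Ob K) = 0 := by
  have h := deg_mul (1 : Ob K) 1
  rw [mul_one] at h
  linarith

lemma deg_inv (x : Ob K) : deg x⁻¹ = -deg x := by
  have h := deg_mul x x⁻¹
  rw [mul_inv_cancel, deg_one] at h
  linarith

lemma deg_div (x y : Ob K) : deg (x / y) = deg x - deg y := by
  rw [div_eq_mul_inv, deg_mul, deg_inv, sub_eq_add_neg]

lemma deg_pow (x : Ob K) (n : ℕ) : deg (x ^ n) = n * deg x := by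
  induction n with
  | zero => simp [deg_one]
  | succ n ih => rw [pow_succ, deg_mul, ih]; push_cast; ring

lemma deg_ob (I : (Ideal (𝓞 K))⁰) : deg (ob I) = 0 := by
  have h : (finrank ℚ K : ℝ) ≠ 0 := Nat.cast_ne_zero.2 finrank_pos.ne'
  simp only [deg, ob, FractionalIdeal.coe_mk0, FractionalIdeal.coeIdeal_absNorm, toAdd_ofAdd,
    ← Finset.sum_mul, ← Nat.cast_sum, InfinitePlace.sum_mult_eq, Rat.cast_natCast]
  field_simp
  ring

lemma cls_mul (x y : Ob K) : cls (x * y) = cls x * cls y := map_mul (ClassGroup.mk K) _ _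

lemma cls_one : cls (1 : Ob K) = 1 := map_one (ClassGroup.mk K)

lemma cls_inv (x : Ob K) : cls x⁻¹ = (cls x)⁻¹ := map_inv (ClassGroup.mk K) _

lemma cls_div (x y : Ob K) : cls (x / y) = cls x / cls y := map_div (ClassGroup.mk K) _ _

lemma cls_pow (x : Ob K) (n : ℕ) : cls (x ^ n) = cls x ^ n := map_pow (ClassGroup.mk K) _ _

lemma cls_ob (I : (Ideal (𝓞 K))⁰) : cls (ob I) = cl (I : Ideal (𝓞 K)) := by
  rw [cl_coe, cls, ob, ClassGroup.mk_mk0]

lemma small_one {t : ℝ} (ht : 0 ≤ t) : Small t (1 : Ob K) :=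
  ⟨1, by simp, fun w => by simpa using ht⟩

lemma Small.inv {t : ℝ} {x : Ob K} (h : Small t x) : Small t x⁻¹ := by
  obtain ⟨α, h1, h2⟩ := h
  refine ⟨α⁻¹, by rw [map_inv, ← h1]; rfl, fun w => ?_⟩
  rw [Units.val_inv_eq_inv_val, map_inv₀, Real.log_inv, Prod.snd_inv, toAdd_inv, Pi.neg_apply,
    ← neg_add, abs_neg]
  exact h2 w

lemma Small.cls_eq {t : ℝ} {x : Ob K} (h : Small t x) : cls x = 1 := by
  obtain ⟨α, h1, -⟩ := h
  rw [cls, ClassGroup.mk_eq_one_iff, h1, coe_toPrincipalIdeal]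
  exact ⟨⟨α, FractionalIdeal.coe_spanSingleton _ _⟩⟩

lemma emb_apply (u : InfinitePlace K → ℝ) (a : K) (σ : K →+* ℂ) :
    emb u a σ = (Real.exp (u (InfinitePlace.mk σ)) : ℂ) * σ a := rfl

omit [NumberField K] in
lemma mem_lat {a : FractionalIdeal (𝓞 K)⁰ K} {v : K} : v ∈ Stark.lat a ↔ v ∈ a := Iff.rfl

lemma mem_sat {K : Type} [AddCommGroup K] [Module ℚ K] {Λ : Submodule ℤ K} {V : Submodule ℚ K}
    {v : K} : v ∈ sat Λ V ↔ v ∈ Λ ∧ v ∈ V := Iff.rfl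

/-! ### The modulus nine -/

omit [NumberField K] in
lemma m9_ne_bot [CharZero K] : m9 K ≠ ⊥ := by
  rw [m9, Ne, span_singleton_eq_bot]; norm_num

omit [NumberField K] in
lemma cop_m9_iff {p : Ideal (𝓞 K)} (hp : p.IsMaximal) :
    Stark.Cop (m9 K) p ↔ (3 : 𝓞 K) ∉ p ∧ p ≠ ⊥ := by
  refine and_congr_left fun _ => ⟨fun h h3 => hp.ne_top ?_, fun h => ?_⟩
  · rw [← h, left_eq_sup, m9, span_singleton_le_iff_mem, show (9 : 𝓞 K) = 3 * 3 by norm_num]
    exact p.mul_mem_left _ h3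
  · by_contra h1
    have h2 := hp.eq_of_le h1 le_sup_left
    have h3 : (3 : 𝓞 K) * 3 ∈ p := by
      rw [h2, show (3 : 𝓞 K) * 3 = 9 by norm_num]
      exact mem_sup_right (mem_span_singleton_self _)
    exact h ((hp.isPrime.mem_or_mem h3).elim id id)

lemma Cub.div {G : Type} [Group G] {ρ ρ' : G →* ℂˣ} (h : Cub ρ) (h' : Cub ρ') : Cub (ρ / ρ') :=
  fun σ => by rw [MonoidHom.div_apply, div_pow, h σ, h' σ, div_one]

lemma Cub.mul {G : Type} [Group G] {ρ ρ' : G →* ℂˣ} (h : Cub ρ) (h' : Cub ρ') : Cub (ρ * ρ') :=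
  fun σ => by rw [MonoidHom.mul_apply, mul_pow, h σ, h' σ, mul_one]

lemma Cub.pow {G : Type} [Group G] {ρ : G →* ℂˣ} (h : Cub ρ) (n : ℕ) : Cub (ρ ^ n) :=
  fun σ => by rw [MonoidHom.pow_apply, ← pow_mul, mul_comm, pow_mul, h σ, one_pow]

lemma Ray.cub {H : Type} [CommGroup H] {κ : Ideal (𝓞 K) → H} (h : Ray κ) (φ : H →* ℂˣ) : Cub φ :=
  fun a => by rw [← map_pow, h.cube, map_one]

end Pool.Agent.Lib.N4
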