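import Pool.Agent.Lib.N4.Basic

set_option autoImplicit false

open NumberField Ideal Module
open scoped nonZeroDivisors Pointwise

namespace Pool.Agent.Lib.N4

open Pool.Agent.Lib.Stark

/-! ## Part T: lattices and the torsion bound -/

/-- Block GRAM. -/
structure StGram : Prop where
  nonneg : ∀ (E : Type) [NormedAddCommGroup E] [InnerProductSpace ℝ E] (κ : Type) [Fintype κ]
    [DecidableEq κ] (v : κ → E), 0 ≤ gr v
  pos : ∀ (E : Type) [NormedAddCommGroup E] [InnerProductSpace ℝ E] (κ : Type) [Fintype κ]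
    [DecidableEq κ] (v : κ → E), LinearIndependent ℝ v → 0 < gr v
  mul : ∀ (E : Type) [NormedAddCommGroup E] [InnerProductSpace ℝ E] (κ : Type) [Fintype κ]
    [DecidableEq κ] (v : κ → E) (M : Matrix κ κ ℝ),
      gr (fun i => ∑ j, M i j • v j) = M.det ^ 2 * gr v
  reidx : ∀ (E : Type) [NormedAddCommGroup E] [InnerProductSpace ℝ E] (κ κ' : Type) [Fintype κ]
    [DecidableEq κ] [Fintype κ'] [DecidableEq κ'] (v : κ → E) (e : κ' ≃ κ),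
      gr (fun i => v (e i)) = gr v
  contr : ∀ (E E' : Type) [NormedAddCommGroup E] [InnerProductSpace ℝ E] [NormedAddCommGroup E']
    [InnerProductSpace ℝ E'] (κ : Type) [Fintype κ] [DecidableEq κ] (v : κ → E) (w : κ → E')
    (C : ℝ), 0 ≤ C → (∀ c : κ → ℝ, ‖∑ i, c i • w i‖ ≤ C * ‖∑ i, c i • v i‖) →
      gr w ≤ C ^ (2 * Fintype.card κ) * gr v
  kot : ∀ (E : Type) [NormedAddCommGroup E] [InnerProductSpace ℝ E] (κ₀ κ₁ κ₂ : Type)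
    [Fintype κ₀] [DecidableEq κ₀] [Fintype κ₁] [DecidableEq κ₁] [Fintype κ₂] [DecidableEq κ₂]
    (c : κ₀ → E) (a : κ₁ → E) (b : κ₂ → E),
      gr c * gr (Sum.elim c (Sum.elim a b)) ≤ gr (Sum.elim c a) * gr (Sum.elim c b)

/-- Block SHORT: Minkowski. -/
def StShort : Prop :=
  ∀ (E : Type) [NormedAddCommGroup E] [InnerProductSpace ℝ E] (m : ℕ) (v : Fin m → E), 0 < m →
    LinearIndependent ℝ v → ∃ c : Fin m → ℤ, c ≠ 0 ∧
      ‖∑ i, (c i : ℝ) • v i‖ ^ m ≤ (2 * m : ℝ) ^ m * √(gr v)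

/-- Block COV. -/
structure StCov : Prop where
  eq : ∀ (K E : Type) [AddCommGroup K] [Module ℚ K] [NormedAddCommGroup E] [InnerProductSpace ℝ E]
    (ι : K →+ E) (A : Submodule ℤ K) (κ : Type) [Fintype κ] [DecidableEq κ] (v : κ → K),
      IsB A v → cov ι A = √(gr fun i => ι (v i))
  ex : ∀ (K : Type) [AddCommGroup K] [Module ℚ K] (A : Submodule ℤ K), A.FG →
    ∃ v : Fin (finrank ℤ A) → K, IsB A v
  pos : ∀ (K E : Type) [AddCommGroup K] [Module ℚ K] [NormedAddCommGroup E] [InnerProductSpace ℝ E]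
    (ι : K →+ E) (A : Submodule ℤ K), RInj ι → A.FG → 0 < cov ι A
  bot : ∀ (K E : Type) [AddCommGroup K] [Module ℚ K] [NormedAddCommGroup E] [InnerProductSpace ℝ E]
    (ι : K →+ E), cov ι ⊥ = 1
  idx : ∀ (K E : Type) [AddCommGroup K] [Module ℚ K] [NormedAddCommGroup E] [InnerProductSpace ℝ E]
    (ι : K →+ E) (A A' : Submodule ℤ K), A.FG → A' ≤ A → finrank ℤ A' = finrank ℤ A →
      A'.toAddSubgroup.relIndex A.toAddSubgroup ≠ 0 ∧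
      cov ι A' = (A'.toAddSubgroup.relIndex A.toAddSubgroup : ℝ) * cov ι A
  comp : ∀ (K E E' : Type) [AddCommGroup K] [Module ℚ K] [NormedAddCommGroup E]
    [InnerProductSpace ℝ E] [NormedAddCommGroup E'] [InnerProductSpace ℝ E'] (ι : K →+ E)
    (ι' : K →+ E') (T : E →ₗ[ℝ] E') (C : ℝ) (A : Submodule ℤ K), A.FG → 0 ≤ C →
      (∀ a, ι' a = T (ι a)) → (∀ x, ‖T x‖ ≤ C * ‖x‖) → cov ι' A ≤ C ^ finrank ℤ A * cov ι A
  map : ∀ (K E : Type) [AddCommGroup K] [Module ℚ K] [NormedAddCommGroup E] [InnerProductSpace ℝ E]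
    (ι : K →+ E) (e : K ≃+ K) (A A' : Submodule ℤ K), A.FG → (∀ x, x ∈ A ↔ e x ∈ A') →
      cov ι A' = cov (ι.comp (e : K →+ K)) A
  short : ∀ (K E : Type) [AddCommGroup K] [Module ℚ K] [NormedAddCommGroup E]
    [InnerProductSpace ℝ E] (ι : K →+ E) (A : Submodule ℤ K), RInj ι → A.FG → A ≠ ⊥ →
      ∃ v ∈ A, v ≠ 0 ∧ ‖ι v‖ ^ finrank ℤ A ≤ (2 * finrank ℤ A : ℝ) ^ finrank ℤ A * cov ι A
  rank : ∀ (K : Type) [AddCommGroup K] [Module ℚ K] (Λ : Submodule ℤ K) (V : Submodule ℚ K),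
    Full Λ → (sat Λ V).FG ∧ finrank ℤ (sat Λ V) = finrank ℚ V

/-- Block SUB: submodularity. -/
def StSub : Prop :=
  ∀ (K E : Type) [AddCommGroup K] [Module ℚ K] [NormedAddCommGroup E] [InnerProductSpace ℝ E]
    (ι : K →+ E) (Λ : Submodule ℤ K) (V W : Submodule ℚ K), RInj ι → Full Λ →
      cov ι (sat Λ (V ⊓ W)) * cov ι (sat Λ (V ⊔ W)) ≤ cov ι (sat Λ V) * cov ι (sat Λ W)

/-- Block MI: the Margulis inequality. -/
def StMI : Prop :=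
  ∀ (K : Type) [AddCommGroup K] [Module ℚ K] [FiniteDimensional ℚ K] [Nontrivial K]
    (L : Submodule ℚ K → ℝ) (Q : Type) [Fintype Q] (L' : Q → Submodule ℚ K → ℝ)
    (bad : Submodule ℚ K → Q → Prop) (τ s a ω β γ B : ℝ),
    0 < s → 0 < ω → 0 ≤ β → 0 ≤ γ → 0 ≤ B → (finrank ℚ K + 1) * ω ≤ τ →
    L ⊥ = 0 → L ⊤ = finrank ℚ K * a → (∀ V W, L (V ⊓ W) + L (V ⊔ W) ≤ L V + L W) →
    BddBelow (Set.range L) → (∀ q, L' q ⊤ = finrank ℚ K * a) →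
    (∀ q V, L V - finrank ℚ V * β ≤ L' q V) →
    (∀ q V, V ≠ ⊥ → V ≠ ⊤ → ¬bad V q → L V + γ ≤ L' q V) →
    (∀ V, V ≠ ⊥ → L V ≤ finrank ℚ V * a → (Nat.card {q // bad V q} : ℝ) ≤ B) →
    ∑ q, Real.exp (Ph τ s a (L' q)) ≤ Fintype.card Q * Real.exp (finrank ℚ K * τ) +
      (Fintype.card Q * (Real.exp (s * β - ω) + Real.exp (-(s * γ / finrank ℚ K))) +
        finrank ℚ K * B * Real.exp (s * β)) * Real.exp (Ph τ s a L)

/-- Block NET: nets and averaging. -/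
structure StNet : Prop where
  ex : ∀ (X : Type) [CommGroup X] (G : Set X) (R : X → Prop) (M : ℝ), R 1 →
    (∀ x, R x → R x⁻¹) → (∀ S : Finset X, (∀ x ∈ S, x ∈ G) → Sep R S → (S.card : ℝ) ≤ M) →
    ∃ S : Finset X, (∀ x ∈ S, x ∈ G) ∧ Sep R S ∧ ∀ g ∈ G, ∃ x ∈ S, R (g / x)
  avg : ∀ (X : Type) [CommGroup X] (G : Subgroup X) (R : X → Prop) (S : Finset X) (f : X → ℝ)
    (Q : Type) [Fintype Q] [Nonempty Q] (st : Q → X) (C₁ C₂ c b : ℝ),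
    (∀ x ∈ S, x ∈ G) → (∀ g ∈ G, ∃ x ∈ S, R (g / x)) → (∀ q, st q ∈ G) → (∀ x, 0 ≤ f x) →
    0 ≤ C₁ → 0 ≤ C₂ → (∀ x ∈ G, ∀ y ∈ G, R (x / y) → f x ≤ C₁ * f y) →
    (∀ z, (({y | y ∈ S ∧ R (y / z)} : Set X).ncard : ℝ) ≤ C₂) →
    (∀ x ∈ G, ∑ q, f (x * st q) ≤ Fintype.card Q * b + Fintype.card Q * c * f x) →
    C₁ * C₂ * c ≤ 1 / 2 → f 1 ≤ 2 * C₁ ^ 2 * C₂ * b * S.card

/-- Block IDC: counting ideals, divisor bounds. -/
structure StIdc : Prop where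
  dvd : ∀ (n : ℕ) (ε : ℝ), 0 < ε → ∃ C : ℝ, 0 < C ∧ ∀ (K : Type) [Field K] [NumberField K],
    finrank ℚ K ≤ n → ∀ m : ℕ, m ≠ 0 →
      ({I : Ideal (𝓞 K) | absNorm I ∣ m}.ncard : ℝ) ≤ C * (m : ℝ) ^ ε
  le : ∀ (n : ℕ) (ε : ℝ), 0 < ε → ∃ C : ℝ, 0 < C ∧ ∀ (K : Type) [Field K] [NumberField K],
    finrank ℚ K ≤ n → ∀ X : ℝ, 1 ≤ X →
      ({I : Ideal (𝓞 K) | I ≠ ⊥ ∧ (absNorm I : ℝ) ≤ X}.ncard : ℝ) ≤ C * X ^ (1 + ε)
  ovr : ∀ (K : Type) [Field K] [NumberField K] (p : ℕ), p.Prime →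
    {P : Ideal (𝓞 K) | P.IsMaximal ∧ (p : 𝓞 K) ∈ P}.Finite ∧
    {P : Ideal (𝓞 K) | P.IsMaximal ∧ (p : 𝓞 K) ∈ P}.ncard ≤ finrank ℚ K
  ram : ∀ (K : Type) [Field K] [NumberField K] (N : ℤ), N ≠ 0 →
    {P : Ideal (𝓞 K) | P.IsMaximal ∧ (N : 𝓞 K) ∈ P}.Finite ∧
    {P : Ideal (𝓞 K) | P.IsMaximal ∧ (N : 𝓞 K) ∈ P}.ncard ≤ finrank ℚ K * om N.natAbs
  om : ∀ (c : ℕ) (ε : ℝ), 0 < ε → ∃ C : ℝ, 0 < C ∧ ∀ m : ℕ, m ≠ 0 →
    ((c : ℝ) ^ om m ≤ C * (m : ℝ) ^ ε ∧ (m.divisors.card : ℝ) ≤ C * (m : ℝ) ^ ε)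

/-- Block VOL0: volume of the Arakelov class group. -/
def StVol0 : Prop :=
  ∀ (n : ℕ) (ε : ℝ), 0 < ε → ∃ C : ℝ, 0 < C ∧ ∀ (K : Type) [Field K] [NumberField K],
    finrank ℚ K = n → ∀ S : Finset (Ob K), (∀ x ∈ S, deg x = 0) → Sep (Small 1) S →
      (S.card : ℝ) ≤ C * dn K ^ (1 / 2 + ε)

/-- Block VOL: packing, cosets, class number. -/
structure StVol : Prop where
  pack : ∀ (K : Type) [Field K] [NumberField K] (S : Finset (Ob K)) (z : Ob K), Sep (Small 1) S →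
    ({y | y ∈ S ∧ Small 1 (y / z)} : Set (Ob K)).ncard ≤ 2 ^ finrank ℚ K
  coset : ∀ (n : ℕ) (ε : ℝ), 0 < ε → ∃ C : ℝ, 0 < C ∧ ∀ (K : Type) [Field K] [NumberField K],
    finrank ℚ K = n → ∀ (Z : Subgroup (ClassGroup (𝓞 K))) (c : ClassGroup (𝓞 K))
      (S : Finset (Ob K)), (∀ x ∈ S, deg x = 0 ∧ cls x / c ∈ Z) → Sep (Small 1) S →
        (S.card : ℝ) * Z.index ≤ C * dn K ^ (1 / 2 + ε)
  cn : ∀ (n : ℕ) (ε : ℝ), 0 < ε → ∃ C : ℝ, 0 < C ∧ ∀ (K : Type) [Field K] [NumberField K],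
    finrank ℚ K = n → (Nat.card (ClassGroup (𝓞 K)) : ℝ) ≤ C * dn K ^ (1 / 2 + ε)

/-- Block NL1: the weighted embedding. -/
structure StNL1 : Prop where
  rinj : ∀ (K : Type) [Field K] [NumberField K] (u : InfinitePlace K → ℝ), RInj (emb u)
  full : ∀ (K : Type) [Field K] [NumberField K] (a : FractionalIdeal (𝓞 K)⁰ K), a ≠ 0 →
    Full (lat a)
  top : ∀ (K : Type) [Field K] [NumberField K] (x : Ob K),
    lc x ⊤ = deg x + Real.log (dn K) / 2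
  one : ∀ (K : Type) [Field K] [NumberField K],
    lc (1 : Ob K) (Submodule.span ℚ {1}) = Real.log (finrank ℚ K) / 2
  low : ∀ (K : Type) [Field K] [NumberField K] (x : Ob K) (v : K),
    v ∈ (x.1 : FractionalIdeal (𝓞 K)⁰ K) → v ≠ 0 → ∃ J : Ideal (𝓞 K), J ≠ ⊥ ∧
      (J : FractionalIdeal (𝓞 K)⁰ K) * x.1 = FractionalIdeal.spanSingleton (𝓞 K)⁰ v ∧
      absNorm J * Real.exp (deg x) ≤ ‖emb x.2.toAdd v‖ ^ finrank ℚ K

/-- Block NL2: covolume functions of metrized ideals. -/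
structure StNL2 : Prop where
  bot : ∀ (K : Type) [Field K] [NumberField K] (x : Ob K), lc x ⊥ = 0
  sub : ∀ (K : Type) [Field K] [NumberField K] (x : Ob K) (V W : Submodule ℚ K),
    lc x (V ⊓ W) + lc x (V ⊔ W) ≤ lc x V + lc x W
  bdd : ∀ (K : Type) [Field K] [NumberField K] (x : Ob K), deg x = 0 →
    BddBelow (Set.range (lc x))
  quasi : ∀ (K : Type) [Field K] [NumberField K] (x y : Ob K) (t : ℝ), Small t (x / y) →
    ∀ V : Submodule ℚ K, ∃ V' : Submodule ℚ K, finrank ℚ V' = finrank ℚ V ∧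
      lc y V' ≤ lc x V + finrank ℚ V * t
  bad : ∀ (K : Type) [Field K] [NumberField K] (x : Ob K) (V : Submodule ℚ K), deg x = 0 →
    V ≠ ⊥ → lc x V ≤ finrank ℚ V * (Real.log (dn K) / (2 * finrank ℚ K)) →
    ∃ J : Ideal (𝓞 K), J ≠ ⊥ ∧ (absNorm J : ℝ) ≤ (2 * finrank ℚ K : ℝ) ^ finrank ℚ K * √(dn K) ∧
      ∀ q : Ideal (𝓞 K), Bad x V q → q ∣ J

/-- Block NL3: one step of the walk. -/
structure StNL3 : Prop where
  all : ∀ (K : Type) [Field K] [NumberField K] (x : Ob K) (V : Submodule ℚ K)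
    (q : (Ideal (𝓞 K))⁰) (l : ℕ),
      lc x V - finrank ℚ V * (l / finrank ℚ K * Real.log (absNorm (q : Ideal (𝓞 K)))) ≤
        lc (x * ob q ^ l) V
  good : ∀ (K : Type) [Field K] [NumberField K] (x : Ob K) (V : Submodule ℚ K)
    (q : (Ideal (𝓞 K))⁰) (l : ℕ), (absNorm (q : Ideal (𝓞 K))).Prime →
      ¬(q : Ideal (𝓞 K)) ^ 2 ∣ span {(absNorm (q : Ideal (𝓞 K)) : 𝓞 K)} → ¬Bad x V q →
      lc x V + l * Real.log (absNorm (q : Ideal (𝓞 K))) -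
        finrank ℚ V * (l / finrank ℚ K * Real.log (absNorm (q : Ideal (𝓞 K)))) ≤
        lc (x * ob q ^ l) V

/-- Block POOL: a pool of unramified primes of degree one that are not too small. -/
structure StPool : Prop where
  ex : ∀ (n : ℕ) (θ η : ℝ), 0 < θ → 0 < η → ∃ D₀ : ℝ, ∀ (K : Type) [Field K] [NumberField K],
    finrank ℚ K = n → D₀ ≤ dn K → dn K ^ (η * θ) ≤ np K (dn K ^ η) →
      ∃ Q : Finset (Ideal (𝓞 K)), dn K ^ (η * θ) / 2 ≤ Q.card ∧ ∀ q ∈ Q, (absNorm q).Prime ∧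
        dn K ^ (η * θ / 2) ≤ absNorm q ∧ (absNorm q : ℝ) ≤ dn K ^ η ∧
        ¬q ^ 2 ∣ span {(absNorm q : 𝓞 K)}
  cnt : ∀ (K : Type) [Field K] [NumberField K] (J : Ideal (𝓞 K)) (Q : Finset (Ideal (𝓞 K)))
    (z : ℝ), J ≠ ⊥ → 0 ≤ z → (∀ q ∈ Q, (absNorm q).Prime ∧ z ≤ absNorm q ∧ q ∣ J) →
      z ^ Q.card ≤ absNorm J

/-- Block TS: the torsion bound. -/
def StTS : Prop :=
  ∀ (n l : ℕ) (θ ε : ℝ), 1 ≤ l → 0 < θ → 0 < ε → ∃ η₀ : ℝ, 0 < η₀ ∧ ∀ η : ℝ, 0 < η → η ≤ η₀ →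
    ∃ C : ℝ, 0 < C ∧ ∀ (K : Type) [Field K] [NumberField K], finrank ℚ K = n →
      dn K ^ (η * θ) ≤ np K (dn K ^ η) → (tor l K : ℝ) ≤ C * dn K ^ (1 / 2 - θ / (2 * l) + ε)

/-- Block PRI: primes in a progression that do not divide a given integer. -/
def StPri : Prop :=
  ∀ (q : ℕ) (θ A : ℝ), Odd q → θ < 1 → ∃ y₀ : ℝ, ∀ y : ℝ, y₀ ≤ y → ∀ D : ℕ, D ≠ 0 →
    (D : ℝ) ≤ y ^ A → ∃ S : Finset ℕ, y ^ θ ≤ S.card ∧
      ∀ p ∈ S, p.Prime ∧ (p : ℝ) ≤ y ∧ p ≡ 2 [MOD q] ∧ ¬p ∣ D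

/-- Block PURE: primes of degree one in pure fields. -/
def StPure : Prop :=
  ∀ (K : Type) [Field K] [NumberField K] (θ : K) (a : ℚ), Odd (finrank ℚ K) →
    IntermediateField.adjoin ℚ {θ} = ⊤ → θ ^ finrank ℚ K = a → ∀ p : ℕ, p.Prime →
      p ≡ 2 [MOD finrank ℚ K] → ¬p ∣ (discr K).natAbs → ∃ P : Ideal (𝓞 K), absNorm P = p

/-! ## Part Q: quartic fields -/

/-- Block QA1: the cubic resolvent. -/
def StQA1 : Prop :=
  ∀ (K : Type) [Field K] [NumberField K], finrank ℚ K = 4 →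
    (∃ (R : Type) (_ : Field R) (_ : NumberField R) (δ : R), finrank ℚ R = 3 ∧ EncA K R δ) ∨
      ∃ (y : K) (a : ℚ), y ^ 2 = a ∧ ∀ b : ℚ, y ≠ b

/-- Block QB1: a quadratic subfield. -/
def StQB1 : Prop :=
  ∀ (K : Type) [Field K] [NumberField K], finrank ℚ K = 4 → ∀ (y : K) (a : ℚ), y ^ 2 = a →
    (∀ b : ℚ, y ≠ b) →
      ∃ (k : Type) (_ : Field k) (_ : NumberField k) (α : k), finrank ℚ k = 2 ∧ EncB K k α

/-- Block LATD: determinants of ideal lattices, and the ideal generated by a lattice. -/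
structure StLatD : Prop where
  det : ∀ (F : Type) [Field F] [NumberField F] (a : FractionalIdeal (𝓞 F)⁰ F), a ≠ 0 →
    ∀ (κ : Type) [Fintype κ] [DecidableEq κ] (e : κ ≃ (F →+* ℂ)), ∃ b : κ → F,
      IsB (lat a) b ∧ (Matrix.of fun x i => e x (b i)).det ^ 2 =
        ((FractionalIdeal.absNorm a : ℚ) : ℂ) ^ 2 * (discr F : ℂ)
  gen : ∀ (F : Type) [Field F] [NumberField F] (δ : F) (κ : Type) [Fintype κ] (β : κ → F),
    (∃ i, β i ≠ 0) → (∀ i j, IsIntegral ℤ (δ * β i * β j)) →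
      ∃ (a : FractionalIdeal (𝓞 F)⁰ F) (b : Ideal (𝓞 F)), a ≠ 0 ∧ (∀ i, β i ∈ a) ∧
        FractionalIdeal.spanSingleton (𝓞 F)⁰ δ * a ^ 2 = b

/-- Block QA2. -/
def StQA2 : Prop :=
  ∀ (K R : Type) [Field K] [NumberField K] [Field R] [NumberField R] (δ : R), EncA K R δ →
    ∃ m : ℕ, Adm δ m ∧ (discr R).natAbs * m ∣ 256 * (discr K).natAbs

/-- Block QB2. -/
def StQB2 : Prop :=
  ∀ (K k : Type) [Field K] [NumberField K] [Field k] [NumberField k] (α : k), EncB K k α →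
    ∃ m : ℕ, Adm α m ∧ (discr k).natAbs ^ 2 * m ∣ 16 * (discr K).natAbs

/-- Block QI: rigidity and transport. -/
structure StQI : Prop where
  rigA : ∀ (K K' R : Type) [Field K] [NumberField K] [Field K'] [NumberField K'] [Field R]
    [NumberField R] (δ β : R), EncA K R δ → EncA K' R (δ * β ^ 2) → Nonempty (K ≃+* K')
  rigB : ∀ (K K' k : Type) [Field K] [NumberField K] [Field K'] [NumberField K'] [Field k]
    [NumberField k] (α β : k), EncB K k α → EncB K' k (α * β ^ 2) → Nonempty (K ≃+* K')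
  trA : ∀ (K R R' : Type) [Field K] [NumberField K] [Field R] [NumberField R] [Field R']
    [NumberField R'] (δ : R) (e : R ≃+* R'), EncA K R δ → EncA K R' (e δ)
  trB : ∀ (K k k' : Type) [Field K] [NumberField K] [Field k] [NumberField k] [Field k']
    [NumberField k'] (α : k) (e : k ≃+* k'), EncB K k α → EncB K k' (e α)

/-- Block UNI: units modulo powers. -/
def StUni : Prop :=
  ∀ (F : Type) [Field F] [NumberField F] (l : ℕ), 0 < l → ∃ U : Finset (𝓞 F)ˣ,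
    U.card ≤ l ^ finrank ℚ F ∧ ∀ u : (𝓞 F)ˣ, ∃ v ∈ U, ∃ w : (𝓞 F)ˣ, u = v * w ^ l

/-- Block SEL: counting square classes. -/
def StSel : Prop :=
  ∀ (n : ℕ) (ε : ℝ), 0 < ε → ∃ C : ℝ, 0 < C ∧ ∀ (F : Type) [Field F] [NumberField F],
    finrank ℚ F = n → ∀ m : ℕ, m ≠ 0 → ∀ (ι : Type) [Fintype ι] (δ : ι → F), (∀ i, Adm (δ i) m) →
      (∀ i j, i ≠ j → ∀ β, δ j ≠ δ i * β ^ 2) →
        (Fintype.card ι : ℝ) ≤ C * (m : ℝ) ^ ε * tor 2 F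

/-- Block QUAD: quadratic fields. -/
structure StQuad : Prop where
  rank : ∀ (k : Type) [Field k] [NumberField k] (d : ℤ) (s : k), Sq d s → finrank ℚ k ≤ 2
  ex : ∀ d : ℤ, ¬IsSquare d → ∃ (k : Type) (_ : Field k) (_ : NumberField k) (s : k),
    finrank ℚ k = 2 ∧ Sq d s ∧ dn k ≤ 4 * d.natAbs
  iso : ∀ (k k' : Type) [Field k] [NumberField k] [Field k'] [NumberField k'],
    finrank ℚ k = 2 → finrank ℚ k' = 2 → discr k = discr k' → Nonempty (k ≃+* k')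
  rat : tor 3 ℚ = 1

/-! ## Part C: two-torsion of cubic fields, ideals in cosets -/

/-- Block CNT2: points of a rank two lattice. -/
def StCnt2 : Prop :=
  ∀ (V : Type) [AddCommGroup V] [Module ℚ V] (s : V → ℝ) (ω : V → V → ℚ) (F : Finset V)
    (T lam Δ : ℝ), 0 < lam → 0 < Δ → 0 ≤ T → (∀ a b, s (a + b) ≤ s a + s b) →
    (∀ (t : ℚ) a, s (t • a) = |(t : ℝ)| * s a) → (∀ a b c, ω a (b - c) = ω a b - ω a c) →
    (∀ a b, |(ω a b : ℝ)| * Δ ≤ s a * s b) →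
    (∀ a b, ω a b = 0 → s a ≠ 0 → ∃ t : ℚ, s (b - t • a) = 0) → (∀ x ∈ F, s x ≤ T) →
    (∀ x ∈ F, ∀ y ∈ F, x ≠ y → lam ≤ s (x - y)) →
    (∀ x ∈ F, ∀ y ∈ F, ∀ z ∈ F, ∀ w ∈ F, ∃ m : ℤ, ω (x - y) (z - w) = m) →
    (F.card : ℝ) ≤ 32 * T ^ 2 / Δ + 4 * T / lam + 2

/-- Block SQ: square values of a monic cubic. -/
def StSqv : Prop :=
  ∃ C : ℝ, 0 < C ∧ ∀ (a b c : ℤ) (T : ℝ), 1 ≤ T → ∀ S : Finset ℤ,
    (∀ t ∈ S, |(t : ℝ)| ≤ T ∧ ∃ y : ℤ, y ^ 2 = t ^ 3 + a * t ^ 2 + b * t + c ∧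
      (y : ℝ) ^ 2 ≤ T ^ 3) → (S.card : ℝ) ≤ C * T ^ (3 / 4 : ℝ)

/-- Block C2A: small generators of squares of ideals. -/
def StC2a : Prop :=
  ∃ A : ℝ, 1 ≤ A ∧ ∀ (R : Type) [Field R] [NumberField R], finrank ℚ R = 3 →
    ∃ S : Finset (𝓞 R), tor 2 R ≤ 2 * S.card ∧ ∀ δ ∈ S, IsSquare (Algebra.norm ℤ δ) ∧
      ∀ σ : R →+* ℂ, ‖σ δ‖ ≤ A * dn R ^ (1 / 3 : ℝ)

/-- Block C2B: classes of small integers modulo the rational integers. -/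
def StC2b : Prop :=
  ∀ A : ℝ, 1 ≤ A → ∃ C : ℝ, 0 < C ∧ ∀ (R : Type) [Field R] [NumberField R], finrank ℚ R = 3 →
    ∀ S : Finset (𝓞 R), (∀ δ ∈ S, ∀ σ : R →+* ℂ, ‖σ δ‖ ≤ A * dn R ^ (1 / 3 : ℝ)) →
      (∀ δ ∈ S, ∀ δ' ∈ S, δ ≠ δ' → ∀ t : ℤ, δ ≠ δ' + t) →
        (S.card : ℝ) ≤ C * dn R ^ (1 / 6 : ℝ)

/-- Block C2. -/
def StC2 : Prop :=
  ∃ C : ℝ, 0 < C ∧ ∀ (R : Type) [Field R] [NumberField R], finrank ℚ R = 3 →
    (tor 2 R : ℝ) ≤ C * dn R ^ (5 / 12 : ℝ)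

/-- Block PTS: points of a quadratic ideal lattice in a box. -/
def StPts : Prop :=
  ∀ (k : Type) [Field k] [NumberField k], finrank ℚ k = 2 → ∀ (x : Ob k) (T : ℝ), deg x = 0 →
    0 ≤ T → ∀ F : Finset k, (∀ α ∈ F, α ∈ (x.1 : FractionalIdeal (𝓞 k)⁰ k) ∧
      ∀ w : InfinitePlace k, w α * Real.exp (x.2.toAdd w) ≤ T) →
        (F.card : ℝ) ≤ 64 * T ^ 2 / √(dn k) + 4 * T + 2

/-- Block COSET: ideals of a quadratic field in a coset of the class group. -/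
def StCoset : Prop :=
  ∀ ε : ℝ, 0 < ε → ∃ C : ℝ, 0 < C ∧ ∀ (k : Type) [Field k] [NumberField k], finrank ℚ k = 2 →
    ∀ (Z : Subgroup (ClassGroup (𝓞 k))) (c : ClassGroup (𝓞 k)) (Y : ℝ), dn k ≤ Y →
      ∀ S : Finset (Ideal (𝓞 k)), (∀ I ∈ S, I ≠ ⊥ ∧ (absNorm I : ℝ) ≤ Y ∧ cl I / c ∈ Z) →
        (S.card : ℝ) * Z.index ≤ C * dn k ^ ε * Y

/-- Block LS: large sieve on a finite group, and products of primes. -/
structure StLS : Prop where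
  ls : ∀ (H : Type) [CommGroup H] [Finite H] (P : Type) [Fintype P] [Nonempty P] (κ : P → H)
    (a : P → ℂ) (X : Finset (H →* ℂˣ)) (j : ℕ) (M : ℝ), (∀ p, ‖a p‖ ≤ 1) →
    (∀ φ ∈ X, (Fintype.card P : ℝ) / 4 ≤ ‖∑ p, a p * φ (κ p)‖) →
    (∀ h, (Nat.card {t : Fin j → P // ∏ i, κ (t i) = h} : ℝ) ≤ M) →
    (X.card : ℝ) * (Fintype.card P : ℝ) ^ j ≤ 16 ^ j * Nat.card H * M
  re : ∀ (P : Type) [Fintype P] (w : P → ℂˣ), (∀ p, w p ^ 3 = 1) →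
    6 * Nat.card {p // w p = 1} ≤ Fintype.card P →
      (Fintype.card P : ℝ) / 4 ≤ ‖∑ p, (w p : ℂ)‖
  tup : ∀ (k : Type) [Field k] [NumberField k] (P : Type) [Fintype P] (q : P → Ideal (𝓞 k))
    (j : ℕ) (T : (Fin j → P) → Prop) (S : Finset (Ideal (𝓞 k))), (∀ p, (absNorm (q p)).Prime) →
    (Function.Injective fun p => absNorm (q p)) → (∀ t, T t → ∏ i, q (t i) ∈ S) →
      Nat.card {t // T t} ≤ j ^ j * S.card

/-! ## Part A: densities and reciprocity -/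

/-- Block DEN1: density of split primes. -/
def StDen1 : Prop :=
  ∀ (K E : Type) [Field K] [NumberField K] [Field E] [NumberField E] [Algebra K E]
    [IsGalois K E], Dens (Spl (k := K) E) (1 / finrank K E)

/-- Block DEN2: calculus of densities. -/
structure StDen2 : Prop where
  ker : ∀ (K : Type) [Field K] [NumberField K] (m : Ideal (𝓞 K)), m ≠ ⊥ →
    ∀ (B : Type) [CommGroup B] [Finite B] (κ : Ideal (𝓞 K) → B), RayHom m κ →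
      (∀ b, ∃ I, Cop m I ∧ κ I = b) →
        ∃ ρ : ℝ, ρ ≤ 1 / Nat.card B ∧ Dens (fun P => Cop m P ∧ κ P = 1) ρ
  le : ∀ (K : Type) [Field K] [NumberField K] (T T' N : Ideal (𝓞 K) → Prop) (a b : ℝ),
    Dens T a → Dens T' b → Dens N 0 → (∀ P, P.IsMaximal → T P → T' P ∨ N P) →
      a ≤ b ∧ (b ≤ a → Dens (fun P => T' P ∧ ¬T P) 0)
  two : ∀ (K : Type) [Field K] [NumberField K] (T T' N : Ideal (𝓞 K) → Prop) (a b : ℝ),
    Dens T a → Dens T' b → Dens N 0 → a + b < 1 → ∃ P, P.IsMaximal ∧ ¬T P ∧ ¬T' P ∧ ¬N P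
  ex : ∀ (K : Type) [Field K] [NumberField K] (T N : Ideal (𝓞 K) → Prop),
    ¬Dens T 0 → Dens N 0 → ∃ P, P.IsMaximal ∧ T P ∧ ¬N P
  cop : ∀ (K : Type) [Field K] [NumberField K] (m : Ideal (𝓞 K)), m ≠ ⊥ →
    Dens (fun P => ¬Cop m P) 0
  pull : ∀ (K E : Type) [Field K] [NumberField K] [Field E] [NumberField E] [Algebra K E]
    (T : Ideal (𝓞 K) → Prop), Dens T 0 →
      Dens (fun Q : Ideal (𝓞 E) => ¬Big 0 Q ∨ T (Q.under (𝓞 K))) 0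

/-- Block CH: Frobenius elements. -/
structure StCh : Prop where
  dens : ∀ (k Ω : Type) [Field k] [NumberField k] [Field Ω] [NumberField Ω] [Algebra k Ω]
    [IsGalois k Ω] (U : Subgroup (Ω ≃ₐ[k] Ω)), U.Normal → Dens (TU U) (1 / U.index)
  ex : ∀ (k Ω : Type) [Field k] [NumberField k] [Field Ω] [NumberField Ω] [Algebra k Ω]
    [IsGalois k Ω] (p : Ideal (𝓞 k)), p.IsMaximal →
      ∃ (P : Ideal (𝓞 Ω)) (σ : Ω ≃ₐ[k] Ω), Frob p P σ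
  uniq : ∀ (k Ω : Type) [Field k] [NumberField k] [Field Ω] [NumberField Ω] [Algebra k Ω]
    [IsGalois k Ω] (ρ : (Ω ≃ₐ[k] Ω) →* ℂˣ), Unr 3 ρ → ∀ (p : Ideal (𝓞 k)) (P P' : Ideal (𝓞 Ω))
      (σ σ' : Ω ≃ₐ[k] Ω), p.IsMaximal → Cop (m9 k) p → Frob p P σ → Frob p P' σ' → ρ σ = ρ σ'
  idx : ∀ (G : Type) [Group G] (ρ : G →* ℂˣ), Cub ρ → ρ ≠ 1 → ρ.ker.index = 3
  same : ∀ (G : Type) [Group G] (U : Subgroup G) (ρ ρ' : G →* ℂˣ), Cub ρ → Cub ρ' →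
    (∀ g ∈ U, ρ g = 1 ↔ ρ' g = 1) → (∀ g ∈ U, ρ g = ρ' g) ∨ ∀ g ∈ U, ρ g = ρ' g ^ 2
  val : ∀ a b : ℂˣ, a ^ 3 = 1 → b ^ 3 = 1 → b ≠ 1 → a = 1 ∨ a = b ∨ a = b ^ 2
  inj : ∀ (k Ω : Type) [Field k] [NumberField k] [Field Ω] [NumberField Ω] [Algebra k Ω]
    [IsGalois k Ω] (χ ρ : (Ω ≃ₐ[k] Ω) →* ℂˣ), Cub χ → Cub ρ → χ ≠ 1 →
      (∀ (p : Ideal (𝓞 k)) (P : Ideal (𝓞 Ω)) (σ : Ω ≃ₐ[k] Ω), p.IsMaximal → Cop (m9 k) p →
        Frob p P σ → χ σ ≠ 1 → ρ σ = 1) → ρ = 1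

/-- Block RAY. -/
def StRay : Prop :=
  ∀ (k : Type) [Field k] [NumberField k],
    ∃ (H : Type) (_ : CommGroup H) (_ : Finite H) (κ : Ideal (𝓞 k) → H), Ray κ

/-- Block REC1: the first inequality produces a ray class character. -/
def StRec1 : Prop :=
  ∀ (k Ω : Type) [Field k] [NumberField k] [Field Ω] [NumberField Ω] [Algebra k Ω] [IsGalois k Ω]
    (H : Type) [CommGroup H] [Finite H] (κ : Ideal (𝓞 k) → H), Ray κ →
    ∀ ρ : (Ω ≃ₐ[k] Ω) →* ℂˣ, Cub ρ → ρ ≠ 1 → Unr 3 ρ → ∃ φ : H →* ℂˣ, φ ≠ 1 ∧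
      ∀ p : Ideal (𝓞 k), p.IsMaximal → Cop (m9 k) p → TU ρ.ker p → φ (κ p) = 1

/-- Block CYC: the cyclotomic cubic character. -/
def StCyc : Prop :=
  ∀ (k Ω : Type) [Field k] [NumberField k] [Field Ω] [NumberField Ω] [Algebra k Ω] [IsGalois k Ω]
    (H : Type) [CommGroup H] [Finite H] (κ : Ideal (𝓞 k) → H), Ray κ →
    ∀ ζ : Ω, IsPrimitiveRoot ζ 9 → ∃ (χ : (Ω ≃ₐ[k] Ω) →* ℂˣ) (φ : H →* ℂˣ), Cub χ ∧ Unr 3 χ ∧
      Agr κ φ χ (fun _ => True) ∧ (¬3 ∣ finrank ℚ k → χ ≠ 1) ∧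
      ∀ (p : Ideal (𝓞 k)) (P : Ideal (𝓞 Ω)) (σ : Ω ≃ₐ[k] Ω), p.IsMaximal → Frob p P σ →
        absNorm p % 9 = 2 → χ σ ≠ 1

/-- Block RECA: crossing with a reciprocal character. -/
def StRecA : Prop :=
  ∀ (k Ω : Type) [Field k] [NumberField k] [Field Ω] [NumberField Ω] [Algebra k Ω] [IsGalois k Ω]
    (H : Type) [CommGroup H] [Finite H] (κ : Ideal (𝓞 k) → H), Ray κ →
    ∀ (δ χ : (Ω ≃ₐ[k] Ω) →* ℂˣ) (φ₀ φ : H →* ℂˣ), Cub δ → Cub χ → δ ≠ 1 → Unr 3 δ → φ₀ ≠ 1 →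
      (∀ p : Ideal (𝓞 k), p.IsMaximal → Cop (m9 k) p → TU δ.ker p → φ₀ (κ p) = 1) →
      Agr κ φ χ (fun _ => True) →
        Agr κ φ₀ δ (fun σ => δ σ = χ σ) ∨ Agr κ φ₀ (δ ^ 2) fun σ => δ σ = χ σ

/-- Block RECG: reciprocity. -/
def StRec : Prop :=
  ∀ (k Ω : Type) [Field k] [NumberField k] [Field Ω] [NumberField Ω] [Algebra k Ω] [IsGalois k Ω]
    (H : Type) [CommGroup H] [Finite H] (κ : Ideal (𝓞 k) → H), Ray κ →
    ∀ (δ χ : (Ω ≃ₐ[k] Ω) →* ℂˣ) (φ : H →* ℂˣ), Cub δ → Cub χ → Unr 3 δ →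
      Agr κ φ χ (fun _ => True) → ∃ φ' : H →* ℂˣ, Agr κ φ' δ fun σ => χ σ ≠ 1

/-! ## Part V: families of cubic fields -/

/-- Block OMEGA: a common Galois field. -/
def StOmega : Prop :=
  ∀ (k : Type) [Field k] [NumberField k] (ι : Type) [Fintype ι] (R : ι → Type)
    [∀ i, Field (R i)] [∀ i, NumberField (R i)],
    ∃ (Ω : Type) (_ : Field Ω) (_ : NumberField Ω) (_ : Algebra k Ω) (ζ : Ω), IsGalois ℚ Ω ∧
      IsPrimitiveRoot ζ 9 ∧ ∀ i, Nonempty (R i →+* Ω)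

/-- Block V1: the action on the embeddings of a cubic field. -/
def StV1 : Prop :=
  ∀ (k Ω R : Type) [Field k] [NumberField k] [Field Ω] [NumberField Ω] [Algebra k Ω]
    [IsGalois ℚ Ω] [Field R] [NumberField R] (s : k), finrank ℚ R = 3 → Nonempty (R →+* Ω) →
    s ^ 2 = discr R →
      (∃ ψ : (Ω ≃ₐ[k] Ω) →* ℂˣ, Att R ψ) ∧
      (∀ g : Ω ≃ₐ[ℚ] Ω, g (algebraMap k Ω s) ≠ algebraMap k Ω s →
        (∃ e : R →+* Ω, ∀ x, g (e x) = e x) ∧ ∃ (e : R →+* Ω) (x : R), g (e x) ≠ e x) ∧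
      ∀ ψ : (Ω ≃ₐ[k] Ω) →* ℂˣ, Att R ψ → Unr (discr R) ψ

/-- Block V2: the character determines the field; primes of degree one. -/
structure StV2 : Prop where
  iso : ∀ (k Ω R R' : Type) [Field k] [NumberField k] [Field Ω] [NumberField Ω] [Algebra k Ω]
    [IsGalois ℚ Ω] [Field R] [NumberField R] [Field R'] [NumberField R'] (s : k),
    finrank ℚ R = 3 → finrank ℚ R' = 3 → Nonempty (R →+* Ω) → Nonempty (R' →+* Ω) →
    Sq (discr R) s → discr R' = discr R → ∀ ψ : (Ω ≃ₐ[k] Ω) →* ℂˣ, Att R ψ → Att R' ψ →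
      Nonempty (R ≃+* R')
  split : ∀ (k Ω R : Type) [Field k] [NumberField k] [Field Ω] [NumberField Ω] [Algebra k Ω]
    [IsGalois ℚ Ω] [Field R] [NumberField R] (e : R →+* Ω) (p : Ideal (𝓞 k)) (P : Ideal (𝓞 Ω))
    (σ : Ω ≃ₐ[k] Ω), (absNorm p).Prime → Frob p P σ → (∀ x, σ (e x) = e x) →
      ∃ q : Ideal (𝓞 R), absNorm q = absNorm p
  inert : ∀ (k R : Type) [Field k] [NumberField k] [Field R] [NumberField R] (s : k),
    finrank ℚ R = 3 → Sq (discr R) s → ∀ p : ℕ, p.Prime →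
      (∃ q : Ideal (𝓞 k), absNorm q = p) ∨ ∃ q : Ideal (𝓞 R), absNorm q = p

/-- Block TAME: tame inertia is cyclic. -/
def StTame : Prop :=
  ∀ (k Ω : Type) [Field k] [NumberField k] [Field Ω] [NumberField Ω] [Algebra k Ω]
    (P : Ideal (𝓞 Ω)), P.IsMaximal → (3 : 𝓞 Ω) ∉ P → ∃ σ₀ : Ω ≃ₐ[k] Ω,
      ∀ ρ : (Ω ≃ₐ[k] Ω) →* ℂˣ, Cub ρ → ρ σ₀ = 1 → ∀ σ ∈ P.inertia (Ω ≃ₐ[k] Ω), ρ σ = 1

/-- Block V4: classes of characters with the same tame ramification. -/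
def StV4 : Prop :=
  ∀ (k Ω : Type) [Field k] [NumberField k] [Field Ω] [NumberField Ω] [Algebra k Ω] [IsGalois k Ω]
    (N : ℤ), N ≠ 0 → ∃ (T : Type) (_ : Fintype T) (c : ((Ω ≃ₐ[k] Ω) →* ℂˣ) → T),
      Fintype.card T ≤ 3 ^ (finrank ℚ k * om N.natAbs) ∧
      ∀ ψ ψ', Cub ψ → Cub ψ' → Unr N ψ → Unr N ψ' → c ψ = c ψ' → Unr 3 (ψ / ψ')

/-- Block SET: a family of cubic fields as a family of ray class characters. -/
def StSet : Prop :=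
  ∀ (d : ℤ) (k : Type) [Field k] [NumberField k] (s : k), Sq d s →
    ∀ (ι : Type) [Fintype ι] (R : ι → Type) [∀ i, Field (R i)] [∀ i, NumberField (R i)],
    (∀ i, finrank ℚ (R i) = 3) → (∀ i, discr (R i) = d) →
    (∀ i j, i ≠ j → IsEmpty (R i ≃+* R j)) →
    ∃ (H : Type) (_ : CommGroup H) (_ : Finite H) (κ : Ideal (𝓞 k) → H) (T : Type) (_ : Fintype T)
      (c : ι → T) (φ : ι → H →* ℂˣ) (a : T → Ideal (𝓞 k) → ℂˣ), Ray κ ∧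
      Fintype.card T ≤ 9 ^ om d.natAbs ∧ (∀ i j, c i = c j → φ i = φ j → i = j) ∧
      ∀ i (p : Ideal (𝓞 k)), (absNorm p).Prime → absNorm p % 9 = 2 →
        a (c i) p ^ 3 = 1 ∧ (a (c i) p * φ i (κ p) = 1 →
          ∃ q : Ideal (𝓞 (R i)), absNorm q = absNorm p)

/-- Block EXC: few cubic fields have few small primes of degree one. -/
def StExc : Prop :=
  ∀ η θ ε : ℝ, 0 < η → 0 < θ → θ < 1 → 0 < ε → ∃ C : ℝ, 0 < C ∧ ∀ d : ℤ, ¬IsSquare d →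
    ∀ (ι : Type) [Fintype ι] (R : ι → Type) [∀ i, Field (R i)] [∀ i, NumberField (R i)],
    (∀ i, finrank ℚ (R i) = 3) → (∀ i, discr (R i) = d) →
    (∀ i j, i ≠ j → IsEmpty (R i ≃+* R j)) →
    (∀ i, (np (R i) ((d.natAbs : ℝ) ^ η) : ℝ) < (d.natAbs : ℝ) ^ (η * θ)) →
      (Fintype.card ι : ℝ) ≤ C * (d.natAbs : ℝ) ^ ε

/-! ## Part G: three-torsion of a cubic field and of its resolvent -/

/-- Block CLG: functoriality of class groups. -/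
structure StClg : Prop where
  act : ∀ (L : Type) [Field L] [NumberField L] (G : Type) [Group G] [MulSemiringAction G L]
    (g : G), ∃ f : ClassGroup (𝓞 L) →* ClassGroup (𝓞 L), ∀ I : Ideal (𝓞 L), f (cl I) = cl (g • I)
  nm : ∀ (K L : Type) [Field K] [NumberField K] [Field L] [NumberField L] [Algebra K L],
    ∃ f : ClassGroup (𝓞 L) →* ClassGroup (𝓞 K), ∀ I, f (cl I) = cl (relNorm (𝓞 K) I)
  ext : ∀ (K L : Type) [Field K] [NumberField K] [Field L] [NumberField L] [Algebra K L],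
    ∃ f : ClassGroup (𝓞 K) →* ClassGroup (𝓞 L),
      ∀ J, f (cl J) = cl (J.map (algebraMap (𝓞 K) (𝓞 L)))
  prod : ∀ (K L : Type) [Field K] [NumberField K] [Field L] [NumberField L] [Algebra K L]
    [IsGalois K L] (I : Ideal (𝓞 L)),
      (relNorm (𝓞 K) I).map (algebraMap (𝓞 K) (𝓞 L)) = ∏ σ : L ≃ₐ[K] L, σ • I
  idx : ∀ (K L : Type) [Field K] [NumberField K] [Field L] [NumberField L] [Algebra K L]
    [IsGalois K L] (f : ClassGroup (𝓞 L) →* ClassGroup (𝓞 K)),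
      (∀ I, f (cl I) = cl (relNorm (𝓞 K) I)) → f.range.index ≤ finrank K L

/-- Block GALG: the group theory. -/
def StGalg : Prop :=
  ∀ (A B C : Type) [CommGroup A] [CommGroup B] [CommGroup C] [Finite B] [Finite C]
    (τ s : A →* A) (N : A →* B) (n : A →* C) (i : C →* A) (F : Finset B),
    (∀ a, τ (τ (τ a)) = a) → (∀ a, s (τ a) = τ (τ (s a))) → (∀ a, N (τ a) = N a) →
    (∀ a, N a * N (s a) = 1) → (∀ a, i (n a) = a * s a) →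
    (∀ a, τ a = a → ∃ f ∈ F, N a / f ∈ pw 3 B) → gt 3 B ≤ N.range.index * F.card * gt 3 C

/-- Block GAMB: norms of ambiguous classes. -/
def StGamb : Prop :=
  ∀ (k L : Type) [Field k] [NumberField k] [Field L] [NumberField L] [Algebra k L] [IsGalois k L]
    (τ : L ≃ₐ[k] L) (N : ℤ), finrank k L = 3 → τ ≠ 1 → N ≠ 0 →
    (∀ P : Ideal (𝓞 L), P.IsMaximal → (N : 𝓞 L) ∉ P → P.inertia (L ≃ₐ[k] L) = ⊥) →
    ∃ F : Finset (ClassGroup (𝓞 k)), F.card ≤ 3 ^ finrank ℚ k * 3 ^ (finrank ℚ k * om N.natAbs) ∧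
      ∀ I : Ideal (𝓞 L), I ≠ ⊥ → cl (τ • I) = cl I →
        ∃ f ∈ F, cl (relNorm (𝓞 k) I) / f ∈ pw 3 (ClassGroup (𝓞 k))

/-- Block S3EX: the Galois closure. -/
def StS3 : Prop :=
  ∀ (k R : Type) [Field k] [NumberField k] [Field R] [NumberField R] (s₀ : k), finrank ℚ k = 2 →
    finrank ℚ R = 3 → Sq (discr R) s₀ →
    ∃ (L : Type) (_ : Field L) (_ : NumberField L) (_ : Algebra k L) (_ : Algebra R L)
      (τ : L ≃ₐ[k] L) (s : L ≃ₐ[R] L), S3 k R L τ s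

/-- Block GER. -/
def StGer : Prop :=
  ∀ (k R : Type) [Field k] [NumberField k] [Field R] [NumberField R] (s₀ : k), finrank ℚ k = 2 →
    finrank ℚ R = 3 → Sq (discr R) s₀ → tor 3 k ≤ 27 * 9 ^ om (discr R).natAbs * tor 3 R

/-! ## Assembly -/

/-- Block FAM: two-torsion summed over the cubic fields of given discriminant. -/
def StFam : Prop :=
  ∀ ε : ℝ, 0 < ε → ∃ C : ℝ, 0 < C ∧ ∀ (d : ℤ) (ι : Type) [Fintype ι] (R : ι → Type)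
    [∀ i, Field (R i)] [∀ i, NumberField (R i)], (∀ i, finrank ℚ (R i) = 3) →
    (∀ i, discr (R i) = d) → (∀ i j, i ≠ j → IsEmpty (R i ≃+* R j)) →
      ∑ i, (tor 2 (R i) : ℝ) ≤ C * (d.natAbs : ℝ) ^ (5 / 12 + ε)

/-- The goal. -/
def StTop : Prop :=
  ∀ ε : ℝ, 0 < ε → ∃ C : ℝ, ∀ D : ℕ, 1 ≤ D →
    ∀ m : ℕ, ∀ (K : Fin m → Type) [∀ i, Field (K i)] [∀ i, NumberField (K i)],
      (∀ i, finrank ℚ (K i) = 4) → (∀ i, (discr (K i)).natAbs = D) →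
      (∀ i j, i ≠ j → IsEmpty (K i ≃+* K j)) → (m : ℝ) ≤ C * (D : ℝ) ^ (5 / 12 + ε)

end Pool.Agent.Lib.N4
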