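import Pool.Agent.Lib.stark.Defs2

set_option autoImplicit false

open NumberField Ideal Module
open scoped nonZeroDivisors

namespace Pool.Agent.Lib.N4

open Pool.Agent.Lib.Stark

/-! ### Torsion, discriminants, small primes -/

/-- Number of elements killed by `l`. -/
noncomputable def gt (l : ℕ) (A : Type) [CommGroup A] : ℕ := Nat.card {c : A // c ^ l = 1}

/-- Size of the `l`-torsion of the class group. -/
noncomputable def tor (l : ℕ) (K : Type) [Field K] : ℕ := gt l (ClassGroup (𝓞 K))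

/-- Absolute discriminant, as a real number. -/
noncomputable def dn (K : Type) [Field K] [NumberField K] : ℝ := ((discr K).natAbs : ℝ)

/-- Number of ideals of prime norm at most `y`. -/
noncomputable def np (K : Type) [Field K] [NumberField K] (y : ℝ) : ℕ :=
  {P : Ideal (𝓞 K) | (absNorm P).Prime ∧ (absNorm P : ℝ) ≤ y}.ncard

/-- Number of distinct prime factors. -/
def om (m : ℕ) : ℕ := m.primeFactors.card

open scoped Classical in
/-- The class of an ideal. -/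
noncomputable def cl {K : Type} [Field K] [NumberField K] (I : Ideal (𝓞 K)) : ClassGroup (𝓞 K) :=
  if h : I = ⊥ then 1 else ClassGroup.mk0 ⟨I, mem_nonZeroDivisors_of_ne_zero h⟩

/-- The subgroup of `l`-th powers. -/
def pw (l : ℕ) (A : Type) [CommGroup A] : Subgroup A := (powMonoidHom l : A →* A).range

/-! ### Gram determinants and covolumes -/

/-- Gram determinant. -/
noncomputable def gr {E : Type} [NormedAddCommGroup E] [InnerProductSpace ℝ E] {κ : Type}
    [Fintype κ] [DecidableEq κ] (v : κ → E) : ℝ := (Matrix.gram ℝ v).det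

section Cov

variable {K : Type} [AddCommGroup K] {E : Type} [NormedAddCommGroup E] [InnerProductSpace ℝ E]

/-- `v` is a basis of the group `A`. -/
def IsB (A : Submodule ℤ K) {κ : Type} (v : κ → K) : Prop :=
  LinearIndependent ℤ v ∧ Submodule.span ℤ (Set.range v) = A

/-- Covolume of the image of `A` in its real span. -/
noncomputable def cov (ι : K →+ E) (A : Submodule ℤ K) : ℝ :=
  √(gr fun i : Fin (finrank ℤ A) =>
    ι (Classical.epsilon (fun v : Fin (finrank ℤ A) → K => IsB A v) i))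

/-- Independent families stay independent over the reals. -/
def RInj (ι : K →+ E) : Prop :=
  ∀ (κ : Type) [Fintype κ] (v : κ → K), LinearIndependent ℤ v →
    LinearIndependent ℝ fun i => ι (v i)

/-- Finitely generated and of full rank. -/
def Full (Λ : Submodule ℤ K) : Prop := Λ.FG ∧ ∀ x : K, ∃ m : ℤ, 0 < m ∧ m • x ∈ Λ

/-- The points of `Λ` in a rational subspace. -/
def sat [Module ℚ K] (Λ : Submodule ℤ K) (V : Submodule ℚ K) : Submodule ℤ K :=
  Λ ⊓ V.restrictScalars ℤ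

/-- Height of a subspace. -/
noncomputable def Hh [Module ℚ K] (τ s a : ℝ) (L : Submodule ℚ K → ℝ) (V : Submodule ℚ K) : ℝ :=
  finrank ℚ V * τ + s * (a - L V / finrank ℚ V)

/-- The logarithm of the Margulis function. -/
noncomputable def Ph [Module ℚ K] (τ s a : ℝ) (L : Submodule ℚ K → ℝ) : ℝ :=
  sSup (Hh τ s a L '' {V | V ≠ ⊥})

end Cov

/-- Separated finite sets. -/
def Sep {X : Type} [CommGroup X] (R : X → Prop) (S : Finset X) : Prop :=
  ∀ x ∈ S, ∀ y ∈ S, x ≠ y → ¬R (x / y)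

/-! ### Metrized ideals -/

/-- A fractional ideal with logarithmic weights at the infinite places. -/
abbrev Ob (K : Type) [Field K] [NumberField K] : Type :=
  (FractionalIdeal (𝓞 K)⁰ K)ˣ × Multiplicative (InfinitePlace K → ℝ)

section Arakelov

variable {K : Type} [Field K] [NumberField K]

/-- Degree. -/
noncomputable def deg (x : Ob K) : ℝ :=
  Real.log (FractionalIdeal.absNorm (x.1 : FractionalIdeal (𝓞 K)⁰ K) : ℚ) +
    ∑ w : InfinitePlace K, (w.mult : ℝ) * x.2.toAdd w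

/-- Close to a principal object. -/
def Small (t : ℝ) (x : Ob K) : Prop :=
  ∃ α : Kˣ, x.1 = toPrincipalIdeal (𝓞 K) K α ∧
    ∀ w : InfinitePlace K, |Real.log (w (α : K)) + x.2.toAdd w| ≤ t

/-- Ideal class. -/
noncomputable def cls (x : Ob K) : ClassGroup (𝓞 K) := ClassGroup.mk K x.1

/-- The object of degree zero attached to a nonzero ideal. -/
noncomputable def ob (I : (Ideal (𝓞 K))⁰) : Ob K :=
  (FractionalIdeal.mk0 K I,
    Multiplicative.ofAdd fun _ => -(Real.log (absNorm (I : Ideal (𝓞 K))) / finrank ℚ K))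

/-- The weighted Minkowski embedding. -/
noncomputable def emb (u : InfinitePlace K → ℝ) : K →+ EuclideanSpace ℂ (K →+* ℂ) where
  toFun a := WithLp.toLp 2 fun σ => (Real.exp (u (InfinitePlace.mk σ)) : ℂ) * σ a
  map_zero' := by ext σ; simp
  map_add' a b := by ext σ; simp [mul_add]

/-- Logarithmic covolume of the part of the lattice of `x` in the subspace `V`. -/
noncomputable def lc (x : Ob K) (V : Submodule ℚ K) : ℝ :=
  Real.log (cov (emb x.2.toAdd) (sat (lat (x.1 : FractionalIdeal (𝓞 K)⁰ K)) V))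

/-- All lattice points of `x` in `V` are divisible by `q`. -/
def Bad (x : Ob K) (V : Submodule ℚ K) (q : Ideal (𝓞 K)) : Prop :=
  ∀ v ∈ V, v ∈ (x.1 : FractionalIdeal (𝓞 K)⁰ K) →
    v ∈ (x.1 : FractionalIdeal (𝓞 K)⁰ K) * (q : FractionalIdeal (𝓞 K)⁰ K)

/-! ### Quartic fields and square classes -/

/-- `δ` times a square of an ideal is an integral ideal of norm dividing `m`. -/
def Adm (δ : K) (m : ℕ) : Prop :=
  δ ≠ 0 ∧ ∃ (a : FractionalIdeal (𝓞 K)⁰ K) (b : Ideal (𝓞 K)), a ≠ 0 ∧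
    FractionalIdeal.spanSingleton (𝓞 K)⁰ δ * a ^ 2 = b ∧ absNorm b ∣ m

end Arakelov

/-- Sign patterns with product one. -/
def sg : Fin 4 → Fin 3 → ℂ := ![![1, 1, 1], ![1, -1, -1], ![-1, 1, -1], ![-1, -1, 1]]

/-- The quartic field `K` is described by the square class `δ` of the cubic field `R`. -/
def EncA (K R : Type) [Field K] [NumberField K] [Field R] [NumberField R] (δ : R) : Prop :=
  δ ≠ 0 ∧ ∃ (μ : R →ₗ[ℚ] K) (σ : Fin 4 ≃ (K →+* ℂ)) (e : Fin 3 ≃ (R →+* ℂ)) (η : Fin 3 → ℂ),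
    (∀ x, η x ^ 2 = e x δ) ∧ ∀ β i, σ i (μ β) = ∑ x, sg i x * e x β * η x

/-- The quartic field `K` is obtained from the quadratic field `k` by a square root of `α`. -/
def EncB (K k : Type) [Field K] [NumberField K] [Field k] [NumberField k] (α : k) : Prop :=
  α ≠ 0 ∧ ∃ (ν μ : k →ₗ[ℚ] K) (σ : Fin 2 × Fin 2 ≃ (K →+* ℂ)) (e : Fin 2 ≃ (k →+* ℂ))
    (η : Fin 2 → ℂ), (∀ x, η x ^ 2 = e x α) ∧ (∀ β x j, σ (x, j) (ν β) = e x β) ∧
      ∀ β x j, σ (x, j) (μ β) = (-1) ^ (j : ℕ) * e x β * η x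

/-! ### Cubic characters -/

/-- Characters of order dividing three. -/
def Cub {G : Type} [Group G] (ρ : G →* ℂˣ) : Prop := ∀ σ, ρ σ ^ 3 = 1

/-- The modulus nine. -/
def m9 (k : Type) [Field k] : Ideal (𝓞 k) := span {9}

section Galois

variable {k Ω : Type} [Field k] [NumberField k] [Field Ω] [Algebra k Ω]

/-- The character kills the inertia groups of all primes not containing `N`. -/
def Unr (N : ℤ) (ρ : (Ω ≃ₐ[k] Ω) →* ℂˣ) : Prop :=
  ∀ P : Ideal (𝓞 Ω), P.IsMaximal → (N : 𝓞 Ω) ∉ P → ∀ σ ∈ P.inertia (Ω ≃ₐ[k] Ω), ρ σ = 1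

/-- Some Frobenius element above `p` lies in `U`. -/
def TU (U : Subgroup (Ω ≃ₐ[k] Ω)) (p : Ideal (𝓞 k)) : Prop :=
  ∃ (P : Ideal (𝓞 Ω)) (σ : Ω ≃ₐ[k] Ω), Frob p P σ ∧ σ ∈ U

/-- The cubic character `ψ` cuts out the cubic field `R`. -/
def Att (R : Type) [Field R] (ψ : (Ω ≃ₐ[k] Ω) →* ℂˣ) : Prop :=
  Cub ψ ∧ ∀ (e : R →+* Ω) (σ : Ω ≃ₐ[k] Ω), ψ σ = 1 ↔ ∀ x, σ (e x) = e x

/-- The Galois character `ρ` agrees with the ideal character `φ ∘ κ` at all Frobenius elements
of primes prime to `3` that satisfy `T`. -/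
def Agr {H : Type} [CommGroup H] (κ : Ideal (𝓞 k) → H) (φ : H →* ℂˣ) (ρ : (Ω ≃ₐ[k] Ω) →* ℂˣ)
    (T : (Ω ≃ₐ[k] Ω) → Prop) : Prop :=
  ∀ (p : Ideal (𝓞 k)) (P : Ideal (𝓞 Ω)) (σ : Ω ≃ₐ[k] Ω), p.IsMaximal → Cop (m9 k) p →
    Frob p P σ → T σ → φ (κ p) = ρ σ

/-- The ray class group modulo nine, modulo cubes. -/
structure Ray {H : Type} [CommGroup H] (κ : Ideal (𝓞 k) → H) : Prop where
  hom : RayHom (m9 k) κ
  surj : ∀ h, ∃ I, Cop (m9 k) I ∧ κ I = h
  cube : ∀ h : H, h ^ 3 = 1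
  ker : ∀ I J, Cop (m9 k) I → Cop (m9 k) J → κ I = κ J → ∃ (α β : 𝓞 k) (c c' : Ideal (𝓞 k)),
    α ≠ 0 ∧ β ≠ 0 ∧ α - 1 ∈ m9 k ∧ β - 1 ∈ m9 k ∧ Cop (m9 k) c ∧ Cop (m9 k) c' ∧
      span {α} * I * c ^ 3 = span {β} * J * c' ^ 3
  card : Nat.card H ≤ 9 ^ finrank ℚ k * tor 3 k

/-- Some prime above `p` has residue degree one. -/
def Spl (E : Type) [Field E] [NumberField E] [Algebra k E] (p : Ideal (𝓞 k)) : Prop :=
  ∃ Q ∈ p.primesOver (𝓞 E), absNorm Q = absNorm p

/-- `k` is generated by a square root `s` of the integer `d`. -/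
def Sq (d : ℤ) (s : k) : Prop := s ^ 2 = d ∧ ∀ y : k, ∃ a b : ℚ, y = a + b * s

end Galois

/-- A sextic field with group `S₃`, its quadratic subfield and a cubic subfield. -/
structure S3 (k R L : Type) [Field k] [NumberField k] [Field R] [NumberField R] [Field L]
    [NumberField L] [Algebra k L] [Algebra R L] (τ : L ≃ₐ[k] L) (s : L ≃ₐ[R] L) : Prop where
  rk : finrank ℚ k = 2
  rR : finrank ℚ R = 3
  galk : IsGalois k L
  galR : IsGalois R L
  rkL : finrank k L = 3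
  rRL : finrank R L = 2
  τ_ne : τ ≠ 1
  s_ne : s ≠ 1
  rel : ∀ x, s (τ x) = τ (τ (s x))
  unr : ∀ P : Ideal (𝓞 L), P.IsMaximal → ((discr R : ℤ) : 𝓞 L) ∉ P → P.inertia (L ≃ₐ[k] L) = ⊥

end Pool.Agent.Lib.N4
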