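import Pool.Agent.Lib.N4.Blue

set_option autoImplicit false

open Matrix
open scoped MatrixOrder

namespace Pool.Agent.Lib.N4

namespace GRAM

theorem det_le_one {n : Type} [Fintype n] [DecidableEq n] (A : Matrix n n ℝ)
    (hA : A.PosSemidef) (h : ∀ x : n → ℝ, x ⬝ᵥ A *ᵥ x ≤ x ⬝ᵥ x) : A.det ≤ 1 := by
  rw [hA.1.det_eq_prod_eigenvalues]
  refine Finset.prod_le_one (fun i _ => ?_) (fun i _ => ?_)
  · simpa using hA.eigenvalues_nonneg i
  · have h1 := hA.1.eigenvalues_eq i
    have h2 := h (hA.1.eigenvectorBasis i)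
    have h3 : (⇑(hA.1.eigenvectorBasis i) : n → ℝ) ⬝ᵥ ⇑(hA.1.eigenvectorBasis i) = 1 := by
      have h4 := hA.1.eigenvectorBasis.orthonormal.1 i
      have h5 := EuclideanSpace.inner_eq_star_dotProduct (hA.1.eigenvectorBasis i)
        (hA.1.eigenvectorBasis i)
      rw [real_inner_self_eq_norm_sq, h4] at h5
      simpa using h5.symm
    simp only [star_trivial, RCLike.re_to_real] at h1
    simp only [RCLike.ofReal_real_eq_id, id]
    rw [h1]
    exact h2.trans h3.le

theorem det_le_det {n : Type} [Fintype n] [DecidableEq n] (A B : Matrix n n ℝ)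
    (hA : A.PosDef) (hB : B.IsHermitian) (h : ∀ x : n → ℝ, x ⬝ᵥ A *ᵥ x ≤ x ⬝ᵥ B *ᵥ x) :
    A.det ≤ B.det := by
  have hBp : B.PosDef := by
    refine PosDef.of_dotProduct_mulVec_pos hB fun x hx => ?_
    have := hA.dotProduct_mulVec_pos hx
    simp only [star_trivial] at this ⊢
    exact this.trans_le (h x)
  obtain ⟨S, hS⟩ := CStarAlgebra.nonneg_iff_eq_star_mul_self.mp hBp.posSemidef.nonneg
  rw [star_eq_conjTranspose, conjTranspose_eq_transpose_of_trivial] at hS
  have hdet : B.det = S.det ^ 2 := by rw [hS, det_mul, det_transpose, sq]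
  have hS0 : S.det ≠ 0 := by
    intro h0
    have := hBp.det_pos
    rw [hdet, h0] at this
    simp at this
  have hU : IsUnit S.det := isUnit_iff_ne_zero.mpr hS0
  have h1 : ((S⁻¹)ᴴ * A * S⁻¹).det ≤ 1 := by
    refine det_le_one _ (hA.posSemidef.conjTranspose_mul_mul_same _) fun x => ?_
    have e1 : x ⬝ᵥ ((S⁻¹)ᴴ * A * S⁻¹) *ᵥ x = (S⁻¹ *ᵥ x) ⬝ᵥ A *ᵥ (S⁻¹ *ᵥ x) := by
      rw [conjTranspose_eq_transpose_of_trivial, ← mulVec_mulVec, ← mulVec_mulVec,
        dotProduct_mulVec, vecMul_transpose]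
    have e2 : (S⁻¹ *ᵥ x) ⬝ᵥ B *ᵥ (S⁻¹ *ᵥ x) = x ⬝ᵥ x := by
      rw [hS, ← mulVec_mulVec, dotProduct_mulVec, vecMul_transpose, mulVec_mulVec,
        mul_nonsing_inv _ hU, one_mulVec]
    rw [e1, ← e2]
    exact h _
  rw [det_mul, det_mul, conjTranspose_eq_transpose_of_trivial, det_transpose, det_nonsing_inv,
    Ring.inverse_eq_inv'] at h1
  rw [hdet]
  have h2 : 0 < S.det ^ 2 := by positivity
  have h3 : A.det = (S.det⁻¹ * A.det * S.det⁻¹) * S.det ^ 2 := by field_simp
  rw [h3]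
  nlinarith

section

variable {E : Type} [NormedAddCommGroup E] [InnerProductSpace ℝ E]

theorem nonneg {κ : Type} [Fintype κ] [DecidableEq κ] (v : κ → E) : 0 ≤ gr v :=
  (posSemidef_gram ℝ v).det_nonneg

theorem mul {κ : Type} [Fintype κ] [DecidableEq κ] (v : κ → E) (M : Matrix κ κ ℝ) :
    gr (fun i => ∑ j, M i j • v j) = M.det ^ 2 * gr v := by
  have : gram ℝ (fun i => ∑ j, M i j • v j) = M * gram ℝ v * Mᵀ := by
    ext i j
    simp only [gram_apply, mul_apply, transpose_apply, sum_inner, inner_sum, real_inner_smul_left,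
      real_inner_smul_right, Finset.sum_mul]
    refine Finset.sum_congr rfl fun k _ => Finset.sum_congr rfl fun l _ => by ring
  unfold gr
  rw [this, det_mul, det_mul, det_transpose]
  ring

theorem quad {κ : Type} [Fintype κ] (v : κ → E) (x : κ → ℝ) :
    x ⬝ᵥ gram ℝ v *ᵥ x = ‖∑ i, x i • v i‖ ^ 2 := by
  have := star_dotProduct_gram_mulVec (𝕜 := ℝ) v x x
  rw [real_inner_self_eq_norm_sq] at this
  simpa using this

theorem contr {E' : Type} [NormedAddCommGroup E'] [InnerProductSpace ℝ E'] {κ : Type} [Fintype κ]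
    [DecidableEq κ] (v : κ → E) (w : κ → E') (C : ℝ) (hC : 0 ≤ C)
    (h : ∀ c : κ → ℝ, ‖∑ i, c i • w i‖ ≤ C * ‖∑ i, c i • v i‖) :
    gr w ≤ C ^ (2 * Fintype.card κ) * gr v := by
  by_cases hw : LinearIndependent ℝ w
  · have := det_le_det (gram ℝ w) ((C ^ 2) • gram ℝ v) (posDef_gram_of_linearIndependent hw)
      (((posSemidef_gram ℝ v).smul (sq_nonneg C)).1) fun x => by
        rw [smul_mulVec, dotProduct_smul, quad, quad, smul_eq_mul, ← mul_pow]
        exact pow_le_pow_left₀ (norm_nonneg _) (h x) 2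
    rw [det_smul, ← pow_mul] at this
    exact this
  · have : gr w = 0 := by
      by_contra h0
      exact hw (linearIndependent_of_det_gram_ne_zero h0)
    rw [this]
    exact mul_nonneg (pow_nonneg hC _) (nonneg v)

theorem exists_proj {κ : Type} [Fintype κ] (c : κ → E) :
    ∃ Q : E →ₗ[ℝ] E, (∀ x, ‖Q x‖ ≤ ‖x‖) ∧ (∀ x i, inner ℝ (c i) (Q x) = 0) ∧
      ∀ x, ∃ m : κ → ℝ, Q x = x - ∑ i, m i • c i := by
  set W := Submodule.span ℝ (Set.range c) with hW
  have : FiniteDimensional ℝ W := FiniteDimensional.span_of_finite ℝ (Set.finite_range c)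
  have : CompleteSpace W := FiniteDimensional.complete ℝ W
  refine ⟨((Submodule.orthogonal W).starProjection : E →L[ℝ] E), fun x => ?_, fun x i => ?_,
    fun x => ?_⟩
  · exact Submodule.norm_starProjection_apply_le _ _
  · exact Submodule.inner_right_of_mem_orthogonal (K := W)
      (Submodule.subset_span ⟨i, rfl⟩) ((Submodule.orthogonal W).starProjection_apply_mem x)
  · obtain ⟨m, hm⟩ :=
      (Submodule.mem_span_range_iff_exists_fun ℝ).mp (W.starProjection_apply_mem x)
    exact ⟨m, by rw [hm]; exact Submodule.starProjection_orthogonal_val x⟩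

theorem block {κ κ' : Type} [Fintype κ] [DecidableEq κ] [Fintype κ'] [DecidableEq κ']
    (c : κ → E) (Q : E →ₗ[ℝ] E) (hQ : ∀ x i, inner ℝ (c i) (Q x) = 0)
    (hm : ∀ x, ∃ m : κ → ℝ, Q x = x - ∑ i, m i • c i) (b : κ' → E) :
    gr (Sum.elim c b) = gr c * gr fun j => Q (b j) := by
  choose m hm using hm
  have h1 := mul (Sum.elim c b) (fromBlocks 1 0 (of fun j i => -m (b j) i) 1)
  rw [det_fromBlocks_zero₁₂, det_one, det_one] at h1
  have h2 : (fun i => ∑ j, fromBlocks (1 : Matrix κ κ ℝ) (0 : Matrix κ κ' ℝ)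
      (of fun j i => -m (b j) i) (1 : Matrix κ' κ' ℝ) i j • Sum.elim c b j) =
      Sum.elim c fun j => Q (b j) := by
    funext i
    rcases i with i | i
    · simp [Fintype.sum_sum_type, one_apply]
    · simp only [Fintype.sum_sum_type, fromBlocks_apply₂₁, fromBlocks_apply₂₂, of_apply,
        Sum.elim_inl, Sum.elim_inr, one_apply, ite_smul, one_smul, zero_smul,
        Finset.sum_ite_eq, Finset.mem_univ, if_true, neg_smul, Finset.sum_neg_distrib, hm]
      abel
  rw [h2] at h1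
  have h3 : gram ℝ (Sum.elim c fun j => Q (b j)) =
      fromBlocks (gram ℝ c) 0 (of fun j i => inner ℝ (Q (b j)) (c i))
        (gram ℝ fun j => Q (b j)) := by
    ext i j
    rcases i with i | i <;> rcases j with j | j
    · rfl
    · exact hQ _ _
    · rfl
    · rfl
  have h4 : gr (Sum.elim c fun j => Q (b j)) = gr c * gr fun j => Q (b j) := by
    unfold gr
    rw [h3, det_fromBlocks_zero₁₂]
  rw [← h4, h1]
  ring

theorem fischer {κ κ' : Type} [Fintype κ] [DecidableEq κ] [Fintype κ'] [DecidableEq κ']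
    (a : κ → E) (b : κ' → E) : gr (Sum.elim a b) ≤ gr a * gr b := by
  obtain ⟨Q, h1, h2, h3⟩ := exists_proj a
  rw [block a Q h2 h3]
  refine mul_le_mul_of_nonneg_left ?_ (nonneg a)
  have := contr b (fun j => Q (b j)) 1 zero_le_one fun c => by
    have e : ∑ i, c i • Q (b i) = Q (∑ i, c i • b i) := by simp only [map_sum, map_smul]
    rw [one_mul, e]
    exact h1 _
  simpa using this

theorem kot {κ₀ κ₁ κ₂ : Type} [Fintype κ₀] [DecidableEq κ₀] [Fintype κ₁] [DecidableEq κ₁]
    [Fintype κ₂] [DecidableEq κ₂] (c : κ₀ → E) (a : κ₁ → E) (b : κ₂ → E) :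
    gr c * gr (Sum.elim c (Sum.elim a b)) ≤ gr (Sum.elim c a) * gr (Sum.elim c b) := by
  obtain ⟨Q, -, h2, h3⟩ := exists_proj c
  rw [block c Q h2 h3 (Sum.elim a b), block c Q h2 h3 a, block c Q h2 h3 b]
  have e : (fun j => Q (Sum.elim a b j)) = Sum.elim (fun j => Q (a j)) (fun j => Q (b j)) := by
    funext j
    rcases j with j | j <;> rfl
  rw [e]
  have h := fischer (fun j => Q (a j)) (fun j => Q (b j))
  have h0 := mul_nonneg (nonneg c) (nonneg c)
  have := mul_le_mul_of_nonneg_left h h0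
  linarith

end

end GRAM

theorem blk_GRAM : StGram where
  nonneg := fun _ _ _ _ _ _ v => GRAM.nonneg v
  pos := fun _ _ _ _ _ _ _ hv => (posDef_gram_of_linearIndependent hv).det_pos
  mul := fun _ _ _ _ _ _ v M => GRAM.mul v M
  reidx := fun _ _ _ _ _ _ _ _ _ v e => det_submatrix_equiv_self e (gram ℝ v)
  contr := fun _ _ _ _ _ _ _ _ _ v w C hC h => GRAM.contr v w C hC h
  kot := fun _ _ _ _ _ _ _ _ _ _ _ _ c a b => GRAM.kot c a b

end Pool.Agent.Lib.N4
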