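import Pool.Agent.Lib.N4.Blue

set_option autoImplicit false

open NumberField Ideal Module
open scoped nonZeroDivisors

namespace Pool.Agent.Lib.N4

open Pool.Agent.Lib.Stark

namespace PTS

variable {k : Type} [Field k] [NumberField k]

theorem sum_emb (e : Fin 2 ≃ (k →+* ℂ)) (u : InfinitePlace k → ℝ) :
    u (InfinitePlace.mk (e 0)) + u (InfinitePlace.mk (e 1)) =
      ∑ w : InfinitePlace k, (w.mult : ℝ) * u w := by
  classical
  rw [← Fin.sum_univ_two fun i => u (InfinitePlace.mk (e i)),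
    e.sum_comp fun σ => u (InfinitePlace.mk σ),
    ← Finset.sum_fiberwise (s := Finset.univ) (g := fun σ : k →+* ℂ => InfinitePlace.mk σ)]
  refine Finset.sum_congr rfl fun w _ => ?_
  rw [Finset.sum_congr rfl (g := fun _ => u w) fun σ hσ => by rw [(Finset.mem_filter.1 hσ).2],
    Finset.sum_const, InfinitePlace.card_filter_mk_eq, nsmul_eq_mul]

theorem norm_emb (e : Fin 2 ≃ (k →+* ℂ)) (a : k) :
    ‖e 0 a‖ * ‖e 1 a‖ = ((|Algebra.norm ℚ a| : ℚ) : ℝ) := by
  have h := Algebra.norm_eq_prod_embeddings ℚ ℂ a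
  rw [← (e.trans (RingHom.equivRatAlgHom k ℂ)).prod_comp, Fin.prod_univ_two] at h
  have h' : ((Algebra.norm ℚ a : ℚ) : ℂ) = e 0 a * e 1 a := h
  rw [← norm_mul, ← h', Complex.norm_ratCast, Rat.cast_abs]

theorem norm_le (I : (FractionalIdeal (𝓞 k)⁰ k)ˣ) (a : k) (h0 : a ≠ 0)
    (ha : a ∈ (I : FractionalIdeal (𝓞 k)⁰ k)) :
    FractionalIdeal.absNorm (I : FractionalIdeal (𝓞 k)⁰ k) ≤ |Algebra.norm ℚ a| := by
  have h1 : FractionalIdeal.spanSingleton (𝓞 k)⁰ a * (I⁻¹ : (FractionalIdeal (𝓞 k)⁰ k)ˣ) ≤ 1 := by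
    rw [← I.mul_inv]
    exact mul_le_mul_left (FractionalIdeal.spanSingleton_le_iff_mem.2 ha) _
  obtain ⟨J, hJ⟩ := FractionalIdeal.le_one_iff_exists_coeIdeal.1 h1
  have h2 : FractionalIdeal.spanSingleton (𝓞 k)⁰ a = J * I := by
    rw [hJ, mul_assoc, I.inv_mul, mul_one]
  have hJ0 : J ≠ ⊥ := by
    rintro rfl
    rw [FractionalIdeal.coeIdeal_bot, zero_mul, FractionalIdeal.spanSingleton_eq_zero_iff] at h2
    exact h0 h2
  rw [← FractionalIdeal.absNorm_span_singleton (𝓞 k) a, h2, map_mul,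
    FractionalIdeal.coeIdeal_absNorm]
  refine le_mul_of_one_le_left (FractionalIdeal.absNorm_nonneg _) ?_
  exact_mod_cast Nat.one_le_iff_ne_zero.2 fun h => hJ0 (absNorm_eq_zero_iff.1 h)

end PTS

open PTS in
theorem blk_PTS (hC : StCnt2) (hL : StLatD) : StPts := by
  intro k _ _ hk x T hx hT F hF
  let e : Fin 2 ≃ (k →+* ℂ) := (Fintype.equivFinOfCardEq ((Embeddings.card k ℂ).trans hk)).symm
  obtain ⟨b, ⟨hli, hsp⟩, hdet⟩ := hL.det k x.1 x.1.ne_zero (Fin 2) e
  let B : Basis (Fin 2) ℚ k := basisOfLinearIndependentOfCardEqFinrank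
    ((LinearIndependent.iff_fractionRing ℤ ℚ).1 hli) (by simp [hk])
  have hB : ∀ i, B i = b i := fun i => by simp [B]
  set N : ℝ := ((FractionalIdeal.absNorm (x.1 : FractionalIdeal (𝓞 k)⁰ k) : ℚ) : ℝ) with hN
  have hN0 : 0 < N := absNorm_unit_pos x.1
  let E : Fin 2 → ℝ := fun i => Real.exp (x.2.toAdd (InfinitePlace.mk (e i)))
  have hE0 : ∀ i, 0 < E i := fun i => Real.exp_pos _
  have hE : E 0 * E 1 * N = 1 := by
    rw [← Real.exp_add, sum_emb e x.2.toAdd, ← Real.exp_log hN0, ← Real.exp_add, add_comm]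
    rw [deg] at hx
    rw [hx, Real.exp_zero]
  let Φ : k → Fin 2 → ℂ := fun a i => (E i : ℂ) * e i a
  have hΦ : ∀ a i, ‖Φ a i‖ = E i * ‖e i a‖ := fun a i => by
    simp only [Φ, norm_mul, Complex.norm_real, Real.norm_of_nonneg (hE0 i).le]
  have hle : ∀ a i, E i * ‖e i a‖ ≤ ‖Φ a‖ := fun a i => hΦ a i ▸ norm_le_pi_norm (Φ a) i
  have hrep : ∀ a, a = B.repr a 0 • b 0 + B.repr a 1 • b 1 := fun a => by
    conv_lhs => rw [← B.sum_repr a, Fin.sum_univ_two, hB, hB]
  have hD : ‖e 0 (b 0) * e 1 (b 1) - e 0 (b 1) * e 1 (b 0)‖ = N * √(dn k) := by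
    rw [Matrix.det_fin_two] at hdet
    simp only [Matrix.of_apply] at hdet
    have h1 := congrArg norm hdet
    rw [norm_pow, norm_mul, norm_pow, Complex.norm_ratCast, Complex.norm_intCast, ← dn_eq_abs,
      ← hN, abs_of_pos hN0] at h1
    rw [← sq_eq_sq₀ (norm_nonneg _) (by positivity), h1, mul_pow, Real.sq_sqrt dn_pos.le]
  have hs : 0 < √(dn k) := Real.sqrt_pos.2 dn_pos
  have key := hC k (fun a => ‖Φ a‖) (fun a c => B.repr a 0 * B.repr c 1 - B.repr a 1 * B.repr c 0)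
    F T 1 (√(dn k) / 2) one_pos (by positivity) hT ?_ ?_ ?_ ?_ ?_ ?_ ?_ ?_
  · refine key.trans (le_of_eq ?_)
    field_simp
    ring
  · intro a c
    have : Φ (a + c) = Φ a + Φ c := by
      funext i
      simp [Φ, mul_add]
    simp only [this]
    exact norm_add_le _ _
  · intro t a
    have : Φ (t • a) = (t : ℂ) • Φ a := by
      funext i
      simp only [Φ, Rat.smul_def, map_mul, map_ratCast, Pi.smul_apply, smul_eq_mul]
      ring
    simp only [this]
    rw [norm_smul, Complex.norm_ratCast]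
  · intro a c d
    simp only [map_sub, Finsupp.sub_apply]
    ring
  · intro a c
    have h1 : e 0 a * e 1 c - e 0 c * e 1 a =
        ((B.repr a 0 * B.repr c 1 - B.repr a 1 * B.repr c 0 : ℚ) : ℂ) *
          (e 0 (b 0) * e 1 (b 1) - e 0 (b 1) * e 1 (b 0)) := by
      conv_lhs => rw [hrep a, hrep c]
      simp only [Rat.smul_def, map_add, map_mul, map_ratCast]
      push_cast
      ring
    have h2 := congrArg norm h1
    rw [norm_mul, Complex.norm_ratCast, hD] at h2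
    have h3 : ‖e 0 a * e 1 c - e 0 c * e 1 a‖ ≤ ‖e 0 a‖ * ‖e 1 c‖ + ‖e 0 c‖ * ‖e 1 a‖ := by
      rw [← norm_mul, ← norm_mul]
      exact norm_sub_le _ _
    have h4 := mul_le_mul (hle a 0) (hle c 1) (by have := hE0 1; positivity) (norm_nonneg _)
    have h5 := mul_le_mul (hle a 1) (hle c 0) (by have := hE0 0; positivity) (norm_nonneg _)
    have h6 := mul_le_mul_of_nonneg_left h3 (mul_pos (hE0 0) (hE0 1)).le
    rw [h2] at h6
    set m := |((B.repr a 0 * B.repr c 1 - B.repr a 1 * B.repr c 0 : ℚ) : ℝ)|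
    have h7 : E 0 * E 1 * (m * (N * √(dn k))) = m * √(dn k) := by
      linear_combination m * √(dn k) * hE
    rw [h7] at h6
    nlinarith
  · intro a c h0 ha
    have hz : Φ 0 = 0 := by
      funext i
      simp [Φ]
    have ha0 : a ≠ 0 := fun h => ha (by simp only [h, hz, norm_zero])
    have : ∃ t : ℚ, c - t • a = 0 := by
      by_cases h1 : B.repr a 0 = 0
      · have h2 : B.repr a 1 ≠ 0 := fun h2 => ha0 (by rw [hrep a, h1, h2]; simp)
        refine ⟨B.repr c 1 / B.repr a 1, B.repr.injective (Finsupp.ext fun i => ?_)⟩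
        fin_cases i <;> simp <;> field_simp
        · linear_combination -h0 + (B.repr c 1 - B.repr c 1) * h1
        · ring
      · refine ⟨B.repr c 0 / B.repr a 0, B.repr.injective (Finsupp.ext fun i => ?_)⟩
        fin_cases i <;> simp <;> field_simp
        · ring
        · linear_combination h0
    obtain ⟨t, ht⟩ := this
    exact ⟨t, by simp only [ht, hz, norm_zero]⟩
  · intro a ha
    refine (pi_norm_le_iff_of_nonneg hT).2 fun i => ?_
    rw [hΦ, mul_comm]
    exact (hF a ha).2 (InfinitePlace.mk (e i))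
  · intro a ha c hc hne
    have h1 := norm_le x.1 (a - c) (sub_ne_zero.2 hne)
      (Submodule.sub_mem _ (hF a ha).1 (hF c hc).1)
    have h2 : N ≤ ‖e 0 (a - c)‖ * ‖e 1 (a - c)‖ := by
      rw [norm_emb]
      exact Rat.cast_le.2 h1
    have h4 := mul_le_mul (hle (a - c) 0) (hle (a - c) 1) (by have := hE0 1; positivity)
      (norm_nonneg _)
    have h6 := mul_le_mul_of_nonneg_left h2 (mul_pos (hE0 0) (hE0 1)).le
    rw [hE] at h6
    by_contra hlt
    have := norm_nonneg (Φ (a - c))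
    nlinarith
  · have hz : ∀ a ∈ F, ∀ c ∈ F, ∀ i, ∃ m : ℤ, B.repr (a - c) i = m := by
      intro a ha c hc i
      have hm : a - c ∈ Submodule.span ℤ (Set.range b) := by
        rw [hsp]
        exact Submodule.sub_mem _ (hF a ha).1 (hF c hc).1
      obtain ⟨m, hm⟩ := (Submodule.mem_span_range_iff_exists_fun ℤ).1 hm
      refine ⟨m i, ?_⟩
      rw [← hm, Fin.sum_univ_two, ← hB, ← hB]
      fin_cases i <;> simp [← Int.cast_smul_eq_zsmul ℚ]
    intro a ha c hc a' ha' c' hc'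
    obtain ⟨m0, h0⟩ := hz a ha c hc 0
    obtain ⟨m1, h1⟩ := hz a ha c hc 1
    obtain ⟨n0, h2⟩ := hz a' ha' c' hc' 0
    obtain ⟨n1, h3⟩ := hz a' ha' c' hc' 1
    exact ⟨m0 * n1 - m1 * n0, by rw [h0, h1, h2, h3]; push_cast; ring⟩

end Pool.Agent.Lib.N4
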