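import Pool.Agent.Lib.N4.Blue
import Pool.Agent.Lib.stark.G0a

set_option autoImplicit false

open NumberField Ideal Module Polynomial

namespace Pool.Agent.Lib.N4

open Pool.Agent.Lib.Stark

namespace PURE

theorem closure (E : Type) [Field E] [NumberField E] :
    ∃ (W : Type) (_ : Field W) (_ : NumberField W), IsGalois ℚ W ∧ Nonempty (E →ₐ[ℚ] W) := by
  let W := IntermediateField.normalClosure ℚ E (AlgebraicClosure E)
  have : IsAlgClosure ℚ (AlgebraicClosure E) := IsAlgClosure.ofAlgebraic ℚ E _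
  have : Normal ℚ W := normalClosure.normal ℚ E _
  have : FiniteDimensional ℚ W := inferInstance
  have : NumberField W := NumberField.of_module_finite ℚ W
  exact ⟨W, inferInstance, this, IsGalois.mk, ⟨(algebraMap E W).toRatAlgHom⟩⟩

variable {K Ω : Type} [Field K] [NumberField K] [Field Ω] [NumberField Ω]

theorem split (e : K →ₐ[ℚ] Ω) {p : Ideal (𝓞 ℚ)} (hp : p.IsMaximal) {P : Ideal (𝓞 Ω)}
    {σ : Ω ≃ₐ[ℚ] Ω} (h : Frob p P σ) (he : ∀ x, σ (e x) = e x) :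
    ∃ q : Ideal (𝓞 K), absNorm q = absNorm p := by
  let : Algebra K Ω := e.toRingHom.toAlgebra
  have : IsScalarTower ℚ K Ω := IsScalarTower.of_algebraMap_eq fun x => (e.commutes x).symm
  refine ⟨P.under (𝓞 K), G0a.absNorm_eq_of_pow hp (G0a.under_mem h.1) fun x => ?_⟩
  rw [Ideal.mem_comap, map_sub, map_pow]
  have h1 := h.2 (algebraMap (𝓞 K) (𝓞 Ω) x)
  have h2 : σ • algebraMap (𝓞 K) (𝓞 Ω) x = algebraMap (𝓞 K) (𝓞 Ω) x :=
    RingOfIntegers.ext (he x)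
  rwa [h2] at h1

theorem lift {θ : K} {a : ℚ} (h : IntermediateField.adjoin ℚ {θ} = ⊤)
    (ha : θ ^ finrank ℚ K = a) {σ : Ω ≃ₐ[ℚ] Ω} {t : Ω} (ht : t ^ finrank ℚ K = a)
    (hσ : σ t = t) : ∃ e : K →ₐ[ℚ] Ω, ∀ x, σ (e x) = e x := by
  have hi : IsIntegral ℚ θ := Algebra.IsIntegral.isIntegral θ
  have h1 : Algebra.adjoin ℚ {θ} = ⊤ := by
    rw [← IntermediateField.adjoin_simple_toSubalgebra_of_isAlgebraic hi.isAlgebraic, h]; rfl
  let pb := PowerBasis.ofAdjoinEqTop hi h1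
  have hn : finrank ℚ K ≠ 0 := finrank_pos.ne'
  have h2 : minpoly ℚ θ = X ^ finrank ℚ K - C a := by
    refine (eq_of_monic_of_dvd_of_natDegree_le (minpoly.monic hi) (monic_X_pow_sub_C a hn)
      (minpoly.dvd _ _ (by simp [ha])) ?_).symm
    rw [natDegree_X_pow_sub_C, pb.finrank]; rfl
  have h3 : aeval t (minpoly ℚ pb.gen) = 0 := by
    change aeval t (minpoly ℚ θ) = 0
    rw [h2]; simp [ht]
  refine ⟨pb.lift t h3, fun x => ?_⟩
  have h4 : (σ : Ω →ₐ[ℚ] Ω).comp (pb.lift t h3) = pb.lift t h3 :=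
    pb.algHom_ext (by simpa using hσ)
  exact DFunLike.congr_fun h4 x

end PURE

open PURE in
theorem blk_PURE : StPure := by
  intro K _ _ θ a hodd hθ ha p hp hmod _
  obtain ⟨Ω, _, _, _, ⟨e⟩⟩ := closure K
  have hN : absNorm (span {(p : 𝓞 ℚ)}) = p := by
    rw [absNorm_span_natCast, RingOfIntegers.rank, finrank_self, pow_one]
  have hm : (span {(p : 𝓞 ℚ)}).IsMaximal := isMaximal_of_prime (by rwa [hN])
  obtain ⟨⟨P, hP⟩⟩ := (span {(p : 𝓞 ℚ)}).nonempty_primesOver (S := 𝓞 Ω)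
  obtain ⟨σ, hσ⟩ := G0a.exists_frob hm hP
  have ht : e θ ^ finrank ℚ K = a := by rw [← map_pow, ha, map_ratCast]
  suffices h : ∃ t : Ω, t ^ finrank ℚ K = a ∧ σ t = t by
    obtain ⟨t, h1, h2⟩ := h
    obtain ⟨e', he'⟩ := lift hθ ha h1 h2
    exact hN ▸ split e' hm hσ he'
  by_cases h0 : e θ = 0
  · exact ⟨e θ, ht, by rw [h0, map_zero]⟩
  have hs : σ (e θ) ^ finrank ℚ K = a := by rw [← map_pow, ht, map_ratCast]
  have hc : (σ (e θ) / e θ) ^ finrank ℚ K = 1 := by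
    rw [div_pow, hs, ← ht, div_self (pow_ne_zero _ h0)]
  have hcop : (finrank ℚ K).Coprime p := by
    rw [Nat.coprime_comm, Nat.Coprime, hmod.gcd_eq]
    exact Nat.coprime_two_left.2 hodd
  have h1 := G0a.frob_root hσ _ _ hc (by rwa [hN])
  rw [hN, pow_eq_pow_of_modEq hmod hc] at h1
  have h2 : σ (e θ) ≠ 0 := (map_ne_zero σ).2 h0
  refine ⟨e θ / (σ (e θ) / e θ), by rw [div_pow, hc, div_one, ht], ?_⟩
  rw [map_div₀, h1]
  field_simp

end Pool.Agent.Lib.N4
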