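import Pool.Agent.Lib.N4.Blue

set_option autoImplicit false

open NumberField Ideal Module
open scoped nonZeroDivisors

namespace Pool.Agent.Lib.N4

/-- Fields in which all good primes of a progression have a factor of degree one. -/
theorem prog (hT : StTS) (hV : StVol) (hP : StPri) (n l q : ℕ) (ε : ℝ) (hl : 1 ≤ l) (hq : Odd q)
    (hε : 0 < ε) : ∃ C : ℝ, ∀ (K : Type) [Field K] [NumberField K], finrank ℚ K = n →
      (∀ p : ℕ, p.Prime → p ≡ 2 [MOD q] → ¬p ∣ (discr K).natAbs →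
        ∃ P : Ideal (𝓞 K), absNorm P = p) →
      (tor l K : ℝ) ≤ C * dn K ^ (1 / 2 - 1 / (2 * l) + ε) := by
  classical
  have hl1 : (1 : ℝ) ≤ l := Nat.one_le_cast.2 hl
  obtain ⟨g, hg0, hg1, hg2⟩ : ∃ g : ℝ, 0 < g ∧ g ≤ 1 / 2 ∧ g ≤ ε * l :=
    ⟨min (1 / 2) (ε * l), by positivity, min_le_left _ _, min_le_right _ _⟩
  obtain ⟨η, hη, hT⟩ := hT n l (1 - g) (ε / 2) hl (by linarith) (by positivity)
  obtain ⟨CT, hCT, hT⟩ := hT η hη le_rfl
  obtain ⟨y₀, hy⟩ := hP q (1 - g) η⁻¹ hq (by linarith)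
  obtain ⟨Ch, hCh, hh⟩ := hV.cn n ε hε
  obtain ⟨D₁, hD₁⟩ : ∃ D₁ : ℝ, D₁ = max y₀ 1 ^ η⁻¹ := ⟨_, rfl⟩
  have hm : 0 < max y₀ 1 := lt_max_of_lt_right one_pos
  have hD₁0 : 0 < D₁ := hD₁ ▸ Real.rpow_pos_of_pos hm _
  refine ⟨Ch * D₁ ^ (1 / (2 * l) : ℝ) + CT, fun K _ _ hK hp => ?_⟩
  have hD := dn_pos (K := K)
  have hD1 := one_le_dn (K := K)
  rw [add_mul]
  rcases le_or_gt D₁ (dn K) with hbig | hsm
  swap
  · refine le_add_of_le_of_nonneg ?_ (by positivity)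
    refine ((Nat.cast_le.2 gt_le_card).trans (hh K hK)).trans ?_
    rw [mul_assoc, show 1 / 2 + ε = 1 / (2 * l) + (1 / 2 - 1 / (2 * l) + ε) by ring,
      Real.rpow_add hD]
    gcongr
  refine le_add_of_nonneg_of_le (by positivity) ?_
  have h1 : y₀ ≤ dn K ^ η := by
    refine (le_max_left y₀ 1).trans ?_
    rw [← Real.rpow_inv_rpow hm.le hη.ne', ← hD₁]
    gcongr
  obtain ⟨S, hS1, hS2⟩ := hy _ h1 (discr K).natAbs (Int.natAbs_ne_zero.2 (discr_ne_zero K))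
    (by rw [Real.rpow_rpow_inv hD.le hη.ne']; rfl)
  choose! P hP using fun p (h : p ∈ S) => hp p (hS2 p h).1 (hS2 p h).2.2.1 (hS2 p h).2.2.2
  have h2 : S.card ≤ np K (dn K ^ η) := by
    rw [np, ← Set.ncard_coe_finset]
    refine Set.ncard_le_ncard_of_injOn P (fun p h => ?_) (fun a ha b hb e => ?_) (finite_np _)
    · exact ⟨by rw [hP p h]; exact (hS2 p h).1, by rw [hP p h]; exact (hS2 p h).2.1⟩
    · rw [← hP a ha, e, hP b hb]
  refine (hT K hK ?_).trans (mul_le_mul_of_nonneg_left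
    (Real.rpow_le_rpow_of_exponent_le hD1 ?_) hCT.le)
  · rw [Real.rpow_mul hD.le]
    exact hS1.trans (Nat.cast_le.2 h2)
  · have : g / (2 * l) ≤ ε / 2 := by rw [div_le_iff₀ (by positivity)]; linarith
    rw [sub_div]; linarith

end Pool.Agent.Lib.N4
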