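import Pool.Agent.Lib.N4.AllT
import Pool.Agent.Lib.N4.PRI
import Pool.Agent.Lib.N4.PURE
import Pool.Agent.Lib.N4.PureT

set_option autoImplicit false

open NumberField

namespace Pool.Agent.Lib.N4.PureCor

open Pool.Agent.Lib.N4 in
/-- Torsion in class groups of pure fields of odd degree. -/
theorem pure_torsion :
    ∀ (n l : ℕ) (ε : ℝ), Odd n → 1 ≤ l → 0 < ε →
      ∃ C : ℝ, ∀ (K : Type) [Field K] [NumberField K] (t : K) (a : ℚ), Module.finrank ℚ K = n →
        IntermediateField.adjoin ℚ {t} = ⊤ → t ^ n = a →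
        (Nat.card {c : ClassGroup (𝓞 K) // c ^ l = 1} : ℝ) ≤
          C * ((discr K).natAbs : ℝ) ^ (1 / 2 - 1 / (2 * (l : ℝ)) + ε) := by
  intro n l ε hn hl hε
  obtain ⟨C, hC⟩ := prog stTS stVol blk_PRI n l n ε hl hn hε
  refine ⟨C, fun K _ _ t a h1 h2 h3 => hC K h1 ?_⟩
  subst h1
  exact blk_PURE K t a hn h2 h3

end Pool.Agent.Lib.N4.PureCor
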