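import Pool.Agent.Lib.N4.Blue

set_option autoImplicit false

open NumberField Ideal Module

namespace Pool.Agent.Lib.N4

open Pool.Agent.Lib.Stark

namespace SET

theorem cop {k : Type} [Field k] [NumberField k] {p : Ideal (𝓞 k)} (hp : (absNorm p).Prime)
    (h2 : absNorm p % 9 = 2) : Cop (m9 k) p := by
  refine (cop_m9_iff (isMaximal_of_prime hp)).2 ⟨fun h => ?_, ne_bot_of_prime hp⟩
  have h1 := absNorm_dvd_absNorm_of_le ((span_singleton_le_iff_mem p).2 h)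
  have h3 : absNorm (span {(3 : 𝓞 k)}) = 3 ^ finrank ℤ (𝓞 k) := by
    exact_mod_cast absNorm_span_natCast (S := 𝓞 k) 3
  rw [h3] at h1
  have h4 := (Nat.prime_dvd_prime_iff_eq hp Nat.prime_three).1 (hp.dvd_of_dvd_pow h1)
  omega

end SET

theorem blk_SET (hQ : StQuad) (hC : StCh) (hR : StRay) (hY : StCyc) (hE : StRec) (hO : StOmega)
    (h1 : StV1) (h2 : StV2) (h4 : StV4) : StSet := by
  intro d k _ _ s hs ι _ R _ _ hrk hd hne
  obtain ⟨H, iH, fH, κ, hκ⟩ := hR k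
  rcases isEmpty_or_nonempty ι with hι | hι
  · exact ⟨H, iH, fH, κ, Unit, inferInstance, fun _ => (), fun _ => 1, fun _ _ => 1, hκ,
      by simpa using Nat.one_le_pow _ _ (by norm_num), fun i => hι.elim i, fun i => hι.elim i⟩
  have hd0 : d ≠ 0 := by
    obtain ⟨i⟩ := hι
    rw [← hd i]; exact discr_ne_zero _
  obtain ⟨Ω, _, _, _, ζ, hG, hζ, hemb⟩ := hO k ι R
  have hGk : IsGalois k Ω := IsGalois.tower_top_of_isGalois ℚ k Ω
  have hV := fun i => h1 k Ω (R i) s (hrk i) (hemb i) (by rw [hd i]; exact hs.1)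
  choose ψ hψ using fun i => (hV i).1
  have hU : ∀ i, Unr d (ψ i) := fun i => hd i ▸ (hV i).2.2 _ (hψ i)
  obtain ⟨χ, φ₀, hχ3, -, hag, hχ1, hχ2⟩ := hY k Ω H κ hκ ζ hζ
  have hrk2 := hQ.rank k d s hs
  have hχ : χ ≠ 1 := hχ1 fun h => by
    have := Nat.le_of_dvd (finrank_pos (R := ℚ) (M := k)) h
    omega
  obtain ⟨T, fT, c', hT, hc'⟩ := h4 k Ω d hd0
  let c : ι → T := fun i => c' (ψ i)
  let j : T → ι := Function.invFun c
  have hj : ∀ i, c (j (c i)) = c i := fun i => Function.invFun_eq ⟨i, rfl⟩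
  have hδ : ∀ i, Unr 3 (ψ i / ψ (j (c i))) := fun i =>
    hc' _ _ (hψ i).1 (hψ _).1 (hU i) (hU _) (hj i).symm
  choose φ hφ using fun i =>
    hE k Ω H κ hκ (ψ i / ψ (j (c i))) χ φ₀ ((hψ i).1.div (hψ _).1) hχ3 (hδ i) hag
  have hF : ∀ p : Ideal (𝓞 k), ∃ (P : Ideal (𝓞 Ω)) (σ : Ω ≃ₐ[k] Ω), p.IsMaximal → Frob p P σ := by
    intro p
    by_cases hp : p.IsMaximal
    · obtain ⟨P, σ, h⟩ := hC.ex k Ω p hp
      exact ⟨P, σ, fun _ => h⟩
    · exact ⟨⊥, 1, fun h => absurd h hp⟩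
  choose PP σσ hσ using hF
  refine ⟨H, iH, fH, κ, T, fT, c, φ, fun t p => ψ (j t) (σσ p), hκ, hT.trans ?_,
    fun i i' hc hφ' => ?_, fun i p hp h9 => ⟨(hψ _).1 _, fun h => ?_⟩⟩
  · rw [show 9 = 3 ^ 2 by norm_num, ← pow_mul]
    exact Nat.pow_le_pow_right (by norm_num) (Nat.mul_le_mul_right _ hrk2)
  · have e : ψ i / ψ i' = 1 := by
      refine hC.inj k Ω χ _ hχ3 ((hψ i).1.div (hψ i').1) hχ fun p P σ hp hcp hFr hn => ?_
      have a1 := hφ i p P σ hp hcp hFr hn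
      have a2 := hφ i' p P σ hp hcp hFr hn
      rw [hφ', a2, hc, MonoidHom.div_apply, MonoidHom.div_apply, div_left_inj] at a1
      rw [MonoidHom.div_apply, a1, div_self']
    by_contra hii
    refine (hne i i' hii).false (h2.iso k Ω (R i) (R i') s (hrk i) (hrk i') (hemb i) (hemb i')
      (by rw [hd i]; exact hs) (by rw [hd i, hd i']) (ψ i) (hψ i) ?_).some
    have e' : ψ i = ψ i' := MonoidHom.ext fun σ => by
      have := DFunLike.congr_fun e σ
      rwa [MonoidHom.div_apply, MonoidHom.one_apply, div_eq_one] at this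
    rw [e']
    exact hψ i'
  · have hm := isMaximal_of_prime hp
    have a1 := hφ i p _ _ hm (SET.cop hp h9) (hσ p hm) (hχ2 p _ _ hm (hσ p hm) h9)
    rw [a1, MonoidHom.div_apply, mul_div_cancel] at h
    obtain ⟨e⟩ := hemb i
    exact h2.split k Ω (R i) e p _ _ hp (hσ p hm) (((hψ i).2 e _).1 h)

end Pool.Agent.Lib.N4
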